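import Pool.Agent.Lib.MP_db622c_co.P7.Defs

/-!
# P7-AOF: the first blow-up is a one-factorization

PROOF.  `ne`: same layer (`x.1 = y.1`), `x.2.1 ≠ y.2.1`: third component `1`; `x.2.1 = y.2.1` and
different `v`: second component in `F1`, not `0`; same `v`: third component `1`; different
layers: `Cross.ne0`.
`symm`: `IsSL.symm`, `IsRh.symm`, `add_comm`; the condition in the `if` is symmetric; for different
layers exactly one of `x.1, y.1` is `0`.
`inj` (`gA x y = gA x z`, `y, z ≠ x`).  Three kinds in the same layer: (1) `w ≠ 0`: third component
`1`, second `≠ 0`; (2) `w = 0`, `v ≠ v'`: third component `0`; (3) `w = 0`, `v = v'`: the board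
`(0, 0, 1, 0)`; they are pairwise different.  (1)-(1): first component: equal `ω`; `L v v' = L v v''`
gives `v' = v''`, so the same numerator, so the same `w`.  (2)-(2): equal `ω`, and `v' = v''` by
`IsRh.inj`.  (3)-(3): `ω ≠ 0` for both, so equal.  Different layers twice: `Cross.injr` if `x.1 = 0`,
`Cross.injl` otherwise.  Same layer against different layer: (1) and (3) contradict `Cross.kap`,
(2) contradicts `Cross.avr` if `x.1 = 0` and `Cross.avl` otherwise.
(In `ZMod 2`: `a ≠ b` and `a ≠ c` give `b = c`.)
-/

namespace Pool.Agent.Lib.MP_db622c_co.P7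

open Pool.Agent.Lib.MP_db622c_co Pool.Agent.Lib.MP_db622c_co.CB

theorem isOF_gA {F A J : Type*} [Field F] [CharP F 2] [Zero A] [Fintype J] {S : A → J → ℤ}
    {F1 : Finset F} (h0 : (0 : F) ∉ F1) {rh : J → J → F × A} (hrh : IsRh F1 S rh)
    {L : J → J → A} (hL : IsSL L) {φ : F →+ ZMod 2} {b c : F} (hb : b ≠ 0) (hc : c ≠ 0)
    {Φ : J → J → F → ZMod 2 → PA F A} (hΦ : Cross S φ rh Φ) : IsOF (gA S b c rh L Φ) := by
  classical
  have hz2 : ∀ a b c : ZMod 2, a ≠ b → a ≠ c → b = c := by decide
  have hz01 : ∀ a b : ZMod 2, a ≠ b → (a = 0 ∨ b = 0) ∧ ¬ (a = 0 ∧ b = 0) := by decide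
  have h10 : (1 : ZMod 2) ≠ 0 := by decide
  have hwne : ∀ w w' : F, w ≠ w' → w + w' ≠ 0 := fun w w' h h' => h (CharTwo.add_eq_zero.1 h')
  have rhne : ∀ v u, v ≠ u → (rh v u).1 ≠ 0 := fun v u h h' => h0 (h' ▸ hrh.mem v u h)
  refine ⟨?_, ?_, ?_⟩
  · rintro ⟨s, w, ω, v⟩ ⟨s', w', ω', v'⟩ hne heq
    simp only [gA] at heq
    split_ifs at heq with h1 h2 h3 h4 h5
    · exact h10 (congrArg (fun p : PA F A => p.2.2.1) heq)
    · exact rhne _ _ h3 (congrArg (fun p : PA F A => p.2.1) heq)
    · exact h10 (congrArg (fun p : PA F A => p.2.2.1) heq)
    · exact h10 (congrArg (fun p : PA F A => p.2.2.1) heq)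
    · exact hΦ.ne0 _ _ _ _ heq
    · exact hΦ.ne0 _ _ _ _ heq
  · rintro ⟨s, w, ω, v⟩ ⟨s', w', ω', v'⟩
    simp only [gA]
    by_cases h1 : s = s'
    · subst h1
      by_cases h2 : w = w'
      · subst h2
        by_cases h3 : v = v'
        · subst h3; simp
        · have h3' : ¬ v' = v := fun h => h3 h.symm
          simp only [if_true, h3, h3', if_false]
          rw [hrh.symm v v', add_comm ω ω']
      · have h2' : ¬ w' = w := fun h => h2 h.symm
        simp only [if_true, h2, h2', if_false]
        rw [hL.symm v v', add_comm ω ω', add_comm w w']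
        have : (ω = ω' ↔ S (L v' v) v' = S (L v' v) v) ↔
            (ω' = ω ↔ S (L v' v) v = S (L v' v) v') := by
          rw [eq_comm (a := ω), eq_comm (a := S (L v' v) v')]
        simp only [this]
    · have h1' : ¬ s' = s := fun h => h1 h.symm
      simp only [h1, h1', if_false]
      rw [add_comm w w', add_comm ω ω']
      obtain ⟨h5, h6⟩ := hz01 s s' h1
      by_cases hs : s = 0
      · have hs' : ¬ s' = 0 := fun h => h6 ⟨hs, h⟩
        simp only [hs, hs', if_true, if_false]
      · have hs' : s' = 0 := h5.resolve_left hs
        simp only [hs, hs', if_true, if_false]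
  · rintro ⟨s, w, ω, v⟩ ⟨s', w', ω', v'⟩ ⟨s'', w'', ω'', v''⟩ hy hz heq
    -- same layer against different layer
    have key : ∀ (s w ω v s' w' ω' v' s'' w'' ω'' v''), s' = s → s'' ≠ s →
        ((s', w', ω', v') : PA F J) ≠ (s, w, ω, v) →
        gA S b c rh L Φ (s, w, ω, v) (s', w', ω', v') ≠
          gA S b c rh L Φ (s, w, ω, v) (s'', w'', ω'', v'') := by
      intro s w ω v s' w' ω' v' s'' w'' ω'' v'' h1 h2 hy heq
      subst h1
      have h2' : ¬ s' = s'' := fun h => h2 h.symm
      simp only [gA, if_true, h2', if_false] at heq
      -- the cross board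
      have hX : ∃ u1 u2 w1 o1, (if s' = 0 then Φ v v'' (w + w'') (ω + ω'')
          else Φ v'' v (w + w'') (ω + ω'')) = Φ u1 u2 w1 o1 := by
        split_ifs
        · exact ⟨_, _, _, _, rfl⟩
        · exact ⟨_, _, _, _, rfl⟩
      by_cases hw : w = w'
      · by_cases hv : v = v'
        · simp only [hw, hv, if_true] at heq
          obtain ⟨u1, u2, w1, o1, hX⟩ := hX
          rw [hw, hv] at hX
          rw [hX] at heq
          have hk : (Φ u1 u2 w1 o1).2.2.1 = 1 := by rw [← heq]
          exact (hΦ.kap _ _ _ _ hk).2 (by rw [← heq])
        · simp only [hw, hv, if_true, if_false] at heq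
          by_cases hs : s' = 0
          · simp only [hs, if_true] at heq
            refine hΦ.avr v v'' (w' + w'') (ω + ω'') v' (fun h => hv h.symm) ?_ ?_
            · rw [← heq]
            · rw [← heq]
          · simp only [hs, if_false] at heq
            refine hΦ.avl v'' v (w' + w'') (ω + ω'') v' (fun h => hv h.symm) ?_ ?_
            · rw [← heq]
            · rw [← heq]
      · simp only [hw, if_false] at heq
        obtain ⟨u1, u2, w1, o1, hX⟩ := hX
        rw [hX] at heq
        have hk : (Φ u1 u2 w1 o1).2.2.1 = 1 := by rw [← heq]
        have h3 := (hΦ.kap _ _ _ _ hk).1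
        rw [← heq] at h3
        have h4 : w + w' ≠ 0 := hwne _ _ hw
        rcases div_eq_zero_iff.1 h3 with h | h
        · split_ifs at h
          · exact hc h
          · exact hb h
        · exact h4 h
    by_cases h1 : s' = s
    · by_cases h2 : s'' = s
      · subst h1; subst h2
        simp only [gA, if_true] at heq
        by_cases hw : w = w'
        · by_cases hw2 : w = w''
          · by_cases hv : v = v'
            · by_cases hv2 : v = v''
              · have hω : ω' ≠ ω := by
                  rintro rfl; exact hy (by rw [hw, hv])
                have hω2 : ω'' ≠ ω := by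
                  rintro rfl; exact hz (by rw [hw2, hv2])
                have := hz2 ω ω' ω'' (Ne.symm hω) (Ne.symm hω2)
                rw [this, ← hw, ← hw2, ← hv, ← hv2]
              · exfalso
                simp only [hw.symm, hw2.symm, hv.symm, hv2, if_true, if_false] at heq
                exact h10 (congrArg (fun p : PA F A => p.2.2.1) heq)
            · by_cases hv2 : v = v''
              · exfalso
                simp only [hw.symm, hw2.symm, hv2.symm, hv, if_true, if_false] at heq
                exact h10 (congrArg (fun p : PA F A => p.2.2.1) heq).symm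
              · simp only [hw.symm, hw2.symm, hv, hv2, if_true, if_false] at heq
                have e1 : ω + ω' = ω + ω'' := congrArg (fun p : PA F A => p.1) heq
                have e2 : (rh v v').1 = (rh v v'').1 := congrArg (fun p : PA F A => p.2.1) heq
                have e3 : (rh v v').2 = (rh v v'').2 := congrArg (fun p : PA F A => p.2.2.2) heq
                have e4 := hrh.inj v v' v'' (fun h => hv h.symm) (fun h => hv2 h.symm)
                  (Prod.ext e2 e3)
                rw [add_left_cancel e1, e4, ← hw, ← hw2]
          · exfalso
            by_cases hv : v = v'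
            · simp only [hw.symm, hw2, hv.symm, if_true, if_false] at heq
              have e2 := congrArg (fun p : PA F A => p.2.1) heq
              simp only at e2
              rcases div_eq_zero_iff.1 e2.symm with h | h
              · split_ifs at h
                · exact hc h
                · exact hb h
              · exact hwne _ _ hw2 h
            · simp only [hw.symm, hw2, hv, if_true, if_false] at heq
              exact h10 (congrArg (fun p : PA F A => p.2.2.1) heq).symm
        · by_cases hw2 : w = w''
          · exfalso
            by_cases hv : v = v''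
            · simp only [hw2.symm, hw, hv.symm, if_true, if_false] at heq
              have e2 := congrArg (fun p : PA F A => p.2.1) heq
              simp only at e2
              rcases div_eq_zero_iff.1 e2 with h | h
              · split_ifs at h
                · exact hc h
                · exact hb h
              · exact hwne _ _ hw h
            · simp only [hw2.symm, hw, hv, if_true, if_false] at heq
              exact h10 (congrArg (fun p : PA F A => p.2.2.1) heq)
          · simp only [hw, hw2, if_false] at heq
            have e1 : ω + ω' = ω + ω'' := congrArg (fun p : PA F A => p.1) heq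
            have e3 : L v v' = L v v'' := congrArg (fun p : PA F A => p.2.2.2) heq
            have e4 := hL.inj _ _ _ e3
            have e5 := add_left_cancel e1
            subst e4; subst e5
            have e2 := congrArg (fun p : PA F A => p.2.1) heq
            simp only at e2
            have h4 : w + w' ≠ 0 := hwne _ _ hw
            have h5 : w + w'' ≠ 0 := hwne _ _ hw2
            have hn : (if (ω = ω' ↔ S (L v v') v' = S (L v v') v) then c else b) ≠ 0 := by
              split_ifs
              · exact hc
              · exact hb
            rw [div_eq_div_iff h4 h5] at e2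
            have e6 := mul_left_cancel₀ hn e2
            rw [add_left_cancel e6]
      · exact absurd heq (key _ _ _ _ _ _ _ _ _ _ _ _ h1 h2 hy)
    · by_cases h2 : s'' = s
      · exact absurd heq.symm (key _ _ _ _ _ _ _ _ _ _ _ _ h2 h1 hz)
      · have hss : s' = s'' := hz2 s s' s'' (fun h => h1 h.symm) (fun h => h2 h.symm)
        subst hss
        have h1' : ¬ s = s' := fun h => h1 h.symm
        simp only [gA, h1', if_false] at heq
        by_cases hs : s = 0
        · simp only [hs, if_true] at heq
          obtain ⟨e1, e2, e3⟩ := hΦ.injr _ _ _ _ _ _ _ heq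
          rw [e1, add_left_cancel e2, add_left_cancel e3]
        · simp only [hs, if_false] at heq
          obtain ⟨e1, e2, e3⟩ := hΦ.injl _ _ _ _ _ _ _ heq
          rw [e1, add_left_cancel e2, add_left_cancel e3]

end Pool.Agent.Lib.MP_db622c_co.P7
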