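import Pool.Agent.Lib.MP_db622c_co.P7.Defs

/-!
# P7-ASp: the first blow-up is sign compatible

PROOF.  `SA φ S (k1, (k, (κ, a))) (x1, (x, (ξ, v))) = sg (k1 x1) sg (φ (k x)) sg (κ ξ) S a v`, so
with `w = x + y`, `ω = ξ + η`, `c1 = x1 + y1` the claim for the board `(k1, k, κ, a)` is
`sg (k1 c1) * sg (φ (k w)) * sg (κ ω) * S a v' = - S a v` (use `tens_split` of `CB.Tens` three
times, or directly `sg_add`, `map_add`).
Same layer (`c1 = 0`), `w ≠ 0`: `κ = 1`, `k w` is the numerator `b` or `c`; it is `c` iff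
(`ω = 0` iff `S a v' = S a v`).  `sg (φ c) = -1`, `sg (φ b) = 1`; `sg ω = 1` iff `ω = 0`.  Four
cases.  `w = 0`, `v ≠ v'`: `κ = 0`, `IsRh.sep`.  `w = 0`, `v = v'`: the board `(0, 0, 1, 0)` and
`ω ≠ 0` (as `x ≠ y`), so `sg ω = -1`, `S 0 v = 1`.  Different layers: `c1 = 1`; if `x.1 = 0` this is
`Cross.split`; if `x.1 = 1` it is `Cross.split` with `v, v'` exchanged (multiply by the sign
`sg (..)`, whose square is `1`).
-/

namespace Pool.Agent.Lib.MP_db622c_co.P7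

open Pool.Agent.Lib.MP_db622c_co Pool.Agent.Lib.MP_db622c_co.CB

theorem z2_ne : ∀ a b : ZMod 2, a ≠ b → a + b = 1 := by decide

theorem z2_self : ∀ a : ZMod 2, a + a = 0 := by decide

theorem z2_ne0 : ∀ a b : ZMod 2, a ≠ b → a ≠ 0 → b = 0 := by decide

theorem z2_aas : ∀ a b : ZMod 2, a + (a + b) = b := by decide

theorem sg_sq (a : ZMod 2) : sg a * sg a = 1 := by
  rcases sg_cases a with h | h <;> rw [h] <;> norm_num

theorem sa_key {F A J : Type*} [Field F] [CharP F 2] {S : A → J → ℤ} {φ : F →+ ZMod 2}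
    {k1 κ : ZMod 2} {k : F} {a : A} {x y : PA F J}
    (h : sg (k1 * (x.1 + y.1) + φ (k * (x.2.1 + y.2.1)) + κ * (x.2.2.1 + y.2.2.1)) *
      S a y.2.2.2 = - S a x.2.2.2) :
    SA φ S (k1, (k, (κ, a))) y = - SA φ S (k1, (k, (κ, a))) x := by
  have e1 : sg (k1 * y.1) = sg (k1 * x.1) * sg (k1 * (x.1 + y.1)) := by
    rw [← sg_add, ← mul_add, z2_aas]
  have e2 : sg (φ (k * y.2.1)) = sg (φ (k * x.2.1)) * sg (φ (k * (x.2.1 + y.2.1))) := by
    rw [← sg_add, ← map_add, ← mul_add, CB.add_add_self]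
  have e3 : sg (κ * y.2.2.1) = sg (κ * x.2.2.1) * sg (κ * (x.2.2.1 + y.2.2.1)) := by
    rw [← sg_add, ← mul_add, z2_aas]
  rw [sg_add, sg_add] at h
  show sg (k1 * y.1) * (sg (φ (k * y.2.1)) * (sg (κ * y.2.2.1) * S a y.2.2.2)) =
    -(sg (k1 * x.1) * (sg (φ (k * x.2.1)) * (sg (κ * x.2.2.1) * S a x.2.2.2)))
  rw [e1, e2, e3]
  linear_combination (sg (k1 * x.1) * sg (φ (k * x.2.1)) * sg (κ * x.2.2.1)) * h

theorem isSplit_gA {F A J : Type*} [Field F] [CharP F 2] [Zero A] [Fintype J] {S : A → J → ℤ}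
    (hS : IsH S) {F1 : Finset F} {rh : J → J → F × A} (hrh : IsRh F1 S rh)
    {L : J → J → A} {φ : F →+ ZMod 2} {b c : F} (hb : φ b = 0) (hc : φ c = 1)
    {Φ : J → J → F → ZMod 2 → PA F A} (hΦ : Cross S φ rh Φ) :
    IsSplit (SA φ S) (gA S b c rh L Φ) := by
  classical
  intro x y hxy
  unfold gA
  by_cases h1 : x.1 = y.1
  · rw [if_pos h1]
    have h10 : x.1 + y.1 = 0 := by rw [h1]; exact z2_self _
    by_cases h2 : x.2.1 = y.2.1
    · rw [if_pos h2]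
      by_cases h3 : x.2.2.2 = y.2.2.2
      · rw [if_pos h3]
        refine sa_key ?_
        have h4 : x.2.2.1 ≠ y.2.2.1 := fun h => hxy (Prod.ext h1 (Prod.ext h2 (Prod.ext h h3)))
        rw [z2_ne _ _ h4, zero_mul, zero_mul, map_zero, hS.one, hS.one]
        decide
      · rw [if_neg h3]
        refine sa_key ?_
        have h20 : x.2.1 + y.2.1 = 0 := by rw [h2]; exact CharTwo.add_self_eq_zero _
        rw [h10, h20, mul_zero, mul_zero, map_zero, zero_mul, hrh.sep _ _ h3]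
        simp [sg]
    · rw [if_neg h2]
      refine sa_key ?_
      have h20 : x.2.1 + y.2.1 ≠ 0 := fun h => h2 (eq_of_add_eq_zero h)
      rw [h10, mul_zero, div_mul_cancel₀ _ h20, zero_add, one_mul]
      have s1 := hS.sign (L x.2.2.2 y.2.2.2) y.2.2.2
      have s2 := hS.sign (L x.2.2.2 y.2.2.2) x.2.2.2
      by_cases h4 : x.2.2.1 = y.2.2.1
      · have h40 : x.2.2.1 + y.2.2.1 = 0 := by rw [h4]; exact z2_self _
        rw [h40, add_zero]
        by_cases h5 : S (L x.2.2.2 y.2.2.2) y.2.2.2 = S (L x.2.2.2 y.2.2.2) x.2.2.2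
        · rw [if_pos ⟨fun _ => h5, fun _ => h4⟩, hc, h5]
          simp [sg]
        · rw [if_neg fun h => h5 (h.1 h4), hb]
          rcases s1 with s1 | s1 <;> rcases s2 with s2 | s2 <;> rw [s1, s2] at h5 ⊢ <;>
            simp [sg] at h5 ⊢
      · have h40 : x.2.2.1 + y.2.2.1 = 1 := z2_ne _ _ h4
        rw [h40]
        by_cases h5 : S (L x.2.2.2 y.2.2.2) y.2.2.2 = S (L x.2.2.2 y.2.2.2) x.2.2.2
        · rw [if_neg fun h => h4 (h.2 h5), hb, h5]
          simp [sg]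
        · rw [if_pos ⟨fun h => absurd h h4, fun h => absurd h h5⟩, hc]
          have h6 : (1 : ZMod 2) + 1 = 0 := by decide
          rw [h6]
          rcases s1 with s1 | s1 <;> rcases s2 with s2 | s2 <;> rw [s1, s2] at h5 ⊢ <;>
            simp [sg] at h5 ⊢
  · rw [if_neg h1]
    have h10 : x.1 + y.1 = 1 := z2_ne _ _ h1
    by_cases h2 : x.1 = 0
    · rw [if_pos h2]
      have h3 := hΦ.split x.2.2.2 y.2.2.2 (x.2.1 + y.2.1) (x.2.2.1 + y.2.2.1)
      refine sa_key ?_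
      rw [h10, mul_one]
      exact h3
    · rw [if_neg h2]
      have h3 := hΦ.split y.2.2.2 x.2.2.2 (x.2.1 + y.2.1) (x.2.2.1 + y.2.2.1)
      refine sa_key ?_
      rw [h10, mul_one]
      set t := sg ((Φ y.2.2.2 x.2.2.2 (x.2.1 + y.2.1) (x.2.2.1 + y.2.2.1)).1 +
        φ ((Φ y.2.2.2 x.2.2.2 (x.2.1 + y.2.1) (x.2.2.1 + y.2.2.1)).2.1 * (x.2.1 + y.2.1)) +
        (Φ y.2.2.2 x.2.2.2 (x.2.1 + y.2.1) (x.2.2.1 + y.2.2.1)).2.2.1 *
          (x.2.2.1 + y.2.2.1)) with ht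
      have h4 : t * t = 1 := sg_sq _
      linear_combination t * h3 - (S (Φ y.2.2.2 x.2.2.2 (x.2.1 + y.2.1)
        (x.2.2.1 + y.2.2.1)).2.2.2 x.2.2.2) * h4

end Pool.Agent.Lib.MP_db622c_co.P7
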