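import Pool.Agent.Lib.MP_db622c_co.P7.Lab

/-!
# P7-Crs: the cross part from the family of permutations

PROOF.  For `τ = (q, a) : Option F × A` define `lam τ : F × ZMod 2 → ZMod 2` by
`lam (none, a) (w, ω) = ω`, `lam (some k, a) (w, ω) =` `ω` if `k = 0 ∧ a = 0`, `φ (kk * w)` if
`k = 0 ∧ a ≠ 0`, `φ (k * w)` if `k ≠ 0`.  Each value is taken exactly `card F` times
(`φ (k * ·)`, `k ≠ 0`, is additive and takes the value `1` at `c / k`, so both values are taken
equally often: translate by `c / k`).
Boards: for `v, v'`, `e : ZMod 2` let `s = 0` if `S a v' = S a v` and `s = 1` otherwise, and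
 `bo (none, a) = (1 + e + s, 0, 1, a)`,
 `bo (some 0, a) = (0, kk, 0, a)` if `e = 0`, `(0, 0, 0, a)` if `e = 1` (for `a ≠ 0`),
 `bo (some 0, 0) = (1, 0, 1, 0)` if `e = 0`, `(1, 0, 0, 0)` if `e = 1`,
 `bo (some kk, a) = (1, kk, 0, a)` if `e = 0`, `(1, 0, 0, a)` if `e = 1` (for `a ≠ 0`),
 `bo (some k, a) = (1 + e + s, k, 0, a)` in all other cases (`k ≠ 0`, and `k ≠ kk` or `a = 0`)
(quadruples `(k1, (k, (κ, a)))`).  For `τ ≠ (none, 0)` the board determines `τ` (the sets of the two
boards of different `τ` are disjoint, whatever `s`), and for given `τ, v, v'` also `e`.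
For `v, v'` let `T v v' = {τ ≠ (none, 0) | π τ v = v', ¬ (v ≠ v' ∧ τ = (some (rh v v').1,
(rh v v').2))}`: by `p4` (and `p3`: for `v ≠ v'` the removed `τ` is in the set) it has exactly
`card F` elements.  `exists_lab` with `G = F × ZMod 2` gives `f : F × ZMod 2 → T v v'` with
`x ↦ (f x, lam (f x) x)` injective.  `Φ v v' w ω = bo τ` with `τ = f (w, ω)`, `e = lam τ (w, ω)`.
`split`: `k1 + φ (k w) + κ ω + s = 1` in every case (`(some 0, a)`, `a ≠ 0`: `s = 1` by `p1`;
`(some kk, a)`, `a ≠ 0`: `s = 0` by `p2`; `a = 0`: `s = 0` by `IsH.one`), and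
`sg x * S a v' = - S a v` means `x + s = 1`.
`injr`: equal boards give equal `τ`, so `v' = π τ v = v''`, then equal `e` (same `s`), so equal
labels by the injectivity.  `injl`: equal `τ`, `π τ v' = v = π τ v''`, so `v' = v''`.
`kap`: the boards with `κ = 1` are `(*, 0, 1, a)`, `a ≠ 0`, and `(1, 0, 1, 0)`.  `ne0`: clear.
`avr`: if `κ = 0` and `(k, a) = rh v u`, `u ≠ v`, then `k ∈ F1`, so `k ≠ 0, kk` and
`τ = (some k, a)`; by `p3` `v' = π τ v = u`, so `τ = (some (rh v v').1, _)`, `v ≠ v'`, excluded
in `T v v'`.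
`avl`: if `(k, a) = rh v' u`, `u ≠ v'`: `π τ u = v'` (`p3` and symmetry) `= π τ v`, so `u = v`,
`rh v' u = rh v v'`, excluded.
-/

namespace Pool.Agent.Lib.MP_db622c_co.P7

open Pool.Agent.Lib.MP_db622c_co Pool.Agent.Lib.MP_db622c_co.CB

section

variable {F A : Type*} [Field F] [Zero A]

open Classical in
/-- the label of `x` at `τ` -/
noncomputable def cLam (kk : F) (φ : F →+ ZMod 2) (τ : Option F × A) (x : F × ZMod 2) : ZMod 2 :=
  match τ.1 with
  | none => x.2
  | some k => if k = 0 then (if τ.2 = 0 then x.2 else φ (kk * x.1)) else φ (k * x.1)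

open Classical in
/-- the board of `τ`, label `e`, sign change `s` -/
noncomputable def cBo (kk : F) (τ : Option F × A) (e s : ZMod 2) : PA F A :=
  match τ.1 with
  | none => (1 + e + s, (0, (1, τ.2)))
  | some k => if k = 0 then
      (if τ.2 = 0 then (1, (0, (if e = 0 then 1 else 0, 0)))
       else (0, (if e = 0 then kk else 0, (0, τ.2))))
      else if k = kk ∧ τ.2 ≠ 0 then (1, (if e = 0 then kk else 0, (0, τ.2)))
      else (1 + e + s, (k, (0, τ.2)))

open Classical in
/-- the index `τ` of a board -/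
noncomputable def cDec (kk : F) (b : PA F A) : Option F × A :=
  if b.2.2.1 = 1 then (if b.2.2.2 = 0 then (some 0, 0) else (none, b.2.2.2))
  else if b.2.2.2 = 0 then (some b.2.1, 0)
  else if b.2.1 = 0 ∨ b.2.1 = kk then (if b.1 = 0 then (some 0, b.2.2.2) else (some kk, b.2.2.2))
  else (some b.2.1, b.2.2.2)

theorem cDec_cBo (kk : F) (hk0 : kk ≠ 0) {τ : Option F × A} (hτ : τ ≠ (none, 0)) (e s : ZMod 2) :
    cDec kk (cBo kk τ e s) = τ := by
  rcases τ with ⟨_ | k, a⟩
  · have ha : a ≠ 0 := fun h => hτ (by rw [h])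
    simp [cBo, cDec, ha]
  · by_cases hk : k = 0
    · subst hk
      by_cases ha : a = 0
      · subst ha
        by_cases he : e = 0 <;> simp [cBo, cDec, he]
      · by_cases he : e = 0 <;> simp [cBo, cDec, he, ha]
    · by_cases h2 : k = kk ∧ a ≠ 0
      · obtain ⟨rfl, ha⟩ := h2
        by_cases he : e = 0 <;> simp [cBo, cDec, he, ha, hk]
      · by_cases ha : a = 0
        · simp [cBo, cDec, ha, hk]
        · have hkk : k ≠ kk := fun hc => h2 ⟨hc, ha⟩
          simp [cBo, cDec, ha, hk, hkk]

theorem crs_zm2 (e : ZMod 2) : e = 0 ∨ e = 1 := by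
  revert e
  decide

theorem cBo_inj (kk : F) (hk0 : kk ≠ 0) {τ : Option F × A} {e e' s : ZMod 2}
    (h : cBo kk τ e s = cBo kk τ e' s) : e = e' := by
  have h1 : 1 + e + s = 1 + e' + s → e = e' := fun h => by
    have := add_right_cancel h
    exact add_left_cancel this
  rcases τ with ⟨_ | k, a⟩
  · simp only [cBo, Prod.mk.injEq, and_true] at h
    exact h1 h
  · by_cases hk : k = 0
    · subst hk
      by_cases ha : a = 0
      · subst ha
        rcases crs_zm2 e with rfl | rfl <;> rcases crs_zm2 e' with rfl | rfl <;> simp [cBo] at h ⊢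
      · rcases crs_zm2 e with rfl | rfl <;> rcases crs_zm2 e' with rfl | rfl <;>
          simp [cBo, ha, hk0, hk0.symm] at h ⊢
    · by_cases h2 : k = kk ∧ a ≠ 0
      · obtain ⟨rfl, ha⟩ := h2
        rcases crs_zm2 e with rfl | rfl <;> rcases crs_zm2 e' with rfl | rfl <;>
          simp [cBo, ha, hk, Ne.symm hk] at h ⊢
      · simp only [cBo, hk, h2, if_false, Prod.mk.injEq, and_true] at h
        exact h1 h

theorem cBo_kap (kk : F) {τ : Option F × A} (hτ : τ ≠ (none, 0)) (e s : ZMod 2)
    (h : (cBo kk τ e s).2.2.1 = 1) : (cBo kk τ e s).2.1 = 0 ∧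
      ((cBo kk τ e s).1, (cBo kk τ e s).2.2.2) ≠ (0, 0) := by
  rcases τ with ⟨_ | k, a⟩
  · have ha : a ≠ 0 := fun h => hτ (by rw [h])
    simp [cBo, ha]
  · by_cases hk : k = 0
    · subst hk
      by_cases ha : a = 0
      · subst ha
        simp [cBo]
      · simp [cBo, ha] at h
    · by_cases h2 : k = kk ∧ a ≠ 0
      · obtain ⟨rfl, ha⟩ := h2
        simp [cBo, ha, hk] at h
      · simp only [cBo, hk, h2, if_false] at h
        exact absurd h (by decide)

theorem cBo_ne0 (kk : F) {τ : Option F × A} (hτ : τ ≠ (none, 0)) (e s : ZMod 2) :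
    cBo kk τ e s ≠ 0 := by
  rcases τ with ⟨_ | k, a⟩
  · have ha : a ≠ 0 := fun h => hτ (by rw [h])
    intro h
    have h1 := congrArg (fun b : PA F A => b.2.2.2) h
    exact ha h1
  · by_cases hk : k = 0
    · subst hk
      by_cases ha : a = 0
      · subst ha
        intro h
        have h1 := congrArg (fun b : PA F A => b.1) h
        simp [cBo] at h1
      · intro h
        have h1 := congrArg (fun b : PA F A => b.2.2.2) h
        simp [cBo, ha] at h1
    · by_cases h2 : k = kk ∧ a ≠ 0
      · obtain ⟨rfl, ha⟩ := h2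
        intro h
        have h1 := congrArg (fun b : PA F A => b.1) h
        simp [cBo, hk, ha] at h1
      · intro h
        have h1 := congrArg (fun b : PA F A => b.2.1) h
        simp only [cBo, hk, h2, if_false] at h1
        exact hk h1

/-- a board of a colour outside `{0, kk}` with `κ = 0` -/
theorem cBo_reg (kk : F) {τ : Option F × A} (hτ : τ ≠ (none, 0)) (e s : ZMod 2)
    (h0 : (cBo kk τ e s).2.2.1 = 0) (h1 : (cBo kk τ e s).2.1 ≠ 0) (h2 : (cBo kk τ e s).2.1 ≠ kk) :
    τ = (some (cBo kk τ e s).2.1, (cBo kk τ e s).2.2.2) := by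
  rcases τ with ⟨_ | k, a⟩
  · simp [cBo] at h0
  · by_cases hk : k = 0
    · subst hk
      by_cases ha : a = 0
      · subst ha
        simp [cBo] at h1
      · exfalso
        rcases crs_zm2 e with rfl | rfl
        · simp [cBo, ha] at h2
        · simp [cBo, ha] at h1
    · by_cases h3 : k = kk ∧ a ≠ 0
      · obtain ⟨rfl, ha⟩ := h3
        exfalso
        rcases crs_zm2 e with rfl | rfl
        · simp [cBo, ha, hk] at h2
        · simp [cBo, ha, hk] at h1
      · simp only [cBo, hk, h3, if_false]

theorem cLam_card [CharP F 2] [Fintype F] (kk : F) (hk0 : kk ≠ 0) (φ : F →+ ZMod 2) (c : F)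
    (hφ : φ c = 1) (τ : Option F × A) (e : ZMod 2) :
    Nat.card {x : F × ZMod 2 // cLam kk φ τ x = e} = Nat.card F := by
  classical
  have hs : Nat.card {x : F × ZMod 2 // x.2 = e} = Nat.card F :=
    Nat.card_congr
      { toFun := fun x => x.1.1
        invFun := fun w => ⟨(w, e), rfl⟩
        left_inv := fun x => Subtype.ext (Prod.ext rfl x.2.symm)
        right_inv := fun w => rfl }
  have hf : ∀ k : F, k ≠ 0 → Nat.card {x : F × ZMod 2 // φ (k * x.1) = e} = Nat.card F := by
    intro k hk
    have e1 : ∀ (w : F) (ω : ZMod 2), φ (k * (w + (if ω = 0 then 0 else c / k))) = φ (k * w) + ω := by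
      intro w ω
      rcases crs_zm2 ω with rfl | rfl
      · simp
      · rw [if_neg one_ne_zero, mul_add, mul_div_cancel₀ c hk, map_add, hφ]
    have e2 : ∀ x : F, x + x = 0 := fun x => CharTwo.add_self_eq_zero x
    have e3 : ∀ x : ZMod 2, x + x = 0 := by decide
    refine Nat.card_congr
      { toFun := fun x => x.1.1 + (if x.1.2 = 0 then 0 else c / k)
        invFun := fun y => ⟨(y + (if φ (k * y) + e = 0 then 0 else c / k), φ (k * y) + e), ?_⟩
        left_inv := ?_
        right_inv := ?_ }
    · show φ (k * (y + (if φ (k * y) + e = 0 then 0 else c / k))) = e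
      rw [e1, ← add_assoc, e3, zero_add]
    · rintro ⟨⟨w, ω⟩, hx⟩
      have hx' : φ (k * w) = e := hx
      have h4 : φ (k * (w + (if ω = 0 then 0 else c / k))) + e = ω := by
        rw [e1, hx', add_comm e ω, add_assoc, e3, add_zero]
      apply Subtype.ext
      apply Prod.ext
      · show w + (if ω = 0 then 0 else c / k) +
          (if φ (k * (w + (if ω = 0 then 0 else c / k))) + e = 0 then 0 else c / k) = w
        rw [h4, add_assoc, e2, add_zero]
      · exact h4
    · intro y
      show y + (if φ (k * y) + e = 0 then 0 else c / k) +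
        (if φ (k * y) + e = 0 then 0 else c / k) = y
      rw [add_assoc, e2, add_zero]
  rcases τ with ⟨_ | k, a⟩
  · exact hs
  · by_cases hk : k = 0
    · by_cases ha : a = 0
      · simp only [cLam, hk, ha, if_true]
        exact hs
      · simp only [cLam, hk, ha, if_true, if_false]
        exact hf kk hk0
    · simp only [cLam, hk, if_false]
      exact hf k hk

end

theorem exists_cross {F A J : Type*} [Field F] [CharP F 2] [Fintype F] [Zero A] [Fintype A]
    [Fintype J] (F1 : Finset F) (kk : F) (hk0 : kk ≠ 0) (h0 : (0 : F) ∉ F1) (hkk : kk ∉ F1)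
    (φ : F →+ ZMod 2) (c : F) (hφ : φ c = 1) {S : A → J → ℤ} (hS : IsH S)
    {rh : J → J → F × A} (hrh : IsRh F1 S rh) {π : Option F × A → Equiv.Perm J}
    (hπ : PermFam S kk rh π) : ∃ Φ : J → J → F → ZMod 2 → PA F A, Cross S φ rh Φ := by
  classical
  have h0F := h0
  -- the labels
  have key : ∀ v v' : J, ∃ f : F × ZMod 2 → Option F × A,
      (∀ x, f x ≠ (none, 0) ∧ π (f x) v = v' ∧
        ¬ (v ≠ v' ∧ f x = (some (rh v v').1, (rh v v').2))) ∧
      ∀ x y, f x = f y → cLam kk φ (f x) x = cLam kk φ (f y) y → x = y := by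
    intro v v'
    set T := {τ : Option F × A // τ ≠ (none, 0) ∧ π τ v = v' ∧
      ¬ (v ≠ v' ∧ τ = (some (rh v v').1, (rh v v').2))} with hT
    have hTc : Nat.card T = Nat.card F := by
      have h4 := hπ.p4 v v'
      by_cases hv : v = v'
      · rw [if_pos hv, add_zero] at h4
        rw [← h4, hT]
        exact Nat.card_congr (Equiv.subtypeEquivRight fun τ => by
          constructor
          · exact fun h => ⟨h.1, h.2.1⟩
          · exact fun h => ⟨h.1, h.2, fun hc => hc.1 hv⟩)
      · rw [if_neg hv] at h4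
        set τ0 : Option F × A := (some (rh v v').1, (rh v v').2) with hτ0
        have h5 : Nat.card T + 1 =
            Nat.card {τ : Option F × A // τ ≠ (none, 0) ∧ π τ v = v'} := by
          rw [Nat.card_eq_fintype_card, Nat.card_eq_fintype_card, Fintype.card_subtype,
            Fintype.card_subtype]
          have h6 : (Finset.univ.filter fun τ : Option F × A => τ ≠ (none, 0) ∧ π τ v = v') =
              insert τ0 (Finset.univ.filter fun τ : Option F × A => τ ≠ (none, 0) ∧ π τ v = v' ∧
                ¬ (v ≠ v' ∧ τ = τ0)) := by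
            ext τ
            simp only [Finset.mem_filter, Finset.mem_univ, true_and, Finset.mem_insert]
            constructor
            · rintro ⟨h1, h2⟩
              by_cases h3 : τ = τ0
              · exact Or.inl h3
              · exact Or.inr ⟨h1, h2, fun hc => h3 hc.2⟩
            · rintro (rfl | h1)
              · exact ⟨by simp [hτ0], hπ.p3 v v' hv⟩
              · exact ⟨h1.1, h1.2.1⟩
          rw [h6, Finset.card_insert_of_notMem]
          exact fun hc => (Finset.mem_filter.1 hc).2.2.2 ⟨hv, rfl⟩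
        omega
    obtain ⟨f, hf⟩ := exists_lab (G := F × ZMod 2) (T := T) (fun τ x => cLam kk φ τ.1 x) (by
      rw [Fintype.card_prod, ZMod.card, ← Nat.card_eq_fintype_card (α := T), hTc,
        Nat.card_eq_fintype_card, mul_comm]) (by
      intro τ e
      rw [cLam_card kk hk0 φ c hφ, ← Nat.card_eq_fintype_card (α := T), hTc])
    refine ⟨fun x => (f x).1, fun x => (f x).2, ?_⟩
    intro x y h1 h2
    exact hf x y (Subtype.ext h1) h2
  choose f hf1 hf2 using key
  set s : A → J → J → ZMod 2 := fun a v v' => if S a v' = S a v then 0 else 1 with hs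
  have hs1 : ∀ a v v', S a v' = sg (s a v v') * S a v := by
    intro a v v'
    by_cases h : S a v' = S a v
    · have h1 : s a v v' = 0 := if_pos h
      rw [h1, h]
      simp [sg]
    · have h1 : s a v v' = 1 := if_neg h
      rw [h1]
      rcases hS.sign a v with h2 | h2 <;> rcases hS.sign a v' with h3 | h3 <;>
        rw [h2, h3] at h ⊢ <;> simp [sg] at h ⊢
  refine ⟨fun v v' w ω => cBo kk (f v v' (w, ω)) (cLam kk φ (f v v' (w, ω)) (w, ω))
    (s (f v v' (w, ω)).2 v v'), ?_⟩
  have e3 : ∀ x : ZMod 2, x + x = 0 := by decide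
  refine ⟨?_, ?_, ?_, ?_, ?_, ?_, ?_⟩
  · -- split
    intro v v' w ω
    obtain ⟨h1, h2, -⟩ := hf1 v v' (w, ω)
    set τ := f v v' (w, ω) with hτ
    obtain ⟨k, a⟩ := τ
    have hgen : ∀ x : ZMod 2, x = 1 + s a v v' → sg x * S a v' = - S a v := by
      intro x hx
      rw [hx, add_comm, sg_add_one, hs1 a v v', ← mul_assoc, neg_mul]
      rcases sg_cases (s a v v') with h3 | h3 <;> rw [h3] <;> norm_num
    rcases k with _ | k
    · simp only [cBo, cLam]
      apply hgen
      rw [zero_mul, map_zero, one_mul, add_zero]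
      have : (1 : ZMod 2) + ω + s a v v' + ω = 1 + s a v v' + (ω + ω) := by ring
      rw [this, e3, add_zero]
    · by_cases hk : k = 0
      · subst hk
        by_cases ha : a = 0
        · subst ha
          have h4 : (cLam kk φ ((some 0, 0) : Option F × A) (w, ω)) = ω := by simp [cLam]
          rw [h4]
          simp only [cBo, if_true, zero_mul, map_zero, add_zero]
          rw [hS.one, hS.one]
          rcases crs_zm2 ω with rfl | rfl <;> simp [sg]
        · have h4 : (cLam kk φ ((some 0, a) : Option F × A) (w, ω)) = φ (kk * w) := by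
            simp [cLam, ha]
          have h5 : S a v' = - S a v := by
            rw [← h2]
            exact hπ.p1 a v ha
          rw [h4]
          simp only [cBo, ha, if_true, if_false, zero_mul, add_zero, zero_add]
          rcases crs_zm2 (φ (kk * w)) with h6 | h6
          · rw [if_pos h6, h6, h5]
            simp [sg]
          · rw [if_neg (by rw [h6]; exact one_ne_zero), zero_mul, map_zero, h5]
            simp [sg]
      · by_cases h3 : k = kk ∧ a ≠ 0
        · obtain ⟨rfl, ha⟩ := h3
          have h4 : (cLam k φ ((some k, a) : Option F × A) (w, ω)) = φ (k * w) := by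
            simp [cLam, hk]
          have h5 : S a v' = S a v := by
            rw [← h2]
            exact hπ.p2 a v ha
          rw [h4]
          simp only [cBo, ha, hk, if_false, ne_eq, not_false_eq_true, and_self, if_true, zero_mul,
            add_zero]
          rcases crs_zm2 (φ (k * w)) with h6 | h6
          · rw [if_pos h6, h6, h5]
            simp [sg]
          · rw [if_neg (by rw [h6]; exact one_ne_zero), zero_mul, map_zero, h5]
            simp [sg]
        · have h4 : (cLam kk φ ((some k, a) : Option F × A) (w, ω)) = φ (k * w) := by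
            simp [cLam, hk]
          rw [h4]
          simp only [cBo, hk, h3, if_false]
          apply hgen
          have : (1 : ZMod 2) + φ (k * w) + s a v v' + φ (k * w) + 0 * ω =
              1 + s a v v' + (φ (k * w) + φ (k * w)) := by ring
          rw [this, e3, add_zero]
  · -- injr
    intro v v' v'' w w' ω ω' h
    obtain ⟨h1, h2, -⟩ := hf1 v v' (w, ω)
    obtain ⟨h3, h4, -⟩ := hf1 v v'' (w', ω')
    have h5 := congrArg (cDec kk) h
    rw [cDec_cBo kk hk0 h1, cDec_cBo kk hk0 h3] at h5
    have h6 : v' = v'' := by rw [← h2, ← h4, h5]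
    subst h6
    have h7 : cLam kk φ (f v v' (w, ω)) (w, ω) = cLam kk φ (f v v' (w', ω')) (w', ω') := by
      simp only [← h5] at h ⊢
      exact cBo_inj kk hk0 h
    have h8 := hf2 v v' _ _ h5 h7
    exact ⟨rfl, (Prod.mk.inj h8).1, (Prod.mk.inj h8).2⟩
  · -- injl
    intro v v' v'' w w' ω ω' h
    obtain ⟨h1, h2, -⟩ := hf1 v' v (w, ω)
    obtain ⟨h3, h4, -⟩ := hf1 v'' v (w', ω')
    have h5 := congrArg (cDec kk) h
    rw [cDec_cBo kk hk0 h1, cDec_cBo kk hk0 h3] at h5
    have h6 : v' = v'' := by
      apply (π (f v' v (w, ω))).injective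
      rw [h2, h5, h4]
    subst h6
    have h7 : cLam kk φ (f v' v (w, ω)) (w, ω) = cLam kk φ (f v' v (w', ω')) (w', ω') := by
      simp only [← h5] at h ⊢
      exact cBo_inj kk hk0 h
    have h8 := hf2 v' v _ _ h5 h7
    exact ⟨rfl, (Prod.mk.inj h8).1, (Prod.mk.inj h8).2⟩
  · -- kap
    intro v v' w ω h
    exact cBo_kap kk (hf1 v v' (w, ω)).1 _ _ h
  · -- ne0
    intro v v' w ω
    exact cBo_ne0 kk (hf1 v v' (w, ω)).1 _ _
  · -- avr
    intro v v' w ω u hu h0 hc
    obtain ⟨h1, h2, h3⟩ := hf1 v v' (w, ω)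
    have h4 := hrh.mem v u hu.symm
    have h5 := congrArg Prod.fst hc
    have h5' := congrArg Prod.snd hc
    simp only at h5 h5'
    have h6 := cBo_reg kk h1 _ _ h0 (fun h => h0F (by rw [← h, h5]; exact h4))
      (fun h => hkk (by rw [← h, h5]; exact h4))
    rw [h5, h5'] at h6
    have h7 : v' = u := by
      rw [← h2, h6]
      exact hπ.p3 v u hu.symm
    subst h7
    exact h3 ⟨hu.symm, h6⟩
  · -- avl
    intro v v' w ω u hu h0 hc
    obtain ⟨h1, h2, h3⟩ := hf1 v v' (w, ω)
    have h4 := hrh.mem v' u hu.symm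
    have h5 := congrArg Prod.fst hc
    have h5' := congrArg Prod.snd hc
    simp only at h5 h5'
    have h6 := cBo_reg kk h1 _ _ h0 (fun h => h0F (by rw [← h, h5]; exact h4))
      (fun h => hkk (by rw [← h, h5]; exact h4))
    rw [h5, h5'] at h6
    have h7 : v = u := by
      apply (π (f v v' (w, ω))).injective
      rw [h2, h6, hrh.symm v' u]
      exact (hπ.p3 u v' hu).symm
    subst h7
    rw [hrh.symm v' v] at h6
    exact h3 ⟨hu, h6⟩

end Pool.Agent.Lib.MP_db622c_co.P7
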