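import Pool.Agent.Lib.MP_db622c_co.P7.Defs

/-!
# P7-Kon: a regular bipartite multigraph is a sum of permutations (König)

PROOF.  It is enough to treat `T = Fin d` (`Fintype.equivFin`).  Induction on `d`.  `d = 0`: all
`m v u = 0` and `T` is empty.  `d + 1`: Hall's condition for `t v = {u | 0 < m v u}`
(`Finset.all_card_le_biUnion_card_iff_exists_injective`): for `X : Finset J`, `N` the union,
`(d + 1) * X.card = ∑ v ∈ X, ∑ u, m v u = ∑ v ∈ X, ∑ u ∈ N, m v u ≤ ∑ u ∈ N, ∑ v, m v u
= (d + 1) * N.card`.  So there is an injective, hence bijective, `f : J → J` with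
`0 < m v (f v)`.  Apply the induction hypothesis to `m' v u = m v u - (if f v = u then 1 else 0)`
(row and column sums `d`) and put `π 0 = f` (`Fin.cons`).
-/

namespace Pool.Agent.Lib.MP_db622c_co.P7

open Pool.Agent.Lib.MP_db622c_co Pool.Agent.Lib.MP_db622c_co.CB

theorem Kon.hall {J : Type*} [Fintype J] [DecidableEq J] (d : ℕ) (m : J → J → ℕ)
    (hr : ∀ v, ∑ u, m v u = d + 1) (hc : ∀ u, ∑ v, m v u = d + 1) :
    ∃ f : J → J, Function.Injective f ∧ ∀ v, 0 < m v (f v) := by
  classical
  have h := (Finset.all_card_le_biUnion_card_iff_exists_injective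
    (fun v : J => Finset.univ.filter (fun u => 0 < m v u))).1 ?_
  · obtain ⟨f, hf, h2⟩ := h
    exact ⟨f, hf, fun v => by simpa using h2 v⟩
  · intro X
    set N := X.biUnion (fun v : J => Finset.univ.filter (fun u => 0 < m v u)) with hN
    have h1 : (d + 1) * X.card = ∑ v ∈ X, ∑ u ∈ N, m v u := by
      have h2 : ∀ v ∈ X, ∑ u ∈ N, m v u = d + 1 := by
        intro v hv
        rw [← hr v]
        apply Finset.sum_subset (Finset.subset_univ _)
        intro u _ hu
        by_contra hne
        apply hu
        rw [hN, Finset.mem_biUnion]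
        exact ⟨v, hv, by simpa using Nat.pos_of_ne_zero hne⟩
      rw [Finset.sum_congr rfl h2, Finset.sum_const, smul_eq_mul, mul_comm]
    have h3 : ∑ v ∈ X, ∑ u ∈ N, m v u ≤ (d + 1) * N.card := by
      rw [Finset.sum_comm]
      calc ∑ u ∈ N, ∑ v ∈ X, m v u ≤ ∑ u ∈ N, ∑ v, m v u := by
            apply Finset.sum_le_sum
            intro u _
            exact Finset.sum_le_sum_of_subset (Finset.subset_univ _)
        _ = ∑ u ∈ N, (d + 1) := Finset.sum_congr rfl (fun u _ => hc u)
        _ = (d + 1) * N.card := by rw [Finset.sum_const, smul_eq_mul, mul_comm]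
    have h4 : (d + 1) * X.card ≤ (d + 1) * N.card := h1 ▸ h3
    exact Nat.le_of_mul_le_mul_left h4 (Nat.succ_pos d)

theorem Kon.fin {J : Type*} [Fintype J] [DecidableEq J] : ∀ (d : ℕ) (m : J → J → ℕ)
    (_ : ∀ v, ∑ u, m v u = d) (_ : ∀ u, ∑ v, m v u = d),
    ∃ π : Fin d → Equiv.Perm J, ∀ v u, (∑ t : Fin d, if π t v = u then 1 else 0) = m v u := by
  intro d
  induction d with
  | zero =>
    intro m hr _
    refine ⟨fun _ => 1, fun v u => ?_⟩
    have h := hr v
    rw [Finset.sum_eq_zero_iff] at h
    simp [h u (Finset.mem_univ u)]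
  | succ d ih =>
    intro m hr hc
    obtain ⟨f, hf, hpos⟩ := Kon.hall d m hr hc
    have hb : Function.Bijective f := Finite.injective_iff_bijective.1 hf
    let e : Equiv.Perm J := Equiv.ofBijective f hb
    have key : ∀ v u, (m v u - (if f v = u then 1 else 0)) + (if f v = u then 1 else 0) = m v u := by
      intro v u
      by_cases h : f v = u
      · subst h
        have := hpos v
        simp only [if_true]
        omega
      · simp [h]
    have hr' : ∀ v, ∑ u, (m v u - (if f v = u then 1 else 0)) = d := by
      intro v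
      have h1 : ∑ u, ((m v u - (if f v = u then 1 else 0)) + (if f v = u then 1 else 0)) = d + 1 := by
        rw [← hr v]
        exact Finset.sum_congr rfl (fun u _ => key v u)
      rw [Finset.sum_add_distrib] at h1
      have h2 : ∑ u, (if f v = u then 1 else 0) = 1 := by simp
      omega
    have hc' : ∀ u, ∑ v, (m v u - (if f v = u then 1 else 0)) = d := by
      intro u
      have h1 : ∑ v, ((m v u - (if f v = u then 1 else 0)) + (if f v = u then 1 else 0)) = d + 1 := by
        rw [← hc u]
        exact Finset.sum_congr rfl (fun v _ => key v u)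
      rw [Finset.sum_add_distrib] at h1
      have h2 : ∑ v, (if f v = u then 1 else 0) = 1 := by
        obtain ⟨w, hw⟩ := hb.2 u
        have : ∀ v, (if f v = u then 1 else 0) = (if v = w then 1 else 0) := by
          intro v
          by_cases h : v = w
          · subst h; simp [hw]
          · have : f v ≠ u := fun h3 => h (hf (h3.trans hw.symm))
            simp [h, this]
        rw [Finset.sum_congr rfl (fun v _ => this v)]
        simp
      omega
    obtain ⟨π, hπ⟩ := ih (fun v u => m v u - (if f v = u then 1 else 0)) hr' hc'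
    refine ⟨Fin.cons e π, fun v u => ?_⟩
    rw [Fin.sum_univ_succ]
    simp only [Fin.cons_zero, Fin.cons_succ]
    rw [hπ v u, add_comm]
    exact key v u

theorem exists_perms {T J : Type*} [Fintype T] [Fintype J] (m : J → J → ℕ)
    (hr : ∀ v, ∑ u, m v u = Fintype.card T) (hc : ∀ u, ∑ v, m v u = Fintype.card T) :
    ∃ π : T → Equiv.Perm J, ∀ v u, Nat.card {t : T // π t v = u} = m v u := by
  classical
  obtain ⟨π, hπ⟩ := Kon.fin (Fintype.card T) m hr hc
  let g := Fintype.equivFin T
  refine ⟨fun t => π (g t), fun v u => ?_⟩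
  rw [← hπ v u, Nat.card_eq_fintype_card, Fintype.card_subtype, Finset.card_filter]
  exact Equiv.sum_comp g (fun t => if π t v = u then 1 else 0)

end Pool.Agent.Lib.MP_db622c_co.P7
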