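import Pool.Agent.Lib.MP_db622c_co.P7.Seq
import Pool.Agent.Lib.MP_db622c_co.P7.Kon
import Pool.Agent.Lib.MP_db622c_co.CB.Rows

/-!
# P7-Fam: the family of permutations

PROOF.  `h = card J = card A`.
TASKS (for `exists_seq` with `q = 64`, `D = 10 h`): `T = (A × Bool × Bool) ⊕ (F1 × A)`
(`F1` as a subtype).  `t = inl (a, b, s)`: for `a = 0` put `P t = Q t = ∅`; for `a ≠ 0` let
`P t = {v | S a v = 1}` if `s` and `{v | S a v = -1}` otherwise, and `Q t` the set with the opposite
sign if `b = true` and the same set if `b = false`; all these sets have `h / 2` elements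
(`card_pos_eq_card_neg` of `CB.Rows`, their sum is `h`).  `t = inr (k, a)`:
`P t = Q t = U (k, a) := {v | ¬ ∃ u, u ≠ v ∧ rh v u = (k, a)}`, at least `h / 2` elements
(`IsRh.half`).  A point is in `P t` for exactly `2 (h - 1)` tasks `inl` (for `a ≠ 0` and each `b`
exactly one `s`) and in exactly `8 h - (h - 1)` tasks `inr` (the colours `rh v u`, `u ≠ v`, are
`h - 1` different elements of `F1 × A`), and the same for `Q t`; together `n0 := 9 h - 1` in both
cases, `≤ D`.  Let `f` be the result of `exists_seq`.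

CONSTRAINED PERMUTATIONS.  `a ≠ 0`: `π (some 0, a) v = f (inl (a, true, s)) v` with `s` the sign of
`S a v`; it changes the sign of row `a` (`p1`) and is injective (equal images have the same sign,
so the same `s`, then `InjOn`).  `π (some kk, a) v = f (inl (a, false, s)) v` similarly (`p2`).
`k ∈ F1`: `π (some k, a) v = f (inr (k, a)) v` for `v ∈ U (k, a)` and the unique `u ≠ v` with
`rh v u = (k, a)` otherwise (`p3`; by symmetry `u ∉ U (k, a)`; injective).
REMAINING ONES.  `Rem` = the `τ : Option F × A`, `τ ≠ (none, 0)`, which are not of the form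
`(some 0, a)`, `(some kk, a)` with `a ≠ 0`, `(some k, a)` with `k ∈ F1`.
`card Rem = (card F + 1) h - 1 - 2 (h - 1) - 8 h = card F * h - n0` (`0, kk` are different and not
in `F1`).  Let `use v u = card {t | v ∈ P t ∧ f t v = u} ≤ 64 ≤ card F`,
`m v u = card F - use v u`.  Row sums: `∑ u, use v u = card {t | v ∈ P t} = n0`; column sums:
`∑ v, use v u = card {t | u ∈ Q t} = n0` (`f t` is a bijection of `P t` onto `Q t`, same
cardinalities).  `exists_perms` gives the `π τ`, `τ ∈ Rem`.  `π (none, 0) = 1`.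
COUNT (`p4`).  The number of `τ ≠ (none, 0)` with `π τ v = u` is `m v u` (from `Rem`) plus the
number of tasks with `v ∈ P t ∧ f t v = u`, i.e. `use v u`, plus the number of `(k, a) ∈ F1 × A`,
`v ∉ U (k, a)`, with partner `u` of `v`: `1` if `v ≠ u` (namely `rh v u`), `0` otherwise.
-/

namespace Pool.Agent.Lib.MP_db622c_co.P7

open Pool.Agent.Lib.MP_db622c_co Pool.Agent.Lib.MP_db622c_co.CB

/-- the sign of a Boolean -/
private def fsb (s : Bool) : ℤ := if s then 1 else -1

private theorem fsb_inj {s t : Bool} (h : fsb s = fsb t) : s = t := by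
  cases s <;> cases t <;> simp [fsb] at h ⊢

section count

variable {T J : Type*} [Fintype T] [Fintype J]

open Classical in
private theorem fam_row (P : T → Finset J) (f : T → J → J) (v : J) :
    ∑ u, Nat.card {t : T // v ∈ P t ∧ f t v = u} = Nat.card {t : T // v ∈ P t} := by
  simp only [Nat.card_eq_fintype_card, Fintype.card_subtype]
  rw [Finset.card_eq_sum_card_fiberwise (f := fun t => f t v) (t := Finset.univ)
    (fun _ _ => Finset.mem_coe.2 (Finset.mem_univ _))]
  refine Finset.sum_congr rfl fun u _ => ?_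
  rw [Finset.filter_filter]

open Classical in
private theorem fam_col (P Q : T → Finset J) (f : T → J → J)
    (hPQ : ∀ t, (P t).card = (Q t).card) (hf : ∀ t, ∀ v ∈ P t, f t v ∈ Q t)
    (hinj : ∀ t, Set.InjOn (f t) (P t)) (u : J) :
    ∑ v, Nat.card {t : T // v ∈ P t ∧ f t v = u} = Nat.card {t : T // u ∈ Q t} := by
  have himg : ∀ t, (P t).image (f t) = Q t := by
    intro t
    apply Finset.eq_of_subset_of_card_le
    · intro x hx
      obtain ⟨v, hv, rfl⟩ := Finset.mem_image.1 hx
      exact hf t v hv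
    · rw [Finset.card_image_of_injOn (hinj t), hPQ]
  have h1 : ∀ v, Nat.card {t : T // v ∈ P t ∧ f t v = u} =
      ∑ t : T, if v ∈ P t ∧ f t v = u then 1 else 0 := by
    intro v
    rw [Nat.card_eq_fintype_card, Fintype.card_subtype, Finset.card_filter]
  rw [Finset.sum_congr rfl fun v _ => h1 v, Finset.sum_comm, Nat.card_eq_fintype_card,
    Fintype.card_subtype, Finset.card_filter]
  refine Finset.sum_congr rfl fun t _ => ?_
  rw [← Finset.card_filter]
  by_cases hu : u ∈ Q t
  · rw [if_pos hu, Finset.card_eq_one]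
    rw [← himg t] at hu
    obtain ⟨v, hv, hvu⟩ := Finset.mem_image.1 hu
    refine ⟨v, ?_⟩
    ext w
    rw [Finset.mem_filter, Finset.mem_singleton]
    constructor
    · rintro ⟨-, hw, hwu⟩
      exact hinj t (Finset.mem_coe.2 hw) (Finset.mem_coe.2 hv) (hwu.trans hvu.symm)
    · rintro rfl
      exact ⟨Finset.mem_univ _, hv, hvu⟩
  · rw [if_neg hu, Finset.card_eq_zero, Finset.filter_eq_empty_iff]
    rintro w _ ⟨hw, hwu⟩
    exact hu (hwu ▸ hf t w hw)

end count

section tasks

variable {F A J : Type*} [Zero A] [Fintype J] (F1 : Finset F) (S : A → J → ℤ)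
  (rh : J → J → F × A)

private abbrev FT (A : Type*) (F1 : Finset F) := (A × Bool × Bool) ⊕ ({k : F // k ∈ F1} × A)

open Classical in
private noncomputable def fU (c : F × A) : Finset J :=
  Finset.univ.filter fun v => ¬ ∃ u, u ≠ v ∧ rh v u = c

open Classical in
private noncomputable def fP : FT A F1 → Finset J
  | Sum.inl (a, _, s) => if a = 0 then ∅ else Finset.univ.filter fun v => S a v = fsb s
  | Sum.inr (k, a) => fU rh (k.1, a)

open Classical in
private noncomputable def fQ : FT A F1 → Finset J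
  | Sum.inl (a, b, s) => if a = 0 then ∅ else Finset.univ.filter fun v => S a v = fsb (xor b s)
  | Sum.inr (k, a) => fU rh (k.1, a)

variable {F1 S rh}

private theorem mem_fP_inl {a : A} (ha : a ≠ 0) (b s : Bool) (v : J) :
    v ∈ fP F1 S rh (Sum.inl (a, b, s)) ↔ S a v = fsb s := by
  simp [fP, ha]

private theorem mem_fQ_inl {a : A} (ha : a ≠ 0) (b s : Bool) (v : J) :
    v ∈ fQ F1 S rh (Sum.inl (a, b, s)) ↔ S a v = fsb (xor b s) := by
  simp [fQ, ha]

omit [Zero A] in
private theorem mem_fU (c : F × A) (v : J) : v ∈ fU rh c ↔ ¬ ∃ u, u ≠ v ∧ rh v u = c := by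
  simp [fU]

open Classical in
private theorem card_fsb {a : A} (hS : IsH S) (ha : a ≠ 0) (s : Bool) :
    2 * (Finset.univ.filter fun v => S a v = fsb s).card = Fintype.card J := by
  have h1 := card_pos_eq_card_neg hS a ha
  have h2 : (Finset.univ.filter fun v => S a v = 1).card +
      (Finset.univ.filter fun v => S a v = -1).card = Fintype.card J := by
    rw [← Finset.card_univ, ← Finset.card_filter_add_card_filter_not (s := Finset.univ) (fun v => S a v = 1)]
    congr 2
    ext v
    simp only [Finset.mem_filter, Finset.mem_univ, true_and]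
    rcases hS.sign a v with h | h <;> rw [h] <;> norm_num
  cases s
  · have : (Finset.univ.filter fun v => S a v = fsb false) = Finset.univ.filter fun v => S a v = -1 := by
      simp [fsb]
    rw [this]
    omega
  · have : (Finset.univ.filter fun v => S a v = fsb true) = Finset.univ.filter fun v => S a v = 1 := by
      simp [fsb]
    rw [this]
    omega

open Classical in
private theorem fPQ_card (hS : IsH S) (t : FT A F1) :
    (fP F1 S rh t).card = (fQ F1 S rh t).card := by
  rcases t with ⟨a, b, s⟩ | ⟨k, a⟩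
  · by_cases ha : a = 0
    · simp [fP, fQ, ha]
    · have h1 := card_fsb hS ha s
      have h2 := card_fsb hS ha (xor b s)
      simp only [fP, fQ, if_neg ha]
      omega
  · rfl

open Classical in
private theorem fP_big (hS : IsH S) (hrh : IsRh F1 S rh) (t : FT A F1) :
    fP F1 S rh t = ∅ ∨ Fintype.card J ≤ 2 * (fP F1 S rh t).card := by
  rcases t with ⟨a, b, s⟩ | ⟨k, a⟩
  · by_cases ha : a = 0
    · left
      simp [fP, ha]
    · right
      have h1 := card_fsb hS ha s
      simp only [fP, if_neg ha]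
      omega
  · right
    have h1 := hrh.half (k.1, a)
    rw [Nat.card_eq_fintype_card, Fintype.card_subtype] at h1
    have h2 := Finset.card_filter_add_card_filter_not (s := (Finset.univ : Finset J))
      (fun v => ∃ u, u ≠ v ∧ rh v u = (k.1, a))
    rw [Finset.card_univ] at h2
    simp only [fP, fU]
    omega

variable [Fintype A]

open Classical in
private theorem sum_ne_zero (g : A → ℕ) (hg0 : g 0 = 0) (hg : ∀ a, a ≠ 0 → g a = 2) :
    ∑ a, g a = 2 * (Fintype.card A - 1) := by
  rw [← Finset.add_sum_erase Finset.univ g (Finset.mem_univ 0), hg0, zero_add,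
    Finset.sum_congr rfl (fun a ha => hg a (Finset.ne_of_mem_erase ha)), Finset.sum_const,
    Finset.card_erase_of_mem (Finset.mem_univ _), Finset.card_univ, smul_eq_mul, mul_comm]

open Classical in
private theorem fU_count (hrh : IsRh F1 S rh) (v : J) :
    (∑ x : {k : F // k ∈ F1} × A, if v ∈ fU rh (x.1.1, x.2) then 1 else 0) +
      (Fintype.card J - 1) = F1.card * Fintype.card A := by
  have h1 := Finset.card_filter_add_card_filter_not
    (s := (Finset.univ : Finset ({k : F // k ∈ F1} × A))) (fun x => v ∈ fU rh (x.1.1, x.2))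
  rw [Finset.card_univ, Fintype.card_prod, Fintype.card_coe] at h1
  have h2 : (Finset.univ.filter fun x : {k : F // k ∈ F1} × A => ¬ v ∈ fU rh (x.1.1, x.2)).card =
      Fintype.card J - 1 := by
    rw [← Finset.card_univ, ← Finset.card_erase_of_mem (Finset.mem_univ v)]
    symm
    refine Finset.card_bij (fun u hu => (⟨(rh v u).1,
      hrh.mem v u (Finset.ne_of_mem_erase hu).symm⟩, (rh v u).2)) ?_ ?_ ?_
    · intro u hu
      rw [Finset.mem_filter, mem_fU, not_not]
      exact ⟨Finset.mem_univ _, u, Finset.ne_of_mem_erase hu, rfl⟩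
    · intro u hu u' hu' h
      have h3 : (rh v u).1 = (rh v u').1 := congrArg (fun x => x.1.1) h
      have h4 : (rh v u).2 = (rh v u').2 := congrArg (fun x => x.2) h
      exact hrh.inj v u u' (Finset.ne_of_mem_erase hu) (Finset.ne_of_mem_erase hu')
        (Prod.ext h3 h4)
    · rintro ⟨k, a⟩ hx
      rw [Finset.mem_filter, mem_fU, not_not] at hx
      obtain ⟨-, u, hu, hr⟩ := hx
      refine ⟨u, Finset.mem_erase.2 ⟨hu, Finset.mem_univ _⟩, ?_⟩
      exact Prod.ext (Subtype.ext (congrArg (fun c : F × A => c.1) hr))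
        (congrArg (fun c : F × A => c.2) hr)
  rw [← Finset.card_filter]
  omega

open Classical in
private theorem fP_count (hF1 : F1.card = 8) (hc : Fintype.card A = Fintype.card J)
    (hJ : 0 < Fintype.card J) (hS : IsH S) (hrh : IsRh F1 S rh) (v : J) :
    Nat.card {t : FT A F1 // v ∈ fP F1 S rh t} = 9 * Fintype.card J - 1 := by
  rw [Nat.card_eq_fintype_card, Fintype.card_subtype, Finset.card_filter, Fintype.sum_sum_type,
    Fintype.sum_prod_type]
  rw [sum_ne_zero]
  · have h1 := fU_count hrh v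
    rw [hF1, hc] at h1
    rw [hc]
    have h2 : (∑ x : {k : F // k ∈ F1} × A, if v ∈ fP F1 S rh (Sum.inr x) then 1 else 0) =
        ∑ x : {k : F // k ∈ F1} × A, if v ∈ fU rh (x.1.1, x.2) then 1 else 0 := rfl
    rw [h2]
    omega
  · simp [fP]
  · intro a ha
    rw [Fintype.sum_prod_type]
    simp only [Fintype.sum_bool, mem_fP_inl ha, fsb]
    rcases hS.sign a v with h | h <;> simp [h]

open Classical in
private theorem fQ_count (hF1 : F1.card = 8) (hc : Fintype.card A = Fintype.card J)
    (hJ : 0 < Fintype.card J) (hS : IsH S) (hrh : IsRh F1 S rh) (v : J) :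
    Nat.card {t : FT A F1 // v ∈ fQ F1 S rh t} = 9 * Fintype.card J - 1 := by
  rw [Nat.card_eq_fintype_card, Fintype.card_subtype, Finset.card_filter, Fintype.sum_sum_type,
    Fintype.sum_prod_type]
  rw [sum_ne_zero]
  · have h1 := fU_count hrh v
    rw [hF1, hc] at h1
    rw [hc]
    have h2 : (∑ x : {k : F // k ∈ F1} × A, if v ∈ fQ F1 S rh (Sum.inr x) then 1 else 0) =
        ∑ x : {k : F // k ∈ F1} × A, if v ∈ fU rh (x.1.1, x.2) then 1 else 0 := rfl
    rw [h2]
    omega
  · simp [fQ]
  · intro a ha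
    rw [Fintype.sum_prod_type]
    simp only [Fintype.sum_bool, mem_fQ_inl ha, fsb]
    rcases hS.sign a v with h | h <;> simp [h]

end tasks

section perms

variable {F A J : Type*} [Zero A] [Fintype J] {F1 : Finset F} {S : A → J → ℤ}
  {rh : J → J → F × A} {f : FT A F1 → J → J}

private noncomputable def fs (S : A → J → ℤ) (a : A) (v : J) : Bool :=
  open Classical in decide (S a v = 1)

private theorem fs_spec (hS : IsH S) (a : A) (v : J) : S a v = fsb (fs S a v) := by
  classical
  rcases hS.sign a v with h | h <;> simp [fs, fsb, h]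

private theorem fs_eq (hS : IsH S) {a : A} {v : J} {s : Bool} (h : S a v = fsb s) :
    fs S a v = s := fsb_inj ((fs_spec hS a v).symm.trans h)

/-- the constrained permutations of the first two kinds, as functions -/
private noncomputable def g1 (S : A → J → ℤ) (f : FT A F1 → J → J) (a : A) (b : Bool) (v : J) : J :=
  f (Sum.inl (a, b, fs S a v)) v

private theorem g1_sign (hS : IsH S) (hf : ∀ t, ∀ v ∈ fP F1 S rh t, f t v ∈ fQ F1 S rh t)
    {a : A} (ha : a ≠ 0) (b : Bool) (v : J) :
    S a (g1 S f a b v) = fsb (xor b (fs S a v)) := by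
  have h1 := hf (Sum.inl (a, b, fs S a v)) v ((mem_fP_inl ha b _ v).2 (fs_spec hS a v))
  exact (mem_fQ_inl ha b _ _).1 h1

private theorem g1_inj (hS : IsH S) (hf : ∀ t, ∀ v ∈ fP F1 S rh t, f t v ∈ fQ F1 S rh t)
    (hinj : ∀ t, Set.InjOn (f t) (fP F1 S rh t)) {a : A} (ha : a ≠ 0) (b : Bool) :
    Function.Injective (g1 S f a b) := by
  intro v v' h
  have h1 := g1_sign hS hf ha b v
  have h2 := g1_sign hS hf ha b v'
  rw [h] at h1
  have h3 := fsb_inj (h1.symm.trans h2)
  have h4 : fs S a v = fs S a v' := by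
    cases b <;> simpa using h3
  unfold g1 at h
  rw [h4] at h
  refine hinj (Sum.inl (a, b, fs S a v')) ?_ ?_ h
  · rw [Finset.mem_coe, mem_fP_inl ha, ← h4]
    exact fs_spec hS a v
  · rw [Finset.mem_coe, mem_fP_inl ha]
    exact fs_spec hS a v'

open Classical in
/-- the constrained permutations of the third kind, as functions -/
private noncomputable def g2 (rh : J → J → F × A) (f : FT A F1 → J → J) (k : {k : F // k ∈ F1})
    (a : A) (v : J) : J :=
  if h : ∃ u, u ≠ v ∧ rh v u = (k.1, a) then h.choose else f (Sum.inr (k, a)) v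

omit [Zero A] in
private theorem g2_pos (hrh : IsRh F1 S rh) {k : {k : F // k ∈ F1}} {a : A} {v u : J}
    (hu : u ≠ v) (h : rh v u = (k.1, a)) : g2 rh f k a v = u := by
  have hex : ∃ u, u ≠ v ∧ rh v u = (k.1, a) := ⟨u, hu, h⟩
  unfold g2
  rw [dif_pos hex]
  exact hrh.inj v _ _ hex.choose_spec.1 hu (hex.choose_spec.2.trans h.symm)

private theorem g2_neg {k : {k : F // k ∈ F1}} {a : A} {v : J} (h : v ∈ fU rh (k.1, a)) :
    g2 rh f k a v = f (Sum.inr (k, a)) v := by
  unfold g2
  rw [dif_neg ((mem_fU _ _).1 h)]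

private theorem g2_inj (hrh : IsRh F1 S rh)
    (hf : ∀ t, ∀ v ∈ fP F1 S rh t, f t v ∈ fQ F1 S rh t)
    (hinj : ∀ t, Set.InjOn (f t) (fP F1 S rh t)) (k : {k : F // k ∈ F1}) (a : A) :
    Function.Injective (g2 rh f k a) := by
  have key : ∀ v v', v ∈ fU rh (k.1, a) → ¬ v' ∈ fU rh (k.1, a) →
      g2 rh f k a v ≠ g2 rh f k a v' := by
    intro v v' hv hv' h
    rw [mem_fU, not_not] at hv'
    obtain ⟨u, hu, hr⟩ := hv'
    rw [g2_neg hv, g2_pos hrh hu hr] at h
    have h1 : u ∈ fU rh (k.1, a) := by
      rw [← h]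
      exact hf (Sum.inr (k, a)) v hv
    rw [mem_fU] at h1
    exact h1 ⟨v', hu.symm, by rw [hrh.symm, hr]⟩
  intro v v' h
  by_cases hv : v ∈ fU rh (k.1, a)
  · by_cases hv' : v' ∈ fU rh (k.1, a)
    · rw [g2_neg hv, g2_neg hv'] at h
      exact hinj (Sum.inr (k, a)) (Finset.mem_coe.2 hv) (Finset.mem_coe.2 hv') h
    · exact absurd h (key v v' hv hv')
  · by_cases hv' : v' ∈ fU rh (k.1, a)
    · exact absurd h.symm (key v' v hv' hv)
    · rw [mem_fU, not_not] at hv hv'
      obtain ⟨u, hu, hr⟩ := hv
      obtain ⟨u', hu', hr'⟩ := hv'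
      rw [g2_pos hrh hu hr, g2_pos hrh hu' hr'] at h
      subst h
      exact hrh.inj u v v' hu.symm hu'.symm (by rw [hrh.symm u v, hrh.symm u v', hr, hr'])

private abbrev FC (A : Type*) [Zero A] (F1 : Finset F) := ({a : A // a ≠ 0} × Bool) ⊕ ({k : F // k ∈ F1} × A)

/-- the constrained permutations, as functions -/
private noncomputable def gc (S : A → J → ℤ) (rh : J → J → F × A) (f : FT A F1 → J → J) :
    FC A F1 → J → J
  | Sum.inl (a, b) => g1 S f a.1 b
  | Sum.inr (k, a) => g2 rh f k a

private theorem gc_inj (hS : IsH S) (hrh : IsRh F1 S rh)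
    (hf : ∀ t, ∀ v ∈ fP F1 S rh t, f t v ∈ fQ F1 S rh t)
    (hinj : ∀ t, Set.InjOn (f t) (fP F1 S rh t)) (c : FC A F1) :
    Function.Injective (gc S rh f c) := by
  rcases c with ⟨a, b⟩ | ⟨k, a⟩
  · exact g1_inj hS hf hinj a.2 b
  · exact g2_inj hrh hf hinj k a

variable [Fintype A]

open Classical in
private theorem gc_count (hS : IsH S) (hrh : IsRh F1 S rh) (v u : J) :
    Nat.card {c : FC A F1 // gc S rh f c v = u} =
      Nat.card {t : FT A F1 // v ∈ fP F1 S rh t ∧ f t v = u} + if v = u then 0 else 1 := by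
  rw [Nat.card_eq_fintype_card, Fintype.card_subtype, Finset.card_filter, Fintype.sum_sum_type,
    Nat.card_eq_fintype_card, Fintype.card_subtype, Finset.card_filter, Fintype.sum_sum_type,
    add_assoc]
  congr 1
  · rw [Fintype.sum_prod_type, Fintype.sum_prod_type]
    rw [← Finset.add_sum_erase Finset.univ (fun a : A => ∑ y : Bool × Bool,
      if v ∈ fP F1 S rh (Sum.inl (a, y)) ∧ f (Sum.inl (a, y)) v = u then 1 else 0)
      (Finset.mem_univ 0)]
    have h0 : (∑ y : Bool × Bool, if v ∈ fP F1 S rh (Sum.inl ((0 : A), y)) ∧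
        f (Sum.inl ((0 : A), y)) v = u then 1 else 0) = 0 := by
      refine Finset.sum_eq_zero fun y _ => ?_
      rw [if_neg]
      rintro ⟨h, -⟩
      simp [fP] at h
    rw [h0, zero_add, Finset.sum_subtype (Finset.univ.erase (0 : A)) (p := fun a : A => a ≠ 0)
      (fun a => by simp)]
    refine Finset.sum_congr rfl fun a _ => ?_
    rw [Fintype.sum_prod_type]
    refine Finset.sum_congr rfl fun b _ => ?_
    have h1 : ∀ s : Bool, (if v ∈ fP F1 S rh (Sum.inl ((a : A), (b, s))) ∧
        f (Sum.inl ((a : A), (b, s))) v = u then 1 else 0) =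
        if s = fs S a.1 v then (if f (Sum.inl ((a : A), (b, s))) v = u then 1 else 0) else 0 := by
      intro s
      by_cases hs : s = fs S a.1 v
      · rw [if_pos hs]
        have h2 : v ∈ fP F1 S rh (Sum.inl ((a : A), (b, s))) := by
          rw [mem_fP_inl a.2, hs]
          exact fs_spec hS a.1 v
        simp only [h2, true_and]
      · rw [if_neg hs, if_neg]
        rintro ⟨h2, -⟩
        rw [mem_fP_inl a.2] at h2
        exact hs (fs_eq hS h2).symm
    rw [Finset.sum_congr rfl fun s _ => h1 s, Finset.sum_ite_eq' Finset.univ (fs S a.1 v)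
      (fun s => if f (Sum.inl ((a : A), (b, s))) v = u then 1 else 0), if_pos (Finset.mem_univ _)]
    rfl
  · have h1 : ∀ x : {k : F // k ∈ F1} × A, (if gc S rh f (Sum.inr x) v = u then 1 else 0) =
        (if v ∈ fP F1 S rh (Sum.inr x) ∧ f (Sum.inr x) v = u then 1 else 0) +
        (if v ≠ u ∧ rh v u = (x.1.1, x.2) then 1 else 0) := by
      rintro ⟨k, a⟩
      show (if g2 rh f k a v = u then 1 else 0) =
        (if v ∈ fU rh (k.1, a) ∧ f (Sum.inr (k, a)) v = u then 1 else 0) +
        (if v ≠ u ∧ rh v u = (k.1, a) then 1 else 0)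
      by_cases hv : v ∈ fU rh (k.1, a)
      · rw [g2_neg hv]
        have h2 : ¬ (v ≠ u ∧ rh v u = (k.1, a)) := by
          rintro ⟨h3, h4⟩
          exact (mem_fU _ _).1 hv ⟨u, h3.symm, h4⟩
        rw [if_neg h2, add_zero]
        simp only [hv, true_and]
      · have h2 : ¬ (v ∈ fU rh (k.1, a) ∧ f (Sum.inr (k, a)) v = u) := fun h => hv h.1
        rw [if_neg h2, zero_add]
        rw [mem_fU, not_not] at hv
        obtain ⟨w, hw, hr⟩ := hv
        rw [g2_pos hrh hw hr]
        by_cases hwu : w = u
        · subst hwu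
          rw [if_pos rfl, if_pos ⟨hw.symm, hr⟩]
        · rw [if_neg hwu, if_neg]
          rintro ⟨h3, h4⟩
          exact hwu (hrh.inj v w u hw h3.symm (hr.trans h4.symm))
    rw [Finset.sum_congr rfl fun x _ => h1 x, Finset.sum_add_distrib]
    congr 1
    by_cases hvu : v = u
    · rw [if_pos hvu]
      refine Finset.sum_eq_zero fun x _ => ?_
      rw [if_neg]
      rintro ⟨h3, -⟩
      exact h3 hvu
    · rw [if_neg hvu]
      rw [Finset.sum_eq_single (⟨⟨(rh v u).1, hrh.mem v u hvu⟩, (rh v u).2⟩ :
        {k : F // k ∈ F1} × A)]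
      · rw [if_pos ⟨hvu, rfl⟩]
      · intro x _ hx
        rw [if_neg]
        rintro ⟨-, h4⟩
        apply hx
        refine Prod.ext (Subtype.ext ?_) ?_
        · exact (congrArg Prod.fst h4).symm
        · exact (congrArg Prod.snd h4).symm
      · intro h
        exact absurd (Finset.mem_univ _) h

end perms

theorem exists_permFam {F A J : Type*} [Field F] [Fintype F] [Zero A] [Fintype A] [Fintype J]
    (hF : 64 ≤ Fintype.card F) (F1 : Finset F) (hF1 : F1.card = 8) (kk : F) (hk0 : kk ≠ 0)
    (h0 : (0 : F) ∉ F1) (hkk : kk ∉ F1) (hc : Fintype.card A = Fintype.card J)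
    (hJ : 0 < Fintype.card J) {S : A → J → ℤ} (hS : IsH S) {rh : J → J → F × A}
    (hrh : IsRh F1 S rh) : ∃ π : Option F × A → Equiv.Perm J, PermFam S kk rh π := by
  classical
  obtain ⟨f, hf, hinj, hq⟩ := exists_seq (fP F1 S rh) (fQ F1 S rh) (10 * Fintype.card J) 64
    (by norm_num) (fPQ_card hS) (fP_big hS hrh)
    (fun v => by rw [fP_count hF1 hc hJ hS hrh v]; omega)
    (fun v => by rw [fQ_count hF1 hc hJ hS hrh v]; omega) (by omega)
  set use : J → J → ℕ := fun v u => Nat.card {t : FT A F1 // v ∈ fP F1 S rh t ∧ f t v = u}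
    with huse
  have huse64 : ∀ v u, use v u ≤ Fintype.card F := fun v u => (hq v u).trans hF
  have hrow : ∀ v, ∑ u, use v u = 9 * Fintype.card J - 1 := fun v => by
    rw [huse, fam_row (fP F1 S rh) f v, fP_count hF1 hc hJ hS hrh v]
  have hcol : ∀ u, ∑ v, use v u = 9 * Fintype.card J - 1 := fun u => by
    rw [huse, fam_col (fP F1 S rh) (fQ F1 S rh) f (fPQ_card hS) hf hinj u,
      fQ_count hF1 hc hJ hS hrh u]
  -- the index set
  let X := {τ : Option F × A // τ ≠ (none, 0)}
  let ι : FC A F1 → X := fun c => match c with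
    | Sum.inl (a, b) => ⟨(some (if b then 0 else kk), a.1), by simp⟩
    | Sum.inr (k, a) => ⟨(some k.1, a), by simp⟩
  have hι : Function.Injective ι := by
    rintro (⟨a, b⟩ | ⟨k, a⟩) (⟨a', b'⟩ | ⟨k', a'⟩) h
    · have h1 : some (if b then 0 else kk) = some (if b' then 0 else kk) :=
        congrArg (fun x : X => x.1.1) h
      have h2 : a.1 = a'.1 := congrArg (fun x : X => x.1.2) h
      have h3 : b = b' := by
        cases b <;> cases b' <;> simp at h1 ⊢
        · exact hk0 h1
        · exact hk0 h1.symm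
      rw [h3, Subtype.ext h2]
    · exfalso
      have h1 : some (if b then 0 else kk) = some k'.1 := congrArg (fun x : X => x.1.1) h
      cases b <;> simp at h1
      · exact hkk (h1 ▸ k'.2)
      · exact h0 (h1 ▸ k'.2)
    · exfalso
      have h1 : some k.1 = some (if b' then 0 else kk) := congrArg (fun x : X => x.1.1) h
      cases b' <;> simp at h1
      · exact hkk (h1 ▸ k.2)
      · exact h0 (h1 ▸ k.2)
    · have h1 : some k.1 = some k'.1 := congrArg (fun x : X => x.1.1) h
      have h2 : a = a' := congrArg (fun x : X => x.1.2) h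
      have h3 : k = k' := Subtype.ext (Option.some.inj h1)
      rw [h3, h2]
  let R := ((Set.range ι)ᶜ : Set X)
  let e : FC A F1 ⊕ R ≃ X :=
    ((Equiv.ofInjective ι hι).sumCongr (Equiv.refl R)).trans (Equiv.Set.sumCompl (Set.range ι))
  have he1 : ∀ c, e (Sum.inl c) = ι c := fun c =>
    Equiv.Set.sumCompl_apply_inl (Set.range ι) ⟨ι c, Set.mem_range_self c⟩
  have hcardX : Fintype.card X = (Fintype.card F + 1) * Fintype.card J - 1 := by
    rw [Fintype.card_subtype_compl, Fintype.card_prod, Fintype.card_option, hc]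
    simp
  have hcardC : Fintype.card (FC A F1) = 2 * (Fintype.card J - 1) + 8 * Fintype.card J := by
    rw [Fintype.card_sum, Fintype.card_prod, Fintype.card_prod, Fintype.card_coe, hF1,
      Fintype.card_bool, hc]
    have h1 : Fintype.card {a : A // a ≠ 0} = Fintype.card J - 1 := by
      rw [Fintype.card_subtype_compl, hc]
      simp
    rw [h1, mul_comm]
  have hcardR : Fintype.card R + (9 * Fintype.card J - 1) = Fintype.card J * Fintype.card F := by
    have h1 := Fintype.card_congr e
    rw [Fintype.card_sum, hcardX, hcardC] at h1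
    have h2 : (Fintype.card F + 1) * Fintype.card J =
      Fintype.card J * Fintype.card F + Fintype.card J := by ring
    rw [h2] at h1
    omega
  obtain ⟨πR, hπR⟩ := exists_perms (T := R) (fun v u => Fintype.card F - use v u)
    (fun v => by
      have h1 : ∑ u, (Fintype.card F - use v u) + ∑ u, use v u =
          Fintype.card J * Fintype.card F := by
        rw [← Finset.sum_add_distrib, Finset.sum_congr rfl fun u _ =>
          Nat.sub_add_cancel (huse64 v u), Finset.sum_const, Finset.card_univ, smul_eq_mul]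
      rw [hrow v] at h1
      omega)
    (fun u => by
      have h1 : ∑ v, (Fintype.card F - use v u) + ∑ v, use v u =
          Fintype.card J * Fintype.card F := by
        rw [← Finset.sum_add_distrib, Finset.sum_congr rfl fun v _ =>
          Nat.sub_add_cancel (huse64 v u), Finset.sum_const, Finset.card_univ, smul_eq_mul]
      rw [hcol u] at h1
      omega)
  let ρ : FC A F1 → Equiv.Perm J := fun c =>
    Equiv.ofBijective (gc S rh f c) (Finite.injective_iff_bijective.1 (gc_inj hS hrh hf hinj c))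
  have hρ : ∀ c v, ρ c v = gc S rh f c v := fun c v => rfl
  let π : Option F × A → Equiv.Perm J := fun τ =>
    if h : τ = (none, 0) then 1 else Sum.elim ρ πR (e.symm ⟨τ, h⟩)
  have hπ : ∀ (x : X), π x.1 = Sum.elim ρ πR (e.symm x) := fun x => by
    simp only [π]
    rw [dif_neg x.2]
  have hπι : ∀ c, π (ι c).1 = ρ c := fun c => by
    rw [hπ, ← he1, Equiv.symm_apply_apply]
    rfl
  refine ⟨π, ?_, ?_, ?_, ?_⟩
  · intro a v ha
    have h1 := hπι (Sum.inl (⟨a, ha⟩, true))
    have h2 : (ι (Sum.inl (⟨a, ha⟩, true))).1 = (some 0, a) := rfl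
    rw [h2] at h1
    rw [h1, hρ]
    have h3 := g1_sign hS hf ha true v
    have h4 := fs_spec hS a v
    show S a (g1 S f a true v) = _
    rw [h3, h4]
    cases fs S a v <;> simp [fsb]
  · intro a v ha
    have h1 := hπι (Sum.inl (⟨a, ha⟩, false))
    have h2 : (ι (Sum.inl (⟨a, ha⟩, false))).1 = (some kk, a) := rfl
    rw [h2] at h1
    rw [h1, hρ]
    have h3 := g1_sign hS hf ha false v
    have h4 := fs_spec hS a v
    show S a (g1 S f a false v) = _
    rw [h3, h4]
    cases fs S a v <;> simp [fsb]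
  · intro v u hvu
    have h1 := hπι (Sum.inr (⟨(rh v u).1, hrh.mem v u hvu⟩, (rh v u).2))
    have h2 : (ι (Sum.inr (⟨(rh v u).1, hrh.mem v u hvu⟩, (rh v u).2))).1 =
      (some (rh v u).1, (rh v u).2) := rfl
    rw [h2] at h1
    rw [h1, hρ]
    exact g2_pos hrh (Ne.symm hvu) rfl
  · intro v v'
    have h1 : Nat.card {τ : Option F × A // τ ≠ (none, 0) ∧ π τ v = v'} =
        Nat.card {y : FC A F1 ⊕ R // Sum.elim ρ πR y v = v'} := by
      refine Nat.card_congr ?_
      refine (Equiv.subtypeSubtypeEquivSubtypeInter (fun τ : Option F × A => τ ≠ (none, 0))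
        (fun τ => π τ v = v')).symm.trans ?_
      refine (e.symm.subtypeEquiv ?_)
      intro x
      rw [hπ x]
    rw [h1]
    have h2 : Nat.card {y : FC A F1 ⊕ R // Sum.elim ρ πR y v = v'} =
        Nat.card {c : FC A F1 // gc S rh f c v = v'} + Nat.card {r : R // πR r v = v'} := by
      simp only [Nat.card_eq_fintype_card, Fintype.card_subtype, Finset.card_filter,
        Fintype.sum_sum_type]
      rfl
    have h3 := huse64 v v'
    have h4 : Nat.card {t : FT A F1 // v ∈ fP F1 S rh t ∧ f t v = v'} = use v v' := rfl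
    have h5 : Nat.card F = Fintype.card F := Nat.card_eq_fintype_card
    rw [h2, gc_count hS hrh, hπR, h4, h5]
    omega

end Pool.Agent.Lib.MP_db622c_co.P7
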