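import Pool.Agent.Lib.MP_db622c_co.P7.Col
import Pool.Agent.Lib.MP_db622c_co.P7.Fam
import Pool.Agent.Lib.MP_db622c_co.P7.Crs
import Pool.Agent.Lib.MP_db622c_co.P7.AOF
import Pool.Agent.Lib.MP_db622c_co.P7.ASp
import Pool.Agent.Lib.MP_db622c_co.CB.QuadEx

/-!
# P7-AFin: a sign compatible one-factorization of order `256 n` for every Hadamard order `n`
-/

namespace Pool.Agent.Lib.MP_db622c_co.P7

open Pool.Agent.Lib.MP_db622c_co Pool.Agent.Lib.MP_db622c_co.CB

theorem exists_isSL {A J : Type*} [Fintype A] [Fintype J]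
    (hc : Fintype.card A = Fintype.card J) : ∃ L : J → J → A, IsSL L := by
  classical
  by_cases h : Fintype.card J = 0
  · have : IsEmpty J := Fintype.card_eq_zero_iff.1 h
    exact ⟨fun j => isEmptyElim j, ⟨fun j => isEmptyElim j, fun j => isEmptyElim j⟩⟩
  · have : NeZero (Fintype.card J) := ⟨h⟩
    let e : J ≃ ZMod (Fintype.card J) := Fintype.equivOfCardEq (by rw [ZMod.card])
    let f : ZMod (Fintype.card J) ≃ A := Fintype.equivOfCardEq (by rw [ZMod.card, hc])
    refine ⟨fun j k => f (e j + e k), ⟨fun j k => by rw [add_comm], fun j k k' hh => ?_⟩⟩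
    exact e.injective (add_left_cancel (f.injective hh))

theorem hasSD_of_hasHad (n : ℕ) (h4 : 4 ∣ n) (hn : 0 < n) (h : HasHad n) : HasSD (256 * n) := by
  classical
  obtain ⟨A, J, _, _, _, S, hA, hJ, hS⟩ := h
  obtain ⟨F, hF, hFt, hC, φ, c, hcard, hc0, -, -, hφ⟩ := exists_func 6 (by norm_num)
  have hcard' : Fintype.card F = 64 := by rw [hcard]; norm_num
  -- an element `b ≠ 0` with `φ b = 0`
  obtain ⟨b, hb0, hb⟩ : ∃ b : F, b ≠ 0 ∧ φ b = 0 := by
    by_contra hne
    push Not at hne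
    have hinj : Function.Injective (fun x : F => φ x) := by
      intro x y hxy
      by_contra hxy'
      have h1 : x + y ≠ 0 := fun h2 => hxy' (eq_of_add_eq_zero h2)
      apply hne _ h1
      have h3 : φ x = φ y := hxy
      rw [map_add, h3]
      exact zmod2_self _
    have h1 := Fintype.card_le_of_injective _ hinj
    rw [hcard', ZMod.card] at h1
    omega
  -- the element `kk` and the set `F1`
  obtain ⟨F1, hF1s, hF1⟩ : ∃ F1 ⊆ (Finset.univ.erase (0 : F)).erase 1, F1.card = 8 := by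
    apply Finset.exists_subset_card_eq
    rw [Finset.card_erase_of_mem (Finset.mem_erase.2 ⟨one_ne_zero, Finset.mem_univ _⟩),
      Finset.card_erase_of_mem (Finset.mem_univ _), Finset.card_univ, hcard']
    norm_num
  have h0 : (0 : F) ∉ F1 := fun h1 => by
    have h2 := hF1s h1
    simp at h2
  have h1 : (1 : F) ∉ F1 := fun h1 => by
    have h2 := hF1s h1
    simp at h2
  have hAJ : Fintype.card A = Fintype.card J := hA.trans hJ.symm
  obtain ⟨rh, hrh⟩ := exists_rh (F := F) F1 (by omega) hAJ (by rw [hJ]; exact h4) hS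
  obtain ⟨π, hπ⟩ := exists_permFam (by omega) F1 hF1 1 one_ne_zero h0 h1 hAJ (by omega) hS hrh
  have hφc : φ c = 1 := hφ
  obtain ⟨Φ, hΦ⟩ := exists_cross F1 1 one_ne_zero h0 h1 φ c hφc hS hrh hπ
  obtain ⟨L, hL⟩ := exists_isSL hAJ
  have hc0' : c ≠ 0 := fun h2 => by rw [h2, map_zero] at hφc; exact absurd hφc (by decide)
  have hid : (AddMonoidHom.id (ZMod 2)) 1 = 1 := rfl
  refine ⟨PA F A, PA F J, inferInstance, inferInstance, inferInstance, SA φ S,
    gA S b c rh L Φ, ?_, ?_, ?_, isOF_gA h0 hrh hL hb0 hc0' hΦ, isSplit_gA hS hrh hb hφc hΦ⟩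
  · rw [Fintype.card_prod, Fintype.card_prod, Fintype.card_prod, ZMod.card, hcard', hA]; ring
  · rw [Fintype.card_prod, Fintype.card_prod, Fintype.card_prod, ZMod.card, hcard', hJ]; ring
  · exact isH_tens _ 1 hid (isH_tens φ c hφc (isH_tens _ 1 hid hS))

end Pool.Agent.Lib.MP_db622c_co.P7
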