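import Pool.Agent.Lib.MP_db622c_co.P7.Defs

/-!
# P7-Bd: the boards of the second blow-up

The pattern is `CB/Blow.lean` (`col`, `num`, `amp`, `bd_cases`, `bd_symm`, `bd_inj`, `isOF_G`,
`sg_num`, `isSplit_G`), simpler here; copy from there.

PROOF.  Basic facts, for `w ≠ 0` (`Pack.N_div` is in `CB/Blow.lean`): `num ≠ 0`,
`N (num) = N w / col`, `amp ≠ 0`, `N (amp) = col⁻¹`; `amp j a w = amp j' a' w'` implies
`col j a w = col j' a' w'`; `amp j a` is injective on the nonzero `w` (equal `amp`, equal `col`,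
so equal `N w` as `σ` is a permutation, so equal `row`, equal `num`, equal `w`);
`amp j a w = ks j a` implies `col j a w = al j a` (`N_ks`); all of `col`, `row`, `num`, `amp` are
symmetric in `j, a` (`L` symmetric, `σ_symm`; in `num` the condition is symmetric up to `neg_neg`).
The four kinds of units `(j, a; w)` (`j ≠ a ∨ w ≠ 0`):
 (Z) `w = 0`, `NB`: board `(ks, ρ (al) (L j a))`, first component `≠ 0`;
 (D) `w = 0`, not `NB`: board `(0, g j a)`;
 (M) `w ≠ 0`, `NB`, `amp = ks`: board `(0, g j a)`;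
 (R) `w ≠ 0`, not (`NB` and `amp = ks`): board `(amp, row)`, first component `≠ 0`.
`isOF_G`: `ne`: `g j a ≠ 0` for `j ≠ a` (for (D) `j ≠ a`; for (M) `NB`).  `symm`: by the symmetry of
everything (`NB μ j a ↔ NB μ a j` as `μ` is an involution: `NB_symm` of `CB/StepII.lean`).
`inj` (point `(x, j)`; units `(j, a; w)`, `(j, a'; w')` with the same board):
 (D),(M) against (D),(M): `g j a = g j a'`, `a, a' ≠ j`, so `a = a'` (`IsOF.inj`); then both (D)
 (`w = w' = 0`) or both (M) (`amp` injective).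
 (Z)-(Z): `ks j a = ks j a'`, so `al j a = al j a'` (`N_ks`), so `L j a = L j a'`
 (`ρ` injective), `a = a'`.
 (Z)-(R): `ks j a = amp j a' w'`, so `al j a = col j a' w'`, so the equal second components give
 `L j a = L j a'`, `a = a'`, and then `amp j a w' = ks j a`, `NB`, against (R).
 (R)-(R): equal `amp`, equal `col`, equal `L`, `a = a'`, `amp` injective.
`isSplit_G`: by `tens_split` (`CB/Tens.lean`): (Z): `sg 0 = 1` and `Sc.sep`; (D), (M): the first
component is `0`, `IsSplit S g`; (R): `amp * w = num` and `sg (φ (num)) * S i a = - S i j`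
(`φ (b D) = 0`, `φ (c D) = 1`, see `sg_num` in `CB/Blow.lean`).
-/

namespace Pool.Agent.Lib.MP_db622c_co.P7

open Pool.Agent.Lib.MP_db622c_co Pool.Agent.Lib.MP_db622c_co.CB

section

variable {K V A J R : Type*} [Field K] [CommGroup V] {P : Pack K V} {S : A → J → ℤ}
  {μ : J → J} {L g : J → J → A} {h : Option V → J → J → R} (Sc : Sch P S μ L g h)

namespace Sch

theorem num_ne (j a : J) (w : K) : Sc.num j a w ≠ 0 := by
  unfold num
  split_ifs
  · exact P.b_ne _
  · exact P.c_ne _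

private theorem N_num (j a : J) (w : K) : P.N (Sc.num j a w) = P.N w / Sc.col j a w := by
  unfold num
  split_ifs
  · exact P.N_b _
  · exact P.N_c _

theorem amp_ne (j a : J) {w : K} (hw : w ≠ 0) : Sc.amp j a w ≠ 0 :=
  div_ne_zero (Sc.num_ne j a w) hw

theorem N_amp (j a : J) {w : K} (hw : w ≠ 0) : P.N (Sc.amp j a w) = (Sc.col j a w)⁻¹ := by
  unfold amp
  rw [P.N_div (Sc.num_ne j a w) hw, Sc.N_num, div_div, mul_comm, ← div_div, div_self', one_div]

private theorem col_of_amp {j k j' k' : J} {w w' : K} (hw : w ≠ 0) (hw' : w' ≠ 0)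
    (hh : Sc.amp j k w = Sc.amp j' k' w') : Sc.col j k w = Sc.col j' k' w' := by
  have h1 := Sc.N_amp j k hw
  rw [hh, Sc.N_amp j' k' hw'] at h1
  exact (inv_injective h1).symm

theorem amp_inj (j a : J) {w w' : K} (hw : w ≠ 0) (hw' : w' ≠ 0)
    (hh : Sc.amp j a w = Sc.amp j a w') : w = w' := by
  have h1 := Sc.col_of_amp hw hw' hh
  have h2 : P.N w = P.N w' := (Sc.σ j a).symm.injective h1
  have h3 : Sc.num j a w = Sc.num j a w' := by
    unfold num row
    rw [h1, h2]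
  unfold amp at hh
  rw [h3] at hh
  have h4 := Sc.num_ne j a w'
  rw [div_eq_div_iff hw hw'] at hh
  exact (mul_left_cancel₀ h4 hh).symm

private theorem col_symm (j k : J) (w : K) : Sc.col j k w = Sc.col k j w := by
  unfold col
  rw [Sc.σ_symm]

private theorem row_symm (hL : ∀ j k, L j k = L k j) (j k : J) (w : K) :
    Sc.row j k w = Sc.row k j w := by
  unfold row
  rw [Sc.col_symm, hL]

theorem amp_symm (hL : ∀ j k, L j k = L k j) (j a : J) (w : K) :
    Sc.amp j a w = Sc.amp a j w := by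
  unfold amp num
  rw [Sc.row_symm hL j a, Sc.col_symm j a]
  have h : (S (Sc.row a j w) a = - S (Sc.row a j w) j) ↔
      (S (Sc.row a j w) j = - S (Sc.row a j w) a) := by
    constructor <;> intro h <;> rw [h, neg_neg]
  simp only [h]

private theorem col_of_ks {j a j' a' : J} {w : K} (hw : w ≠ 0)
    (hh : Sc.amp j a w = Sc.ks j' a') : Sc.col j a w = Sc.al j' a' := by
  have h1 := Sc.N_amp j a hw
  rw [hh, Sc.N_ks] at h1
  exact (inv_injective h1).symm

/-- the four kinds of units -/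
theorem bd_cases [Zero A] (j a : J) (w : K) :
    (w = 0 ∧ NB μ j a ∧ Sc.bd j a w = (Sc.ks j a, Sc.ρ (Sc.al j a) (L j a))) ∨
    (w = 0 ∧ ¬ NB μ j a ∧ Sc.bd j a w = (0, g j a)) ∨
    (w ≠ 0 ∧ NB μ j a ∧ Sc.amp j a w = Sc.ks j a ∧ Sc.bd j a w = (0, g j a)) ∨
    (w ≠ 0 ∧ ¬ (NB μ j a ∧ Sc.amp j a w = Sc.ks j a) ∧
      Sc.bd j a w = (Sc.amp j a w, Sc.row j a w)) := by
  classical
  by_cases hw : w = 0
  · by_cases hn : NB μ j a
    · exact Or.inl ⟨hw, hn, by simp only [bd, hw, hn, if_true]⟩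
    · exact Or.inr (Or.inl ⟨hw, hn, by simp only [bd, hw, hn, if_true, if_false]⟩)
  · by_cases hn : NB μ j a ∧ Sc.amp j a w = Sc.ks j a
    · refine Or.inr (Or.inr (Or.inl ⟨hw, hn.1, hn.2, ?_⟩))
      unfold bd
      rw [if_neg hw, if_pos hn]
    · refine Or.inr (Or.inr (Or.inr ⟨hw, hn, ?_⟩))
      unfold bd
      rw [if_neg hw, if_neg hn]

private theorem bd_symm [Zero A] (hg : IsOF g) (hμ : ∀ j, μ (μ j) = j)
    (hL : ∀ j k, L j k = L k j) (j k : J) (w : K) : Sc.bd j k w = Sc.bd k j w := by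
  classical
  have hn : NB μ j k ↔ NB μ k j := ⟨NB_symm hμ, NB_symm hμ⟩
  unfold bd
  rw [Sc.ks_symm j k, Sc.al_symm j k, hL j k, hg.symm j k, Sc.amp_symm hL j k,
    Sc.row_symm hL j k]
  simp only [hn]

private theorem bd_inj [Zero A] (hg : IsOF g) 
    (hLi : ∀ j k k', L j k = L j k' → k = k') (j k k' : J) (w w' : K)
    (h1 : j ≠ k ∨ w ≠ 0) (h2 : j ≠ k' ∨ w' ≠ 0)
    (hh : Sc.bd j k w = Sc.bd j k' w') : k = k' ∧ w = w' := by
  have gne : ∀ {k : J} {w : K}, (j ≠ k ∨ w ≠ 0) → w = 0 → k ≠ j := by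
    intro k w h hw
    rcases h with h | h
    · exact h.symm
    · exact absurd hw h
  -- unit of type Z against type R
  have keyZR : ∀ (k k' : J) (w' : K), w' ≠ 0 → NB μ j k →
      ¬ (NB μ j k' ∧ Sc.amp j k' w' = Sc.ks j k') →
      (Sc.ks j k, Sc.ρ (Sc.al j k) (L j k)) = (Sc.amp j k' w', Sc.row j k' w') → False := by
    intro k k' w' hw' hn hn' he
    have e1 : Sc.ks j k = Sc.amp j k' w' := congrArg Prod.fst he
    have e2 : Sc.ρ (Sc.al j k) (L j k) = Sc.row j k' w' := congrArg Prod.snd he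
    have e3 := Sc.col_of_ks hw' e1.symm
    unfold row at e2
    rw [e3] at e2
    have e4 := hLi _ _ _ ((Sc.ρ (Sc.al j k)).injective e2)
    subst e4
    exact hn' ⟨hn, e1.symm⟩
  rcases Sc.bd_cases j k w with ⟨hw, hn, hb⟩ | ⟨hw, hn, hb⟩ | ⟨hw, hn, ha, hb⟩ | ⟨hw, hn, hb⟩ <;>
  rcases Sc.bd_cases j k' w' with ⟨hw', hn', hb'⟩ | ⟨hw', hn', hb'⟩ | ⟨hw', hn', ha', hb'⟩ |
    ⟨hw', hn', hb'⟩ <;> rw [hb, hb'] at hh
  · have e1 : Sc.ks j k = Sc.ks j k' := congrArg Prod.fst hh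
    have e2 : Sc.ρ (Sc.al j k) (L j k) = Sc.ρ (Sc.al j k') (L j k') := congrArg Prod.snd hh
    have e3 : Sc.al j k = Sc.al j k' := by
      have e4 := congrArg P.N e1
      rw [Sc.N_ks, Sc.N_ks] at e4
      exact inv_injective e4
    rw [e3] at e2
    exact ⟨hLi _ _ _ ((Sc.ρ (Sc.al j k')).injective e2), hw.trans hw'.symm⟩
  · exact absurd (congrArg Prod.fst hh) (Sc.ks_ne j k)
  · exact absurd (congrArg Prod.fst hh) (Sc.ks_ne j k)
  · exact (keyZR k k' w' hw' hn hn' hh).elim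
  · exact absurd (congrArg Prod.fst hh).symm (Sc.ks_ne j k')
  · exact ⟨hg.inj j _ _ (gne h1 hw) (gne h2 hw') (congrArg Prod.snd hh), hw.trans hw'.symm⟩
  · have e1 := hg.inj j _ _ (gne h1 hw) hn'.1 (congrArg Prod.snd hh)
    subst e1
    exact absurd hn' hn
  · exact absurd (congrArg Prod.fst hh).symm (Sc.amp_ne j k' hw')
  · exact absurd (congrArg Prod.fst hh).symm (Sc.ks_ne j k')
  · have e1 := hg.inj j _ _ hn.1 (gne h2 hw') (congrArg Prod.snd hh)
    subst e1
    exact absurd hn hn'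
  · have e1 := hg.inj j _ _ hn.1 hn'.1 (congrArg Prod.snd hh)
    subst e1
    exact ⟨rfl, Sc.amp_inj j k hw hw' (ha.trans ha'.symm)⟩
  · exact absurd (congrArg Prod.fst hh).symm (Sc.amp_ne j k' hw')
  · exact (keyZR k' k w hw hn' hn hh.symm).elim
  · exact absurd (congrArg Prod.fst hh) (Sc.amp_ne j k hw)
  · exact absurd (congrArg Prod.fst hh) (Sc.amp_ne j k hw)
  · have e1 : Sc.amp j k w = Sc.amp j k' w' := congrArg Prod.fst hh
    have e2 : Sc.row j k w = Sc.row j k' w' := congrArg Prod.snd hh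
    have e3 := Sc.col_of_amp hw hw' e1
    unfold row at e2
    rw [e3] at e2
    have e4 := hLi _ _ _ ((Sc.ρ (Sc.col j k' w')).injective e2)
    subst e4
    exact ⟨rfl, Sc.amp_inj j k hw hw' e1⟩

private theorem unit_ok' [CharP K 2] {x y : K × J} (h : x ≠ y) : x.2 ≠ y.2 ∨ x.1 + y.1 ≠ 0 := by
  by_contra hc
  push Not at hc
  exact h (Prod.ext (eq_of_add_eq_zero hc.2) hc.1)

theorem isOF_G [CharP K 2] [Zero A] (hg : IsOF g) (hμ : ∀ j, μ (μ j) = j)
    (hL : ∀ j k, L j k = L k j) (hLi : ∀ j k k', L j k = L j k' → k = k') :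
    IsOF (Sc.G) := by
  refine ⟨?_, ?_, ?_⟩
  · intro x y hxy h
    have hu := unit_ok' hxy
    unfold G at h
    rcases Sc.bd_cases x.2 y.2 (x.1 + y.1) with ⟨hw, hn, hb⟩ | ⟨hw, hn, hb⟩ |
      ⟨hw, hn, ha, hb⟩ | ⟨hw, hn, hb⟩ <;> rw [hb] at h
    · exact Sc.ks_ne _ _ (congrArg Prod.fst h)
    · have hne : x.2 ≠ y.2 := by
        rcases hu with h' | h'
        · exact h'
        · exact absurd hw h'
      exact hg.ne _ _ hne (congrArg Prod.snd h)
    · exact hg.ne _ _ hn.1.symm (congrArg Prod.snd h)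
    · exact Sc.amp_ne _ _ hw (congrArg Prod.fst h)
  · intro x y
    unfold G
    rw [Sc.bd_symm hg hμ hL, add_comm]
  · intro x y z hy hz h
    have h1 := Sc.bd_inj hg hLi x.2 y.2 z.2 (x.1 + y.1) (x.1 + z.1) (unit_ok' hy.symm)
      (unit_ok' hz.symm) h
    exact Prod.ext (add_left_cancel h1.2) h1.1

private theorem sg_num (j k : J) (w : K) (hS : ∀ a j, S a j = 1 ∨ S a j = -1) :
    sg (P.φ (Sc.num j k w)) * S (Sc.row j k w) k = - S (Sc.row j k w) j := by
  unfold num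
  split_ifs with h
  · rw [P.φ_b, h]
    simp [sg]
  · rw [P.φ_c]
    have h1 := hS (Sc.row j k w) k
    have h2 := hS (Sc.row j k w) j
    have h3 : S (Sc.row j k w) k = S (Sc.row j k w) j := by
      rcases h1 with h1 | h1 <;> rcases h2 with h2 | h2 <;> rw [h1, h2] at h ⊢ <;>
        simp at h
    rw [h3]
    simp [sg]

theorem isSplit_G [CharP K 2] [Zero A] (hS : ∀ a j, S a j = 1 ∨ S a j = -1)
    (hg : IsSplit S g) : IsSplit (tens P.φ S) (Sc.G) := by
  intro x y hxy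
  have hu := unit_ok' hxy
  have key : ∀ (a : K) (i : A), Sc.bd x.2 y.2 (x.1 + y.1) = (a, i) →
      sg (P.φ (a * (x.1 + y.1))) * S i y.2 = - S i x.2 →
      tens P.φ S (Sc.G x y) y = - tens P.φ S (Sc.G x y) x := by
    intro a i h1 h2
    have h3 : Sc.G x y = (a, i) := h1
    rw [h3]
    exact tens_split P.φ h2
  rcases Sc.bd_cases x.2 y.2 (x.1 + y.1) with ⟨hw, hn, hb⟩ | ⟨hw, hn, hb⟩ |
    ⟨hw, hn, ha, hb⟩ | ⟨hw, hn, hb⟩
  · refine key _ _ hb ?_
    rw [hw, mul_zero, map_zero, Sc.sep _ _ hn]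
    simp [sg]
  · refine key _ _ hb ?_
    have hne : x.2 ≠ y.2 := by
      rcases hu with h' | h'
      · exact h'
      · exact absurd hw h'
    rw [zero_mul, map_zero, hg _ _ hne]
    simp [sg]
  · refine key _ _ hb ?_
    rw [zero_mul, map_zero, hg _ _ hn.1.symm]
    simp [sg]
  · refine key _ _ hb ?_
    have h1 := Sc.sg_num x.2 y.2 (x.1 + y.1) hS
    unfold amp
    rw [div_mul_cancel₀ _ hw]
    exact h1

end Sch

end

end Pool.Agent.Lib.MP_db622c_co.P7
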