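import Pool.Agent.Lib.MP_db622c_co.P7.Rd

/-!
# P7-CSt: the second blow-up
-/

namespace Pool.Agent.Lib.MP_db622c_co.P7

open Pool.Agent.Lib.MP_db622c_co Pool.Agent.Lib.MP_db622c_co.CB

theorem hasPD_of_sch {K V A J : Type} [Field K] [CharP K 2] [Fintype K] [CommGroup V] [Zero A]
    [Fintype A] [Fintype J] (P : Pack K V) (k : ℕ) (hk : 1 ≤ k)
    (hA : Fintype.card A = 2 * k + 2) (hJ : Fintype.card J = 2 * k + 2)
    {S : A → J → ℤ} (hS : IsH S) {g : J → J → A} (hg : IsOF g) (hsp : IsSplit S g)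
    {μ : J → J} (hμ : IsRB g μ) {L : J → J → A} {side : J → ZMod 2} (hL : IsLam L μ side)
    {h : Option V → J → J → ZMod (2 * k)} (hh : ∀ n, IsHC (h n) μ) (Sc : Sch P S μ L g h)
    (hm : Mate (K × ZMod 2)) : HasPD (Fintype.card K * (2 * k + 2)) := by
  classical
  obtain ⟨rK, r0, rs, ri, rm⟩ := hm
  obtain ⟨t, ht⟩ := exists_th (J := J) P
  have : NeZero (2 * k) := ⟨by omega⟩
  refine ⟨K × A, K × J, (K × ZMod 2) ⊕ (K × ZMod (2 * k)), inferInstance,
    zC K (ZMod (2 * k)), inferInstance,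
    inferInstance, inferInstance, tens P.φ S, Sc.G, rdC P h μ side t rK, ?_, ?_, ?_,
    isH_tens P.φ (P.c 1) (P.φ_c 1) hS, Sc.isOF_G hg hμ.inv hL.symm hL.inj,
    isOF_rdC P hμ hL hh ht r0 rs ri,
    Sc.isSplit_G hS.sign hsp, isOrth_rdC Sc hS.sign hμ hL ht rm⟩
  · rw [Fintype.card_prod, hA]
  · rw [Fintype.card_prod, hJ]
  · rw [Fintype.card_sum, Fintype.card_prod, Fintype.card_prod, ZMod.card, ZMod.card]
    ring

end Pool.Agent.Lib.MP_db622c_co.P7
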