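import Pool.Agent.Lib.MP_db622c_co.P7.DefsC
import Pool.Agent.Lib.MP_db622c_co.CB.Rank
import Pool.Agent.Lib.MP_db622c_co.CB.Rows

/-!
# P7-Cls: sizes of the classes

PROOF.  `card_Pr`: `Pr e` is in bijection with `{(x, y) : (Fin (k+1) × Bool) ^ 2 | x.1 < y.1}`,
which has `4 * (k + 1) k / 2` elements.
`card_g_le`: the map `Pr e → J`, `z ↦ z.1.1`, is injective on the class, and so is `z ↦ z.1.2`,
with disjoint images (a point of `J` is in at most one pair of the class: `IsOF.inj` and symmetry);
so `2 * card ≤ card J = 2 k + 2`.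
`card_L`: `≤ k`: the same argument, but by `IsLam.l0` there are two points `j ≠ j'` with
`L j j = c ∨ L j (μ j) = c` and the same for `j'`; they are in no pair of the class
(`IsLam.inj`: a point of a different block cannot have the same symbol with `j`), so
`2 * card ≤ 2 k` (or use `rank_lam` of `CB/Rank.lean`).  Equality: the sum over all `2 k + 2`
symbols is `card (Pr e) = 2 k (k + 1)`.
`card_sep`: `∑ a, S a x * S a y = 0` for `x ≠ y` (`col_orth` of `CB/Rows.lean`), entries `± 1`.
-/

namespace Pool.Agent.Lib.MP_db622c_co.P7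

open Pool.Agent.Lib.MP_db622c_co Pool.Agent.Lib.MP_db622c_co.CB

private theorem cls_two_card {X J : Type*} [Fintype X] [Fintype J] (f g : X → J) (F : Finset J)
    (hf : ∀ x y, f x = f y → x = y) (hg : ∀ x y, g x = g y → x = y) (hfg : ∀ x y, f x ≠ g y)
    (hfF : ∀ x, f x ∉ F) (hgF : ∀ x, g x ∉ F) :
    2 * Fintype.card X + F.card ≤ Fintype.card J := by
  classical
  have h := Fintype.card_le_of_injective
    (fun w : (X ⊕ X) ⊕ {x // x ∈ F} =>
      match w with
      | Sum.inl (Sum.inl x) => f x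
      | Sum.inl (Sum.inr x) => g x
      | Sum.inr y => y.1) (by
    rintro ((x | x) | x) ((y | y) | y) hxy
    · exact congrArg _ (congrArg _ (hf x y hxy))
    · exact absurd hxy (hfg x y)
    · exact absurd (show f x ∈ F by rw [show f x = y.1 from hxy]; exact y.2) (hfF x)
    · exact absurd hxy.symm (hfg y x)
    · exact congrArg _ (congrArg _ (hg x y hxy))
    · exact absurd (show g x ∈ F by rw [show g x = y.1 from hxy]; exact y.2) (hgF x)
    · exact absurd (show f y ∈ F by rw [show f y = x.1 from hxy.symm]; exact x.2) (hfF y)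
    · exact absurd (show g y ∈ F by rw [show g y = x.1 from hxy.symm]; exact x.2) (hgF y)
    · exact congrArg _ (Subtype.ext hxy))
  rw [Fintype.card_sum, Fintype.card_sum, Fintype.card_coe] at h
  omega

private theorem cls_card_lt (m : ℕ) :
    Fintype.card {y : Fin m × Fin m // y.1 < y.2} * 2 = m * (m - 1) := by
  have h1 : Fintype.card {y : Fin m × Fin m // y.1 < y.2} = ∑ j : Fin m, (j : ℕ) := by
    rw [Fintype.card_congr (show {y : Fin m × Fin m // y.1 < y.2} ≃ Σ j : Fin m, {i : Fin m // i < j}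
      from
      { toFun := fun y => ⟨y.1.2, ⟨y.1.1, y.2⟩⟩
        invFun := fun z => ⟨(z.2.1, z.1), z.2.2⟩
        left_inv := fun _ => rfl
        right_inv := fun _ => rfl }), Fintype.card_sigma]
    refine Finset.sum_congr rfl fun j _ => ?_
    rw [Fintype.card_subtype]
    have : (Finset.univ.filter (fun i : Fin m => i < j)) = Finset.Iio j := by
      ext i
      simp
    rw [this, Fin.card_Iio]
  rw [h1, ← Finset.sum_range_id_mul_two m, Finset.sum_range]

private theorem cls_card_T (m : ℕ) :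
    Fintype.card {x : (Fin m × Bool) × (Fin m × Bool) // x.1.1 < x.2.1} = 2 * (m * (m - 1)) := by
  rw [Fintype.card_congr
    (show {x : (Fin m × Bool) × (Fin m × Bool) // x.1.1 < x.2.1} ≃
        {y : Fin m × Fin m // y.1 < y.2} × (Bool × Bool) from
      { toFun := fun x => (⟨(x.1.1.1, x.1.2.1), x.2⟩, (x.1.1.2, x.1.2.2))
        invFun := fun z => ⟨((z.1.1.1, z.2.1), (z.1.1.2, z.2.2)), z.1.2⟩
        left_inv := fun _ => rfl
        right_inv := fun _ => rfl }), Fintype.card_prod, Fintype.card_prod, Fintype.card_bool,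
    ← cls_card_lt m]
  ring

private theorem cls_card_J {J : Type*} [Fintype J] (k : ℕ) (e : J ≃ Fin (k + 1) × Bool) :
    Fintype.card J = 2 * k + 2 := by
  rw [Fintype.card_congr e, Fintype.card_prod, Fintype.card_fin, Fintype.card_bool]
  ring

private theorem cls_sum {A X : Type*} [Fintype A] [Fintype X] (f : X → A) :
    ∑ c, Nat.card {x : X // f x = c} = Fintype.card X := by
  classical
  rw [← Fintype.card_congr (Equiv.sigmaFiberEquiv f), Fintype.card_sigma]
  refine Finset.sum_congr rfl fun c _ => ?_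
  rw [Nat.card_eq_fintype_card]

section

variable {A J : Type*} [Fintype A] [Fintype J] (k : ℕ)
  {μ : J → J} (e : J ≃ Fin (k + 1) × Bool)

theorem card_Pr : Fintype.card (Pr e) = 2 * k * (k + 1) := by
  classical
  rw [Fintype.card_congr
    (show Pr e ≃ {x : (Fin (k + 1) × Bool) × (Fin (k + 1) × Bool) // x.1.1 < x.2.1} from
      { toFun := fun z => ⟨(e z.1.1, e z.1.2), z.2⟩
        invFun := fun x => ⟨(e.symm x.1.1, e.symm x.1.2), by
          rw [e.apply_symm_apply, e.apply_symm_apply]
          exact x.2⟩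
        left_inv := fun z => Subtype.ext (Prod.ext (e.symm_apply_apply _) (e.symm_apply_apply _))
        right_inv := fun x => Subtype.ext (Prod.ext (e.apply_symm_apply _)
          (e.apply_symm_apply _)) }), cls_card_T, Nat.add_sub_cancel]
  ring

theorem card_L (hk : 1 ≤ k) (hA : Fintype.card A = 2 * k + 2)
    (he : ∀ j, e (μ j) = ((e j).1, !(e j).2)) {L : J → J → A}
    {side : J → ZMod 2} (hL : IsLam L μ side) (c : A) :
    Nat.card {z : Pr e // L z.1.1 z.1.2 = c} = k := by
  classical
  have hblk : ∀ x y : J, x = y ∨ x = μ y → (e x).1 = (e y).1 := by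
    rintro x y (h | h)
    · rw [h]
    · rw [h, he]
  have hle : ∀ c : A, Nat.card {z : Pr e // L z.1.1 z.1.2 = c} ≤ k := by
    intro c
    obtain ⟨j, j', hjj, h1, h2⟩ := hL.l0 c
    have hbad : ∀ i : J, (L i i = c ∨ L i (μ i) = c) → ∀ z : {z : Pr e // L z.1.1 z.1.2 = c},
        z.1.1.1 ≠ i ∧ z.1.1.2 ≠ i := by
      intro i hi z
      have hz : L z.1.1.1 z.1.1.2 = c := z.2
      have hlt : (e z.1.1.1).1 < (e z.1.1.2).1 := z.1.2
      have hu : ∀ x, L i x = c → x = i ∨ x = μ i := by
        intro x hx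
        rcases hi with hi | hi
        · exact Or.inl (hL.inj i x i (by rw [hx, hi]))
        · exact Or.inr (hL.inj i x (μ i) (by rw [hx, hi]))
      constructor
      · intro h
        have h3 := hblk _ _ (hu z.1.1.2 (by rw [← h]; exact hz))
        rw [h, h3] at hlt
        exact lt_irrefl _ hlt
      · intro h
        have h3 := hblk _ _ (hu z.1.1.1 (by rw [← h, hL.symm]; exact hz))
        rw [h, h3] at hlt
        exact lt_irrefl _ hlt
    have key := cls_two_card (X := {z : Pr e // L z.1.1 z.1.2 = c}) (fun z => z.1.1.1)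
      (fun z => z.1.1.2) {j, j'} (by
        intro x y hxy
        have h3 : L x.1.1.1 x.1.1.2 = L y.1.1.1 y.1.1.2 := by rw [x.2, y.2]
        rw [hxy] at h3
        exact Subtype.ext (Subtype.ext (Prod.ext hxy (hL.inj _ _ _ h3)))) (by
        intro x y hxy
        have h3 : L x.1.1.1 x.1.1.2 = L y.1.1.1 y.1.1.2 := by rw [x.2, y.2]
        rw [hxy, hL.symm, hL.symm y.1.1.1] at h3
        exact Subtype.ext (Subtype.ext (Prod.ext (hL.inj _ _ _ h3) hxy))) (by
        intro x y hxy
        have h3 : L x.1.1.1 x.1.1.2 = L y.1.1.1 y.1.1.2 := by rw [x.2, y.2]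
        rw [hxy, hL.symm y.1.1.1] at h3
        have h4 := hL.inj _ _ _ h3
        have h5 : (e x.1.1.1).1 < (e x.1.1.2).1 := x.1.2
        have h6 : (e y.1.1.1).1 < (e y.1.1.2).1 := y.1.2
        rw [hxy, h4] at h5
        exact lt_asymm h5 h6) (by
        intro x hx
        rw [Finset.mem_insert, Finset.mem_singleton] at hx
        rcases hx with hx | hx
        · exact (hbad j h1 x).1 hx
        · exact (hbad j' h2 x).1 hx) (by
        intro x hx
        rw [Finset.mem_insert, Finset.mem_singleton] at hx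
        rcases hx with hx | hx
        · exact (hbad j h1 x).2 hx
        · exact (hbad j' h2 x).2 hx)
    rw [Finset.card_pair hjj, cls_card_J k e] at key
    rw [Nat.card_eq_fintype_card]
    omega
  have hsum : ∑ c, Nat.card {z : Pr e // L z.1.1 z.1.2 = c} = ∑ _c : A, k := by
    rw [cls_sum (fun z : Pr e => L z.1.1 z.1.2), card_Pr, Finset.sum_const, Finset.card_univ, hA,
      smul_eq_mul]
    ring
  exact (Finset.sum_eq_sum_iff_of_le (fun c _ => hle c)).1 hsum c (Finset.mem_univ c)

theorem card_g_le [Zero A] {g : J → J → A} (hg : IsOF g) (c : A) :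
    Nat.card {z : Pr e // g z.1.1 z.1.2 = c} ≤ k + 1 := by
  classical
  have hne : ∀ z : Pr e, z.1.1 ≠ z.1.2 := by
    intro z h
    have h5 : (e z.1.1).1 < (e z.1.2).1 := z.2
    rw [h] at h5
    exact lt_irrefl _ h5
  have key := cls_two_card (X := {z : Pr e // g z.1.1 z.1.2 = c}) (fun z => z.1.1.1)
    (fun z => z.1.1.2) ∅ (by
      intro x y hxy
      have h3 : g x.1.1.1 x.1.1.2 = g y.1.1.1 y.1.1.2 := by rw [x.2, y.2]
      rw [hxy] at h3
      exact Subtype.ext (Subtype.ext (Prod.ext hxy
        (hg.inj _ _ _ (fun h => hne x.1 (hxy.trans h.symm)) (hne y.1).symm h3)))) (by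
      intro x y hxy
      have h3 : g x.1.1.1 x.1.1.2 = g y.1.1.1 y.1.1.2 := by rw [x.2, y.2]
      rw [hxy, hg.symm, hg.symm y.1.1.1] at h3
      exact Subtype.ext (Subtype.ext (Prod.ext
        (hg.inj _ _ _ (fun h => hne x.1 (h.trans hxy.symm)) (hne y.1) h3) hxy))) (by
      intro x y hxy
      have h3 : g x.1.1.1 x.1.1.2 = g y.1.1.1 y.1.1.2 := by rw [x.2, y.2]
      rw [hxy, hg.symm y.1.1.1] at h3
      have h4 := hg.inj _ _ _ (fun h => hne x.1 (hxy.trans h.symm)) (hne y.1) h3
      have h5 : (e x.1.1.1).1 < (e x.1.1.2).1 := x.1.2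
      have h6 : (e y.1.1.1).1 < (e y.1.1.2).1 := y.1.2
      rw [hxy, h4] at h5
      exact lt_asymm h5 h6) (fun x => Finset.notMem_empty _) (fun x => Finset.notMem_empty _)
  rw [Finset.card_empty, cls_card_J k e] at key
  rw [Nat.card_eq_fintype_card]
  omega

theorem card_sep [Zero A] (hA : Fintype.card A = 2 * k + 2) {S : A → J → ℤ} (hS : IsH S)
    (z : Pr e) : Nat.card {a : A // S a z.1.2 = - S a z.1.1} = k + 1 := by
  classical
  have hne : z.1.1 ≠ z.1.2 := by
    intro h
    have h5 : (e z.1.1).1 < (e z.1.2).1 := z.2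
    rw [h] at h5
    exact lt_irrefl _ h5
  have h1 := CB.col_orth (by rw [hA, cls_card_J k e]) hS z.1.1 z.1.2 hne
  have h2 : ∀ a, S a z.1.1 * S a z.1.2 =
      1 - 2 * (if S a z.1.2 = - S a z.1.1 then (1 : ℤ) else 0) := by
    intro a
    rcases hS.sign a z.1.1 with h | h <;> rcases hS.sign a z.1.2 with h' | h' <;>
      rw [h, h'] <;> norm_num
  rw [Finset.sum_congr rfl (fun a _ => h2 a), Finset.sum_sub_distrib, ← Finset.mul_sum,
    Finset.sum_boole, Finset.sum_const, Finset.card_univ, hA, nsmul_eq_mul] at h1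
  rw [Nat.card_eq_fintype_card, Fintype.card_subtype]
  push_cast at h1
  omega

end

end Pool.Agent.Lib.MP_db622c_co.P7
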