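import Pool.Agent.Lib.MP_db622c_co.P7.Defs
import Pool.Agent.Lib.MP_db622c_co.CB.Rows

/-!
# P7-Col: the proper colouring of the pairs

PROOF.  Let `h = card J = card A`, `4 ∣ h`.  If `h = 0` everything is vacuous (but `F × A` is not
empty; `F1` is not empty).  For `v ≠ u` exactly half of the rows `a` satisfy
`S a u = - S a v`: `∑ a, S a v * S a u = 0` (`col_orth` of `CB.Rows`), entries `± 1`.
By induction on a finite set `E` of unordered pairs (`Finset (Sym2 J)`, no diagonal elements):
there is `col : Sym2 J → F × A` such that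
 (i) for `e = s(v, u) ∈ E`: `(col e).1 ∈ F1` and `S (col e).2 u = - S (col e).2 v`;
 (ii) for `e ≠ e'` in `E` with a common point `col e ≠ col e'`;
 (iii) for every `c`, `4 * card {e ∈ E | col e = c} ≤ h`.
Step, new pair `e = s(v, u)`: the candidates are `F1 × {a | S a u = - S a v}`, at least
`8 * (h / 2) = 4 h`.  Forbidden: the colours of the pairs of `E` at `v` other than `e`: at most
`h - 2`; at `u`: at most `h - 2`; and the full colours, those with
`4 * card {e ∈ E | col e = c} = h` (as `4 ∣ h`, all others have `4 * (card + 1) ≤ h`): their number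
`x` satisfies `x * h ≤ 4 * card E ≤ 4 * h (h - 1) / 2`, so `x ≤ 2 (h - 1)`.
Total `≤ 4 h - 6 < 4 h`.  Take an allowed one.
With `E` = all pairs put `rh v u = col s(v, u)`.  `half`: the points covered by the colour `c` are
the end points of the pairs of colour `c`, at most `2 * (h / 4)`.
-/

namespace Pool.Agent.Lib.MP_db622c_co.P7

open Pool.Agent.Lib.MP_db622c_co Pool.Agent.Lib.MP_db622c_co.CB

private structure ColOK {F A J : Type*} [Zero A] [Fintype J] [DecidableEq (F × A)]
    (F1 : Finset F) (S : A → J → ℤ) (E : Finset (Sym2 J)) (col : Sym2 J → F × A) : Prop where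
  i1 : ∀ v u, s(v, u) ∈ E → (col s(v, u)).1 ∈ F1 ∧ S (col s(v, u)).2 u = - S (col s(v, u)).2 v
  i2 : ∀ v u u', s(v, u) ∈ E → s(v, u') ∈ E → s(v, u) ≠ s(v, u') → col s(v, u) ≠ col s(v, u')
  i3 : ∀ c, 4 * (E.filter fun e => col e = c).card ≤ Fintype.card J

private theorem col_half {A J : Type*} [Zero A] [Fintype A] [Fintype J]
    (hc : Fintype.card A = Fintype.card J) {S : A → J → ℤ} (hS : IsH S) (v u : J) (hvu : v ≠ u) :
    2 * (Finset.univ.filter fun a => S a u = - S a v).card = Fintype.card J := by
  have h1 := col_orth hc hS v u hvu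
  have h2 : ∀ a, (1 : ℤ) - S a v * S a u = if S a u = - S a v then 2 else 0 := by
    intro a
    rcases hS.sign a v with h3 | h3 <;> rcases hS.sign a u with h4 | h4 <;>
      rw [h3, h4] <;> norm_num
  have h3 : ∑ a : A, ((1 : ℤ) - S a v * S a u) = Fintype.card J := by
    rw [Finset.sum_sub_distrib, h1, sub_zero, Finset.sum_const, Finset.card_univ, hc]
    simp
  rw [Finset.sum_congr rfl fun a _ => h2 a, ← Finset.sum_filter, Finset.sum_const] at h3
  have h4 : ((2 * (Finset.univ.filter fun a => S a u = - S a v).card : ℕ) : ℤ) =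
      (Fintype.card J : ℤ) := by
    rw [← h3]
    push_cast
    simp
    ring
  exact_mod_cast h4

private theorem col_step {F A J : Type*} [Zero A] [Fintype A] [Fintype J]
    [DecidableEq (F × A)] [DecidableEq (Sym2 J)] [DecidableEq J]
    (F1 : Finset F) (hF : 8 ≤ F1.card) (hc : Fintype.card A = Fintype.card J)
    (h4 : 4 ∣ Fintype.card J) {S : A → J → ℤ} (hS : IsH S) (E : Finset (Sym2 J))
    (hE : ∀ e ∈ E, ¬ e.IsDiag) (col : Sym2 J → F × A) (hcol : ColOK F1 S E col)
    (e : Sym2 J) (he : ¬ e.IsDiag) (heE : e ∉ E) : ∃ col', ColOK F1 S (insert e E) col' := by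
  classical
  have hh1 : 0 < Fintype.card J := by
    rw [← hc]
    exact Fintype.card_pos_iff.2 ⟨0⟩
  induction e using Sym2.ind with
  | _ v u =>
  have hvu : v ≠ u := fun h => he (Sym2.mk_isDiag_iff.2 h)
  -- the bad colours
  set B1 : Finset (F × A) := ((Finset.univ.erase v).erase u).image fun w => col s(v, w) with hB1
  set B2 : Finset (F × A) := ((Finset.univ.erase u).erase v).image fun w => col s(u, w) with hB2
  set B3 : Finset (F × A) := (E.image col).filter
    (fun c => 4 * (E.filter fun e => col e = c).card = Fintype.card J) with hB3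
  set T : Finset (F × A) := F1 ×ˢ (Finset.univ.filter fun a => S a u = - S a v) with hT
  have hc1 : B1.card ≤ Fintype.card J - 2 := by
    refine Finset.card_image_le.trans ?_
    rw [Finset.card_erase_of_mem (Finset.mem_erase.2 ⟨hvu.symm, Finset.mem_univ _⟩),
      Finset.card_erase_of_mem (Finset.mem_univ _), Finset.card_univ]
    omega
  have hc2 : B2.card ≤ Fintype.card J - 2 := by
    refine Finset.card_image_le.trans ?_
    rw [Finset.card_erase_of_mem (Finset.mem_erase.2 ⟨hvu, Finset.mem_univ _⟩),
      Finset.card_erase_of_mem (Finset.mem_univ _), Finset.card_univ]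
    omega
  have hEc : 2 * E.card ≤ Fintype.card J * (Fintype.card J - 1) := by
    have h1 : E.card ≤ (Fintype.card J).choose 2 := by
      rw [← Sym2.card_subtype_not_diag, Fintype.card_subtype]
      refine Finset.card_le_card fun z hz => ?_
      rw [Finset.mem_filter]
      exact ⟨Finset.mem_univ _, hE z hz⟩
    rw [Nat.choose_two_right] at h1
    have h2 := Nat.div_mul_le_self (Fintype.card J * (Fintype.card J - 1)) 2
    omega
  have hc3 : B3.card ≤ 2 * (Fintype.card J - 1) := by
    have h1 : B3.card * Fintype.card J ≤ 4 * E.card := by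
      have h2 : ∑ c ∈ B3, 4 * (E.filter fun e => col e = c).card = B3.card * Fintype.card J := by
        rw [← smul_eq_mul, ← Finset.sum_const]
        exact Finset.sum_congr rfl fun c hc => (Finset.mem_filter.1 hc).2
      rw [← h2, ← Finset.mul_sum]
      refine Nat.mul_le_mul_left 4 ?_
      have h3 : E.card = ∑ c ∈ E.image col, (E.filter fun e => col e = c).card :=
        Finset.card_eq_sum_card_image col E
      rw [h3]
      exact Finset.sum_le_sum_of_subset (Finset.filter_subset _ _)
    have h4 : B3.card * Fintype.card J ≤ (2 * (Fintype.card J - 1)) * Fintype.card J := by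
      calc B3.card * Fintype.card J ≤ 4 * E.card := h1
        _ ≤ 2 * (Fintype.card J * (Fintype.card J - 1)) := by omega
        _ = (2 * (Fintype.card J - 1)) * Fintype.card J := by ring
    exact Nat.le_of_mul_le_mul_right h4 hh1
  have hTc : 4 * Fintype.card J ≤ T.card := by
    rw [hT, Finset.card_product]
    have h1 := col_half hc hS v u hvu
    have h2 := Nat.mul_le_mul_right (Finset.univ.filter fun a => S a u = - S a v).card hF
    omega
  have hex : ∃ c ∈ T, c ∉ B1 ∪ B2 ∪ B3 := by
    by_contra hcon
    push Not at hcon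
    have h1 := Finset.card_le_card (show T ⊆ B1 ∪ B2 ∪ B3 from fun c hc => hcon c hc)
    have h2 := Finset.card_union_le (B1 ∪ B2) B3
    have h3 := Finset.card_union_le B1 B2
    obtain ⟨k, hk⟩ := h4
    omega
  obtain ⟨c, hcT, hcB⟩ := hex
  rw [Finset.mem_union, Finset.mem_union, not_or, not_or] at hcB
  obtain ⟨⟨hcB1, hcB2⟩, hcB3⟩ := hcB
  rw [hT, Finset.mem_product, Finset.mem_filter] at hcT
  -- a pair of `E` at `v` or `u` does not have the colour `c`
  have hne : ∀ w z, s(w, z) ∈ E → (w = v ∨ w = u) → col s(w, z) ≠ c := by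
    intro w z hwz hw hcc
    have hwz' : w ≠ z := fun h => hE _ hwz (Sym2.mk_isDiag_iff.2 h)
    rcases hw with rfl | rfl
    · apply hcB1
      rw [hB1, Finset.mem_image]
      refine ⟨z, ?_, hcc⟩
      rw [Finset.mem_erase, Finset.mem_erase]
      refine ⟨?_, hwz'.symm, Finset.mem_univ _⟩
      rintro rfl
      exact heE hwz
    · apply hcB2
      rw [hB2, Finset.mem_image]
      refine ⟨z, ?_, hcc⟩
      rw [Finset.mem_erase, Finset.mem_erase]
      refine ⟨?_, hwz'.symm, Finset.mem_univ _⟩
      rintro rfl
      exact heE (by rw [Sym2.eq_swap]; exact hwz)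
  have hup : ∀ z ∈ E, Function.update col s(v, u) c z = col z := by
    intro z hz
    refine Function.update_of_ne ?_ _ _
    rintro rfl
    exact heE hz
  refine ⟨Function.update col s(v, u) c, ?_, ?_, ?_⟩
  · intro v' u' hvu'
    by_cases heq : s(v', u') = s(v, u)
    · rw [heq, Function.update_self]
      rw [Sym2.eq_iff] at heq
      rcases heq with ⟨rfl, rfl⟩ | ⟨rfl, rfl⟩
      · exact ⟨hcT.1, hcT.2.2⟩
      · refine ⟨hcT.1, ?_⟩
        have := hcT.2.2
        omega
    · have hm : s(v', u') ∈ E := by
        rcases Finset.mem_insert.1 hvu' with h | h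
        · exact absurd h heq
        · exact h
      rw [hup _ hm]
      exact hcol.i1 v' u' hm
  · intro w z z' h1 h2 h12
    by_cases he1 : s(w, z) = s(v, u)
    · have hm2 : s(w, z') ∈ E := by
        rcases Finset.mem_insert.1 h2 with h | h
        · exact absurd (he1.trans h.symm) h12
        · exact h
      have hw : w = v ∨ w = u := by
        rw [Sym2.eq_iff] at he1
        rcases he1 with ⟨h, -⟩ | ⟨h, -⟩
        · exact Or.inl h
        · exact Or.inr h
      rw [he1, Function.update_self, hup _ hm2]
      exact (hne w z' hm2 hw).symm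
    · have hm1 : s(w, z) ∈ E := by
        rcases Finset.mem_insert.1 h1 with h | h
        · exact absurd h he1
        · exact h
      by_cases he2 : s(w, z') = s(v, u)
      · have hw : w = v ∨ w = u := by
          rw [Sym2.eq_iff] at he2
          rcases he2 with ⟨h, -⟩ | ⟨h, -⟩
          · exact Or.inl h
          · exact Or.inr h
        rw [he2, Function.update_self, hup _ hm1]
        exact hne w z hm1 hw
      · have hm2 : s(w, z') ∈ E := by
          rcases Finset.mem_insert.1 h2 with h | h
          · exact absurd h he2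
          · exact h
        rw [hup _ hm1, hup _ hm2]
        exact hcol.i2 w z z' hm1 hm2 h12
  · intro c'
    have hold := hcol.i3 c'
    by_cases hcc : c' = c
    · have hnf : 4 * (E.filter fun e => col e = c').card ≠ Fintype.card J := by
        intro hful
        apply hcB3
        rw [hB3, Finset.mem_filter]
        refine ⟨?_, hcc ▸ hful⟩
        have hpos : 0 < (E.filter fun e => col e = c').card := by omega
        obtain ⟨z, hz⟩ := Finset.card_pos.1 hpos
        rw [Finset.mem_filter] at hz
        rw [Finset.mem_image]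
        exact ⟨z, hz.1, hz.2.trans hcc⟩
      have hle : ((insert s(v, u) E).filter
          fun e => Function.update col s(v, u) c e = c').card ≤
          (E.filter fun e => col e = c').card + 1 := by
        refine (Finset.card_le_card (t := insert s(v, u) (E.filter fun e => col e = c')) ?_).trans
          (Finset.card_insert_le _ _)
        intro z hz
        rw [Finset.mem_filter, Finset.mem_insert] at hz
        rw [Finset.mem_insert, Finset.mem_filter]
        rcases hz.1 with h | h
        · exact Or.inl h
        · exact Or.inr ⟨h, by rw [← hup z h]; exact hz.2⟩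
      obtain ⟨k, hk⟩ := h4
      omega
    · refine le_trans (Nat.mul_le_mul_left 4 (Finset.card_le_card ?_)) hold
      intro z hz
      rw [Finset.mem_filter, Finset.mem_insert] at hz
      rw [Finset.mem_filter]
      rcases hz.1 with h | h
      · exfalso
        apply hcc
        rw [← hz.2, h, Function.update_self]
      · exact ⟨h, by rw [← hup z h]; exact hz.2⟩

private theorem col_all {F A J : Type*} [Zero A] [Fintype A] [Fintype J]
    [DecidableEq (F × A)] [DecidableEq (Sym2 J)] [DecidableEq J]
    (F1 : Finset F) (hF : 8 ≤ F1.card) (hc : Fintype.card A = Fintype.card J)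
    (h4 : 4 ∣ Fintype.card J) {S : A → J → ℤ} (hS : IsH S) (E : Finset (Sym2 J)) :
    (∀ e ∈ E, ¬ e.IsDiag) → ∃ col : Sym2 J → F × A, ColOK F1 S E col := by
  have hne : F1.Nonempty := Finset.card_pos.1 (by omega)
  obtain ⟨f0, -⟩ := hne
  induction E using Finset.induction_on with
  | empty =>
    intro _
    refine ⟨fun _ => (f0, 0), ?_, ?_, ?_⟩
    · intro v u h
      exact absurd h (Finset.notMem_empty _)
    · intro v u u' h
      exact absurd h (Finset.notMem_empty _)
    · intro c
      simp
  | insert e E he ih =>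
    intro hE
    obtain ⟨col, hcol⟩ := ih fun z hz => hE z (Finset.mem_insert_of_mem hz)
    exact col_step F1 hF hc h4 hS E (fun z hz => hE z (Finset.mem_insert_of_mem hz)) col hcol e
      (hE e (Finset.mem_insert_self _ _)) he

theorem exists_rh {F A J : Type*} [Zero A] [Fintype A] [Fintype J] (F1 : Finset F)
    (hF : 8 ≤ F1.card) (hc : Fintype.card A = Fintype.card J) (h4 : 4 ∣ Fintype.card J)
    {S : A → J → ℤ} (hS : IsH S) : ∃ rh : J → J → F × A, IsRh F1 S rh := by
  classical
  obtain ⟨col, hcol⟩ := col_all F1 hF hc h4 hS (Finset.univ.filter fun e : Sym2 J => ¬ e.IsDiag)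
    (fun e he => (Finset.mem_filter.1 he).2)
  have hmem : ∀ v u : J, v ≠ u → s(v, u) ∈ (Finset.univ.filter fun e : Sym2 J => ¬ e.IsDiag) := by
    intro v u hvu
    rw [Finset.mem_filter]
    exact ⟨Finset.mem_univ _, fun h => hvu (Sym2.mk_isDiag_iff.1 h)⟩
  refine ⟨fun v u => col s(v, u), ?_, ?_, ?_, ?_, ?_⟩
  · intro v u
    show col s(v, u) = col s(u, v)
    rw [Sym2.eq_swap]
  · intro v u u' hu hu' heq
    by_contra hne
    refine hcol.i2 v u u' (hmem v u hu.symm) (hmem v u' hu'.symm) ?_ heq
    intro h
    exact hne (Sym2.congr_right.1 h)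
  · intro v u hvu
    exact (hcol.i1 v u (hmem v u hvu)).1
  · intro v u hvu
    exact (hcol.i1 v u (hmem v u hvu)).2
  · intro c
    rw [Nat.card_eq_fintype_card, Fintype.card_subtype]
    have h1 : (Finset.univ.filter fun v : J => ∃ u, u ≠ v ∧ col s(v, u) = c) ⊆
        ((Finset.univ.filter fun e : Sym2 J => ¬ e.IsDiag).filter fun e => col e = c).biUnion
          (fun e => e.toFinset) := by
      intro v hv
      rw [Finset.mem_filter] at hv
      obtain ⟨-, u, hu, hcu⟩ := hv
      rw [Finset.mem_biUnion]
      refine ⟨s(v, u), Finset.mem_filter.2 ⟨hmem v u hu.symm, hcu⟩, ?_⟩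
      rw [Sym2.mem_toFinset]
      exact Sym2.mem_mk_left v u
    have h2 := Finset.card_le_card h1
    have h3 : (((Finset.univ.filter fun e : Sym2 J => ¬ e.IsDiag).filter
        fun e => col e = c).biUnion (fun e => e.toFinset)).card ≤
        ((Finset.univ.filter fun e : Sym2 J => ¬ e.IsDiag).filter fun e => col e = c).card * 2 := by
      refine Finset.card_biUnion_le_card_mul _ _ _ fun e _ => ?_
      rw [Sym2.card_toFinset]
      split_ifs <;> norm_num
    have h5 := hcol.i3 c
    show 2 * (Finset.univ.filter fun v : J => ∃ u, u ≠ v ∧ col s(v, u) = c).card ≤ _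
    omega

end Pool.Agent.Lib.MP_db622c_co.P7
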