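import Pool.Agent.Lib.MP_db622c_co.P7.Kon

/-!
# P7-Ed: edge colouring of bipartite multigraphs (König) with permutations

PROOF.  Fix `a : A`, `P = {p : Q | L p = a}` (subtype).  On `X = P ⊕ R` define
`m (inl p) (inr r) = card {n | c p n = r}`, `m (inr r) (inl p) = card {n | c p n = r}`,
`m (inr r) (inr r) = v - d r` with `v = card V`, `d r = ∑ p : P, card {n | c p n = r} ≤ v`
(`hload`), all other values `0`.  All row and column sums are `v`.  `exists_perms` with `T = V`:
`π : V → Equiv.Perm X` with `card {α | π α x = y} = m x y`.  For `p : P` and `α : V` the element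
`π α (inl p)` is `inr (ρ p α)` (since `m (inl p) (inl p') = 0`), and for every `r`
`card {α | ρ p α = r} = card {n | c p n = r}`; so there is a permutation `σ p` of `V` with
`c p (σ p α) = ρ p α` for all `α` (two functions on a finite set with fibres of equal sizes; e.g.
choose bijections of the fibres, `Equiv.sigmaFiberEquiv`).  If `c p (σ p α) = c p' (σ p' α)` then
`π α (inl p) = π α (inl p')`, so `p = p'`.
-/

namespace Pool.Agent.Lib.MP_db622c_co.P7

/-- two functions with fibres of equal sizes differ by a permutation of the source -/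
private theorem ed_perm {V R : Type*} [Fintype V] [DecidableEq R] (f g : V → R)
    (h : ∀ r, Nat.card {n : V // f n = r} = Nat.card {n : V // g n = r}) :
    ∃ σ : Equiv.Perm V, ∀ α, f (σ α) = g α := by
  classical
  have he : ∀ r, Nonempty ({n : V // g n = r} ≃ {n : V // f n = r}) := by
    intro r
    have h1 := h r
    rw [Nat.card_eq_fintype_card, Nat.card_eq_fintype_card] at h1
    exact Fintype.card_eq.1 h1.symm
  let e : ∀ r, {n : V // g n = r} ≃ {n : V // f n = r} := fun r => (he r).some
  refine ⟨(Equiv.sigmaFiberEquiv g).symm.trans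
    ((Equiv.sigmaCongrRight e).trans (Equiv.sigmaFiberEquiv f)), fun α => ?_⟩
  exact (e (g α) ⟨α, rfl⟩).2

private theorem ed_local {P V R : Type*} [Fintype P] [Fintype V] [Fintype R]
    (c : P → V → R)
    (hload : ∀ r, ∑ p : P, Nat.card {n : V // c p n = r} ≤ Fintype.card V) :
    ∃ σ : P → Equiv.Perm V, ∀ α p p', c p (σ p α) = c p' (σ p' α) → p = p' := by
  classical
  let m : P ⊕ R → P ⊕ R → ℕ := fun x y =>
    match x, y with
    | Sum.inl _, Sum.inl _ => 0
    | Sum.inl p, Sum.inr r => Nat.card {n : V // c p n = r}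
    | Sum.inr r, Sum.inl p => Nat.card {n : V // c p n = r}
    | Sum.inr r, Sum.inr r' =>
      if r = r' then Fintype.card V - ∑ p : P, Nat.card {n : V // c p n = r} else 0
  have hsymm : ∀ x y, m x y = m y x := by
    rintro (p | r) (p' | r')
    · rfl
    · rfl
    · rfl
    · by_cases hrr : r = r'
      · subst hrr
        rfl
      · have h1 : m (Sum.inr r) (Sum.inr r') = 0 := if_neg hrr
        have h2 : m (Sum.inr r') (Sum.inr r) = 0 := if_neg (Ne.symm hrr)
        rw [h1, h2]
  have hfib : ∀ p : P, ∑ r, Nat.card {n : V // c p n = r} = Fintype.card V := by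
    intro p
    have h1 : Fintype.card (Σ r, {n : V // c p n = r}) = Fintype.card V :=
      Fintype.card_congr (Equiv.sigmaFiberEquiv (c p))
    rw [Fintype.card_sigma] at h1
    rw [← h1]
    exact Finset.sum_congr rfl (fun r _ => Nat.card_eq_fintype_card)
  have hr : ∀ x, ∑ y, m x y = Fintype.card V := by
    rintro (p | r)
    · rw [Fintype.sum_sum_type]
      have h1 : ∑ p' : P, m (Sum.inl p) (Sum.inl p') = 0 := Finset.sum_eq_zero (fun _ _ => rfl)
      rw [h1, zero_add]
      exact hfib p
    · rw [Fintype.sum_sum_type]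
      have h1 : ∑ r' : R, m (Sum.inr r) (Sum.inr r') =
          Fintype.card V - ∑ p : P, Nat.card {n : V // c p n = r} := by
        rw [Finset.sum_eq_single r]
        · exact if_pos rfl
        · intro r' _ hne
          exact if_neg (Ne.symm hne)
        · intro h
          exact absurd (Finset.mem_univ r) h
      rw [h1]
      have h2 : ∑ p : P, m (Sum.inr r) (Sum.inl p) = ∑ p : P, Nat.card {n : V // c p n = r} := rfl
      rw [h2]
      have := hload r
      omega
  have hc : ∀ y, ∑ x, m x y = Fintype.card V := by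
    intro y
    rw [← hr y]
    exact Finset.sum_congr rfl (fun x _ => hsymm x y)
  obtain ⟨π, hπ⟩ := exists_perms (T := V) m hr hc
  have hin : ∀ (p : P) (α : V), ∃ r, π α (Sum.inl p) = Sum.inr r := by
    intro p α
    rcases hx : π α (Sum.inl p) with p' | r
    · exfalso
      have h1 : Nat.card {t : V // π t (Sum.inl p) = Sum.inl p'} = 0 := hπ _ _
      have h2 : IsEmpty {t : V // π t (Sum.inl p) = Sum.inl p'} := by
        rcases Nat.card_eq_zero.1 h1 with h3 | h3
        · exact h3
        · exact absurd (inferInstance : Finite {t : V // π t (Sum.inl p) = Sum.inl p'})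
            (not_finite_iff_infinite.2 h3)
      exact h2.false ⟨α, hx⟩
    · exact ⟨r, rfl⟩
  choose ρ hρ using hin
  have hcard : ∀ (p : P) (r : R),
      Nat.card {n : V // c p n = r} = Nat.card {α : V // ρ p α = r} := by
    intro p r
    have h1 : Nat.card {t : V // π t (Sum.inl p) = Sum.inr r} =
        Nat.card {n : V // c p n = r} := hπ _ _
    rw [← h1]
    refine Nat.card_congr (Equiv.subtypeEquivRight fun α => ?_)
    rw [hρ p α]
    exact Sum.inr.inj_iff
  have hσ : ∀ p : P, ∃ σ : Equiv.Perm V, ∀ α, c p (σ α) = ρ p α := fun p =>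
    ed_perm (c p) (ρ p) (hcard p)
  choose σ hσ using hσ
  refine ⟨σ, fun α p p' h => ?_⟩
  rw [hσ, hσ] at h
  have h1 : π α (Sum.inl p) = π α (Sum.inl p') := by rw [hρ, hρ, h]
  exact Sum.inl.inj ((π α).injective h1)

theorem exists_sigma {Q V R A : Type*} [Fintype Q] [Fintype V] [Fintype R] (L : Q → A)
    (c : Q → V → R)
    (hload : ∀ a r, Nat.card {z : Q × V // L z.1 = a ∧ c z.1 z.2 = r} ≤ Fintype.card V) :
    ∃ σ : Q → Equiv.Perm V, ∀ α p p', L p = L p' → c p (σ p α) = c p' (σ p' α) → p = p' := by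
  classical
  have hloc : ∀ a : A, ∃ σ : {p : Q // L p = a} → Equiv.Perm V,
      ∀ α p p', c p.1 (σ p α) = c p'.1 (σ p' α) → p = p' := by
    intro a
    refine ed_local (fun p : {p : Q // L p = a} => c p.1) ?_
    intro r
    refine le_trans (le_of_eq ?_) (hload a r)
    let e : (Σ p : {p : Q // L p = a}, {n : V // c p.1 n = r}) ≃
        {z : Q × V // L z.1 = a ∧ c z.1 z.2 = r} :=
      { toFun := fun x => ⟨(x.1.1, x.2.1), x.1.2, x.2.2⟩
        invFun := fun z => ⟨⟨z.1.1, z.2.1⟩, ⟨z.1.2, z.2.2⟩⟩
        left_inv := fun _ => rfl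
        right_inv := fun _ => rfl }
    rw [← Nat.card_congr e, Nat.card_eq_fintype_card, Fintype.card_sigma]
    exact Finset.sum_congr rfl (fun p _ => Nat.card_eq_fintype_card)
  choose σ hσ using hloc
  refine ⟨fun p => σ (L p) ⟨p, rfl⟩, fun α p p' hL h => ?_⟩
  have h1 : ∀ (a : A) (ha : L p' = a), σ (L p') ⟨p', rfl⟩ = σ a ⟨p', ha⟩ := by
    intro a ha
    subst ha
    rfl
  have h : c p (σ (L p) ⟨p, rfl⟩ α) = c p' (σ (L p') ⟨p', rfl⟩ α) := h
  rw [h1 (L p) hL.symm] at h
  exact congrArg Subtype.val (hσ (L p) α ⟨p, rfl⟩ ⟨p', hL.symm⟩ h)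

end Pool.Agent.Lib.MP_db622c_co.P7
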