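import Pool.Agent.Lib.MP_db622c_co.P7.PS

/-!
# P7-R2: a random relabelling of the round classes of the zero units

PROOF.  `v = card V ≥ 1` and `k ≥ 20000` as in `R1` (`hV2`, `hV1`).  Fix `e`; let
`c n = (It e n).card ≤ 3 ℓ`, `∑ c n ≤ 11 v / 20`, `X n y = card {p ∈ It e n | y ∉ B e n p}`,
`0 ≤ X n y ≤ c n ≤ 3 ℓ`, `∑ y, X n y = ∑ p ∈ It e n, (2 k - card (B e n p)) ≤ c n (k + 1)`.
`W = 23 / 20`, `w = W ^ (1 / (3 ℓ))`: `w ^ X ≤ 1 + X (W - 1) / (3 ℓ)` for `0 ≤ X ≤ 3 ℓ`, so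
`∑ y, w ^ (X n y) ≤ 2 k + 3 c n (k + 1) / (60 ℓ)`.  By `avg_perm_le` (`x e` injective)
`∑ π, ∏ n, w ^ (X n (π (x e n))) ≤ (2 k)! ∏ n ((2 k + c n (k + 1) / (20 ℓ)) / (2 k - v))
 ≤ (2 k)! exp ((v ^ 2 + (11 v / 20) (k + 1) / (20 ℓ)) / (2 k - v))`;
the exponent is at most `v / ℓ * (0.0275 * 0.50004 + 0.000026) ≤ 0.01378 v / ℓ`.
If `25 * ∑ n, X n (π (x e n)) > 8 v`, the product is at least `W ^ (8 v / (75 ℓ)) =
exp ((8 / 75) log (1.15) v / ℓ) ≥ exp (0.01488 v / ℓ)` (`log 1.15 ≥ 2 (0.15 / 2.15) = 0.13953`).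
So the proportion of bad `π` is at most `exp (- 0.0011 v / ℓ) ≤ exp (- v / (2000 ℓ))`, and
`card E ≤ 4 k (k + 1) < 8 (k + 1) ^ 2`.
-/

namespace Pool.Agent.Lib.MP_db622c_co.P7

private theorem R2_exp_le {t W : ℝ} (hW : 0 < W) (h0 : 0 ≤ t) (h1 : t ≤ 1) :
    Real.exp (t * Real.log W) ≤ 1 + t * (W - 1) := by
  have h := convexOn_exp.2 (Set.mem_univ (Real.log W)) (Set.mem_univ (0 : ℝ)) h0
    (by linarith : 0 ≤ 1 - t) (by ring)
  simp only [smul_eq_mul, mul_zero, add_zero, Real.exp_zero, mul_one, Real.exp_log hW] at h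
  linarith

private theorem R2_markov {P : Type*} [Fintype P] (bad : P → Prop) [DecidablePred bad]
    (F : P → ℝ) (c : ℝ) (hF : ∀ π, 0 ≤ F π) (hb : ∀ π, bad π → c ≤ F π) :
    (((Finset.univ : Finset P).filter bad).card : ℝ) * c ≤ ∑ π, F π := by
  rw [← nsmul_eq_mul, ← Finset.sum_const]
  refine le_trans (Finset.sum_le_sum (g := F) ?_) (Finset.sum_le_univ_sum_of_nonneg hF)
  intro π hπ
  exact hb π (Finset.mem_filter.1 hπ).2

open Classical in
private theorem R2_sum_X {Q : Type*} (k : ℕ) (hk : 1 ≤ k) [NeZero (2 * k)] (I : Finset Q)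
    (B : Q → Finset (ZMod (2 * k))) (hB : ∀ p ∈ I, k - 1 ≤ (B p).card) :
    ∑ y : ZMod (2 * k), (I.filter (fun p => y ∉ B p)).card ≤ I.card * (k + 1) := by
  have h0 : ∑ y : ZMod (2 * k), (I.filter (fun p => y ∉ B p)).card =
      ∑ p ∈ I, ((Finset.univ : Finset (ZMod (2 * k))).filter (fun y => y ∉ B p)).card := by
    simp only [Finset.card_filter]
    exact Finset.sum_comm
  rw [h0]
  calc ∑ p ∈ I, ((Finset.univ : Finset (ZMod (2 * k))).filter (fun y => y ∉ B p)).card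
      ≤ ∑ _p ∈ I, (k + 1) := by
        refine Finset.sum_le_sum fun p hp => ?_
        have e : (Finset.univ : Finset (ZMod (2 * k))).filter (fun y => y ∉ B p) = (B p)ᶜ := by
          ext y
          simp
        rw [e, Finset.card_compl, ZMod.card]
        have := hB p hp
        omega
    _ = I.card * (k + 1) := by rw [Finset.sum_const, smul_eq_mul]

open Classical in
private theorem R2_one {V Q : Type*} [Fintype V] [Fintype Q] (k ℓ : ℕ) (hk : 1 ≤ k)
    (hℓ : 1 ≤ ℓ) [NeZero (2 * k)] (x : V → ZMod (2 * k)) (hx : Function.Injective x)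
    (It : V → Finset Q) (B : V → Q → Finset (ZMod (2 * k)))
    (hB : ∀ n, ∀ p ∈ It n, k - 1 ≤ (B n p).card)
    (h1 : ∀ n, (It n).card ≤ 3 * ℓ)
    (h2 : 20 * ∑ n : V, (It n).card ≤ 11 * Fintype.card V)
    (hv : 1 ≤ Fintype.card V) (hV1 : 20000 * ℓ * Fintype.card V ≤ k) :
    (((Finset.univ : Finset (Equiv.Perm (ZMod (2 * k)))).filter (fun π =>
      8 * Fintype.card V <
        25 * ∑ n : V, ((It n).filter (fun p => π (x n) ∉ B n p)).card)).card : ℝ) ≤
      ((2 * k).factorial : ℝ) * Real.exp (-((Fintype.card V : ℝ) / (2000 * ℓ))) := by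
  obtain ⟨v, hvdef⟩ : ∃ v : ℝ, v = (Fintype.card V : ℝ) := ⟨_, rfl⟩
  have hv1 : 1 ≤ v := by
    rw [hvdef]
    exact_mod_cast hv
  have hℓ1 : (1 : ℝ) ≤ ℓ := by exact_mod_cast hℓ
  have hℓ0 : (0 : ℝ) < ℓ := by linarith
  have hV1' : 20000 * (ℓ * v) ≤ k := by
    have h : ((20000 * ℓ * Fintype.card V : ℕ) : ℝ) ≤ k := by exact_mod_cast hV1
    push_cast at h
    rw [← hvdef] at h
    linarith
  have hvl : v ≤ ℓ * v := by nlinarith
  have hkv : 20000 * v ≤ k := by linarith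
  have hk2 : (20000 : ℝ) ≤ k := by linarith
  have hden : 0 < 2 * (k : ℝ) - v := by linarith
  -- weights
  obtain ⟨X, hX⟩ : ∃ X : V → ZMod (2 * k) → ℕ,
      X = fun n y => ((It n).filter (fun p => y ∉ B n p)).card := ⟨_, rfl⟩
  obtain ⟨L, hL⟩ : ∃ L : ℝ, L = Real.log (23 / 20) / (3 * ℓ) := ⟨_, rfl⟩
  have hlog : (279 : ℝ) / 2000 ≤ Real.log (23 / 20) := by
    have h := Real.le_log_one_add_of_nonneg (by norm_num : (0 : ℝ) ≤ 3 / 20)
    have e : (1 : ℝ) + 3 / 20 = 23 / 20 := by norm_num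
    rw [e] at h
    refine le_trans ?_ h
    norm_num
  have hXc : ∀ n y, X n y ≤ (It n).card := by
    intro n y
    rw [hX]
    exact Finset.card_filter_le _ _
  have hexp : ∀ n y, Real.exp (L * X n y) ≤ 1 + (X n y : ℝ) / (20 * ℓ) := by
    intro n y
    have hle : (X n y : ℝ) ≤ 3 * ℓ := by
      exact_mod_cast (hXc n y).trans (h1 n)
    have h3 := R2_exp_le (t := (X n y : ℝ) / (3 * ℓ)) (W := 23 / 20) (by norm_num)
      (by positivity) (by rw [div_le_one (by positivity)]; exact hle)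
    have e1 : L * X n y = (X n y : ℝ) / (3 * ℓ) * Real.log (23 / 20) := by
      rw [hL]
      ring
    rw [e1]
    refine h3.trans (le_of_eq ?_)
    field_simp
    ring
  have hsum : ∀ n, ∑ y, Real.exp (L * X n y) ≤
      2 * k + ((It n).card : ℝ) * (k + 1) / (20 * ℓ) := by
    intro n
    have h3 : ∑ y, Real.exp (L * X n y) ≤ ∑ y : ZMod (2 * k), (1 + (X n y : ℝ) / (20 * ℓ)) :=
      Finset.sum_le_sum fun y _ => hexp n y
    have h4 : ∑ y : ZMod (2 * k), (1 + (X n y : ℝ) / (20 * ℓ)) =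
        2 * k + ((∑ y, X n y : ℕ) : ℝ) / (20 * ℓ) := by
      rw [Finset.sum_add_distrib, ← Finset.sum_div]
      congr 1
      · rw [Finset.sum_const, Finset.card_univ, ZMod.card]
        simp
      · push_cast
        rfl
    rw [h4] at h3
    refine h3.trans ?_
    have h5 : ((∑ y, X n y : ℕ) : ℝ) ≤ ((It n).card : ℝ) * (k + 1) := by
      have h6 := R2_sum_X k hk (It n) (B n) (hB n)
      rw [hX]
      exact_mod_cast h6
    have h7 := div_le_div_of_nonneg_right h5 (by positivity : (0 : ℝ) ≤ 20 * ℓ)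
    linarith
  have hcard : Fintype.card (ZMod (2 * k)) = 2 * k := ZMod.card _
  have hlt : Fintype.card V < Fintype.card (ZMod (2 * k)) := by
    rw [hcard]
    have h3 : v < 2 * k := by linarith
    rw [hvdef] at h3
    exact_mod_cast h3
  have avg := avg_perm_le x hx (fun n y => Real.exp (L * X n y)) (fun n y => (Real.exp_pos _).le) hlt
  rw [hcard] at avg
  push_cast at avg
  rw [← hvdef] at avg
  have hfac : ∀ n, (∑ y, Real.exp (L * X n y)) / (2 * (k : ℝ) - v) ≤
      Real.exp ((v + ((It n).card : ℝ) * (k + 1) / (20 * ℓ)) / (2 * k - v)) := by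
    intro n
    have h3 := div_le_div_of_nonneg_right (hsum n) hden.le
    refine h3.trans ?_
    have h4 := Real.add_one_le_exp ((v + ((It n).card : ℝ) * (k + 1) / (20 * ℓ)) / (2 * k - v))
    refine le_trans (le_of_eq ?_) h4
    rw [div_add_one hden.ne']
    congr 1
    ring
  have hprod : ∏ n, ((∑ y, Real.exp (L * X n y)) / (2 * (k : ℝ) - v)) ≤
      Real.exp (69 / 5000 * (v / ℓ)) := by
    have h3 : ∏ n, ((∑ y, Real.exp (L * X n y)) / (2 * (k : ℝ) - v)) ≤
        ∏ n : V, Real.exp ((v + ((It n).card : ℝ) * (k + 1) / (20 * ℓ)) / (2 * k - v)) :=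
      Finset.prod_le_prod (fun n _ => div_nonneg
        (Finset.sum_nonneg fun y _ => (Real.exp_pos _).le) hden.le) (fun n _ => hfac n)
    rw [← Real.exp_sum] at h3
    refine h3.trans (Real.exp_le_exp.2 ?_)
    rw [← Finset.sum_div, Finset.sum_add_distrib, Finset.sum_const, Finset.card_univ,
      nsmul_eq_mul, ← hvdef, ← Finset.sum_div, ← Finset.sum_mul, div_le_iff₀ hden]
    have h5 : (∑ n : V, ((It n).card : ℝ)) ≤ 11 / 20 * v := by
      have h6 : ((20 * ∑ n : V, (It n).card : ℕ) : ℝ) ≤ ((11 * Fintype.card V : ℕ) : ℝ) := by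
        exact_mod_cast h2
      push_cast at h6
      rw [← hvdef] at h6
      linarith
    have h7 : (∑ n : V, ((It n).card : ℝ)) * (k + 1) / (20 * ℓ) ≤
        11 / 20 * v * (k + 1) / (20 * ℓ) := by
      apply div_le_div_of_nonneg_right _ (by positivity)
      exact mul_le_mul_of_nonneg_right h5 (by positivity)
    have h8 : v * v + 11 / 20 * v * (k + 1) / (20 * ℓ) ≤ 69 / 5000 * (v / ℓ) * (2 * k - v) := by
      have e1 : v * v + 11 / 20 * v * (k + 1) / (20 * ℓ) =
          (v / ℓ) * (ℓ * v + 11 / 400 * (k + 1)) := by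
        field_simp
        ring
      have e2 : 69 / 5000 * (v / ℓ) * (2 * k - v) = (v / ℓ) * (69 / 5000 * (2 * k - v)) := by
        ring
      rw [e1, e2]
      apply mul_le_mul_of_nonneg_left _ (by positivity)
      linarith
    linarith
  -- Markov
  have hmark : ((((Finset.univ : Finset (Equiv.Perm (ZMod (2 * k)))).filter (fun π =>
      8 * Fintype.card V <
        25 * ∑ n : V, ((It n).filter (fun p => π (x n) ∉ B n p)).card)).card : ℝ)) *
      Real.exp (93 / 6250 * (v / ℓ)) ≤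
      ∑ π : Equiv.Perm (ZMod (2 * k)), ∏ n, Real.exp (L * X n (π (x n))) := by
    refine R2_markov (P := Equiv.Perm (ZMod (2 * k))) _
      (fun π => ∏ n, Real.exp (L * X n (π (x n)))) _
      (fun π => Finset.prod_nonneg fun n _ => (Real.exp_pos _).le) ?_
    intro π hπ'
    show Real.exp (93 / 6250 * (v / ℓ)) ≤ ∏ n, Real.exp (L * X n (π (x n)))
    rw [← Real.exp_sum]
    apply Real.exp_le_exp.2
    rw [← Finset.mul_sum]
    have h5 : 8 * v ≤ 25 * ∑ n, (X n (π (x n)) : ℝ) := by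
      have h6 : ((8 * Fintype.card V : ℕ) : ℝ) ≤
          ((25 * ∑ n : V, ((It n).filter (fun p => π (x n) ∉ B n p)).card : ℕ) : ℝ) := by
        exact_mod_cast hπ'.le
      rw [hX]
      push_cast at h6 ⊢
      rw [← hvdef] at h6
      exact h6
    have hL0 : 93 / 2000 / ℓ ≤ L := by
      rw [hL, div_le_div_iff₀ hℓ0 (by positivity)]
      nlinarith
    have hLn : 0 ≤ L := le_trans (by positivity) hL0
    have h7 : 93 / 2000 / ℓ * (8 / 25 * v) ≤ L * ∑ n, (X n (π (x n)) : ℝ) :=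
      mul_le_mul hL0 (by linarith) (by positivity) hLn
    refine le_trans (le_of_eq ?_) h7
    ring
  have hall := hmark.trans (avg.trans
    (mul_le_mul_of_nonneg_left hprod (Nat.cast_nonneg _)))
  have hpos : 0 < Real.exp (93 / 6250 * (v / ℓ)) := Real.exp_pos _
  rw [← le_div_iff₀ hpos, mul_div_assoc, ← Real.exp_sub] at hall
  rw [← hvdef]
  refine hall.trans (mul_le_mul_of_nonneg_left (Real.exp_le_exp.2 ?_) (Nat.cast_nonneg _))
  have e3 : v / (2000 * ℓ) = 1 / 2000 * (v / ℓ) := by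
    field_simp
  rw [e3]
  have h9 : 0 ≤ v / ℓ := by positivity
  linarith

open Classical in
theorem exists_pi0 {E V Q : Type*} [Fintype E] [Fintype V] [Fintype Q] (k ℓ : ℕ) (hk : 1 ≤ k)
    (hℓ : 1 ≤ ℓ) [NeZero (2 * k)] (x : E → V → ZMod (2 * k))
    (hx : ∀ e, Function.Injective (x e)) (It : E → V → Finset Q)
    (B : E → V → Q → Finset (ZMod (2 * k)))
    (hB : ∀ e n, ∀ p ∈ It e n, k - 1 ≤ (B e n p).card)
    (h1 : ∀ e n, (It e n).card ≤ 3 * ℓ)
    (h2 : ∀ e, 20 * ∑ n : V, (It e n).card ≤ 11 * Fintype.card V)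
    (hE : Fintype.card E ≤ 4 * k * (k + 1)) (hV1 : 20000 * ℓ * Fintype.card V ≤ k)
    (hV2 : (8 : ℝ) * ((k : ℝ) + 1) ^ 2 ≤ Real.exp ((Fintype.card V : ℝ) / (2000 * ℓ))) :
    ∃ π : Equiv.Perm (ZMod (2 * k)), ∀ e,
      25 * ∑ n : V, ((It e n).filter (fun p => π (x e n) ∉ B e n p)).card ≤
        8 * Fintype.card V := by
  have hv : 1 ≤ Fintype.card V := by
    by_contra hcon
    have h0 : Fintype.card V = 0 := by omega
    rw [h0, Nat.cast_zero, zero_div, Real.exp_zero] at hV2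
    have hk0 : (0 : ℝ) ≤ k := Nat.cast_nonneg k
    nlinarith
  by_contra hcon
  push Not at hcon
  have hcov : (Finset.univ : Finset (Equiv.Perm (ZMod (2 * k)))) ⊆
      (Finset.univ : Finset E).biUnion (fun e =>
        (Finset.univ : Finset (Equiv.Perm (ZMod (2 * k)))).filter (fun π =>
          8 * Fintype.card V <
            25 * ∑ n : V, ((It e n).filter (fun p => π (x e n) ∉ B e n p)).card)) := by
    intro π _
    obtain ⟨e, he⟩ := hcon π
    exact Finset.mem_biUnion.2 ⟨e, Finset.mem_univ _, Finset.mem_filter.2 ⟨Finset.mem_univ _, he⟩⟩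
  have h3 := (Finset.card_le_card hcov).trans Finset.card_biUnion_le
  rw [Finset.card_univ, Fintype.card_perm, ZMod.card] at h3
  have h4 : (((2 * k).factorial : ℕ) : ℝ) ≤
      ∑ e : E, (((Finset.univ : Finset (Equiv.Perm (ZMod (2 * k)))).filter (fun π =>
          8 * Fintype.card V <
            25 * ∑ n : V, ((It e n).filter (fun p => π (x e n) ∉ B e n p)).card)).card : ℝ) := by
    exact_mod_cast h3
  have h5 := h4.trans (Finset.sum_le_sum fun e _ =>
    R2_one k ℓ hk hℓ (x e) (hx e) (It e) (B e) (hB e) (h1 e) (h2 e) hv hV1)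
  rw [Finset.sum_const, Finset.card_univ, nsmul_eq_mul, Real.exp_neg] at h5
  have hE' : (Fintype.card E : ℝ) ≤ 4 * k * (k + 1) := by exact_mod_cast hE
  have hexp : 0 < Real.exp ((Fintype.card V : ℝ) / (2000 * ℓ)) := Real.exp_pos _
  have hf : (0 : ℝ) < ((2 * k).factorial : ℕ) := by exact_mod_cast Nat.factorial_pos _
  have h6 : Real.exp ((Fintype.card V : ℝ) / (2000 * ℓ)) ≤ Fintype.card E := by
    have h7 : (Fintype.card E : ℝ) * ((((2 * k).factorial : ℕ) : ℝ) *
        (Real.exp ((Fintype.card V : ℝ) / (2000 * ℓ)))⁻¹) =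
        (((2 * k).factorial : ℕ) : ℝ) * ((Fintype.card E : ℝ) /
          Real.exp ((Fintype.card V : ℝ) / (2000 * ℓ))) := by
      rw [div_eq_mul_inv]
      ring
    rw [h7] at h5
    have h8 : 1 ≤ (Fintype.card E : ℝ) / Real.exp ((Fintype.card V : ℝ) / (2000 * ℓ)) := by
      by_contra hc
      push Not at hc
      have := mul_lt_mul_of_pos_left hc hf
      linarith
    rwa [one_le_div hexp] at h8
  have hk0 : (1 : ℝ) ≤ k := by exact_mod_cast hk
  nlinarith

end Pool.Agent.Lib.MP_db622c_co.P7
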