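import Pool.Agent.Lib.MP_db622c_co.P7.PS

/-!
# P7-R3: random relabellings of the rows in the columns

PROOF.  `v = card V ≥ 1`, `k ≥ 20000` as in `R1`, `n = 2 k + 2 = card A`; all sums are over
`ρ : V → Equiv.Perm A`, `(n !) ^ v` elements, and sums of products over `α : V` factor
(`Finset.prod_univ_sum` / `Fintype.piFinset`).
LEFT, fixed `p`: `X ρ = card {α ∈ Fr p | sep p (ρ α (L p))}`, `s = 4 / 5`.
`∑ ρ, s ^ X = (n !) ^ v ((1 + s) / 2) ^ card (Fr p)`, since for one permutation `ρ α (L p)` is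
uniformly distributed (`avg_perm_le` with `card ι = 1` loses the factor `n / (n - 1)`, which is
harmless here, but the exact value is easy too: `card {π | π x = y}` does not depend on `y`), and half
of the rows separate `p`.  `card (Fr p) ≥ 9 v / 20`.  If `5 X < v` then `s ^ X ≥ s ^ (v / 5)`.  So the
proportion of the `ρ` with `5 X < v` is at most `(9 / 10) ^ (9 v / 20) (5 / 4) ^ (v / 5)
= ((9 / 10) ^ 9 (5 / 4) ^ 4) ^ (v / 20) ≤ exp (- 0.0027 v)`  (`0.9 ^ 9 * 1.25 ^ 4 = 0.94585`;
with the factor `(n / (n - 1)) ^ v ≤ exp (v / 40000)` still `≤ exp (- 0.0026 v)`).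
RIGHT, fixed `e`: `Y ρ = card {(p, α) ∈ Q e | sep p (ρ α (L p))}`, `w = 6 / 5`.  For fixed `α` the
elements `L p`, `(p, α) ∈ Q e`, are different (`hQi`); their number is `m α ≤ card (Q e) ≤ 8 v / 25`.
By `avg_perm_le` for each `α` (`ι` = the `p` with `(p, α) ∈ Q e`)
`∑ ρ, w ^ Y ≤ (n !) ^ v ∏_(p, α) ((k + 1) (1 + w) / (n - m α)) ≤ (n !) ^ v (1.1001) ^ card (Q e)
 ≤ (n !) ^ v (1.1001) ^ (8 v / 25)` (`n / (n - m α) ≤ 1.00003` by `hV1`).
If `5 Y > v` then `w ^ Y ≥ w ^ (v / 5)`.  Proportion at most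
`exp (v (0.32 * 0.0954007 - 0.2 * 0.1823)) ≤ exp (- 0.0059 v)`.
Total number of events `≤ 2 k (k + 1) + 4 k (k + 1) < 8 (k + 1) ^ 2 ≤ exp (v / (2000 ℓ))
 ≤ exp (0.0005 v)`, so some `ρ` is good for all of them.
-/

namespace Pool.Agent.Lib.MP_db622c_co.P7

open Classical Nat in
private theorem r3_key {V Q A : Type*} [Fintype V] [Fintype Q] [Fintype A] (k : ℕ)
    (hA : Fintype.card A = 2 * k + 2) (L : Q → A) (sep : Q → A → Prop)
    (hsep : ∀ p, Nat.card {a : A // sep p a} = k + 1)
    (hV1 : 20000 * Fintype.card V ≤ k) (S : Finset (Q × V))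
    (hinj : ∀ p p' α, (p, α) ∈ S → (p', α) ∈ S → L p = L p' → p = p')
    (hS : S.card ≤ Fintype.card V) (c : ℝ) (hc : 0 ≤ c) :
    ∑ ρ : V → Equiv.Perm A, c ^ (S.filter (fun z => sep z.1 (ρ z.2 (L z.1)))).card ≤
      ((2 * k + 2)! : ℝ) ^ (Fintype.card V) * (1.00003 * ((1 + c) / 2)) ^ S.card := by
  set r : ℝ := 1.00003 * ((1 + c) / 2) with hr
  have hr0 : 0 ≤ r := by rw [hr]; positivity
  set G : V → Equiv.Perm A → ℝ := fun α π =>
    ∏ p ∈ Finset.univ.filter (fun p => (p, α) ∈ S), (if sep p (π (L p)) then c else 1) with hG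
  have h1 : ∀ ρ : V → Equiv.Perm A,
      c ^ (S.filter (fun z => sep z.1 (ρ z.2 (L z.1)))).card = ∏ α, G α (ρ α) := by
    intro ρ
    have h2 : c ^ (S.filter (fun z => sep z.1 (ρ z.2 (L z.1)))).card =
        ∏ z ∈ S, (if sep z.1 (ρ z.2 (L z.1)) then c else 1) := by
      rw [Finset.prod_ite, Finset.prod_const, Finset.prod_const_one, mul_one]
    rw [h2, Finset.prod_finset_product_right S Finset.univ
      (fun α => Finset.univ.filter (fun p => (p, α) ∈ S))]
    rintro ⟨p, α⟩
    simp
  have h2 : ∑ ρ : V → Equiv.Perm A, ∏ α, G α (ρ α) = ∏ α, ∑ π, G α π := by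
    have h3 := Finset.prod_univ_sum (fun _ : V => (Finset.univ : Finset (Equiv.Perm A))) G
    rw [Fintype.piFinset_univ] at h3
    exact h3.symm
  rw [Finset.sum_congr rfl fun ρ _ => h1 ρ, h2]
  have hfib : ∀ α : V, (Finset.univ.filter (fun p => (p, α) ∈ S)).card ≤ S.card := by
    intro α
    refine Finset.card_le_card_of_injOn (fun p => (p, α)) ?_ ?_
    · intro p hp
      simpa using hp
    · intro p _ p' _ h
      exact (Prod.mk.inj h).1
  have h4 : ∀ α, ∑ π, G α π ≤
      ((2 * k + 2)! : ℝ) * r ^ (Finset.univ.filter (fun p => (p, α) ∈ S)).card := by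
    intro α
    have hcard : Fintype.card {p // (p, α) ∈ S} =
        (Finset.univ.filter (fun p => (p, α) ∈ S)).card := by
      rw [Fintype.card_subtype]
    have hm : (Finset.univ.filter (fun p => (p, α) ∈ S)).card ≤ Fintype.card V :=
      (hfib α).trans hS
    have hlt : Fintype.card {p // (p, α) ∈ S} < Fintype.card A := by
      rw [hcard, hA]
      omega
    have h5 := avg_perm_le (T := A) (fun i : {p // (p, α) ∈ S} => L i.1)
      (fun i j hij => Subtype.ext (hinj _ _ _ i.2 j.2 hij))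
      (fun i t => if sep i.1 t then c else 1)
      (fun i t => by split_ifs <;> first | exact hc | norm_num) hlt
    have h6 : ∀ π, G α π = ∏ i : {p // (p, α) ∈ S}, (if sep i.1 (π (L i.1)) then c else 1) := by
      intro π
      exact Finset.prod_subtype _ (by simp) _
    rw [Finset.sum_congr rfl fun π _ => h6 π]
    refine h5.trans ?_
    rw [hA]
    refine mul_le_mul_of_nonneg_left ?_ (by positivity)
    rw [← hcard, ← Finset.card_univ (α := {p // (p, α) ∈ S})]
    have h7 : ∀ i : {p // (p, α) ∈ S},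
        (∑ t, (if sep i.1 t then c else 1)) = ((k : ℝ) + 1) * (1 + c) := by
      intro i
      rw [Finset.sum_ite, Finset.sum_const, Finset.sum_const, nsmul_eq_mul, nsmul_eq_mul, mul_one]
      have h8 : (Finset.univ.filter (fun t => sep i.1 t)).card = k + 1 := by
        rw [← hsep i.1, Nat.card_eq_fintype_card, Fintype.card_subtype]
      have h9 : (Finset.univ.filter (fun t => sep i.1 t)).card +
          (Finset.univ.filter (fun t => ¬ sep i.1 t)).card = 2 * k + 2 := by
        rw [← hA, ← Finset.card_univ]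
        exact Finset.card_filter_add_card_filter_not _
      have h10 : (Finset.univ.filter (fun t => ¬ sep i.1 t)).card = k + 1 := by omega
      rw [h8, h10]
      push_cast
      ring
    have hmV : (Fintype.card {p // (p, α) ∈ S} : ℝ) ≤ (Fintype.card V : ℝ) := by
      rw [hcard]; exact_mod_cast hm
    have hVk : (20000 : ℝ) * (Fintype.card V : ℝ) ≤ k := by exact_mod_cast hV1
    have hk0 : (0 : ℝ) ≤ k := by positivity
    have hden : (0 : ℝ) < ((2 * k + 2 : ℕ) : ℝ) - (Fintype.card {p // (p, α) ∈ S} : ℝ) := by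
      push_cast
      linarith
    calc ∏ i : {p // (p, α) ∈ S}, ((∑ t, (if sep i.1 t then c else 1)) /
          (((2 * k + 2 : ℕ) : ℝ) - (Fintype.card {p // (p, α) ∈ S} : ℝ)))
        ≤ ∏ _i : {p // (p, α) ∈ S}, r := by
          refine Finset.prod_le_prod (fun i _ => ?_) fun i _ => ?_
          · rw [h7 i]
            exact div_nonneg (by positivity) hden.le
          · rw [h7 i, div_le_iff₀ hden, hr]
            push_cast
            push_cast at hden
            have h11 : ((k : ℝ) + 1) ≤ 1.00003 / 2 *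
                (2 * (k : ℝ) + 2 - (Fintype.card {p // (p, α) ∈ S} : ℝ)) := by
              linarith
            calc ((k : ℝ) + 1) * (1 + c) ≤ (1.00003 / 2 *
                (2 * (k : ℝ) + 2 - (Fintype.card {p // (p, α) ∈ S} : ℝ))) * (1 + c) :=
                  mul_le_mul_of_nonneg_right h11 (by linarith)
              _ = _ := by ring
      _ = r ^ (Finset.univ : Finset {p // (p, α) ∈ S}).card := by
          rw [Finset.prod_const]
  have h5 : ∀ α, 0 ≤ ∑ π, G α π := by
    intro α
    refine Finset.sum_nonneg fun π _ => Finset.prod_nonneg fun p _ => ?_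
    split_ifs
    · exact hc
    · norm_num
  refine (Finset.prod_le_prod (fun α _ => h5 α) fun α _ => h4 α).trans (le_of_eq ?_)
  rw [Finset.prod_mul_distrib, Finset.prod_const, Finset.card_univ, ← Finset.prod_const (s := S) r,
    Finset.prod_finset_product_right S Finset.univ
      (fun α => Finset.univ.filter (fun p => (p, α) ∈ S)) (by rintro ⟨p, α⟩; simp)]
  simp only [Finset.prod_const]

private theorem r3_e1 : Real.exp (-0.2232) ≤ 4 / 5 := by
  have h := Real.sum_le_exp_of_nonneg (x := 0.2232) (by norm_num) 5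
  simp only [Finset.sum_range_succ, Finset.sum_range_zero, Nat.factorial] at h
  have h1 : (5 / 4 : ℝ) ≤ Real.exp 0.2232 := by
    refine le_trans ?_ h
    norm_num
  rw [Real.exp_neg]
  calc (Real.exp 0.2232)⁻¹ ≤ (5 / 4 : ℝ)⁻¹ := inv_anti₀ (by norm_num) h1
    _ = 4 / 5 := by norm_num

private theorem r3_e2 : (0.900027 : ℝ) ≤ Real.exp (-0.105) := by
  have h := Real.exp_bound' (x := 0.105) (by norm_num) (by norm_num) (n := 4) (by norm_num)
  simp only [Finset.sum_range_succ, Finset.sum_range_zero, Nat.factorial] at h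
  have h1 : Real.exp 0.105 ≤ 1.1110 := by
    refine h.trans ?_
    norm_num
  rw [Real.exp_neg]
  calc (0.900027 : ℝ) ≤ (1.1110 : ℝ)⁻¹ := by norm_num
    _ ≤ _ := inv_anti₀ (Real.exp_pos _) h1

private theorem r3_e3 : (1.100033 : ℝ) ≤ Real.exp 0.0955 := by
  have h := Real.sum_le_exp_of_nonneg (x := 0.0955) (by norm_num) 4
  simp only [Finset.sum_range_succ, Finset.sum_range_zero, Nat.factorial] at h
  refine le_trans ?_ h
  norm_num

private theorem r3_e4 : Real.exp 0.182 ≤ 6 / 5 := by
  have h := Real.exp_bound' (x := 0.182) (by norm_num) (by norm_num) (n := 4) (by norm_num)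
  simp only [Finset.sum_range_succ, Finset.sum_range_zero, Nat.factorial] at h
  refine h.trans ?_
  norm_num

open Classical in
theorem exists_rho {E V Q A : Type*} [Fintype E] [Fintype V] [Fintype Q] [Fintype A] (k ℓ : ℕ)
    (hk : 1 ≤ k) (hℓ : 1 ≤ ℓ) (hA : Fintype.card A = 2 * k + 2) (L : Q → A) (sep : Q → A → Prop)
    (hsep : ∀ p, Nat.card {a : A // sep p a} = k + 1) (Fr : Q → Finset V)
    (hFr : ∀ p, 9 * Fintype.card V ≤ 20 * (Fr p).card)
    (hQ0 : Fintype.card Q ≤ 2 * k * (k + 1)) (Qe : E → Finset (Q × V))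
    (hQ : ∀ e, 25 * (Qe e).card ≤ 8 * Fintype.card V)
    (hQi : ∀ e p p' α, (p, α) ∈ Qe e → (p', α) ∈ Qe e → L p = L p' → p = p')
    (hE : Fintype.card E ≤ 4 * k * (k + 1)) (hV1 : 20000 * ℓ * Fintype.card V ≤ k)
    (hV2 : (8 : ℝ) * ((k : ℝ) + 1) ^ 2 ≤ Real.exp ((Fintype.card V : ℝ) / (2000 * ℓ))) :
    ∃ ρ : V → Equiv.Perm A,
      (∀ p, Fintype.card V ≤ 5 * ((Fr p).filter (fun α => sep p (ρ α (L p)))).card) ∧
      (∀ e, 5 * ((Qe e).filter (fun z => sep z.1 (ρ z.2 (L z.1)))).card ≤
        Fintype.card V) := by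
  obtain ⟨v, hv⟩ : ∃ v, v = Fintype.card V := ⟨_, rfl⟩
  have hk0 : (0 : ℝ) < k := by exact_mod_cast hk
  have hV1' : 20000 * Fintype.card V ≤ k := by
    refine le_trans ?_ hV1
    have : 1 * (20000 * Fintype.card V) ≤ ℓ * (20000 * Fintype.card V) :=
      Nat.mul_le_mul_right _ hℓ
    calc 20000 * Fintype.card V = 1 * (20000 * Fintype.card V) := (one_mul _).symm
      _ ≤ ℓ * (20000 * Fintype.card V) := this
      _ = 20000 * ℓ * Fintype.card V := by ring
  have hv0 : (0 : ℝ) ≤ (v : ℝ) := Nat.cast_nonneg _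
  set N : ℝ := ((2 * k + 2).factorial : ℝ) ^ (Fintype.card V) with hN
  have hN0 : 0 < N := by
    rw [hN]
    positivity
  -- left
  set BL : Q → Finset (V → Equiv.Perm A) := fun p => Finset.univ.filter (fun ρ =>
    5 * ((Fr p).filter (fun α => sep p (ρ α (L p)))).card < Fintype.card V) with hBL
  set BR : E → Finset (V → Equiv.Perm A) := fun e => Finset.univ.filter (fun ρ =>
    Fintype.card V < 5 * ((Qe e).filter (fun z => sep z.1 (ρ z.2 (L z.1)))).card) with hBR
  have hleft : ∀ p, ((BL p).card : ℝ) ≤ N * Real.exp (-(v : ℝ) / 1000) := by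
    intro p
    have hS : (({p} : Finset Q) ×ˢ Fr p).card = (Fr p).card := by
      rw [Finset.card_product, Finset.card_singleton, one_mul]
    have hf : ∀ ρ : V → Equiv.Perm A,
        ((({p} : Finset Q) ×ˢ Fr p).filter (fun z => sep z.1 (ρ z.2 (L z.1)))).card =
        ((Fr p).filter (fun α => sep p (ρ α (L p)))).card := by
      intro ρ
      rw [Finset.singleton_product, Finset.filter_map, Finset.card_map]
      rfl
    have h1 := r3_key k hA L sep hsep hV1' (({p} : Finset Q) ×ˢ Fr p)
      (by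
        intro q q' α h h' _
        have h2 := (Finset.mem_product.1 h).1
        have h3 := (Finset.mem_product.1 h').1
        rw [Finset.mem_singleton] at h2 h3
        exact h2.trans h3.symm)
      (by rw [hS]; exact Finset.card_le_univ _) (4 / 5) (by norm_num)
    rw [hS, ← hN] at h1
    simp only [hf] at h1
    have h2 : ((BL p).card : ℝ) * Real.exp (-0.2232 * ((v : ℝ) / 5)) ≤
        ∑ ρ : V → Equiv.Perm A, (4 / 5 : ℝ) ^ ((Fr p).filter (fun α => sep p (ρ α (L p)))).card := by
      calc ((BL p).card : ℝ) * Real.exp (-0.2232 * ((v : ℝ) / 5))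
          = ∑ _ρ ∈ BL p, Real.exp (-0.2232 * ((v : ℝ) / 5)) := by
            rw [Finset.sum_const, nsmul_eq_mul]
        _ ≤ ∑ ρ ∈ BL p, (4 / 5 : ℝ) ^ ((Fr p).filter (fun α => sep p (ρ α (L p)))).card := by
            refine Finset.sum_le_sum fun ρ hρ => ?_
            have h3 := (Finset.mem_filter.1 hρ).2
            rw [← hv] at h3
            have h4 : (5 : ℝ) * (((Fr p).filter (fun α => sep p (ρ α (L p)))).card : ℝ) ≤ v := by
              exact_mod_cast h3.le
            calc Real.exp (-0.2232 * ((v : ℝ) / 5))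
                ≤ Real.exp ((((Fr p).filter (fun α => sep p (ρ α (L p)))).card : ℝ) *
                  (-0.2232)) := by
                  refine Real.exp_le_exp.2 ?_
                  linarith
              _ = Real.exp (-0.2232) ^ ((Fr p).filter (fun α => sep p (ρ α (L p)))).card :=
                  Real.exp_nat_mul _ _
              _ ≤ _ := pow_le_pow_left₀ (Real.exp_pos _).le r3_e1 _
        _ ≤ _ := Finset.sum_le_sum_of_subset_of_nonneg (Finset.subset_univ _)
            fun ρ _ _ => by positivity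
    have h3 : (1.00003 * ((1 + 4 / 5) / 2) : ℝ) ^ (Fr p).card ≤
        Real.exp (-0.04725 * (v : ℝ)) := by
      have h4 : (9 : ℝ) * v ≤ 20 * ((Fr p).card : ℝ) := by
        rw [hv]; exact_mod_cast hFr p
      calc (1.00003 * ((1 + 4 / 5) / 2) : ℝ) ^ (Fr p).card
          = (0.900027 : ℝ) ^ (Fr p).card := by norm_num
        _ ≤ Real.exp (-0.105) ^ (Fr p).card := pow_le_pow_left₀ (by norm_num) r3_e2 _
        _ = Real.exp (((Fr p).card : ℝ) * (-0.105)) := (Real.exp_nat_mul _ _).symm
        _ ≤ _ := by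
            refine Real.exp_le_exp.2 ?_
            linarith
    have h4 : ((BL p).card : ℝ) * Real.exp (-0.2232 * ((v : ℝ) / 5)) ≤
        N * Real.exp (-0.04725 * (v : ℝ)) :=
      h2.trans (h1.trans (mul_le_mul_of_nonneg_left h3 hN0.le))
    have h5 : ((BL p).card : ℝ) ≤
        N * Real.exp (-0.04725 * (v : ℝ)) / Real.exp (-0.2232 * ((v : ℝ) / 5)) := by
      rw [le_div_iff₀ (Real.exp_pos _)]
      exact h4
    refine h5.trans ?_
    rw [mul_div_assoc, ← Real.exp_sub]
    refine mul_le_mul_of_nonneg_left (Real.exp_le_exp.2 ?_) hN0.le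
    linarith
  have hright : ∀ e, ((BR e).card : ℝ) ≤ N * Real.exp (-(v : ℝ) / 1000) := by
    intro e
    have hSV : (Qe e).card ≤ Fintype.card V := by
      have := hQ e
      omega
    have h1 := r3_key k hA L sep hsep hV1' (Qe e)
      (fun p p' α h h' hL => hQi e p p' α h h' hL) hSV (6 / 5) (by norm_num)
    rw [← hN] at h1
    have h2 : ((BR e).card : ℝ) * Real.exp (0.182 * ((v : ℝ) / 5)) ≤
        ∑ ρ : V → Equiv.Perm A, (6 / 5 : ℝ) ^
          ((Qe e).filter (fun z => sep z.1 (ρ z.2 (L z.1)))).card := by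
      calc ((BR e).card : ℝ) * Real.exp (0.182 * ((v : ℝ) / 5))
          = ∑ _ρ ∈ BR e, Real.exp (0.182 * ((v : ℝ) / 5)) := by
            rw [Finset.sum_const, nsmul_eq_mul]
        _ ≤ ∑ ρ ∈ BR e, (6 / 5 : ℝ) ^
              ((Qe e).filter (fun z => sep z.1 (ρ z.2 (L z.1)))).card := by
            refine Finset.sum_le_sum fun ρ hρ => ?_
            have h3 := (Finset.mem_filter.1 hρ).2
            rw [← hv] at h3
            have h4 : (v : ℝ) ≤
                5 * (((Qe e).filter (fun z => sep z.1 (ρ z.2 (L z.1)))).card : ℝ) := by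
              exact_mod_cast h3.le
            calc Real.exp (0.182 * ((v : ℝ) / 5))
                ≤ Real.exp ((((Qe e).filter (fun z => sep z.1 (ρ z.2 (L z.1)))).card : ℝ) *
                  0.182) := by
                  refine Real.exp_le_exp.2 ?_
                  linarith
              _ = Real.exp 0.182 ^ ((Qe e).filter (fun z => sep z.1 (ρ z.2 (L z.1)))).card :=
                  Real.exp_nat_mul _ _
              _ ≤ _ := pow_le_pow_left₀ (Real.exp_pos _).le r3_e4 _
        _ ≤ _ := Finset.sum_le_sum_of_subset_of_nonneg (Finset.subset_univ _)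
            fun ρ _ _ => by positivity
    have h3 : (1.00003 * ((1 + 6 / 5) / 2) : ℝ) ^ (Qe e).card ≤
        Real.exp (0.03056 * (v : ℝ)) := by
      have h4 : (25 : ℝ) * ((Qe e).card : ℝ) ≤ 8 * v := by
        rw [hv]; exact_mod_cast hQ e
      calc (1.00003 * ((1 + 6 / 5) / 2) : ℝ) ^ (Qe e).card
          = (1.100033 : ℝ) ^ (Qe e).card := by norm_num
        _ ≤ Real.exp 0.0955 ^ (Qe e).card := pow_le_pow_left₀ (by norm_num) r3_e3 _
        _ = Real.exp (((Qe e).card : ℝ) * 0.0955) := (Real.exp_nat_mul _ _).symm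
        _ ≤ _ := by
            refine Real.exp_le_exp.2 ?_
            linarith
    have h4 : ((BR e).card : ℝ) * Real.exp (0.182 * ((v : ℝ) / 5)) ≤
        N * Real.exp (0.03056 * (v : ℝ)) :=
      h2.trans (h1.trans (mul_le_mul_of_nonneg_left h3 hN0.le))
    have h5 : ((BR e).card : ℝ) ≤
        N * Real.exp (0.03056 * (v : ℝ)) / Real.exp (0.182 * ((v : ℝ) / 5)) := by
      rw [le_div_iff₀ (Real.exp_pos _)]
      exact h4
    refine h5.trans ?_
    rw [mul_div_assoc, ← Real.exp_sub]
    refine mul_le_mul_of_nonneg_left (Real.exp_le_exp.2 ?_) hN0.le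
    linarith
  by_contra hcon
  push Not at hcon
  have hcov : (Finset.univ : Finset (V → Equiv.Perm A)) ⊆
      (Finset.univ.biUnion BL) ∪ (Finset.univ.biUnion BR) := by
    intro ρ _
    rw [Finset.mem_union, Finset.mem_biUnion, Finset.mem_biUnion]
    by_cases h : ∀ p, Fintype.card V ≤ 5 * ((Fr p).filter (fun α => sep p (ρ α (L p)))).card
    · right
      obtain ⟨e, he⟩ := hcon ρ h
      exact ⟨e, Finset.mem_univ _, Finset.mem_filter.2 ⟨Finset.mem_univ _, he⟩⟩
    · left
      push Not at h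
      obtain ⟨p, hp⟩ := h
      exact ⟨p, Finset.mem_univ _, Finset.mem_filter.2 ⟨Finset.mem_univ _, hp⟩⟩
  have hcardN : ((Finset.univ : Finset (V → Equiv.Perm A)).card : ℝ) = N := by
    rw [Finset.card_univ, Fintype.card_fun, Fintype.card_perm, hA, hN]
    push_cast
    rfl
  have h1 : N ≤ (Fintype.card Q : ℝ) * (N * Real.exp (-(v : ℝ) / 1000)) +
      (Fintype.card E : ℝ) * (N * Real.exp (-(v : ℝ) / 1000)) := by
    rw [← hcardN]
    calc ((Finset.univ : Finset (V → Equiv.Perm A)).card : ℝ)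
        ≤ (((Finset.univ.biUnion BL) ∪ (Finset.univ.biUnion BR)).card : ℝ) := by
          exact_mod_cast Finset.card_le_card hcov
      _ ≤ ((Finset.univ.biUnion BL).card : ℝ) + ((Finset.univ.biUnion BR).card : ℝ) := by
          exact_mod_cast Finset.card_union_le _ _
      _ ≤ (∑ p, ((BL p).card : ℝ)) + ∑ e, ((BR e).card : ℝ) := by
          refine add_le_add ?_ ?_
          · exact_mod_cast Finset.card_biUnion_le
          · exact_mod_cast Finset.card_biUnion_le
      _ ≤ (∑ _p : Q, (N * Real.exp (-(v : ℝ) / 1000))) +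
          ∑ _e : E, (N * Real.exp (-(v : ℝ) / 1000)) :=
          add_le_add (Finset.sum_le_sum fun p _ => hleft p) (Finset.sum_le_sum fun e _ => hright e)
      _ = _ := by
          rw [hcardN, Finset.sum_const, Finset.sum_const, Finset.card_univ, Finset.card_univ,
            nsmul_eq_mul, nsmul_eq_mul]
  have h2 : (1 : ℝ) ≤ ((Fintype.card Q : ℝ) + Fintype.card E) * Real.exp (-(v : ℝ) / 1000) := by
    have h3 : N * 1 ≤ N * (((Fintype.card Q : ℝ) + Fintype.card E) *
        Real.exp (-(v : ℝ) / 1000)) := by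
      rw [mul_one]
      refine h1.trans (le_of_eq ?_)
      ring
    exact le_of_mul_le_mul_left h3 hN0
  have h3 : (Fintype.card Q : ℝ) + Fintype.card E < 8 * ((k : ℝ) + 1) ^ 2 := by
    have h4 : (Fintype.card Q : ℝ) ≤ 2 * k * (k + 1) := by exact_mod_cast hQ0
    have h5 : (Fintype.card E : ℝ) ≤ 4 * k * (k + 1) := by exact_mod_cast hE
    nlinarith
  have h4 : (8 : ℝ) * ((k : ℝ) + 1) ^ 2 ≤ Real.exp ((v : ℝ) / 1000) := by
    refine hV2.trans (Real.exp_le_exp.2 ?_)
    rw [← hv]
    have h5 : (1 : ℝ) ≤ ℓ := by exact_mod_cast hℓ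
    rw [div_le_div_iff₀ (by positivity) (by norm_num)]
    nlinarith
  have h5 : ((Fintype.card Q : ℝ) + Fintype.card E) * Real.exp (-(v : ℝ) / 1000) < 1 := by
    calc ((Fintype.card Q : ℝ) + Fintype.card E) * Real.exp (-(v : ℝ) / 1000)
        < Real.exp ((v : ℝ) / 1000) * Real.exp (-(v : ℝ) / 1000) :=
          mul_lt_mul_of_pos_right (h3.trans_le h4) (Real.exp_pos _)
      _ = 1 := by
          rw [← Real.exp_add]
          have : (v : ℝ) / 1000 + -(v : ℝ) / 1000 = 0 := by ring
          rw [this, Real.exp_zero]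
  exact absurd h2 (not_le.2 h5)

end Pool.Agent.Lib.MP_db622c_co.P7
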