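import Mathlib

/-!
# P7-Sdr: distinct representatives

PROOF.  Fix `a`, `P = {p | g p = a}`.  Hall's theorem
(`Finset.all_card_le_biUnion_card_iff_exists_injective`) for `t p = (Al p).image (c p)`, `p : P`:
`(t p).card = (Al p).card ≥ d` (`c p` injective).  For `X : Finset P`, `N` the union of the `t p`:
`d * X.card ≤ ∑ p ∈ X, (Al p).card = ∑ r ∈ N, card {(p, α) | p ∈ X, α ∈ Al p, c p α = r}
≤ d * N.card`.  So there is an injective `f : P → R`, `f p ∈ t p`; `f p = c p (al p)` with
`al p ∈ Al p`.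
-/

namespace Pool.Agent.Lib.MP_db622c_co.P7

theorem exists_sdr {Q V R A : Type*} [Fintype Q] [Fintype V] [Fintype R] (g : Q → A)
    (c : Q → V → R) (hci : ∀ p, Function.Injective (c p)) (Al : Q → Finset V) (d : ℕ)
    (hd : 0 < d) (h1 : ∀ p, d ≤ (Al p).card)
    (h2 : ∀ a r, Nat.card {z : Q × V // g z.1 = a ∧ z.2 ∈ Al z.1 ∧ c z.1 z.2 = r} ≤ d) :
    ∃ al : Q → V, (∀ p, al p ∈ Al p) ∧
      ∀ p p', g p = g p' → c p (al p) = c p' (al p') → p = p' := by
  classical
  have key : ∀ a : A, ∃ f : {p : Q // g p = a} → R, Function.Injective f ∧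
      ∀ x, f x ∈ (Al x.1).image (c x.1) := by
    intro a
    rw [← Finset.all_card_le_biUnion_card_iff_exists_injective
      (fun x : {p : Q // g p = a} => (Al x.1).image (c x.1))]
    intro X
    have h := Finset.card_mul_le_card_mul (s := X)
      (t := X.biUnion (fun x : {p : Q // g p = a} => (Al x.1).image (c x.1))) (m := d) (n := d)
      (fun x b => b ∈ (Al x.1).image (c x.1)) ?_ ?_
    · exact Nat.le_of_mul_le_mul_right h hd
    · intro x hx
      have e : ((Al x.1).image (c x.1)) ⊆ Finset.bipartiteAbove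
          (fun (x : {p : Q // g p = a}) b => b ∈ (Al x.1).image (c x.1))
          (X.biUnion (fun x : {p : Q // g p = a} => (Al x.1).image (c x.1))) x :=
        fun b hb => Finset.mem_filter.2 ⟨Finset.mem_biUnion.2 ⟨x, hx, hb⟩, hb⟩
      refine le_trans ?_ (Finset.card_le_card e)
      rw [Finset.card_image_of_injective _ (hci x.1)]
      exact h1 x.1
    · intro b hb
      refine le_trans ?_ (h2 a b)
      rw [Nat.card_eq_fintype_card, ← Fintype.card_coe]
      have hch : ∀ x : {x // x ∈ Finset.bipartiteBelow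
          (fun (x : {p : Q // g p = a}) b => b ∈ (Al x.1).image (c x.1)) X b},
          ∃ α ∈ Al x.1.1, c x.1.1 α = b := fun x =>
        Finset.mem_image.1 (Finset.mem_filter.1 x.2).2
      choose al hal1 hal2 using hch
      refine Fintype.card_le_of_injective
        (fun x => (⟨(x.1.1, al x), x.1.2, hal1 x, hal2 x⟩ :
          {z : Q × V // g z.1 = a ∧ z.2 ∈ Al z.1 ∧ c z.1 z.2 = b})) ?_
      intro x y hxy
      have h3 : (x.1.1, al x) = (y.1.1, al y) := congrArg Subtype.val hxy
      exact Subtype.ext (Subtype.ext (Prod.ext_iff.1 h3).1)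
  choose f hf1 hf2 using key
  have h3 : ∀ p, ∃ α ∈ Al p, c p α = f (g p) ⟨p, rfl⟩ := fun p =>
    Finset.mem_image.1 (hf2 (g p) ⟨p, rfl⟩)
  choose al hal1 hal2 using h3
  refine ⟨al, hal1, fun p p' hg he => ?_⟩
  rw [hal2, hal2] at he
  have h4 : ∀ (a : A) (h : g p' = a), f (g p') ⟨p', rfl⟩ = f a ⟨p', h⟩ := by
    intro a h
    subst h
    rfl
  rw [h4 (g p) hg.symm] at he
  have h5 := hf1 (g p) he
  exact congrArg Subtype.val h5

end Pool.Agent.Lib.MP_db622c_co.P7
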