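import Pool.Agent.Lib.MP_db622c_co.P7.R1
import Pool.Agent.Lib.MP_db622c_co.P7.R2
import Pool.Agent.Lib.MP_db622c_co.P7.R3
import Pool.Agent.Lib.MP_db622c_co.P7.Ed
import Pool.Agent.Lib.MP_db622c_co.P7.Sdr

/-!
# P7-Core: the combinatorial core of the second blow-up
-/

namespace Pool.Agent.Lib.MP_db622c_co.P7

/-- counting pairs by their second component -/
theorem card_prod_filter {Q V : Type*} [Fintype Q] [Fintype V] (T : Q → V → Prop) :
    Nat.card {z : Q × V // T z.1 z.2} = ∑ n : V, Nat.card {p : Q // T p n} := by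
  classical
  have e : {z : Q × V // T z.1 z.2} ≃ Σ n : V, {p : Q // T p n} :=
    { toFun := fun z => ⟨z.1.2, ⟨z.1.1, z.2⟩⟩
      invFun := fun w => ⟨(w.2.1, w.1), w.2.2⟩
      left_inv := fun _ => rfl
      right_inv := fun _ => rfl }
  rw [Nat.card_congr e, Nat.card_sigma]

theorem card_prod_filter' {Q V : Type*} [Fintype Q] [Fintype V] (T : Q → V → Prop) :
    Nat.card {z : Q × V // T z.1 z.2} = ∑ p : Q, Nat.card {n : V // T p n} := by
  classical
  have e : {z : Q × V // T z.1 z.2} ≃ Σ p : Q, {n : V // T p n} :=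
    { toFun := fun z => ⟨z.1.1, ⟨z.1.2, z.2⟩⟩
      invFun := fun w => ⟨(w.1, w.2.1), w.2.2⟩
      left_inv := fun _ => rfl
      right_inv := fun _ => rfl }
  rw [Nat.card_congr e, Nat.card_sigma]

theorem natCard_filter {Q : Type*} [Fintype Q] (T : Q → Prop) [DecidablePred T] :
    Nat.card {p : Q // T p} = (Finset.univ.filter T).card := by
  rw [Nat.card_eq_fintype_card, Fintype.card_subtype]

theorem core {Q A V : Type*} [Fintype Q] [Fintype A] [Fintype V] (k ℓ : ℕ) (hk : 1 ≤ k)
    (hℓ : 1 ≤ ℓ) (hA : Fintype.card A = 2 * k + 2) (L g : Q → A) (h : Q → ZMod (2 * k))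
    (sep : Q → A → Prop) (hsep : ∀ p, Nat.card {a : A // sep p a} = k + 1)
    (hQ0 : Fintype.card Q ≤ 2 * k * (k + 1))
    (hL : ∀ c, Nat.card {p : Q // L p = c} = k)
    (hg : ∀ c, Nat.card {p : Q // g p = c} ≤ k + 1)
    (lL : ∀ c r, Nat.card {p : Q // L p = c ∧ h p = r} ≤ 3 * ℓ)
    (lg : ∀ c r, Nat.card {p : Q // g p = c ∧ h p = r} ≤ 3 * ℓ)
    (hV1 : 20000 * ℓ * Fintype.card V ≤ k)
    (hV2 : (8 : ℝ) * ((k : ℝ) + 1) ^ 2 ≤ Real.exp ((Fintype.card V : ℝ) / (2000 * ℓ))) :
    ∃ (δ : V → ZMod (2 * k)) (π π0 : Equiv.Perm (ZMod (2 * k))) (σ : Q → Equiv.Perm V)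
      (ρ : V → Equiv.Perm A) (al : Q → V),
      (∀ α p p', L p = L p' → π (h p) + δ (σ p α) = π (h p') + δ (σ p' α) → p = p') ∧
      (∀ p p', L p = L p' → π0 (h p) = π (h p') + δ (σ p' (al p)) → p = p') ∧
      (∀ p p', g p = g p' →
        π (h p) + δ (σ p (al p)) = π (h p') + δ (σ p' (al p')) → p = p') ∧
      (∀ p, sep p (ρ (al p) (L p))) := by
  classical
  have : NeZero (2 * k) := ⟨by omega⟩
  set v := Fintype.card V with hv
  have hv1 : 1 ≤ v := by
    by_contra h0
    have h00 : v = 0 := by omega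
    rw [h00] at hV2
    have h1 : (1 : ℝ) ≤ k := by exact_mod_cast hk
    norm_num at hV2
    nlinarith
  have hvk : v ≤ 2 * k := by nlinarith
  -- the shifts
  obtain ⟨δ, hδ⟩ : ∃ δ : V → ZMod (2 * k), Function.Injective δ := by
    have h1 : Fintype.card V ≤ Fintype.card (ZMod (2 * k)) := by rw [ZMod.card]; omega
    obtain ⟨f⟩ := Function.Embedding.nonempty_of_card_le h1
    exact ⟨f, f.injective⟩
  -- R1
  let ld : A × Bool → ZMod (2 * k) → ℕ := fun i r =>
    if i.2 then Nat.card {p : Q // g p = i.1 ∧ h p = r}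
    else Nat.card {p : Q // L p = i.1 ∧ h p = r}
  have hsum : ∀ (f : Q → A) (c : A), ∑ r, Nat.card {p : Q // f p = c ∧ h p = r} =
      Nat.card {p : Q // f p = c} := by
    intro f c
    have e : {p : Q // f p = c} ≃ Σ r : ZMod (2 * k), {p : Q // f p = c ∧ h p = r} :=
      { toFun := fun p => ⟨h p.1, ⟨p.1, p.2, rfl⟩⟩
        invFun := fun w => ⟨w.2.1, w.2.2.1⟩
        left_inv := fun _ => rfl
        right_inv := by
          rintro ⟨r, p, hp1, hp2⟩
          subst hp2
          rfl }
    rw [Nat.card_congr e, Nat.card_sigma]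
  obtain ⟨π, hπ⟩ := exists_pi (I := A × Bool) (V := V) k ℓ hk hℓ ld
    (by
      intro i r
      by_cases hi : i.2
      · simp only [ld, hi, if_true]; exact lg _ _
      · simp only [ld, hi, if_false, Bool.false_eq_true]; exact lL _ _)
    (by
      intro i
      by_cases hi : i.2
      · simp only [ld, hi, if_true]; rw [hsum]; exact hg _
      · simp only [ld, hi, if_false, Bool.false_eq_true]; rw [hsum, hL]; omega)
    δ hδ (by rw [Fintype.card_prod, hA, Fintype.card_bool]; omega) hV1 hV2
  -- window loads in terms of pairs `(p, n)`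
  have hwin : ∀ (f : Q → A) (c : A) (r : ZMod (2 * k)),
      Nat.card {z : Q × V // f z.1 = c ∧ π (h z.1) + δ z.2 = r} =
        ∑ n : V, Nat.card {p : Q // f p = c ∧ h p = π.symm (r - δ n)} := by
    intro f c r
    rw [card_prod_filter (fun p n => f p = c ∧ π (h p) + δ n = r)]
    refine Finset.sum_congr rfl fun n _ => ?_
    refine Nat.card_congr (Equiv.subtypeEquivRight fun p => ?_)
    rw [Equiv.eq_symm_apply, eq_sub_iff_add_eq]
  have hwL : ∀ c r, 20 * Nat.card {z : Q × V // L z.1 = c ∧ π (h z.1) + δ z.2 = r} ≤ 11 * v := by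
    intro c r
    have h1 := hπ (c, false) r
    rw [hwin]
    simpa [ld] using h1
  have hwg : ∀ c r, 20 * Nat.card {z : Q × V // g z.1 = c ∧ π (h z.1) + δ z.2 = r} ≤ 11 * v := by
    intro c r
    have h1 := hπ (c, true) r
    rw [hwin]
    simpa [ld] using h1
  -- König
  obtain ⟨σ, hσ⟩ := exists_sigma L (fun p n => π (h p) + δ n) (by
    intro a r
    have h1 := hwL a r
    omega)
  let c' : Q → V → ZMod (2 * k) := fun p α => π (h p) + δ (σ p α)
  have s1 : ∀ α p p', L p = L p' → c' p α = c' p' α → p = p' := hσ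
  have hc'inj : ∀ p, Function.Injective (c' p) := by
    intro p α β hαβ
    exact (σ p).injective (hδ (add_left_cancel hαβ))
  -- moving between `(p, n)` and `(p, α)`
  have hmv : ∀ (T : Q → V → Prop), Nat.card {z : Q × V // T z.1 (σ z.1 z.2)} =
      Nat.card {z : Q × V // T z.1 z.2} := by
    intro T
    refine Nat.card_congr
      { toFun := fun z => ⟨(z.1.1, σ z.1.1 z.1.2), z.2⟩
        invFun := fun z => ⟨(z.1.1, (σ z.1.1).symm z.1.2), by
          show T z.1.1 (σ z.1.1 ((σ z.1.1).symm z.1.2))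
          rw [Equiv.apply_symm_apply]; exact z.2⟩
        left_inv := fun z => by
          apply Subtype.ext
          show (z.1.1, (σ z.1.1).symm (σ z.1.1 z.1.2)) = z.1
          rw [Equiv.symm_apply_apply]
        right_inv := fun z => by
          apply Subtype.ext
          show (z.1.1, σ z.1.1 ((σ z.1.1).symm z.1.2)) = z.1
          rw [Equiv.apply_symm_apply] }
  -- R2
  let x : A × ZMod (2 * k) → V → ZMod (2 * k) := fun e n => π.symm (e.2 - δ n)
  have hx : ∀ e, Function.Injective (x e) := by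
    intro e n n' hnn
    exact hδ (sub_right_injective (π.symm.injective hnn))
  let It : A × ZMod (2 * k) → V → Finset Q := fun e n =>
    Finset.univ.filter (fun p => g p = e.1 ∧ h p = x e n)
  let B : A × ZMod (2 * k) → V → Q → Finset (ZMod (2 * k)) := fun _ n p =>
    (Finset.univ.filter (fun p' => L p' = L p ∧ p' ≠ p)).image (fun p' => c' p' ((σ p).symm n))
  obtain ⟨π0, hπ0⟩ := exists_pi0 (E := A × ZMod (2 * k)) (V := V) (Q := Q) k ℓ hk hℓ x hx It B
    (by
      intro e n p _
      have h1 : (Finset.univ.filter (fun p' => L p' = L p ∧ p' ≠ p)).card = k - 1 := by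
        have h2 : (Finset.univ.filter (fun p' => L p' = L p ∧ p' ≠ p))
            = (Finset.univ.filter (fun p' => L p' = L p)).erase p := by
          ext p'
          simp only [Finset.mem_filter, Finset.mem_univ, true_and, Finset.mem_erase]
          tauto
        rw [h2, Finset.card_erase_of_mem (by simp), ← natCard_filter, hL]
      show k - 1 ≤ Finset.card (Finset.image _ _)
      rw [Finset.card_image_of_injOn, h1]
      intro p1 hp1 p2 hp2 h12
      simp only [Finset.coe_filter, Finset.mem_univ, true_and, Set.mem_setOf_eq] at hp1 hp2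
      exact s1 _ _ _ (hp1.1.trans hp2.1.symm) h12)
    (by
      intro e n
      show (Finset.univ.filter (fun p => g p = e.1 ∧ h p = x e n)).card ≤ 3 * ℓ
      rw [← natCard_filter]
      exact lg _ _)
    (by
      intro e
      have h1 := hwg e.1 e.2
      rw [hwin] at h1
      refine le_trans (le_of_eq ?_) h1
      congr 1
      refine Finset.sum_congr rfl fun n _ => ?_
      rw [natCard_filter])
    (by rw [Fintype.card_prod, hA, ZMod.card]; nlinarith) hV1 hV2
  -- free columns
  let Fr : Q → Finset V := fun p =>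
    Finset.univ.filter (fun α => ∀ p', L p' = L p → p' ≠ p → c' p' α ≠ π0 (h p))
  have hFr : ∀ p, 9 * Fintype.card V ≤ 20 * (Fr p).card := by
    intro p
    have h1 : (Finset.univ \ Fr p).card ≤
        Nat.card {z : Q × V // L z.1 = L p ∧ c' z.1 z.2 = π0 (h p)} := by
      rw [natCard_filter]
      have h2 : Finset.univ \ Fr p ⊆ (Finset.univ.filter
          (fun z : Q × V => L z.1 = L p ∧ c' z.1 z.2 = π0 (h p))).image Prod.snd := by
        intro α hα
        simp only [Fr, Finset.mem_sdiff, Finset.mem_univ, true_and, Finset.mem_filter,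
          not_forall, not_not] at hα
        obtain ⟨p', h3, _, h4⟩ := hα
        rw [Finset.mem_image]
        exact ⟨(p', α), by simp [h3, h4], rfl⟩
      refine le_trans (Finset.card_le_card h2) ?_
      exact Finset.card_image_le
    have h3 : Nat.card {z : Q × V // L z.1 = L p ∧ c' z.1 z.2 = π0 (h p)} =
        Nat.card {z : Q × V // L z.1 = L p ∧ π (h z.1) + δ z.2 = π0 (h p)} :=
      hmv (fun q n => L q = L p ∧ π (h q) + δ n = π0 (h p))
    have h4 := hwL (L p) (π0 (h p))
    have h5 : (Finset.univ \ Fr p).card + (Fr p).card = v := by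
      rw [Finset.card_sdiff_add_card_eq_card (Finset.subset_univ _), Finset.card_univ]
    omega
  -- the events of `R3`
  let Qe : A × ZMod (2 * k) → Finset (Q × V) := fun e =>
    Finset.univ.filter (fun z => g z.1 = e.1 ∧ c' z.1 z.2 = e.2 ∧ z.2 ∈ Fr z.1)
  have hQe : ∀ e, 25 * (Qe e).card ≤ 8 * Fintype.card V := by
    intro e
    refine le_trans (Nat.mul_le_mul_left _ ?_) (hπ0 e)
    have h1 : (Qe e).card = Nat.card {z : Q × V // g z.1 = e.1 ∧
        π (h z.1) + δ z.2 = e.2 ∧ (σ z.1).symm z.2 ∈ Fr z.1} := by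
      rw [← natCard_filter]
      rw [← hmv (fun q n => g q = e.1 ∧ π (h q) + δ n = e.2 ∧ (σ q).symm n ∈ Fr q)]
      refine Nat.card_congr (Equiv.subtypeEquivRight fun z => ?_)
      rw [Equiv.symm_apply_apply]
    rw [h1, card_prod_filter (fun q n => g q = e.1 ∧ π (h q) + δ n = e.2 ∧
      (σ q).symm n ∈ Fr q)]
    refine Finset.sum_le_sum fun n _ => ?_
    rw [natCard_filter]
    refine Finset.card_le_card ?_
    intro p hp
    simp only [Finset.mem_filter, Finset.mem_univ, true_and] at hp
    obtain ⟨h2, h3, h4⟩ := hp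
    have h5 : h p = x e n := by
      show h p = π.symm (e.2 - δ n)
      rw [Equiv.eq_symm_apply, eq_sub_iff_add_eq]
      exact h3
    simp only [It, Finset.mem_filter, Finset.mem_univ, true_and]
    refine ⟨⟨h2, h5⟩, ?_⟩
    rw [← h5]
    intro h6
    simp only [B, Finset.mem_image, Finset.mem_filter, Finset.mem_univ, true_and] at h6
    obtain ⟨p', ⟨h7, h8⟩, h9⟩ := h6
    simp only [Fr, Finset.mem_filter, Finset.mem_univ, true_and] at h4
    exact h4 p' h7 h8 h9
  obtain ⟨ρ, hρ1, hρ2⟩ := exists_rho (E := A × ZMod (2 * k)) (V := V) (Q := Q) k ℓ hk hℓ hA L sep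
    hsep Fr hFr hQ0 Qe hQe
    (by
      intro e p p' α hp hp' hLL
      simp only [Qe, Finset.mem_filter, Finset.mem_univ, true_and] at hp hp'
      exact s1 α p p' hLL (hp.2.1.trans hp'.2.1.symm))
    (by rw [Fintype.card_prod, hA, ZMod.card]; nlinarith) hV1 hV2
  -- distinct representatives
  let Al : Q → Finset V := fun p => (Fr p).filter (fun α => sep p (ρ α (L p)))
  obtain ⟨al, hal1, hal2⟩ := exists_sdr g c' hc'inj Al ((v + 4) / 5) (by omega)
    (by
      intro p
      have h1 := hρ1 p
      have h2 : Fintype.card V ≤ 5 * (Al p).card := h1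
      omega)
    (by
      intro a r
      have h1 := hρ2 (a, r)
      have h2 : Nat.card {z : Q × V // g z.1 = a ∧ z.2 ∈ Al z.1 ∧ c' z.1 z.2 = r} ≤
          ((Qe (a, r)).filter (fun z => sep z.1 (ρ z.2 (L z.1)))).card := by
        rw [natCard_filter]
        refine Finset.card_le_card ?_
        intro z hz
        simp only [Finset.mem_filter, Finset.mem_univ, true_and, Al] at hz
        simp only [Qe, Finset.mem_filter, Finset.mem_univ, true_and]
        exact ⟨⟨hz.1, hz.2.2, hz.2.1.1⟩, hz.2.1.2⟩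
      omega)
  refine ⟨δ, π, π0, σ, ρ, al, s1, ?_, hal2, ?_⟩
  · intro p p' hLL hh
    by_contra hne
    have h1 := hal1 p
    simp only [Al, Fr, Finset.mem_filter, Finset.mem_univ, true_and] at h1
    exact h1.1 p' hLL.symm (fun hc => hne hc.symm) hh.symm
  · intro p
    have h1 := hal1 p
    simp only [Al, Finset.mem_filter] at h1
    exact h1.2

end Pool.Agent.Lib.MP_db622c_co.P7
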