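import Pool.Agent.Lib.MP_db622c_co.P7.Defs

/-!
# P7-DHall: perfect matchings in dense bipartite graphs

PROOF.  Let `n = P.card = Q.card`; `v ∈ P` and `u ∈ Q` are adjacent if `¬ bad v u`.  Hall's theorem
(`Finset.all_card_le_biUnion_card_iff_exists_injective` on the subtype `P`, with
`t v = Q.filter (¬ bad v ·)`).  Let `X ⊆ P` be not empty, `N` the union of the `t v`, `v ∈ X`.
If `2 * X.card ≤ n`: one `v ∈ X` has `2 * (t v).card ≥ 2 n - n = n`, so `2 * N.card ≥ n ≥ 2 X.card`.
If `2 * X.card > n`: every `u ∈ Q` is in `N`, since otherwise all `v ∈ X` are bad for `u` and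
`2 * X.card ≤ n`; so `N.card = n ≥ X.card`.
Extend the function by the identity outside of `P`.
-/

namespace Pool.Agent.Lib.MP_db622c_co.P7

open Pool.Agent.Lib.MP_db622c_co Pool.Agent.Lib.MP_db622c_co.CB

open Classical in
theorem exists_dmatch {J : Type*} [Fintype J] (P Q : Finset J) (hPQ : P.card = Q.card)
    (bad : J → J → Prop) (h1 : ∀ v ∈ P, 2 * (Q.filter (fun u => bad v u)).card ≤ P.card)
    (h2 : ∀ u ∈ Q, 2 * (P.filter (fun v => bad v u)).card ≤ P.card) :
    ∃ f : J → J, (∀ v ∈ P, f v ∈ Q ∧ ¬ bad v (f v)) ∧ Set.InjOn f P := by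
  let t : P → Finset J := fun v => Q.filter (fun u => ¬ bad v u)
  have hall : ∀ X : Finset P, X.card ≤ (X.biUnion t).card := by
    intro X
    rcases X.eq_empty_or_nonempty with rfl | hX
    · simp
    obtain ⟨v, hv⟩ := hX
    by_cases hcase : 2 * X.card ≤ P.card
    · have h3 : (t v).card + (Q.filter (fun u => bad v u)).card = Q.card := by
        rw [add_comm]
        exact Finset.card_filter_add_card_filter_not (s := Q) (fun u => bad (v : J) u)
      have h4 := h1 v v.2
      have h5 : (t v).card ≤ (X.biUnion t).card :=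
        Finset.card_le_card (Finset.subset_biUnion_of_mem t hv)
      omega
    · have h3 : Q ⊆ X.biUnion t := by
        intro u hu
        by_contra hcon
        have h4 : ∀ w ∈ X, bad (w : J) u := by
          intro w hw
          by_contra hb
          exact hcon (Finset.mem_biUnion.2 ⟨w, hw, Finset.mem_filter.2 ⟨hu, hb⟩⟩)
        have h5 : X.map (Function.Embedding.subtype _) ⊆ P.filter (fun v => bad v u) := by
          intro w hw
          rw [Finset.mem_map] at hw
          obtain ⟨w', hw', rfl⟩ := hw
          exact Finset.mem_filter.2 ⟨w'.2, h4 w' hw'⟩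
        have h6 := Finset.card_le_card h5
        rw [Finset.card_map] at h6
        have h7 := h2 u hu
        omega
      have h4 := Finset.card_le_card h3
      have h5 : X.card ≤ P.card := by
        have := Finset.card_le_univ X
        rwa [Fintype.card_coe] at this
      omega
  obtain ⟨g, hg, hgt⟩ := (Finset.all_card_le_biUnion_card_iff_exists_injective t).1 hall
  refine ⟨fun v => if h : v ∈ P then g ⟨v, h⟩ else v, ?_, ?_⟩
  · intro v hv
    simp only [dif_pos hv]
    have := hgt ⟨v, hv⟩
    rw [Finset.mem_filter] at this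
    exact this
  · intro v hv w hw hvw
    have hv' : v ∈ P := hv
    have hw' : w ∈ P := hw
    simp only [dif_pos hv', dif_pos hw'] at hvw
    have := hg hvw
    exact congrArg Subtype.val this

end Pool.Agent.Lib.MP_db622c_co.P7
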