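import Pool.Agent.Lib.MP_db622c_co.CB.StepII2

/-!
# MP_db622c_co, board P7: definitions

Complete balanced Howell rotations on `2 ^ e * n` partnerships for every Hadamard order `n` and
every `e` with `2 ^ e ≥ C (log n) ^ 6`.

Part A (constant blow-up, Hadamard matrix to sign compatible one-factorization): `IsSL`, `IsRh`,
`PermFam`, `Cross`, `gA`.  Part C (polylogarithmic blow-up, sign compatible one-factorization with
a rainbow perfect matching to a pair of orthogonal one-factorizations): `Sch`, `bdC`, `rclC`, `rdC`.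
-/

namespace Pool.Agent.Lib.MP_db622c_co.P7

open Pool.Agent.Lib.MP_db622c_co Pool.Agent.Lib.MP_db622c_co.CB

/-! ## Part A -/

/-- a symmetric Latin square -/
structure IsSL {A J : Type*} (L : J → J → A) : Prop where
  symm : ∀ j k, L j k = L k j
  inj : ∀ j k k', L j k = L j k' → k = k'

/-- A proper colouring of the pairs of `J` by `F × A`: the colour `(k, a)` of `{v, u}` has
`k ∈ F1` and the row `a` has opposite signs at `v` and `u`; every colour covers at most half of
the points. -/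
structure IsRh {F A J : Type*} [Fintype J] (F1 : Finset F) (S : A → J → ℤ)
    (rh : J → J → F × A) : Prop where
  symm : ∀ v u, rh v u = rh u v
  inj : ∀ v u u', u ≠ v → u' ≠ v → rh v u = rh v u' → u = u'
  mem : ∀ v u, v ≠ u → (rh v u).1 ∈ F1
  sep : ∀ v u, v ≠ u → S (rh v u).2 u = - S (rh v u).2 v
  half : ∀ c : F × A, 2 * Nat.card {v : J // ∃ u, u ≠ v ∧ rh v u = c} ≤ Fintype.card J

/-- A family of permutations of `J` indexed by `Option F × A` (the permutation with index
`(none, 0)` is not used): the permutations `(some 0, a)`, `a ≠ 0`, change the sign of row `a`, the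
permutations `(some kk, a)`, `a ≠ 0`, preserve it, the permutation `(some k, a)` contains the pairs
of colour `(k, a)`, and the pair `(v, v')` is covered exactly `card F` times, once more if
`v ≠ v'`. -/
structure PermFam {F A J : Type*} [Field F] [Zero A] (S : A → J → ℤ) (kk : F)
    (rh : J → J → F × A) (π : Option F × A → Equiv.Perm J) : Prop where
  p1 : ∀ a v, a ≠ 0 → S a (π (some 0, a) v) = - S a v
  p2 : ∀ a v, a ≠ 0 → S a (π (some kk, a) v) = S a v
  p3 : ∀ v u, v ≠ u → π (some (rh v u).1, (rh v u).2) v = u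
  p4 : ∀ v v', Nat.card {τ : Option F × A // τ ≠ (none, 0) ∧ π τ v = v'} =
    Nat.card F + (open Classical in if v = v' then 0 else 1)

/-- the points of the first blow-up -/
abbrev PA (F J : Type*) := ZMod 2 × (F × (ZMod 2 × J))

/-- The cross part of the one-factorization of the first blow-up: the board of the edge from
`(0, (x, (ξ, v)))` to `(1, (x + w, (ξ + ω, v')))` is `Φ v v' w ω`. -/
structure Cross {F A J : Type*} [Field F] [Zero A] (S : A → J → ℤ) (φ : F →+ ZMod 2)
    (rh : J → J → F × A) (Φ : J → J → F → ZMod 2 → PA F A) : Prop where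
  split : ∀ v v' w ω, sg ((Φ v v' w ω).1 + φ ((Φ v v' w ω).2.1 * w) + (Φ v v' w ω).2.2.1 * ω) *
    S (Φ v v' w ω).2.2.2 v' = - S (Φ v v' w ω).2.2.2 v
  injr : ∀ v v' v'' w w' ω ω', Φ v v' w ω = Φ v v'' w' ω' → v' = v'' ∧ w = w' ∧ ω = ω'
  injl : ∀ v v' v'' w w' ω ω', Φ v' v w ω = Φ v'' v w' ω' → v' = v'' ∧ w = w' ∧ ω = ω'
  kap : ∀ v v' w ω, (Φ v v' w ω).2.2.1 = 1 → (Φ v v' w ω).2.1 = 0 ∧
    ((Φ v v' w ω).1, (Φ v v' w ω).2.2.2) ≠ (0, 0)
  ne0 : ∀ v v' w ω, Φ v v' w ω ≠ 0
  avr : ∀ v v' w ω u, u ≠ v → (Φ v v' w ω).2.2.1 = 0 →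
    ((Φ v v' w ω).2.1, (Φ v v' w ω).2.2.2) ≠ rh v u
  avl : ∀ v v' w ω u, u ≠ v' → (Φ v v' w ω).2.2.1 = 0 →
    ((Φ v v' w ω).2.1, (Φ v v' w ω).2.2.2) ≠ rh v' u

open Classical in
/-- The one-factorization of the first blow-up. -/
noncomputable def gA {F A J : Type*} [Field F] [Zero A] (S : A → J → ℤ) (b c : F)
    (rh : J → J → F × A) (L : J → J → A) (Φ : J → J → F → ZMod 2 → PA F A)
    (x y : PA F J) : PA F A :=
  if x.1 = y.1 then
    if x.2.1 = y.2.1 then
      if x.2.2.2 = y.2.2.2 then (0, (0, (1, 0)))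
      else (x.2.2.1 + y.2.2.1, ((rh x.2.2.2 y.2.2.2).1, (0, (rh x.2.2.2 y.2.2.2).2)))
    else
      (x.2.2.1 + y.2.2.1,
        ((if (x.2.2.1 = y.2.2.1 ↔ S (L x.2.2.2 y.2.2.2) y.2.2.2 = S (L x.2.2.2 y.2.2.2) x.2.2.2)
          then c else b) / (x.2.1 + y.2.1), (1, L x.2.2.2 y.2.2.2)))
  else if x.1 = 0 then Φ x.2.2.2 y.2.2.2 (x.2.1 + y.2.1) (x.2.2.1 + y.2.2.1)
  else Φ y.2.2.2 x.2.2.2 (x.2.1 + y.2.1) (x.2.2.1 + y.2.2.1)

/-- the sign matrix of the first blow-up -/
noncomputable def SA {F A J : Type*} [Field F] (φ : F →+ ZMod 2) (S : A → J → ℤ) :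
    PA F A → PA F J → ℤ :=
  tens (K := ZMod 2) (AddMonoidHom.id (ZMod 2))
    (tens φ (tens (K := ZMod 2) (AddMonoidHom.id (ZMod 2)) S))

/-! ## Part C -/

/-- A schedule for the polylogarithmic blow-up. -/
structure Sch {K V A J R : Type*} [Field K] [CommGroup V] (P : Pack K V) (S : A → J → ℤ)
    (μ : J → J) (L g : J → J → A) (h : Option V → J → J → R) where
  σ : J → J → Equiv.Perm V
  ρ : V → Equiv.Perm A
  al : J → J → V
  ks : J → J → K
  σ_symm : ∀ j a, σ j a = σ a j
  σ_same : ∀ j, σ j j = 1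
  σ_μ : ∀ j, σ j (μ j) = 1
  al_symm : ∀ j a, al j a = al a j
  ks_symm : ∀ j a, ks j a = ks a j
  ks_ne : ∀ j a, ks j a ≠ 0
  N_ks : ∀ j a, P.N (ks j a) = (al j a)⁻¹
  sep : ∀ j a, NB μ j a → S (ρ (al j a) (L j a)) a = - S (ρ (al j a) (L j a)) j
  s1 : ∀ α j a j' a', NB μ j a → NB μ j' a' → L j a = L j' a' →
    h (some (σ j a α)) j a = h (some (σ j' a' α)) j' a' → SP j a j' a'
  s2 : ∀ j a j' a', NB μ j a → NB μ j' a' → L j a = L j' a' →
    h none j a = h (some (σ j' a' (al j a))) j' a' → SP j a j' a'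
  s2' : ∀ j a j' a', NB μ j a → NB μ j' a' → L j a = L j' a' → ks j a = ks j' a' →
    h none j a = h none j' a' → SP j a j' a'
  s3 : ∀ j a j' a', NB μ j a → NB μ j' a' → g j a = g j' a' →
    h (some (σ j a (al j a))) j a = h (some (σ j' a' (al j' a'))) j' a' → SP j a j' a'

section

variable {K V A J R : Type*} [Field K] [CommGroup V] {P : Pack K V} {S : A → J → ℤ}
  {μ : J → J} {L g : J → J → A} {h : Option V → J → J → R}

namespace Sch

variable (Sc : Sch P S μ L g h)

/-- the column of a unit -/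
def col (j a : J) (w : K) : V := (Sc.σ j a).symm (P.N w)

/-- the class of a unit in its column -/
def row (j a : J) (w : K) : A := Sc.ρ (Sc.col j a w) (L j a)

open Classical in
/-- the numerator of the field component of the regular board of a unit -/
noncomputable def num (j a : J) (w : K) : K :=
  if S (Sc.row j a w) a = - S (Sc.row j a w) j then P.b (P.N w / Sc.col j a w)
  else P.c (P.N w / Sc.col j a w)

/-- the field component of the regular board of a unit -/
noncomputable def amp (j a : J) (w : K) : K := Sc.num j a w / w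

open Classical in
/-- the board of a unit -/
noncomputable def bd [Zero A] (j a : J) (w : K) : K × A :=
  if w = 0 then
    (if NB μ j a then (Sc.ks j a, Sc.ρ (Sc.al j a) (L j a)) else (0, g j a))
  else if NB μ j a ∧ Sc.amp j a w = Sc.ks j a then (0, g j a)
  else (Sc.amp j a w, Sc.row j a w)

/-- The blown-up one-factorization. -/
noncomputable def G [Zero A] (x y : K × J) : K × A := Sc.bd x.2 y.2 (x.1 + y.1)

end Sch

open Classical in
/-- the level of `w`, `none` for `w = 0` -/
noncomputable def lev (P : Pack K V) (w : K) : Option V := if w = 0 then none else some (P.N w)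

/-- The round of an edge. -/
noncomputable def rdC (P : Pack K V) (h : Option V → J → J → R) (μ : J → J) (side : J → ZMod 2)
    (t : J → J → K) (rK : K × ZMod 2 → K × ZMod 2 → K × ZMod 2) (x y : K × J) :
    (K × ZMod 2) ⊕ (K × R) :=
  open Classical in
  if NB μ x.2 y.2 then
    Sum.inr (x.1 + t x.2 y.2 * (x.1 + y.1), h (lev P (x.1 + y.1)) x.2 y.2)
  else Sum.inl (rK (x.1, side x.2) (y.1, side y.2))

end

end Pool.Agent.Lib.MP_db622c_co.P7
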