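import Pool.Agent.Lib.MP_db622c_co.P7.Defs

/-!
# MP_db622c_co, board P7: definitions of part C (relabellings, pairs)
-/

namespace Pool.Agent.Lib.MP_db622c_co.P7

open Pool.Agent.Lib.MP_db622c_co Pool.Agent.Lib.MP_db622c_co.CB

/-- the relabelling of `Fin m × Bool` given by a permutation of the blocks and a flip for every
block -/
def rl {m : ℕ} (te : Equiv.Perm (Fin m) × (Fin m → Bool)) (x : Fin m × Bool) : Fin m × Bool :=
  (te.1 x.1, xor x.2 (te.2 x.1))

/-- the pairs of points in different blocks, the block of the first point being the smaller one -/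
def Pr {J : Type*} {m : ℕ} (e : J ≃ Fin m × Bool) : Type _ :=
  {z : J × J // (e z.1).1 < (e z.2).1}

noncomputable instance {J : Type*} [Fintype J] {m : ℕ} (e : J ≃ Fin m × Bool) :
    Fintype (Pr e) := by
  classical
  exact inferInstanceAs (Fintype {z : J × J // (e z.1).1 < (e z.2).1})

end Pool.Agent.Lib.MP_db622c_co.P7
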