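import Pool.Agent.Lib.MP_db622c_co.P7.Defs

/-!
# P7-Fib: the levels of a package have equal sizes

PROOF.  For `D : V` let `F D = {x : K | x ≠ 0 ∧ N x = D}`.  Multiplication by `P.b (D' / D)` maps
`F D` injectively to `F D'` (`N_mul`, `N_b`, `b_ne`), so all `F D` have the same number `q'` of
elements and `q' * card V = card K - 1` (every `x ≠ 0` is in exactly one `F D`).  So `q ≤ q'`
(`card V ≥ 1`), and there are injections `Fin q → F D⁻¹`.
-/

namespace Pool.Agent.Lib.MP_db622c_co.P7

open Pool.Agent.Lib.MP_db622c_co Pool.Agent.Lib.MP_db622c_co.CB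

theorem exists_kf {K V : Type*} [Field K] [Fintype K] [CommGroup V] [Fintype V] (P : Pack K V)
    (q : ℕ) (hq : q * Fintype.card V ≤ Fintype.card K - 1) :
    ∃ kf : V → Fin q → K, (∀ D i, kf D i ≠ 0) ∧ (∀ D i, P.N (kf D i) = D⁻¹) ∧
      ∀ D, Function.Injective (kf D) := by
  classical
  set F : V → Finset K := fun D => Finset.univ.filter fun x => x ≠ 0 ∧ P.N x = D with hF
  have hle : ∀ D D' : V, (F D).card ≤ (F D').card := by
    intro D D'
    refine Finset.card_le_card_of_injOn (fun x => x * P.b (D' / D)) ?_ ?_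
    · intro x hx
      have hx' : x ∈ F D := hx
      rw [hF, Finset.mem_filter] at hx'
      obtain ⟨_, h1, h2⟩ := hx'
      show x * P.b (D' / D) ∈ F D'
      rw [hF, Finset.mem_filter]
      refine ⟨Finset.mem_univ _, mul_ne_zero h1 (P.b_ne _), ?_⟩
      rw [P.N_mul _ _ h1 (P.b_ne _), P.N_b, h2, mul_div_cancel]
    · intro x _ y _ hxy
      exact mul_right_cancel₀ (P.b_ne _) hxy
  have hsum : ∑ D : V, (F D).card = Fintype.card K - 1 := by
    have h1 := Finset.card_eq_sum_card_fiberwise (f := P.N) (s := Finset.univ.filter fun x : K => x ≠ 0)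
      (t := (Finset.univ : Finset V)) (fun x _ => Finset.mem_coe.2 (Finset.mem_univ _))
    have h2 : (Finset.univ.filter fun x : K => x ≠ 0).card = Fintype.card K - 1 := by
      rw [Finset.filter_ne', Finset.card_erase_of_mem (Finset.mem_univ _), Finset.card_univ]
    rw [← h2, h1]
    refine Finset.sum_congr rfl fun D _ => ?_
    rw [Finset.filter_filter]
  have hc : ∀ D : V, q ≤ (F D).card := by
    intro D
    have h1 : ∑ D' : V, (F D').card ≤ ∑ _D' : V, (F D).card := Finset.sum_le_sum fun D' _ => hle D' D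
    rw [hsum, Finset.sum_const, Finset.card_univ, smul_eq_mul] at h1
    have h2 : 0 < Fintype.card V := Fintype.card_pos_iff.2 ⟨1⟩
    have h3 : q * Fintype.card V ≤ (F D).card * Fintype.card V := by
      rw [mul_comm (F D).card]
      exact hq.trans h1
    exact Nat.le_of_mul_le_mul_right h3 h2
  have hemb : ∀ D : V, Nonempty (Fin q ↪ F D⁻¹) := fun D => by
    refine Function.Embedding.nonempty_of_card_le ?_
    rw [Fintype.card_fin, Fintype.card_coe]
    exact hc _
  have hmem : ∀ (D : V) (i : Fin q), ((hemb D).some i : K) ≠ 0 ∧ P.N ((hemb D).some i : K) = D⁻¹ := by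
    intro D i
    have h1 : ((hemb D).some i : K) ∈ F D⁻¹ := ((hemb D).some i).2
    exact (Finset.mem_filter.1 h1).2
  refine ⟨fun D i => ((hemb D).some i : K), fun D i => (hmem D i).1, fun D i => (hmem D i).2, ?_⟩
  intro D i j hij
  exact (hemb D).some.injective (Subtype.ext hij)

end Pool.Agent.Lib.MP_db622c_co.P7
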