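import Pool.Agent.Lib.MP_db622c_co.P7.Rc
import Pool.Agent.Lib.MP_db622c_co.CB.HC

/-!
# P7-Rj: round classes with small loads

PROOF.  `m = k + 1`.  `exists_hc` (CB/HC.lean) gives `h0 : J → J → ZMod (2 k)` with
`IsHC h0 μ`.  For `te` put `h j a = h0 (e.symm (rl te (e j))) (e.symm (rl te (e a)))`.  `rl te`
is a bijection of `Fin m × Bool` which commutes with the flip of the second component, so
`j ↦ e.symm (rl te (e j))` is a bijection commuting with `μ` and `IsHC h μ` for every `te`.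
For `c : A`, `r : ZMod (2 k)` apply `relab_count` with
`Q x y = (x.1 ≠ y.1 ∧ L (e.symm x) (e.symm y) = c)`, `P x y = (x.1 ≠ y.1 ∧ h0 (e.symm x) (e.symm y) = r)`
(matchings: `IsLam.inj`; `IsHC.inj`, where `x.1 ≠ y.1` means `NB μ (e.symm x) (e.symm y)`, since
`e (μ j) = ((e j).1, !(e j).2)`), and the same with `g` instead of `L` (`IsOF.inj`).  The number of
`te` is `(k + 1)! 2 ^ (k + 1)`, the number of triples (`L` or `g`, `c`, `r`) is
`2 (2 k + 2) (2 k) ≤ 8 (k + 1) ^ 2`; by `hnum` there is a `te` which is good for all of them, i.e.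
every load is `< 3 ℓ`.  The set `Pr e` is in bijection with `{(x, y) | x.1 < y.1}` by `e`.
-/

namespace Pool.Agent.Lib.MP_db622c_co.P7

open Pool.Agent.Lib.MP_db622c_co Pool.Agent.Lib.MP_db622c_co.CB

section

variable {J : Type*} {k : ℕ} {μ : J → J} (e : J ≃ Fin (k + 1) × Bool)

/-- the relabelled round classes -/
private def hh {R : Type*} (h0 : J → J → R) (te : Equiv.Perm (Fin (k + 1)) × (Fin (k + 1) → Bool))
    (j a : J) : R := h0 (e.symm (rl te (e j))) (e.symm (rl te (e a)))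

private theorem rl_inj {m : ℕ} (te : Equiv.Perm (Fin m) × (Fin m → Bool)) :
    Function.Injective (rl te) := by
  rintro ⟨x, s⟩ ⟨y, t⟩ h
  simp only [rl, Prod.mk.injEq] at h
  obtain ⟨h1, h2⟩ := h
  have h3 := te.1.injective h1
  subst h3
  have h4 : s = t := by
    cases s <;> cases t <;> cases (te.2 x) <;> simp at h2 ⊢
  rw [h4]

private theorem hh_isHC {R : Type*} (he : ∀ j, e (μ j) = ((e j).1, !(e j).2)) {h0 : J → J → R}
    (h : IsHC h0 μ) (te : Equiv.Perm (Fin (k + 1)) × (Fin (k + 1) → Bool)) :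
    IsHC (hh e h0 te) μ := by
  have hinj : Function.Injective fun j => e.symm (rl te (e j)) :=
    e.symm.injective.comp ((rl_inj te).comp e.injective)
  have hμs : ∀ j, e.symm (rl te (e (μ j))) = μ (e.symm (rl te (e j))) := by
    intro j
    apply e.injective
    rw [Equiv.apply_symm_apply, he, he, Equiv.apply_symm_apply]
    simp [rl]
  refine ⟨fun j l => h.symm _ _, fun j a b ha ha' hb hb' hab => ?_⟩
  refine hinj (h.inj (e.symm (rl te (e j))) _ _ ?_ ?_ ?_ ?_ hab)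
  · exact fun h1 => ha (hinj h1)
  · rw [← hμs]
    exact fun h1 => ha' (hinj h1)
  · exact fun h1 => hb (hinj h1)
  · rw [← hμs]
    exact fun h1 => hb' (hinj h1)

private theorem rj_nb (he : ∀ j, e (μ j) = ((e j).1, !(e j).2)) {x y : Fin (k + 1) × Bool}
    (h : x.1 ≠ y.1) : e.symm y ≠ e.symm x ∧ e.symm y ≠ μ (e.symm x) := by
  constructor
  · intro h1
    exact h (congrArg Prod.fst (e.symm.injective h1)).symm
  · intro h1
    have h2 : y = e (μ (e.symm x)) := by rw [← h1, Equiv.apply_symm_apply]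
    rw [he, Equiv.apply_symm_apply] at h2
    exact h (congrArg Prod.fst h2).symm

open Classical in
private theorem rj_load [Fintype J] {A R : Type*} (h0 : J → J → R) (L : J → J → A)
    (te : Equiv.Perm (Fin (k + 1)) × (Fin (k + 1) → Bool)) (c : A) (r : R) :
    Nat.card {z : Pr e // L z.1.1 z.1.2 = c ∧ hh e h0 te z.1.1 z.1.2 = r} ≤
      Nat.card {z : (Fin (k + 1) × Bool) × (Fin (k + 1) × Bool) // z.1.1 < z.2.1 ∧
        (z.1.1 ≠ z.2.1 ∧ L (e.symm z.1) (e.symm z.2) = c) ∧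
        ((rl te z.1).1 ≠ (rl te z.2).1 ∧
          h0 (e.symm (rl te z.1)) (e.symm (rl te z.2)) = r)} := by
  refine Nat.card_le_card_of_injective (fun z => ⟨(e z.1.1.1, e z.1.1.2), ?_, ?_, ?_⟩) ?_
  · exact z.1.2
  · refine ⟨ne_of_lt z.1.2, ?_⟩
    rw [Equiv.symm_apply_apply, Equiv.symm_apply_apply]
    exact z.2.1
  · refine ⟨?_, z.2.2⟩
    intro h1
    exact ne_of_lt z.1.2 (te.1.injective h1)
  · intro z w hzw
    have h1 : (e z.1.1.1, e z.1.1.2) = (e w.1.1.1, e w.1.1.2) := congrArg Subtype.val hzw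
    have h2 : e z.1.1.1 = e w.1.1.1 := congrArg Prod.fst h1
    have h3 : e z.1.1.2 = e w.1.1.2 := congrArg Prod.snd h1
    exact Subtype.ext (Subtype.ext (Prod.ext (e.injective h2) (e.injective h3)))

end

theorem exists_hload {A J : Type*} [Zero A] [Fintype A] [Fintype J] (k ℓ : ℕ) (hk : 1 ≤ k)
    (hA : Fintype.card A = 2 * k + 2) (hJ : Fintype.card J = 2 * k + 2)
    {μ : J → J} (hμ : ∀ j, μ (μ j) = j) (hμ' : ∀ j, μ j ≠ j)
    (e : J ≃ Fin (k + 1) × Bool) (he : ∀ j, e (μ j) = ((e j).1, !(e j).2))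
    {L g : J → J → A} {side : J → ZMod 2} (hL : IsLam L μ side) (hg : IsOF g)
    (hℓ1 : 1 ≤ ℓ) (hℓ : 23 * ℓ ≤ k + 1)
    (hnum : (8 : ℝ) * ((k : ℝ) + 1) ^ 2 * (3 / 5) ^ ℓ < 1) :
    ∃ h : J → J → ZMod (2 * k), IsHC h μ ∧
      (∀ c r, Nat.card {z : Pr e // L z.1.1 z.1.2 = c ∧ h z.1.1 z.1.2 = r} ≤ 3 * ℓ) ∧
      (∀ c r, Nat.card {z : Pr e // g z.1.1 z.1.2 = c ∧ h z.1.1 z.1.2 = r} ≤ 3 * ℓ) := by
  classical
  obtain ⟨h0, hh0⟩ := exists_hc k hk hJ μ hμ hμ'
  have : NeZero (2 * k) := ⟨by omega⟩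
  let TE := Equiv.Perm (Fin (k + 1)) × (Fin (k + 1) → Bool)
  let Ix := Bool × (A × ZMod (2 * k))
  let Lb : Bool → J → J → A := fun b => if b then L else g
  let load : Ix → TE → ℕ := fun i te =>
    Nat.card {z : (Fin (k + 1) × Bool) × (Fin (k + 1) × Bool) // z.1.1 < z.2.1 ∧
        (z.1.1 ≠ z.2.1 ∧ Lb i.1 (e.symm z.1) (e.symm z.2) = i.2.1) ∧
        ((rl te z.1).1 ≠ (rl te z.2).1 ∧
          h0 (e.symm (rl te z.1)) (e.symm (rl te z.2)) = i.2.2)}
  have hcardTE : (Fintype.card TE : ℝ) = ((k + 1).factorial : ℝ) * 2 ^ (k + 1) := by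
    simp only [TE, Fintype.card_prod, Fintype.card_perm, Fintype.card_fin, Fintype.card_fun,
      Fintype.card_bool]
    push_cast
    rfl
  have hcardIx : Fintype.card Ix = 2 * ((2 * k + 2) * (2 * k)) := by
    simp only [Ix, Fintype.card_prod, Fintype.card_bool, hA, ZMod.card]
  have hLbm : ∀ b j a a', a ≠ j → a' ≠ j → Lb b j a = Lb b j a' → a = a' := by
    intro b j a a' ha ha' h
    cases b
    · exact hg.inj j a a' ha ha' h
    · exact hL.inj j a a' h
  have hLbs : ∀ b j a, Lb b j a = Lb b a j := by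
    intro b j a
    cases b
    · exact hg.symm j a
    · exact hL.symm j a
  have hbad : ∀ i : Ix, ((Finset.univ.filter fun te : TE => 3 * ℓ ≤ load i te).card : ℝ) ≤
      (3 / 5) ^ ℓ * (((k + 1).factorial : ℝ) * 2 ^ (k + 1)) := by
    intro i
    have h1 := relab_count (k + 1) ℓ hℓ1 hℓ
      (fun x y => x.1 ≠ y.1 ∧ h0 (e.symm x) (e.symm y) = i.2.2)
      (fun x y => x.1 ≠ y.1 ∧ Lb i.1 (e.symm x) (e.symm y) = i.2.1)
      (fun x y h => h.1)
      (fun x y y' h h' => by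
        obtain ⟨n1, n2⟩ := rj_nb e he h.1
        obtain ⟨n3, n4⟩ := rj_nb e he h'.1
        exact e.symm.injective (hh0.inj _ _ _ n1 n2 n3 n4 (h.2.trans h'.2.symm)))
      (fun x y h => ⟨h.1.symm, (hh0.symm _ _).trans h.2⟩)
      (fun x y h => h.1)
      (fun x y y' h h' => e.symm.injective (hLbm i.1 _ _ _ (rj_nb e he h.1).1 (rj_nb e he h'.1).1
        (h.2.trans h'.2.symm)))
      (fun x y h => ⟨h.1.symm, (hLbs _ _ _).trans h.2⟩)
    rw [Nat.card_eq_fintype_card, Fintype.card_subtype] at h1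
    exact h1
  -- union bound
  have hex : ∃ te : TE, ∀ i : Ix, load i te < 3 * ℓ := by
    by_contra hcon
    push Not at hcon
    have h1 : (Finset.univ : Finset TE) ⊆
        (Finset.univ : Finset Ix).biUnion fun i => Finset.univ.filter fun te => 3 * ℓ ≤ load i te := by
      intro te _
      obtain ⟨i, hi⟩ := hcon te
      rw [Finset.mem_biUnion]
      exact ⟨i, Finset.mem_univ _, Finset.mem_filter.2 ⟨Finset.mem_univ _, hi⟩⟩
    have h2 := (Finset.card_le_card h1).trans Finset.card_biUnion_le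
    have h3 : (Fintype.card TE : ℝ) ≤
        ∑ i : Ix, ((Finset.univ.filter fun te : TE => 3 * ℓ ≤ load i te).card : ℝ) := by
      rw [← Finset.card_univ]
      exact_mod_cast h2
    have h4 := h3.trans (Finset.sum_le_sum fun i _ => hbad i)
    rw [Finset.sum_const, Finset.card_univ, hcardIx, nsmul_eq_mul, hcardTE] at h4
    have h5 : (0 : ℝ) < ((k + 1).factorial : ℝ) * 2 ^ (k + 1) := by positivity
    have h6 : ((2 * ((2 * k + 2) * (2 * k)) : ℕ) : ℝ) ≤ 8 * ((k : ℝ) + 1) ^ 2 := by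
      push_cast
      nlinarith [Nat.cast_nonneg (α := ℝ) k]
    have h7 : ((2 * ((2 * k + 2) * (2 * k)) : ℕ) : ℝ) * (3 / 5) ^ ℓ < 1 :=
      lt_of_le_of_lt (mul_le_mul_of_nonneg_right h6 (by positivity)) hnum
    have h8 : ((2 * ((2 * k + 2) * (2 * k)) : ℕ) : ℝ) *
        ((3 / 5) ^ ℓ * (((k + 1).factorial : ℝ) * 2 ^ (k + 1))) <
        ((k + 1).factorial : ℝ) * 2 ^ (k + 1) := by
      rw [← mul_assoc]
      have := mul_lt_mul_of_pos_right h7 h5
      rwa [one_mul] at this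
    exact absurd h4 (not_le.2 h8)
  obtain ⟨te, hte⟩ := hex
  refine ⟨hh e h0 te, hh_isHC e he hh0 te, fun c r => ?_, fun c r => ?_⟩
  · exact (rj_load e h0 L te c r).trans (hte (true, (c, r))).le
  · exact (rj_load e h0 g te c r).trans (hte (false, (c, r))).le

end Pool.Agent.Lib.MP_db622c_co.P7
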