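import Pool.Agent.Lib.MP_db622c_co.P7.Core
import Pool.Agent.Lib.MP_db622c_co.P7.Rj
import Pool.Agent.Lib.MP_db622c_co.P7.Cls
import Pool.Agent.Lib.MP_db622c_co.P7.Fib
import Pool.Agent.Lib.MP_db622c_co.CB.Match

/-!
# P7-Ex: existence of a schedule for the polylogarithmic blow-up
-/

namespace Pool.Agent.Lib.MP_db622c_co.P7

open Pool.Agent.Lib.MP_db622c_co Pool.Agent.Lib.MP_db622c_co.CB

theorem NB_iff {J : Type*} {m : ℕ} {μ : J → J} (e : J ≃ Fin m × Bool)
    (he : ∀ j, e (μ j) = ((e j).1, !(e j).2)) (j a : J) : NB μ j a ↔ (e j).1 ≠ (e a).1 := by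
  constructor
  · rintro ⟨h1, h2⟩ hc
    by_cases h3 : (e j).2 = (e a).2
    · exact h1 (e.injective (Prod.ext hc.symm h3.symm))
    · apply h2
      apply e.injective
      rw [he]
      refine Prod.ext hc.symm ?_
      show (e a).2 = !(e j).2
      revert h3
      cases (e j).2 <;> cases (e a).2 <;> simp
  · intro h
    refine ⟨fun hc => h (by rw [hc]), fun hc => h ?_⟩
    rw [hc, he]

/-- the pair of two points in different blocks -/
noncomputable def mkPr {J : Type*} {m : ℕ} (e : J ≃ Fin m × Bool) (j a : J)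
    (h : (e j).1 ≠ (e a).1) : Pr e :=
  open Classical in
  if hlt : (e j).1 < (e a).1 then ⟨(j, a), hlt⟩
  else ⟨(a, j), lt_of_le_of_ne (not_lt.1 hlt) h.symm⟩

theorem mkPr_cases {J : Type*} {m : ℕ} (e : J ≃ Fin m × Bool) (j a : J)
    (h : (e j).1 ≠ (e a).1) : (mkPr e j a h).1 = (j, a) ∨ (mkPr e j a h).1 = (a, j) := by
  unfold mkPr
  split_ifs
  · exact Or.inl rfl
  · exact Or.inr rfl

theorem mkPr_symm {J : Type*} {m : ℕ} (e : J ≃ Fin m × Bool) (j a : J)
    (h : (e j).1 ≠ (e a).1) : mkPr e j a h = mkPr e a j h.symm := by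
  unfold mkPr
  by_cases hlt : (e j).1 < (e a).1
  · rw [dif_pos hlt, dif_neg (not_lt.2 hlt.le)]
  · have h2 : (e a).1 < (e j).1 := lt_of_le_of_ne (not_lt.1 hlt) h.symm
    rw [dif_neg hlt, dif_pos h2]

theorem mkPr_eval {J T : Type*} {m : ℕ} (e : J ≃ Fin m × Bool) (f : J → J → T)
    (hf : ∀ j a, f j a = f a j) (j a : J) (h : (e j).1 ≠ (e a).1) :
    f (mkPr e j a h).1.1 (mkPr e j a h).1.2 = f j a := by
  rcases mkPr_cases e j a h with h1 | h1 <;> rw [h1]
  exact hf a j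

theorem mkPr_SP {J : Type*} {m : ℕ} (e : J ≃ Fin m × Bool) {j a j' a' : J}
    (h : (e j).1 ≠ (e a).1) (h' : (e j').1 ≠ (e a').1) (hh : mkPr e j a h = mkPr e j' a' h') :
    SP j a j' a' := by
  have h1 := mkPr_cases e j a h
  have h2 := mkPr_cases e j' a' h'
  rw [← hh] at h2
  rcases h1 with h1 | h1 <;> rcases h2 with h2 | h2 <;> rw [h1] at h2
  · exact Or.inl ⟨(Prod.mk.inj h2).1.symm, (Prod.mk.inj h2).2.symm⟩
  · exact Or.inr ⟨(Prod.mk.inj h2).2.symm, (Prod.mk.inj h2).1.symm⟩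
  · exact Or.inr ⟨(Prod.mk.inj h2).1.symm, (Prod.mk.inj h2).2.symm⟩
  · exact Or.inl ⟨(Prod.mk.inj h2).2.symm, (Prod.mk.inj h2).1.symm⟩

/-- numbering the elements of small fibres -/
theorem exists_idx {Q T : Type*} [Fintype Q] (f : Q → T) (q : ℕ)
    (hf : ∀ t, Nat.card {p : Q // f p = t} ≤ q) :
    ∃ idx : Q → Fin q, ∀ p p', f p = f p' → idx p = idx p' → p = p' := by
  classical
  have h1 : ∀ t, ∃ i : {p : Q // f p = t} → Fin q, Function.Injective i := by
    intro t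
    have h2 : Fintype.card {p : Q // f p = t} ≤ Fintype.card (Fin q) := by
      rw [Fintype.card_fin, ← Nat.card_eq_fintype_card]; exact hf t
    obtain ⟨i⟩ := Function.Embedding.nonempty_of_card_le h2
    exact ⟨i, i.injective⟩
  choose i hi using h1
  refine ⟨fun p => i (f p) ⟨p, rfl⟩, ?_⟩
  intro p p' hff hii
  have h3 : i (f p) ⟨p, rfl⟩ = i (f p) ⟨p', hff.symm⟩ := by
    refine hii.trans ?_
    have h4 : ∀ (t : T) (ht : f p' = t), i (f p') ⟨p', rfl⟩ = i t ⟨p', ht⟩ := by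
      intro t ht; subst ht; rfl
    exact h4 _ _
  exact congrArg Subtype.val (hi _ h3)

theorem IsHC.comp {J X Y : Type*} {h : J → J → X} {μ : J → J} (hh : IsHC h μ) {f : X → Y}
    (hf : Function.Injective f) : IsHC (fun j a => f (h j a)) μ :=
  ⟨fun j k => by rw [hh.symm], fun j a b h1 h2 h3 h4 h5 => hh.inj j a b h1 h2 h3 h4 (hf h5)⟩

theorem exists_sch {K V A J : Type*} [Field K] [Fintype K] [CommGroup V] [Fintype V] [Zero A]
    [Fintype A] [Fintype J] (P : Pack K V) (k ℓ : ℕ) (hk : 1 ≤ k) (hℓ : 1 ≤ ℓ)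
    (hA : Fintype.card A = 2 * k + 2) (hJ : Fintype.card J = 2 * k + 2)
    {S : A → J → ℤ} (hS : IsH S) {g : J → J → A} (hg : IsOF g) {μ : J → J}
    (hμ : IsRB g μ) {L : J → J → A} {side : J → ZMod 2} (hL : IsLam L μ side)
    (hV1 : 20000 * ℓ * Fintype.card V ≤ k)
    (hV2 : (8 : ℝ) * ((k : ℝ) + 1) ^ 2 ≤ Real.exp ((Fintype.card V : ℝ) / (2000 * ℓ)))
    (hnum : (8 : ℝ) * ((k : ℝ) + 1) ^ 2 * (3 / 5) ^ ℓ < 1)
    (hK : 3 * ℓ * Fintype.card V ≤ Fintype.card K - 1) :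
    ∃ h : Option V → J → J → ZMod (2 * k), (∀ n, IsHC (h n) μ) ∧
      Nonempty (Sch P S μ L g h) := by
  classical
  -- coordinates
  obtain ⟨m, e0, he0⟩ := match_coord μ hμ.inv hμ.ne
  have hm : m = k + 1 := by
    have h1 := Fintype.card_congr e0
    rw [hJ, Fintype.card_prod, Fintype.card_fin, Fintype.card_bool] at h1
    omega
  subst hm
  have hvpos : 1 ≤ Fintype.card V := Fintype.card_pos
  obtain ⟨h', hh', lL, lg⟩ := exists_hload k ℓ hk hA hJ hμ.inv hμ.ne e0 he0 hL hg hℓ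
    (by nlinarith) hnum
  obtain ⟨δ, π, π0, σ, ρ, al, s1, s2, s3, hsep⟩ := core (Q := Pr e0) (A := A) (V := V) k ℓ hk hℓ hA
    (fun z => L z.1.1 z.1.2) (fun z => g z.1.1 z.1.2) (fun z => h' z.1.1 z.1.2)
    (fun z a => S a z.1.2 = - S a z.1.1) (fun z => card_sep k e0 hA hS z)
    (card_Pr k e0).le (fun c => card_L k e0 hk hA he0 hL c) (fun c => card_g_le k e0 hg c)
    lL lg hV1 hV2
  obtain ⟨idx, hidx⟩ := exists_idx (Q := Pr e0) (fun z => (L z.1.1 z.1.2, h' z.1.1 z.1.2))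
    (3 * ℓ) (by
      rintro ⟨c, r⟩
      refine le_trans (le_of_eq ?_) (lL c r)
      exact Nat.card_congr (Equiv.subtypeEquivRight fun z => by
        constructor
        · intro hh; exact Prod.mk.inj hh
        · intro hh; exact Prod.ext hh.1 hh.2))
  obtain ⟨kf, kf0, kfN, kfi⟩ := exists_kf P (3 * ℓ) hK
  have hpos : 0 < 3 * ℓ := by omega
  have hNB : ∀ j a, NB μ j a → (e0 j).1 ≠ (e0 a).1 := fun j a h => (NB_iff e0 he0 j a).1 h
  have hNBs : ∀ j a, NB μ j a → NB μ a j := fun j a h => NB_symm hμ.inv h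
  -- the round classes
  let h : Option V → J → J → ZMod (2 * k) := fun n j a => match n with
    | none => π0 (h' j a)
    | some n => π (h' j a) + δ n
  have hh : ∀ n, IsHC (h n) μ := by
    intro n
    rcases n with _ | n
    · exact IsHC.comp hh' π0.injective
    · exact IsHC.comp hh' (f := fun x => π x + δ n)
        (fun x y hxy => π.injective (add_right_cancel hxy))
  refine ⟨h, hh, ⟨{
    σ := fun j a => if hn : NB μ j a then σ (mkPr e0 j a (hNB j a hn)) else 1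
    ρ := ρ
    al := fun j a => if hn : NB μ j a then al (mkPr e0 j a (hNB j a hn)) else 1
    ks := fun j a => if hn : NB μ j a then
      kf (al (mkPr e0 j a (hNB j a hn))) (idx (mkPr e0 j a (hNB j a hn))) else kf 1 ⟨0, hpos⟩
    σ_symm := ?_
    σ_same := ?_
    σ_μ := ?_
    al_symm := ?_
    ks_symm := ?_
    ks_ne := ?_
    N_ks := ?_
    sep := ?_
    s1 := ?_
    s2 := ?_
    s2' := ?_
    s3 := ?_ }⟩⟩
  · intro j a
    by_cases hn : NB μ j a
    · rw [dif_pos hn, dif_pos (hNBs j a hn), mkPr_symm]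
    · rw [dif_neg hn, dif_neg (fun hc => hn (hNBs a j hc))]
  · intro j
    rw [dif_neg (fun hc : NB μ j j => hc.1 rfl)]
  · intro j
    rw [dif_neg (fun hc : NB μ j (μ j) => hc.2 rfl)]
  · intro j a
    by_cases hn : NB μ j a
    · rw [dif_pos hn, dif_pos (hNBs j a hn), mkPr_symm]
    · rw [dif_neg hn, dif_neg (fun hc => hn (hNBs a j hc))]
  · intro j a
    by_cases hn : NB μ j a
    · rw [dif_pos hn, dif_pos (hNBs j a hn), mkPr_symm]
    · rw [dif_neg hn, dif_neg (fun hc => hn (hNBs a j hc))]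
  · intro j a
    by_cases hn : NB μ j a
    · rw [dif_pos hn]; exact kf0 _ _
    · rw [dif_neg hn]; exact kf0 _ _
  · intro j a
    by_cases hn : NB μ j a
    · rw [dif_pos hn, dif_pos hn]; exact kfN _ _
    · rw [dif_neg hn, dif_neg hn]; exact kfN _ _
  · intro j a hn
    rw [dif_pos hn]
    have h1 := hsep (mkPr e0 j a (hNB j a hn))
    have h2 : L (mkPr e0 j a (hNB j a hn)).1.1 (mkPr e0 j a (hNB j a hn)).1.2 = L j a :=
      mkPr_eval e0 L hL.symm j a (hNB j a hn)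
    simp only [h2] at h1
    rcases mkPr_cases e0 j a (hNB j a hn) with h3 | h3
    · rw [h3] at h1; exact h1
    · rw [h3] at h1; rw [h1, neg_neg]
  · intro α j a j' a' hn hn' hLL hhh
    rw [dif_pos hn, dif_pos hn'] at hhh
    refine mkPr_SP e0 (hNB j a hn) (hNB j' a' hn') (s1 α _ _ ?_ ?_)
    · show L _ _ = L _ _
      rw [mkPr_eval e0 L hL.symm, mkPr_eval e0 L hL.symm]; exact hLL
    · show π (h' _ _) + _ = π (h' _ _) + _
      rw [mkPr_eval e0 h' hh'.symm, mkPr_eval e0 h' hh'.symm]; exact hhh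
  · intro j a j' a' hn hn' hLL hhh
    rw [dif_pos hn, dif_pos hn'] at hhh
    refine mkPr_SP e0 (hNB j a hn) (hNB j' a' hn') (s2 _ _ ?_ ?_)
    · show L _ _ = L _ _
      rw [mkPr_eval e0 L hL.symm, mkPr_eval e0 L hL.symm]; exact hLL
    · show π0 (h' _ _) = π (h' _ _) + _
      rw [mkPr_eval e0 h' hh'.symm, mkPr_eval e0 h' hh'.symm]; exact hhh
  · intro j a j' a' hn hn' hLL hks hhh
    rw [dif_pos hn, dif_pos hn'] at hks
    have h1 : al (mkPr e0 j a (hNB j a hn)) = al (mkPr e0 j' a' (hNB j' a' hn')) := by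
      have h2 := congrArg P.N hks
      rw [kfN, kfN] at h2
      exact inv_injective h2
    rw [h1] at hks
    have h3 := kfi _ hks
    refine mkPr_SP e0 (hNB j a hn) (hNB j' a' hn') (hidx _ _ ?_ h3)
    show (L _ _, h' _ _) = (L _ _, h' _ _)
    rw [mkPr_eval e0 L hL.symm, mkPr_eval e0 L hL.symm, mkPr_eval e0 h' hh'.symm,
      mkPr_eval e0 h' hh'.symm, hLL]
    exact Prod.ext rfl (π0.injective hhh)
  · intro j a j' a' hn hn' hgg hhh
    rw [dif_pos hn, dif_pos hn', dif_pos hn, dif_pos hn'] at hhh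
    refine mkPr_SP e0 (hNB j a hn) (hNB j' a' hn') (s3 _ _ ?_ ?_)
    · show g _ _ = g _ _
      rw [mkPr_eval e0 g hg.symm, mkPr_eval e0 g hg.symm]; exact hgg
    · show π (h' _ _) + _ = π (h' _ _) + _
      rw [mkPr_eval e0 h' hh'.symm, mkPr_eval e0 h' hh'.symm]; exact hhh

end Pool.Agent.Lib.MP_db622c_co.P7
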