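import Mathlib

/-!
# P7-Num: the choice of the parameters

PROOF.  `lg = Nat.log 2 n ≥ 1`, so `2 ^ e ≥ 2 ^ 151`, `e ≥ 151`.  `y = e + lg + 1 ≥ 153`, so
`2 ^ (y - 1) ≤ 2 ^ e n < 2 ^ y`.  `ℓ = 4 y`.  `r` = the smallest ODD number with
`2 ^ 15 y ^ 2 ≤ 2 ^ r`; then `2 ^ r < 2 ^ 17 y ^ 2` (e.g. `r0 = Nat.clog 2 (2 ^ 15 y ^ 2)`, `r = r0`
or `r0 + 1`).  `d = 2` if `e + a` is odd, `d = 3` if it is even; then `e - d r + a` is odd (once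
`d r ≤ e` is known), as `r` is odd.
(1) `d r + 12 ≤ e`: `2 ^ (3 r + 12) < 2 ^ 63 y ^ 6` and `y ≤ 2 max (e + 1) lg`, so
`2 ^ 63 y ^ 6 ≤ 2 ^ 69 (max (e + 1) lg) ^ 6`; if `lg ≥ e + 1` this is
`≤ 2 ^ 69 lg ^ 6 ≤ 2 ^ e`; otherwise `2 ^ 69 (e + 1) ^ 6 ≤ 2 ^ e` for all `e ≥ 151` (induction:
at `e = 151` clear, and `((e + 2) / (e + 1)) ^ 6 ≤ 2`).
(2) `M = 2 ^ (e - d r) n` is even and `≥ 4`; `k = M / 2 - 1`.  `M < 2 ^ y`,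
`8 (k + 1) ^ 2 = 2 M ^ 2 ≤ 2 * 4 ^ y`.
(3) `8 (k + 1) ^ 2 (3 / 5) ^ (4 y) ≤ 2 (4 * 81 / 625) ^ y < 1` (`324 / 625 < 0.52`, `y ≥ 2`).
(4) `(2 ^ r - 1) / (2000 ℓ) = (2 ^ r - 1) / (8000 y) ≥ (2 ^ 15 y ^ 2 - 1) / (8000 y) ≥ 4 y`, and
`exp (4 y) ≥ 2 * 4 ^ y` (`exp 1 ≥ 2`, so `exp (4 y) ≥ 16 ^ y`).
(5) `20000 ℓ (2 ^ r - 1) ≤ k`: `M * 2 ^ (3 r) ≥ 2 ^ e n ≥ 2 ^ (y - 1)`, `2 ^ (3 r) < 2 ^ 51 y ^ 6`, so
`M * 2 ^ 51 y ^ 6 ≥ 2 ^ (y - 1)`; and `2 (80000 y * 2 ^ 17 y ^ 2 + 1) ≤ 2 ^ 35 y ^ 3`, so it is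
enough that `2 ^ 35 y ^ 3 * 2 ^ 51 y ^ 6 = 2 ^ 86 y ^ 9 ≤ 2 ^ (y - 1)`, true for `y ≥ 153`
(induction: `153 ^ 9 < 2 ^ 66`, and `((y + 1) / y) ^ 9 ≤ 2`).
-/

namespace Pool.Agent.Lib.MP_db622c_co.P7

private theorem num_pow6 (e : ℕ) (he : 151 ≤ e) : 2 ^ 69 * (e + 1) ^ 6 ≤ 2 ^ e := by
  induction e, he using Nat.le_induction with
  | base => norm_num
  | succ m hm ih =>
    have h1 : (m + 1 + 1) ^ 6 ≤ 2 * (m + 1) ^ 6 := by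
      have h2 : 100 * (m + 1 + 1) ≤ 101 * (m + 1) := by omega
      have h3 : (100 * (m + 1 + 1)) ^ 6 ≤ (101 * (m + 1)) ^ 6 := Nat.pow_le_pow_left h2 6
      rw [mul_pow, mul_pow] at h3
      have h4 : 101 ^ 6 ≤ 2 * 100 ^ 6 := by norm_num
      have h5 : 101 ^ 6 * (m + 1) ^ 6 ≤ 2 * 100 ^ 6 * (m + 1) ^ 6 := Nat.mul_le_mul_right _ h4
      have h6 : 100 ^ 6 * (m + 1 + 1) ^ 6 ≤ 100 ^ 6 * (2 * (m + 1) ^ 6) := by
        calc 100 ^ 6 * (m + 1 + 1) ^ 6 ≤ 101 ^ 6 * (m + 1) ^ 6 := h3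
          _ ≤ 2 * 100 ^ 6 * (m + 1) ^ 6 := h5
          _ = 100 ^ 6 * (2 * (m + 1) ^ 6) := by ring
      exact Nat.le_of_mul_le_mul_left h6 (by norm_num)
    calc 2 ^ 69 * (m + 1 + 1) ^ 6 ≤ 2 ^ 69 * (2 * (m + 1) ^ 6) := Nat.mul_le_mul_left _ h1
      _ = 2 * (2 ^ 69 * (m + 1) ^ 6) := by ring
      _ ≤ 2 * 2 ^ m := Nat.mul_le_mul_left _ ih
      _ = 2 ^ (m + 1) := by rw [pow_succ]; ring

private theorem num_pow9 (z : ℕ) (hz : 152 ≤ z) : 2 ^ 86 * (z + 1) ^ 9 ≤ 2 ^ z := by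
  induction z, hz using Nat.le_induction with
  | base => norm_num
  | succ m hm ih =>
    have h1 : (m + 1 + 1) ^ 9 ≤ 2 * (m + 1) ^ 9 := by
      have h2 : 100 * (m + 1 + 1) ≤ 101 * (m + 1) := by omega
      have h3 : (100 * (m + 1 + 1)) ^ 9 ≤ (101 * (m + 1)) ^ 9 := Nat.pow_le_pow_left h2 9
      rw [mul_pow, mul_pow] at h3
      have h4 : 101 ^ 9 ≤ 2 * 100 ^ 9 := by norm_num
      have h5 : 101 ^ 9 * (m + 1) ^ 9 ≤ 2 * 100 ^ 9 * (m + 1) ^ 9 := Nat.mul_le_mul_right _ h4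
      have h6 : 100 ^ 9 * (m + 1 + 1) ^ 9 ≤ 100 ^ 9 * (2 * (m + 1) ^ 9) := by
        calc 100 ^ 9 * (m + 1 + 1) ^ 9 ≤ 101 ^ 9 * (m + 1) ^ 9 := h3
          _ ≤ 2 * 100 ^ 9 * (m + 1) ^ 9 := h5
          _ = 100 ^ 9 * (2 * (m + 1) ^ 9) := by ring
      exact Nat.le_of_mul_le_mul_left h6 (by norm_num)
    calc 2 ^ 86 * (m + 1 + 1) ^ 9 ≤ 2 ^ 86 * (2 * (m + 1) ^ 9) := Nat.mul_le_mul_left _ h1
      _ = 2 * (2 ^ 86 * (m + 1) ^ 9) := by ring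
      _ ≤ 2 * 2 ^ m := Nat.mul_le_mul_left _ ih
      _ = 2 ^ (m + 1) := by rw [pow_succ]; ring

/-- The odd number `r`. -/
private theorem num_r (y : ℕ) (hy : 153 ≤ y) :
    ∃ r : ℕ, 1 ≤ r ∧ Odd r ∧ 2 ^ 15 * y ^ 2 ≤ 2 ^ r ∧ 2 ^ r < 2 ^ 17 * y ^ 2 := by
  have hy1 : 1 ≤ y ^ 2 := Nat.one_le_pow _ _ (by omega)
  have hbig : 1 < 2 ^ 15 * y ^ 2 := by
    have : 2 ^ 15 * 1 ≤ 2 ^ 15 * y ^ 2 := Nat.mul_le_mul_left _ hy1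
    omega
  have h1 : 2 ^ 15 * y ^ 2 ≤ 2 ^ (Nat.clog 2 (2 ^ 15 * y ^ 2)) := Nat.le_pow_clog (by norm_num) _
  have h2 : 2 ^ (Nat.clog 2 (2 ^ 15 * y ^ 2)).pred < 2 ^ 15 * y ^ 2 :=
    Nat.pow_pred_clog_lt_self (by norm_num) hbig
  have h3 : 0 < Nat.clog 2 (2 ^ 15 * y ^ 2) := Nat.clog_pos (by norm_num) hbig
  generalize Nat.clog 2 (2 ^ 15 * y ^ 2) = c at h1 h2 h3
  obtain ⟨c', rfl⟩ : ∃ c', c = c' + 1 := ⟨c - 1, by omega⟩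
  have h4 : 2 ^ c' < 2 ^ 15 * y ^ 2 := h2
  have h5 : 2 ^ (c' + 1) < 2 ^ 16 * y ^ 2 := by
    rw [pow_succ]; omega
  rcases Nat.even_or_odd (c' + 1) with hev | hodd
  · refine ⟨c' + 1 + 1, by omega, hev.add_one, ?_, ?_⟩
    · rw [pow_succ 2 (c' + 1)]; omega
    · rw [pow_succ 2 (c' + 1)]; omega
  · exact ⟨c' + 1, by omega, hodd, h1, by omega⟩

/-- The multiple `d`. -/
private theorem num_d (e a r : ℕ) (hr : Odd r) (h3 : 3 * r ≤ e) :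
    ∃ d : ℕ, 2 ≤ d ∧ d ≤ 3 ∧ Odd (e - d * r + a) := by
  rcases Nat.even_or_odd (e + a) with hev | hodd
  · refine ⟨3, by norm_num, le_refl _, ?_⟩
    rw [Nat.odd_iff] at hr ⊢
    rw [Nat.even_iff] at hev
    omega
  · refine ⟨2, le_refl _, by norm_num, ?_⟩
    rw [Nat.odd_iff] at hr hodd ⊢
    omega

theorem num_main (n e a : ℕ) (hn : 2 ≤ n) (he : 2 ^ 151 * (Nat.log 2 n) ^ 6 ≤ 2 ^ e) :
    ∃ r d ℓ k : ℕ, 1 ≤ r ∧ 2 ≤ d ∧ 1 ≤ ℓ ∧ 1 ≤ k ∧ d * r + 12 ≤ e ∧ Odd (e - d * r + a) ∧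
      2 ^ (e - d * r) * n = 2 * k + 2 ∧ 20000 * ℓ * (2 ^ r - 1) ≤ k ∧
      (8 : ℝ) * ((k : ℝ) + 1) ^ 2 ≤ Real.exp (((2 ^ r - 1 : ℕ) : ℝ) / (2000 * ℓ)) ∧
      (8 : ℝ) * ((k : ℝ) + 1) ^ 2 * (3 / 5) ^ ℓ < 1 := by
  have hlo : 2 ^ Nat.log 2 n ≤ n := Nat.pow_log_le_self 2 (by omega)
  have hhi : n < 2 ^ (Nat.log 2 n + 1) := Nat.lt_pow_succ_log_self (by norm_num) n
  have hlg1 : 1 ≤ Nat.log 2 n := Nat.log_pos (by norm_num) hn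
  generalize Nat.log 2 n = lg at he hlo hhi hlg1
  have he151 : 151 ≤ e := by
    have h1 : 2 ^ 151 * 1 ≤ 2 ^ 151 * lg ^ 6 := Nat.mul_le_mul_left _ (Nat.one_le_pow _ _ hlg1)
    have h2 : 2 ^ 151 ≤ 2 ^ e := by
      rw [mul_one] at h1
      exact h1.trans he
    exact (Nat.pow_le_pow_iff_right (by norm_num)).1 h2
  obtain ⟨y, hy⟩ : ∃ y, y = e + lg + 1 := ⟨_, rfl⟩
  have hy153 : 153 ≤ y := by omega
  have hMlo : 2 ^ (y - 1) ≤ 2 ^ e * n := by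
    have : y - 1 = e + lg := by omega
    rw [this, pow_add]
    exact Nat.mul_le_mul_left _ hlo
  have hMhi : 2 ^ e * n < 2 ^ y := by
    have : y = e + (lg + 1) := by omega
    rw [this, pow_add]
    exact Nat.mul_lt_mul_of_pos_left hhi (by positivity)
  obtain ⟨r, hr1, hrodd, hrlo, hrhi⟩ := num_r y hy153
  -- (1)
  have h3r : 3 * r + 12 ≤ e := by
    have h1 : 2 ^ (3 * r + 12) ≤ 2 ^ 63 * y ^ 6 := by
      have h2 : (2 ^ r) ^ 3 ≤ (2 ^ 17 * y ^ 2) ^ 3 := Nat.pow_le_pow_left hrhi.le 3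
      have h3 : 2 ^ (3 * r + 12) = (2 ^ r) ^ 3 * 2 ^ 12 := by
        rw [pow_add, ← pow_mul, mul_comm 3 r]
      rw [h3]
      calc (2 ^ r) ^ 3 * 2 ^ 12 ≤ (2 ^ 17 * y ^ 2) ^ 3 * 2 ^ 12 := Nat.mul_le_mul_right _ h2
        _ = 2 ^ 63 * y ^ 6 := by ring
    have h4 : 2 ^ 63 * y ^ 6 ≤ 2 ^ e := by
      by_cases hc : e + 1 ≤ lg
      · have h5 : y ≤ 2 * lg := by omega
        have h6 : y ^ 6 ≤ (2 * lg) ^ 6 := Nat.pow_le_pow_left h5 6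
        calc 2 ^ 63 * y ^ 6 ≤ 2 ^ 63 * (2 * lg) ^ 6 := Nat.mul_le_mul_left _ h6
          _ = 2 ^ 69 * lg ^ 6 := by ring
          _ ≤ 2 ^ 151 * lg ^ 6 := Nat.mul_le_mul_right _ (by norm_num)
          _ ≤ 2 ^ e := he
      · have h5 : y ≤ 2 * (e + 1) := by omega
        have h6 : y ^ 6 ≤ (2 * (e + 1)) ^ 6 := Nat.pow_le_pow_left h5 6
        calc 2 ^ 63 * y ^ 6 ≤ 2 ^ 63 * (2 * (e + 1)) ^ 6 := Nat.mul_le_mul_left _ h6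
          _ = 2 ^ 69 * (e + 1) ^ 6 := by ring
          _ ≤ 2 ^ e := num_pow6 e he151
    exact (Nat.pow_le_pow_iff_right (by norm_num)).1 (h1.trans h4)
  obtain ⟨d, hd2, hd3, hdodd⟩ := num_d e a r hrodd (by omega)
  have hdr3 : d * r ≤ 3 * r := Nat.mul_le_mul_right _ hd3
  have hdr : d * r + 12 ≤ e := by omega
  -- M
  obtain ⟨k, hk⟩ : ∃ k, 2 ^ (e - d * r) * n = 2 * k + 2 := by
    have h1 : e - d * r = (e - d * r - 1) + 1 := by omega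
    have h2 : 1 ≤ 2 ^ (e - d * r - 1) * n :=
      Nat.mul_pos (by positivity) (by omega)
    refine ⟨2 ^ (e - d * r - 1) * n - 1, ?_⟩
    have h3 : 2 ^ (e - d * r) * n = 2 * (2 ^ (e - d * r - 1) * n) := by
      conv_lhs => rw [h1, pow_succ]
      ring
    omega
  have hMle : 2 * k + 2 ≤ 2 ^ e * n := by
    rw [← hk]
    exact Nat.mul_le_mul_right _ (Nat.pow_le_pow_right (by norm_num) (by omega))
  have hMy : 2 * k + 2 < 2 ^ y := lt_of_le_of_lt hMle hMhi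
  -- (5)
  have hM5 : 2 ^ 35 * y ^ 3 ≤ 2 * k + 2 := by
    have h1 : 2 ^ (y - 1) ≤ (2 * k + 2) * 2 ^ (3 * r) := by
      refine hMlo.trans ?_
      rw [← hk]
      have h2 : 2 ^ e ≤ 2 ^ (e - d * r) * 2 ^ (3 * r) := by
        rw [← pow_add]
        exact Nat.pow_le_pow_right (by norm_num) (by omega)
      calc 2 ^ e * n ≤ 2 ^ (e - d * r) * 2 ^ (3 * r) * n := Nat.mul_le_mul_right _ h2
        _ = 2 ^ (e - d * r) * n * 2 ^ (3 * r) := by ring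
    have h3 : 2 ^ (3 * r) ≤ 2 ^ 51 * y ^ 6 := by
      have h2 : (2 ^ r) ^ 3 ≤ (2 ^ 17 * y ^ 2) ^ 3 := Nat.pow_le_pow_left hrhi.le 3
      have h4 : 2 ^ (3 * r) = (2 ^ r) ^ 3 := by rw [← pow_mul, mul_comm 3 r]
      rw [h4]
      calc (2 ^ r) ^ 3 ≤ (2 ^ 17 * y ^ 2) ^ 3 := h2
        _ = 2 ^ 51 * y ^ 6 := by ring
    have h5 : 2 ^ 86 * y ^ 9 ≤ 2 ^ (y - 1) := by
      have := num_pow9 (y - 1) (by omega)
      have hyy : y - 1 + 1 = y := by omega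
      rwa [hyy] at this
    have h6 : (2 ^ 35 * y ^ 3) * (2 ^ 51 * y ^ 6) ≤ (2 * k + 2) * (2 ^ 51 * y ^ 6) := by
      calc (2 ^ 35 * y ^ 3) * (2 ^ 51 * y ^ 6) = 2 ^ 86 * y ^ 9 := by ring
        _ ≤ 2 ^ (y - 1) := h5
        _ ≤ (2 * k + 2) * 2 ^ (3 * r) := h1
        _ ≤ (2 * k + 2) * (2 ^ 51 * y ^ 6) := Nat.mul_le_mul_left _ h3
    exact Nat.le_of_mul_le_mul_right h6 (by positivity)
  have hy1 : 1 ≤ y := by omega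
  have hy3 : 1 ≤ y ^ 3 := Nat.one_le_pow _ _ hy1
  have h5 : 20000 * (4 * y) * (2 ^ r - 1) ≤ k := by
    have h1 : 2 ^ r - 1 ≤ 2 ^ 17 * y ^ 2 := by omega
    have h2 : 20000 * (4 * y) * (2 ^ r - 1) ≤ 20000 * (4 * y) * (2 ^ 17 * y ^ 2) :=
      Nat.mul_le_mul_left _ h1
    have h3 : 20000 * (4 * y) * (2 ^ 17 * y ^ 2) = 80000 * 2 ^ 17 * y ^ 3 := by ring
    rw [h3] at h2
    norm_num at h2 hM5
    omega
  have hk1 : 1 ≤ k := by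
    norm_num at hM5
    omega
  -- the real part
  have hK : (8 : ℝ) * ((k : ℝ) + 1) ^ 2 ≤ 2 * 4 ^ y := by
    have h1 : 8 * (k + 1) ^ 2 ≤ 2 * 4 ^ y := by
      have h2 : (2 * k + 2) ^ 2 ≤ (2 ^ y) ^ 2 := Nat.pow_le_pow_left hMy.le 2
      have h3 : (2 ^ y) ^ 2 = 4 ^ y := by
        rw [← pow_mul, mul_comm, pow_mul]
        norm_num
      rw [h3] at h2
      nlinarith [h2]
    exact_mod_cast h1
  have hypos : (0 : ℝ) < y := by exact_mod_cast (show 0 < y by omega)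
  refine ⟨r, d, 4 * y, k, hr1, hd2, by omega, hk1, hdr, hdodd, hk, h5, ?_, ?_⟩
  · -- (4)
    have h1 : (4 * y : ℝ) ≤ ((2 ^ r - 1 : ℕ) : ℝ) / (2000 * ((4 * y : ℕ) : ℝ)) := by
      have hpos : (0 : ℝ) < 2000 * ((4 * y : ℕ) : ℝ) := by
        push_cast
        positivity
      rw [le_div_iff₀ hpos]
      have h2 : 32000 * y ^ 2 ≤ 2 ^ r - 1 := by
        have hy2 : 1 ≤ y ^ 2 := Nat.one_le_pow _ _ hy1
        norm_num at hrlo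
        omega
      have h3 : (32000 : ℝ) * (y : ℝ) ^ 2 ≤ ((2 ^ r - 1 : ℕ) : ℝ) := by exact_mod_cast h2
      push_cast at h3 ⊢
      nlinarith [h3]
    have h2 : (2 : ℝ) ≤ Real.exp 1 := by
      have := Real.add_one_le_exp (1 : ℝ)
      linarith
    have h4 : (16 : ℝ) ^ y ≤ Real.exp (4 * y) := by
      have h5 : Real.exp (4 * y) = (Real.exp 1) ^ (4 * y) := by
        rw [← Real.exp_nat_mul]
        congr 1
        push_cast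
        ring
      rw [h5]
      calc (16 : ℝ) ^ y = (2 : ℝ) ^ (4 * y) := by
            rw [pow_mul]
            norm_num
        _ ≤ (Real.exp 1) ^ (4 * y) := pow_le_pow_left₀ (by norm_num) h2 _
    have h6 : (2 : ℝ) * 4 ^ y ≤ 16 ^ y := by
      have h7 : (16 : ℝ) ^ y = 4 ^ y * 4 ^ y := by
        rw [← mul_pow]
        norm_num
      rw [h7]
      have h8 : (2 : ℝ) ≤ 4 ^ y := by
        have h9 : (4 : ℝ) ^ 1 ≤ 4 ^ y := pow_le_pow_right₀ (by norm_num) hy1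
        linarith
      exact mul_le_mul_of_nonneg_right h8 (by positivity)
    calc (8 : ℝ) * ((k : ℝ) + 1) ^ 2 ≤ 2 * 4 ^ y := hK
      _ ≤ 16 ^ y := h6
      _ ≤ Real.exp (4 * y) := h4
      _ ≤ _ := Real.exp_le_exp.2 h1
  · -- (3)
    have h1 : (8 : ℝ) * ((k : ℝ) + 1) ^ 2 * (3 / 5) ^ (4 * y) ≤ 2 * 4 ^ y * (3 / 5) ^ (4 * y) :=
      mul_le_mul_of_nonneg_right hK (by positivity)
    have h2 : (2 : ℝ) * 4 ^ y * (3 / 5) ^ (4 * y) = 2 * (324 / 625) ^ y := by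
      rw [pow_mul, mul_assoc, ← mul_pow]
      norm_num
    have h3 : ((324 : ℝ) / 625) ^ y ≤ (324 / 625) ^ 2 :=
      pow_le_pow_of_le_one (by norm_num) (by norm_num) (by omega)
    have h4 : (2 : ℝ) * (324 / 625) ^ 2 < 1 := by norm_num
    rw [h2] at h1
    linarith

end Pool.Agent.Lib.MP_db622c_co.P7
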