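import Pool.Agent.Lib.MP_db622c_co.P7.RBp
import Pool.Agent.Lib.MP_db622c_co.CB.Prod
import Pool.Agent.Lib.MP_db622c_co.CB.LamProd
import Pool.Agent.Lib.MP_db622c_co.CB.QuadEx

/-!
# P7-RBs: a rainbow perfect matching after a blow-up by the field with four elements

PROOF.  `A, J, S, g` from `HasSD (2 ^ s * m)`.  `J` has a fixed point free involution `μ` (its
cardinality is even; e.g. `J ≃ Fin (2 ^ (s-1) * m) × Bool`).  `exists_lam` (CB/LamProd.lean):
`L, side` with `IsLam L μ side`.  `exists_func 2` (CB/QuadEx.lean): field `K` with `4` elements,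
`φ : K →+ ZMod 2`, `c` with `φ 1 = 0`, `φ c = 1`, `c ≠ 0, 1`.  `P = pack1 φ 1 c c ..` (CB/Prod.lean;
`θ = c`, `1 + c ≠ 0`).  `exists_T` (CB/Prod.lean): `B : Blow S Unit` with `B.g = g`, `B.L = L`, all
directions direct.  `B.isOF_G P`, `B.isSplit_G P` (CB/Blow.lean), `isH_tens`.
MATCHING.  `f` from `exists_pat`.  For `x = (u, j) : K × J` let `z = f (u, side j)`;
`M x = (z.1, j)` if `z.2 = side j` and `M x = (z.1, μ j)` otherwise (then
`side (μ j) = side j + 1 = z.2`).  In both cases `(M x).1 = z.1`, `side (M x).2 = z.2`, so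
`M (M x) = x` and `M x ≠ x`.  `x + M x`: the first component is `w = (z + (u, side j)).1`; `w ≠ 0`, since
otherwise the difference is `(0, 0)` or `(0, 1)`.
So by `bd_cases'` (CB/Prod.lean) `B.G P x (M x) = (amp, L j k)` with `k = j` or `k = μ j`.
RAINBOW: `x = (u, j)`, `x' = (u', j')` with the same class, i.e. `amp = amp'`, `L j k = L j' k'`.
By `IsLam.l3` `k = j` and `k' = j'`, or `k = μ j` and `k' = μ j'`.
First case: `amp = c / w` (the numerator is `P.c`, since `S i j = - S i j` is impossible; see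
`hsame` in `unit_block`, CB/StepII.lean), so `w = w'`; the differences of `f` at `(u, side j)` and
`(u', side j')` are both `(w, 0)`, so `(u', side j') = (u, side j)` or `= f (u, side j)`, in both
cases `side j' = side j`, so `j' = j` by `l1`, and `x' = x` or `x' = M x`.
Second case: `l2`: `j' = j` or `j' = μ j`; so `SP j k j' k'` and `w = w'` by `amp_eq`
(CB/Prod.lean); both differences are `(w, 1)`, so `(u', side j') = (u, side j)` or
`f (u, side j)`.  If it is `(u, side j)` then `j' = j` (`side (μ j) ≠ side j`), `x' = x`; otherwise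
`side j' = side j + 1`, `j' = μ j`, `x' = M x`.
-/

namespace Pool.Agent.Lib.MP_db622c_co.P7

open Pool.Agent.Lib.MP_db622c_co Pool.Agent.Lib.MP_db622c_co.CB

theorem hasSR_of_hasSD (s m : ℕ) (hs : Odd s) (h3 : 3 ≤ s) (hm : Odd m)
    (h : HasSD (2 ^ s * m)) : HasSR (2 ^ (s + 2) * m) := by
  classical
  obtain ⟨A, J, _, _, _, S, g, hA, hJ, hS, hg, hsp⟩ := h
  have hJe : Nonempty (J ≃ Fin (2 ^ (s - 1) * m) × Bool) := by
    refine ⟨Fintype.equivOfCardEq ?_⟩
    rw [hJ, Fintype.card_prod, Fintype.card_fin, Fintype.card_bool]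
    have h1 : 2 ^ s = 2 ^ (s - 1) * 2 := by rw [← pow_succ]; congr 1; omega
    rw [h1]; ring
  obtain ⟨e⟩ := hJe
  let μ : J → J := fun j => e.symm ((e j).1, !(e j).2)
  have hμi : ∀ j, μ (μ j) = j := by
    intro j
    simp [μ]
  have hμn : ∀ j, μ j ≠ j := by
    intro j hj
    have h1 : (e (μ j)).2 = !(e j).2 := by simp [μ]
    rw [hj] at h1
    cases h2 : (e j).2 <;> rw [h2] at h1 <;> simp at h1
  obtain ⟨L, side, hL⟩ := exists_lam (A := A) (J := J) s m hs h3 hm hA hJ μ hμi hμn
  obtain ⟨K, _, _, _, φ, c, hK, hc0, hc1, hφ1, hφc⟩ := exists_func 2 (le_refl 2)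
  have hK4 : Fintype.card K = 4 := by rw [hK]; norm_num
  obtain ⟨f, f1, f2, f3, f4⟩ := exists_pat (K := K) hK4
  obtain ⟨B, hBg, hBL, hBd⟩ := exists_T (hA.trans hJ.symm) hg hsp hL
  have hθ' : 1 + c ≠ 0 := fun hc => hc1 (eq_of_add_eq_zero hc).symm
  let P : Pack K Unit := pack1 φ 1 c c one_ne_zero hφ1 hφc hc0 hθ'
  let M : K × J → K × J := fun x => ((f (x.1, side x.2)).1,
    if (f (x.1, side x.2)).2 = side x.2 then x.2 else μ x.2)
  have M1 : ∀ x, (M x).1 = (f (x.1, side x.2)).1 := fun x => rfl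
  have Ms : ∀ x, (f (x.1, side x.2)).2 = side x.2 → (M x).2 = x.2 := by
    intro x hx
    show (if (f (x.1, side x.2)).2 = side x.2 then x.2 else μ x.2) = x.2
    rw [if_pos hx]
  have Md : ∀ x, (f (x.1, side x.2)).2 ≠ side x.2 → (M x).2 = μ x.2 := by
    intro x hx
    show (if (f (x.1, side x.2)).2 = side x.2 then x.2 else μ x.2) = μ x.2
    rw [if_neg hx]
  have z2 : ∀ a b : ZMod 2, a ≠ b → a = b + 1 := by decide
  have z2' : ∀ a b : ZMod 2, b + a = 0 ∨ b + a = 1 := by decide
  have M2 : ∀ x, side (M x).2 = (f (x.1, side x.2)).2 := by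
    intro x
    by_cases hx : (f (x.1, side x.2)).2 = side x.2
    · rw [Ms x hx, hx]
    · rw [Md x hx, hL.side_μ, z2 _ _ hx]
  have Mp : ∀ x, ((M x).1, side (M x).2) = f (x.1, side x.2) := by
    intro x
    rw [M1, M2]
  have MM : ∀ x, M (M x) = x := by
    intro x
    have h1 : f ((M x).1, side (M x).2) = (x.1, side x.2) := by rw [Mp, f1]
    refine Prod.ext ?_ ?_
    · rw [M1, h1]
    · by_cases hx : (f (x.1, side x.2)).2 = side x.2
      · have h2 : (M x).2 = x.2 := Ms x hx
        rw [Ms (M x) (by rw [h1, h2]), h2]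
      · have h2 : (M x).2 = μ x.2 := Md x hx
        rw [Md (M x) (by rw [h1, h2, hL.side_μ]; exact (zmod2_add_one_ne _).symm), h2, hμi]
  have Mne : ∀ x, M x ≠ x := by
    intro x hx
    have h1 := Mp x
    rw [hx] at h1
    exact f2 _ h1.symm
  -- the difference
  have hdiff : ∀ x, (x.1, side x.2) + f (x.1, side x.2) = (x.1 + (M x).1, side x.2 + side (M x).2) := by
    intro x
    rw [← Mp x]
    rfl
  have hw : ∀ x, x.1 + (M x).1 ≠ 0 := by
    intro x h0
    have h1 := hdiff x
    rw [h0] at h1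
    rcases z2' (side (M x).2) (side x.2) with h2 | h2
    · rw [h2] at h1
      have h4 : side x.2 = side (M x).2 := by
        have h5 : ∀ a b : ZMod 2, a + b = 0 → a = b := by decide
        exact h5 _ _ h2
      have h5 : x.1 = (M x).1 := eq_of_add_eq_zero h0
      exact f2 _ (by rw [← Mp x, ← h4, ← h5])
    · rw [h2] at h1
      exact f3 _ h1
  have hsame : ∀ (j : J) (w : K), B.amp P j j w = P.c () / w := by
    intro j w
    unfold Blow.amp Blow.num
    rw [if_neg]
    intro hc
    rcases hS.sign (B.cls P j j w) j with h1 | h1 <;> rw [h1] at hc <;> norm_num at hc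
  have hG : ∀ x, B.G P x (M x) = (B.amp P x.2 (M x).2 (x.1 + (M x).1), L x.2 (M x).2) := by
    intro x
    rcases bd_cases' P B hBg hBL hBd x.2 (M x).2 (x.1 + (M x).1) (Or.inr (hw x)) with
      ⟨h0, -, -⟩ | ⟨-, h1⟩
    · exact absurd h0 (hw x)
    · exact h1
  have h2cases : ∀ x, ((M x).2 = x.2 ∧ side (M x).2 = side x.2) ∨
      ((M x).2 = μ x.2 ∧ side (M x).2 = side x.2 + 1) := by
    intro x
    by_cases hx : (f (x.1, side x.2)).2 = side x.2
    · left
      exact ⟨Ms x hx, by rw [Ms x hx]⟩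
    · right
      exact ⟨Md x hx, by rw [Md x hx, hL.side_μ]⟩
  have hrb : ∀ x y, B.G P x (M x) = B.G P y (M y) → y = x ∨ y = M x := by
    intro x y hxy
    rw [hG, hG] at hxy
    have ea := (Prod.mk.inj hxy).1
    have eL := (Prod.mk.inj hxy).2
    rcases h2cases x with ⟨hx, hxs⟩ | ⟨hx, hxs⟩ <;> rcases h2cases y with ⟨hy, hys⟩ | ⟨hy, hys⟩
    · rw [hx, hy] at eL
      rw [hx, hy, hsame, hsame, div_eq_div_iff (hw x) (hw y)] at ea
      have e1 : x.1 + (M x).1 = y.1 + (M y).1 := (mul_left_cancel₀ (P.c_ne _) ea).symm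
      have e2 : (x.1, side x.2) + f (x.1, side x.2) = (y.1, side y.2) + f (y.1, side y.2) := by
        rw [hdiff, hdiff, e1, hxs, hys, zmod2_self, zmod2_self]
      have hj : side y.2 = side x.2 → y.2 = x.2 := by
        intro h5
        by_contra h6
        have h7 := hL.l1 _ _ eL (fun hh => h6 hh.symm)
        rw [h5] at h7
        exact zmod2_add_one_ne _ h7.symm
      rcases f4 _ _ e2 with h4 | h4
      · left
        exact Prod.ext (Prod.mk.inj h4).1 (hj (Prod.mk.inj h4).2)
      · right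
        rw [← Mp x] at h4
        have h5 : side y.2 = side (M x).2 := (Prod.mk.inj h4).2
        rw [hxs] at h5
        exact Prod.ext (Prod.mk.inj h4).1 ((hj h5).trans hx.symm)
    · rw [hx, hy] at eL
      exact absurd eL (hL.l3 _ _)
    · rw [hx, hy] at eL
      exact absurd eL.symm (hL.l3 _ _)
    · rw [hx, hy] at eL
      have h8 := hL.l2 _ _ eL
      have hs' : SP x.2 (M x).2 y.2 (M y).2 := by
        rcases h8 with h9 | h9
        · left; exact ⟨h9, by rw [hx, hy, h9]⟩
        · right; exact ⟨by rw [hx, h9], by rw [hy, h9, hμi]⟩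
      have e1 : x.1 + (M x).1 = y.1 + (M y).1 := amp_eq P B hBL (hw x) (hw y) hs' ea
      have e2 : (x.1, side x.2) + f (x.1, side x.2) = (y.1, side y.2) + f (y.1, side y.2) := by
        rw [hdiff, hdiff, e1, hxs, hys, ← add_assoc, ← add_assoc, zmod2_self, zmod2_self]
      rcases f4 _ _ e2 with h4 | h4
      · left
        have h5 : side y.2 = side x.2 := (Prod.mk.inj h4).2
        rcases h8 with h9 | h9
        · exact Prod.ext (Prod.mk.inj h4).1 h9
        · rw [h9, hL.side_μ] at h5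
          exact absurd h5 (zmod2_add_one_ne _)
      · right
        rw [← Mp x] at h4
        have h5 : side y.2 = side (M x).2 := (Prod.mk.inj h4).2
        rw [hxs] at h5
        rcases h8 with h9 | h9
        · rw [h9] at h5
          exact absurd h5.symm (zmod2_add_one_ne _)
        · exact Prod.ext (Prod.mk.inj h4).1 (h9.trans hx.symm)
  refine ⟨K × A, K × J, inferInstance, inferInstance, inferInstance, tens P.φ S, B.G P, M, ?_, ?_,
    isH_tens P.φ (P.c ()) (P.φ_c ()) hS, B.isOF_G P, B.isSplit_G P hS.sign, ⟨MM, Mne, hrb⟩⟩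
  · rw [Fintype.card_prod, hA, hK4, pow_add]; ring
  · rw [Fintype.card_prod, hJ, hK4, pow_add]; ring

end Pool.Agent.Lib.MP_db622c_co.P7
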