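import Pool.Agent.Lib.MP_db622c_co.P7.AFin
import Pool.Agent.Lib.MP_db622c_co.P7.RBs
import Pool.Agent.Lib.MP_db622c_co.P7.CSt
import Pool.Agent.Lib.MP_db622c_co.P7.Ex
import Pool.Agent.Lib.MP_db622c_co.P7.Num
import Pool.Agent.Lib.MP_db622c_co.CB.Fin

/-!
# P7-Fin: complete balanced Howell rotations on `2 ^ e * n` partnerships, `n` a Hadamard order
-/

namespace Pool.Agent.Lib.MP_db622c_co.P7

open Pool.Agent.Lib.MP_db622c_co Pool.Agent.Lib.MP_db622c_co.CB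

theorem hasHad_dbl {n : ℕ} (h : HasHad n) (j : ℕ) : HasHad (2 ^ j * n) := by
  induction j with
  | zero => simpa using h
  | succ j ih =>
    have h1 := hasHad_double ih
    have h2 : 2 * (2 ^ j * n) = 2 ^ (j + 1) * n := by ring
    rwa [h2] at h1

/-- The second blow-up with numbers. -/
theorem hasCBHR_stepC (s m r d ℓ k : ℕ) (hs : Odd s) (h3 : 3 ≤ s) (hm : Odd m)
    (h : HasSR (2 ^ s * m)) (hr : 1 ≤ r) (hd : 2 ≤ d) (hℓ : 1 ≤ ℓ) (hk1 : 1 ≤ k)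
    (hk : 2 ^ s * m = 2 * k + 2) (hV1 : 20000 * ℓ * (2 ^ r - 1) ≤ k)
    (hV2 : (8 : ℝ) * ((k : ℝ) + 1) ^ 2 ≤ Real.exp (((2 ^ r - 1 : ℕ) : ℝ) / (2000 * ℓ)))
    (hnum : (8 : ℝ) * ((k : ℝ) + 1) ^ 2 * (3 / 5) ^ ℓ < 1) :
    HasCBHR (2 ^ (s + d * r) * m) := by
  classical
  obtain ⟨A, J, _, _, _, S, g, μ, hA, hJ, hS, hg, hsp, hμinv, hμne, hμrb⟩ := h
  have hμ : IsRB g μ := ⟨hμinv, hμne, hμrb⟩
  obtain ⟨L, side, hL⟩ := exists_lam (A := A) (J := J) s m hs h3 hm hA hJ μ hμ.inv hμ.ne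
  obtain ⟨K, V, _, _, _, _, _, hK, hV, ⟨P⟩⟩ := exists_pack r d hr hd
  have hk2 : (1 : ℝ) ≤ k := by exact_mod_cast hk1
  -- `3 ℓ ≤ 2 ^ r - 1`
  have h3ℓ : 3 * ℓ ≤ 2 ^ r - 1 := by
    by_contra hlt
    push Not at hlt
    have h1 : ((2 ^ r - 1 : ℕ) : ℝ) / (2000 * ℓ) ≤ 1 := by
      rw [div_le_one (by positivity)]
      have h2 : ((2 ^ r - 1 : ℕ) : ℝ) < ((3 * ℓ : ℕ) : ℝ) := by exact_mod_cast hlt
      push_cast at h2
      have h4 : (1 : ℝ) ≤ ℓ := by exact_mod_cast hℓ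
      push_cast
      linarith
    have h2 := hV2.trans (Real.exp_le_exp.2 h1)
    have h4 := Real.exp_one_lt_d9
    nlinarith
  have hKK : 3 * ℓ * Fintype.card V ≤ Fintype.card K - 1 := by
    rw [hV, hK]
    have h1 : 1 ≤ 2 ^ r := Nat.one_le_two_pow
    have h2 : (2 ^ r) ^ 2 ≤ 2 ^ (d * r) := by
      rw [← pow_mul]
      exact Nat.pow_le_pow_right (by norm_num) (by nlinarith)
    obtain ⟨v, hv⟩ : ∃ v, 2 ^ r = v + 1 := ⟨2 ^ r - 1, by omega⟩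
    rw [hv] at h3ℓ h2 ⊢
    rw [Nat.add_sub_cancel] at h3ℓ ⊢
    have h4 : 3 * ℓ * v ≤ v * v := Nat.mul_le_mul_right _ h3ℓ
    have h5 : (v + 1) ^ 2 = v * v + 2 * v + 1 := by ring
    omega
  obtain ⟨h, hh, ⟨Sc⟩⟩ := exists_sch P k ℓ hk1 hℓ (hA.trans hk) (hJ.trans hk) hS hg hμ hL
    (by rw [hV]; exact hV1) (by rw [hV]; exact hV2) hnum hKK
  have hdr : 2 ≤ d * r := by nlinarith
  have h1 := hasPD_of_sch P k hk1 (hA.trans hk) (hJ.trans hk) hS hg hsp hμ hL hh Sc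
    (mate_prod (d * r) hdr hK)
  rw [hK, ← hk] at h1
  have h2 : 2 ^ (d * r) * (2 ^ s * m) = 2 ^ (s + d * r) * m := by
    rw [pow_add 2 s (d * r)]; ring
  rw [h2] at h1
  have hmp := hm.pos
  refine hasCBHR_of_hasPD _ (by positivity) ?_ h1
  have h4 : 2 ^ (s + d * r) = 4 * 2 ^ (s + d * r - 2) := by
    rw [show (4 : ℕ) = 2 ^ 2 by norm_num, ← pow_add]; congr 1; omega
  rw [h4, mul_assoc]
  exact Nat.mul_mod_right 4 _

/-- every Hadamard order `n`, every `e` with `2 ^ e ≥ 2 ^ 151 (log n) ^ 6` -/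
theorem hasCBHR_had (n e : ℕ) (hn : 2 ≤ n) (h : HasHad n)
    (he : 2 ^ 151 * (Nat.log 2 n) ^ 6 ≤ 2 ^ e) : HasCBHR (2 ^ e * n) := by
  obtain ⟨a, m, hm, rfl⟩ : ∃ a m, Odd m ∧ n = 2 ^ a * m := by
    obtain ⟨a, m', h1, h2⟩ := Nat.exists_eq_two_pow_mul_odd (n := n) (by omega)
    exact ⟨a, m', h1, h2⟩
  obtain ⟨r, d, ℓ, k, hr, hd, hℓ, hk1, hdr, hodd, hk, hV1, hV2, hnum⟩ :=
    num_main (2 ^ a * m) e a hn he
  obtain ⟨j, hj⟩ : ∃ j, e - d * r = j + 10 := ⟨e - d * r - 10, by omega⟩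
  have hj2 : 2 ≤ j := by omega
  -- step A
  have h1 : HasHad (2 ^ j * (2 ^ a * m)) := hasHad_dbl h j
  have hmp := hm.pos
  have h2 := hasSD_of_hasHad (2 ^ j * (2 ^ a * m)) (by
    obtain ⟨i, rfl⟩ : ∃ i, j = i + 2 := ⟨j - 2, by omega⟩
    rw [pow_add, show (2 : ℕ) ^ 2 = 4 by norm_num]
    exact ⟨2 ^ i * (2 ^ a * m), by ring⟩) (by positivity) h1
  have h3 : 256 * (2 ^ j * (2 ^ a * m)) = 2 ^ (j + a + 8) * m := by
    rw [pow_add 2 (j + a) 8, pow_add 2 j a]; ring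
  rw [h3] at h2
  rw [hj] at hodd hk
  have hodd' : Odd (j + a + 8) := by
    obtain ⟨b, hb⟩ := hodd
    exact ⟨b - 1, by omega⟩
  have h4 := hasSR_of_hasSD (j + a + 8) m hodd' (by omega) hm h2
  have hk' : 2 ^ (j + a + 8 + 2) * m = 2 * k + 2 := by
    rw [← hk, pow_add 2 (j + a + 8) 2, pow_add 2 (j + a) 8, pow_add 2 j a, pow_add 2 j 10]; ring
  have h5 := hasCBHR_stepC (j + a + 8 + 2) m r d ℓ k (by
    obtain ⟨b, hb⟩ := hodd
    exact ⟨b, by omega⟩) (by omega) hm h4 hr hd hℓ hk1 hk' hV1 hV2 hnum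
  have h6 : 2 ^ (j + a + 8 + 2 + d * r) * m = 2 ^ e * (2 ^ a * m) := by
    have h7 : e = j + 10 + d * r := by omega
    rw [h7, ← mul_assoc, ← pow_add]
    congr 2
    omega
  rwa [h6] at h5

/-- all `m` -/
theorem hasCBHR_log (m t : ℕ) (hm : 1 ≤ m)
    (ht : 2 ^ 163 * m ^ 3 * (Nat.log 2 m + 1) ^ 6 ≤ 2 ^ t) : HasCBHR (2 ^ t * m) := by
  obtain ⟨a, m', hm', rfl⟩ : ∃ a m', Odd m' ∧ m = 2 ^ a * m' := by
    obtain ⟨a, m', h1, h2⟩ := Nat.exists_eq_two_pow_mul_odd (n := m) (by omega)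
    exact ⟨a, m', h1, h2⟩
  have hpos : 1 ≤ 2 ^ a := Nat.one_le_two_pow
  have hm'pos := hm'.pos
  have h1 : 2 ^ t * (2 ^ a * m') = 2 ^ (t + a) * m' := by rw [pow_add]; ring
  rw [h1]
  have hle : m' ≤ 2 ^ a * m' := Nat.le_mul_of_pos_left _ hpos
  have h2 : 2 ^ 163 * m' ^ 3 * (Nat.log 2 m' + 1) ^ 6 ≤ 2 ^ (t + a) := by
    calc 2 ^ 163 * m' ^ 3 * (Nat.log 2 m' + 1) ^ 6
        ≤ 2 ^ 163 * (2 ^ a * m') ^ 3 * (Nat.log 2 (2 ^ a * m') + 1) ^ 6 := by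
          refine Nat.mul_le_mul (Nat.mul_le_mul_left _ (Nat.pow_le_pow_left hle _))
            (Nat.pow_le_pow_left ?_ _)
          exact Nat.add_le_add_right (Nat.log_mono_right hle) 1
      _ ≤ 2 ^ t := ht
      _ ≤ 2 ^ (t + a) := Nat.pow_le_pow_right (by norm_num) (by omega)
  by_cases hm3 : 3 ≤ m'
  · obtain ⟨s', hs2, hs3, hH⟩ := exists_hasHad m' hm' hm3
    have hs't : s' ≤ t + a := by
      have h5 : 2 ^ s' ≤ 2 ^ (t + a) := by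
        refine le_trans hs3 (le_trans ?_ h2)
        calc m' ^ 3 = 1 * m' ^ 3 * 1 := by ring
          _ ≤ 2 ^ 163 * m' ^ 3 * (Nat.log 2 m' + 1) ^ 6 :=
            Nat.mul_le_mul (Nat.mul_le_mul_right _ (by norm_num))
              (Nat.one_le_pow _ _ (by omega))
      exact (Nat.pow_le_pow_iff_right (by norm_num : 1 < 2)).1 h5
    have hn2 : 2 ≤ 2 ^ s' * m' := by
      have h6 : 2 ≤ 2 ^ s' := by
        calc 2 = 2 ^ 1 := by norm_num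
          _ ≤ 2 ^ s' := Nat.pow_le_pow_right (by norm_num) (by omega)
      exact le_trans h6 (Nat.le_mul_of_pos_right _ hm'pos)
    have hlog : Nat.log 2 (2 ^ s' * m') ≤ 4 * (Nat.log 2 m' + 1) := by
      have h7 : 2 ^ s' * m' < 2 ^ (4 * (Nat.log 2 m' + 1)) := by
        have h8 : m' < 2 ^ (Nat.log 2 m' + 1) := Nat.lt_pow_succ_log_self (by norm_num) m'
        calc 2 ^ s' * m' ≤ m' ^ 3 * m' := Nat.mul_le_mul_right _ hs3
          _ = m' ^ 4 := by ring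
          _ < (2 ^ (Nat.log 2 m' + 1)) ^ 4 := Nat.pow_lt_pow_left h8 (by norm_num)
          _ = 2 ^ (4 * (Nat.log 2 m' + 1)) := by rw [← pow_mul, mul_comm]
      exact (Nat.log_lt_of_lt_pow (by positivity) h7).le
    have h9 := hasCBHR_had (2 ^ s' * m') (t + a - s') hn2 hH (by
      have h10 : 2 ^ s' * (2 ^ 151 * (Nat.log 2 (2 ^ s' * m')) ^ 6) ≤
          2 ^ s' * 2 ^ (t + a - s') := by
        calc 2 ^ s' * (2 ^ 151 * (Nat.log 2 (2 ^ s' * m')) ^ 6)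
            ≤ m' ^ 3 * (2 ^ 151 * (4 * (Nat.log 2 m' + 1)) ^ 6) :=
              Nat.mul_le_mul hs3 (Nat.mul_le_mul_left _ (Nat.pow_le_pow_left hlog _))
          _ = 2 ^ 163 * m' ^ 3 * (Nat.log 2 m' + 1) ^ 6 := by ring
          _ ≤ 2 ^ (t + a) := h2
          _ = 2 ^ s' * 2 ^ (t + a - s') := by rw [← pow_add]; congr 1; omega
      exact Nat.le_of_mul_le_mul_left h10 (by positivity))
    have h11 : 2 ^ (t + a - s') * (2 ^ s' * m') = 2 ^ (t + a) * m' := by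
      rw [← mul_assoc, ← pow_add]; congr 2; omega
    rwa [h11] at h9
  · have hm1 : m' = 1 := by
      obtain ⟨b, hb⟩ := hm'
      omega
    subst hm1
    rw [mul_one]
    refine hasCBHR_two_pow (t + a) ?_
    have h4 : 2 ^ 163 ≤ 2 ^ (t + a) := by simpa using h2
    have h5 := (Nat.pow_le_pow_iff_right (by norm_num : 1 < 2)).1 h4
    omega

end Pool.Agent.Lib.MP_db622c_co.P7
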