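import Pool.Agent.Lib.MP_db622c_co.P7.Defs

/-!
# P7-Lab: distribution of the labels

PROOF.  Hall's theorem for the bipartite graph between `G` and `T × ZMod 2`, `x` adjacent to
`(τ, lam τ x)` for all `τ` (`Finset.all_card_le_biUnion_card_iff_exists_injective` with
`t x = univ.image (fun τ => (τ, lam τ x))`).  For `X : Finset G`, `N` the union of the `t x`: the
`X.card * card T` pairs `(x, τ)`, `x ∈ X`, are mapped by `(x, τ) ↦ (τ, lam τ x)` into `N`, at most
`card T` of them to the same element (`hl`).  So `X.card * card T ≤ N.card * card T`.  If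
`card T = 0` then `G` is empty.  The injection `g : G → T × ZMod 2` has `g x = (τ, lam τ x)`; put
`f x = τ = (g x).1`.
-/

namespace Pool.Agent.Lib.MP_db622c_co.P7

open Pool.Agent.Lib.MP_db622c_co Pool.Agent.Lib.MP_db622c_co.CB

theorem exists_lab {G T : Type*} [Fintype G] [Fintype T] (lam : T → G → ZMod 2)
    (hG : Fintype.card G = 2 * Fintype.card T)
    (hl : ∀ τ e, Nat.card {x : G // lam τ x = e} = Fintype.card T) :
    ∃ f : G → T, ∀ x y, f x = f y → lam (f x) x = lam (f y) y → x = y := by
  classical
  rcases Nat.eq_zero_or_pos (Fintype.card T) with hT | hT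
  · have hG0 : Fintype.card G = 0 := by rw [hG, hT]
    have hE : IsEmpty G := Fintype.card_eq_zero_iff.1 hG0
    exact ⟨fun x => (hE.false x).elim, fun x => (hE.false x).elim⟩
  set t : G → Finset (T × ZMod 2) := fun x => Finset.univ.image (fun τ => (τ, lam τ x)) with ht
  have hall : ∀ X : Finset G, X.card ≤ (X.biUnion t).card := by
    intro X
    have h1 : (X ×ˢ (Finset.univ : Finset T)).card ≤ Fintype.card T * (X.biUnion t).card := by
      refine Finset.card_le_mul_card_image_of_maps_to
        (f := fun p : G × T => ((p.2, lam p.2 p.1) : T × ZMod 2)) ?_ _ ?_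
      · intro p hp
        rw [Finset.mem_product] at hp
        rw [Finset.mem_biUnion]
        exact ⟨p.1, hp.1, Finset.mem_image.2 ⟨p.2, Finset.mem_univ _, rfl⟩⟩
      · intro b _
        rw [← hl b.1 b.2, Nat.card_eq_fintype_card, Fintype.card_subtype]
        refine Finset.card_le_card_of_injOn Prod.fst ?_ ?_
        · intro p hp
          rw [Finset.mem_coe, Finset.mem_filter] at hp
          rw [Finset.mem_coe, Finset.mem_filter]
          refine ⟨Finset.mem_univ _, ?_⟩
          have h2 := hp.2
          rw [← h2]
        · intro p hp q hq hpq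
          rw [Finset.mem_coe, Finset.mem_filter] at hp hq
          refine Prod.ext hpq ?_
          exact (congrArg Prod.fst hp.2).trans (congrArg Prod.fst hq.2).symm
    rw [Finset.card_product, Finset.card_univ, mul_comm] at h1
    exact Nat.le_of_mul_le_mul_left h1 hT
  obtain ⟨g, hg, hgt⟩ := (Finset.all_card_le_biUnion_card_iff_exists_injective t).1 hall
  refine ⟨fun x => (g x).1, ?_⟩
  have hg2 : ∀ x, lam (g x).1 x = (g x).2 := by
    intro x
    obtain ⟨τ, _, h1⟩ := Finset.mem_image.1 (hgt x)
    rw [← h1]
  intro x y hxy hl2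
  simp only [hg2] at hl2
  exact hg (Prod.ext hxy hl2)

end Pool.Agent.Lib.MP_db622c_co.P7
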