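import Mathlib

/-!
# P7-PS: averages over permutations

PROOF.  `sum_perm_le`: group the permutations `π` by `y = fun i => π (x i)`:
`∑ π, F (π ∘ x) = ∑ y, (card {π | π ∘ x = y}) * F y`, and `card {π | π ∘ x = y} ≤ (n - m)!`
(`n = card T`, `m = card ι`).  The latter: it is `0` if `y` is not injective (`x` is injective).  For
injective `y, y'` there is a permutation `τ` with `τ ∘ y = y'` (an injective map between subsets of
a finite set extends: `Equiv.extendSubtype` or `Function.Embedding` lemmas), so the numbers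
`card {π | π ∘ x = y}` are the same number `N` for all injective `y`; the number of injective `y` is
`n.descFactorial m` (`Fintype.card_embedding_eq`), so `N * n.descFactorial m = n !`
(`Fintype.card_perm`), i.e. `N = (n - m)!` (`Nat.factorial_mul_descFactorial`); `m ≤ n` since `x` is
injective.
`prod_perm_le`: `F y = ∏ i, f i (y i)` and `∑ y, ∏ i, f i (y i) = ∏ i, ∑ t, f i t`
(`Finset.prod_univ_sum` / `Fintype.piFinset_univ`).
`avg_perm_le`: `n ! = (n - m)! * n.descFactorial m ≥ (n - m)! * (n - m) ^ m`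
(`Nat.pow_sub_le_descFactorial` or `Nat.descFactorial` bounds), and
`(n - m)! ∏ s_i = (n - m)! (n - m) ^ m ∏ (s_i / (n - m)) ≤ n ! ∏ (s_i / (n - m))`.
-/

namespace Pool.Agent.Lib.MP_db622c_co.P7

open Nat in
private theorem ps_fib {T ι : Type*} [Fintype T] [DecidableEq T] [Fintype ι] [DecidableEq ι]
    (x : ι → T) (hx : Function.Injective x) (y : ι → T) :
    ((Finset.univ : Finset (Equiv.Perm T)).filter (fun π => (fun i => π (x i)) = y)).card ≤
      (Fintype.card T - Fintype.card ι)! := by
  classical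
  rcases ((Finset.univ : Finset (Equiv.Perm T)).filter
    (fun π => (fun i => π (x i)) = y)).eq_empty_or_nonempty with h | ⟨π0, h0⟩
  · rw [h, Finset.card_empty]
    exact Nat.zero_le _
  · have h0' := (Finset.mem_filter.1 h0).2
    have hcard : Fintype.card {f : Equiv.Perm T // ∀ a, ¬ (¬ a ∈ Set.range x) → f a = a} =
        (Fintype.card T - Fintype.card ι)! := by
      rw [← Fintype.card_congr (Equiv.Perm.subtypeEquivSubtypePerm fun a => ¬ a ∈ Set.range x),
        Fintype.card_perm]
      congr 1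
      have h1 := Fintype.card_subtype_compl (fun a => a ∈ Set.range x)
      have h2 : Fintype.card {a // a ∈ Set.range x} = Fintype.card ι :=
        Set.card_range_of_injective hx
      rw [h2] at h1
      exact h1
    rw [← hcard, Fintype.card_subtype]
    refine Finset.card_le_card_of_injOn (fun π => π0⁻¹ * π) ?_ ?_
    · intro π hπ
      have hπ' := (Finset.mem_filter.1 (Finset.mem_coe.1 hπ)).2
      refine Finset.mem_coe.2 (Finset.mem_filter.2 ⟨Finset.mem_univ _, ?_⟩)
      intro a ha
      have ha' : a ∈ Set.range x := by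
        by_contra hcon
        exact ha hcon
      obtain ⟨i, rfl⟩ := ha'
      have h3 : π (x i) = π0 (x i) := by
        have h4 : (fun i => π (x i)) = fun i => π0 (x i) := hπ'.trans h0'.symm
        exact congrFun h4 i
      show π0⁻¹ (π (x i)) = x i
      rw [h3]
      exact Equiv.symm_apply_apply π0 (x i)
    · intro π _ π' _ h
      exact mul_left_cancel h

open Nat in
theorem sum_perm_le {T ι : Type*} [Fintype T] [DecidableEq T] [Fintype ι] (x : ι → T)
    (hx : Function.Injective x) (F : (ι → T) → ℝ) (hF : ∀ y, 0 ≤ F y)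
    [DecidableEq ι] :
    ∑ π : Equiv.Perm T, F (fun i => π (x i)) ≤
      ((Fintype.card T - Fintype.card ι)! : ℝ) * ∑ y : ι → T, F y := by
  rw [← Finset.sum_fiberwise Finset.univ (fun π : Equiv.Perm T => fun i => π (x i))
    (fun π => F (fun i => π (x i))), Finset.mul_sum]
  refine Finset.sum_le_sum fun y _ => ?_
  have h1 : ∑ π ∈ Finset.univ.filter (fun π : Equiv.Perm T => (fun i => π (x i)) = y),
      F (fun i => π (x i)) =
      ∑ _π ∈ Finset.univ.filter (fun π : Equiv.Perm T => (fun i => π (x i)) = y), F y := by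
    refine Finset.sum_congr rfl fun π hπ => ?_
    rw [(Finset.mem_filter.1 hπ).2]
  rw [h1, Finset.sum_const, nsmul_eq_mul]
  exact mul_le_mul_of_nonneg_right (by exact_mod_cast ps_fib x hx y) (hF y)

open Nat in
theorem prod_perm_le {T ι : Type*} [Fintype T] [DecidableEq T] [Fintype ι] [DecidableEq ι]
    (x : ι → T) (hx : Function.Injective x) (f : ι → T → ℝ) (hf : ∀ i t, 0 ≤ f i t) :
    ∑ π : Equiv.Perm T, ∏ i, f i (π (x i)) ≤
      ((Fintype.card T - Fintype.card ι)! : ℝ) * ∏ i, ∑ t, f i t := by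
  have h1 := sum_perm_le x hx (fun y => ∏ i, f i (y i)) (fun y => Finset.prod_nonneg fun i _ => hf i _)
  have h2 : ∏ i, ∑ t, f i t = ∑ y : ι → T, ∏ i, f i (y i) := by
    have h3 := Finset.prod_univ_sum (fun _ : ι => (Finset.univ : Finset T)) f
    rw [Fintype.piFinset_univ] at h3
    exact h3
  rw [h2]
  exact h1

open Nat in
theorem avg_perm_le {T ι : Type*} [Fintype T] [DecidableEq T] [Fintype ι] [DecidableEq ι]
    (x : ι → T) (hx : Function.Injective x) (f : ι → T → ℝ) (hf : ∀ i t, 0 ≤ f i t)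
    (hlt : Fintype.card ι < Fintype.card T) :
    ∑ π : Equiv.Perm T, ∏ i, f i (π (x i)) ≤
      ((Fintype.card T)! : ℝ) *
        ∏ i, ((∑ t, f i t) / ((Fintype.card T : ℝ) - Fintype.card ι)) := by
  refine (prod_perm_le x hx f hf).trans ?_
  obtain ⟨n, hn⟩ : ∃ n, n = Fintype.card T := ⟨_, rfl⟩
  obtain ⟨m, hm⟩ : ∃ m, m = Fintype.card ι := ⟨_, rfl⟩
  rw [← hn, ← hm] at hlt ⊢
  have hd : (0 : ℝ) < (n : ℝ) - m := by
    have : (m : ℝ) < n := by exact_mod_cast hlt
    linarith
  have hcast : (((n - m : ℕ) : ℝ)) = (n : ℝ) - m := Nat.cast_sub hlt.le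
  have h1 : ∏ i, ∑ t, f i t = ((n : ℝ) - m) ^ m * ∏ i, ((∑ t, f i t) / ((n : ℝ) - m)) := by
    rw [Finset.prod_div_distrib, Finset.prod_const, Finset.card_univ, ← hm]
    field_simp
  have h2 : (n - m)! * (n - m) ^ m ≤ n ! := by
    have h3 := Nat.factorial_mul_pow_sub_le_factorial (Nat.sub_le n m)
    have h4 : n - (n - m) = m := by omega
    rw [h4] at h3
    exact h3
  have h3 : (((n - m)! : ℕ) : ℝ) * ((n : ℝ) - m) ^ m ≤ ((n ! : ℕ) : ℝ) := by
    rw [← hcast]
    exact_mod_cast h2
  have h4 : 0 ≤ ∏ i, ((∑ t, f i t) / ((n : ℝ) - m)) :=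
    Finset.prod_nonneg fun i _ => div_nonneg (Finset.sum_nonneg fun t _ => hf i t) hd.le
  rw [h1, ← mul_assoc]
  exact mul_le_mul_of_nonneg_right h3 h4

end Pool.Agent.Lib.MP_db622c_co.P7
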