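import Pool.Agent.Lib.MP_db622c_co.P7.PS

/-!
# P7-R1: a random relabelling of the round classes makes the window loads small

PROOF.  `v = card V`.  Suppose `v = 0`: then `hV2` says `8 (k + 1) ^ 2 ≤ 1`, impossible; so `v ≥ 1`,
`k ≥ 20000 ℓ v ≥ 20000`.  `W = 11 / 10`, `w = W ^ (1 / (3 ℓ))` (real power, or work with
`Real.exp (lam * x / (3 ℓ))`, `lam = log (11 / 10)`).
For `0 ≤ y ≤ 1`: `W ^ y ≤ 1 + y (W - 1)` (`Real.rpow_one_add_le_one_add_mul_self` or convexity), so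
`w ^ (f i r) ≤ 1 + f i r / (30 ℓ)` and `∑ r, w ^ (f i r) ≤ 2 k + (k + 1) / (30 ℓ)`.
Fix `i, r`.  `V → ZMod (2 k)`, `n ↦ r - δ n` is injective; `π ↦ π⁻¹` is a bijection of the
permutations, so by `avg_perm_le`
`∑ π, ∏ n, w ^ f i (π.symm (r - δ n)) ≤ (2 k)! * ((2 k + (k + 1) / (30 ℓ)) / (2 k - v)) ^ v
 ≤ (2 k)! * exp (v * (v + (k + 1) / (30 ℓ)) / (2 k - v))`.
With `v ≤ k / (20000 ℓ)`, `k ≥ 20000`: `(k + 1) / (2 k - v) ≤ 0.50004`, `v / (2 k - v) ≤
1 / (39999 ℓ)`, so the exponent is at most `0.016694 v / ℓ`.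
If `20 * ∑ n, f i (π.symm (r - δ n)) > 11 v`, the product is at least
`W ^ (11 v / (60 ℓ)) = exp ((11 / 60) log (1.1) v / ℓ) ≥ exp (0.01747 v / ℓ)`
(`log 1.1 ≥ 0.0953`: e.g. from `Real.log` bounds, `log 1.1 ≥ 2 (0.1 / 2.1) = 0.095238`;
`(11 / 60) * 0.095238 = 0.01746`).
So the proportion of the bad `π` is at most `exp (- 0.0007 v / ℓ) ≤ exp (- v / (2000 ℓ))`; the
number of pairs `(i, r)` is `≤ 4 (k + 1) * 2 k < 8 (k + 1) ^ 2`.
-/

namespace Pool.Agent.Lib.MP_db622c_co.P7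

theorem exists_pi {I V : Type*} [Fintype I] [Fintype V] (k ℓ : ℕ) (hk : 1 ≤ k) (hℓ : 1 ≤ ℓ)
    [NeZero (2 * k)] (f : I → ZMod (2 * k) → ℕ) (hf1 : ∀ i r, f i r ≤ 3 * ℓ)
    (hf2 : ∀ i, ∑ r, f i r ≤ k + 1) (δ : V → ZMod (2 * k)) (hδ : Function.Injective δ)
    (hI : Fintype.card I ≤ 4 * (k + 1)) (hV1 : 20000 * ℓ * Fintype.card V ≤ k)
    (hV2 : (8 : ℝ) * ((k : ℝ) + 1) ^ 2 ≤ Real.exp ((Fintype.card V : ℝ) / (2000 * ℓ))) :
    ∃ π : Equiv.Perm (ZMod (2 * k)), ∀ i r,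
      20 * ∑ n : V, f i (π.symm (r - δ n)) ≤ 11 * Fintype.card V := by
  classical
  have hℓ1 : (1 : ℝ) ≤ ℓ := by exact_mod_cast hℓ
  have hℓ0 : (0 : ℝ) < ℓ := by linarith
  have hk0 : (0 : ℝ) < k := by exact_mod_cast hk
  obtain ⟨v, hv⟩ : ∃ v : ℝ, v = (Fintype.card V : ℝ) := ⟨_, rfl⟩
  rw [← hv] at hV2
  have hv1 : 1 ≤ v := by
    by_contra hc
    have h0 : Fintype.card V = 0 := by
      by_contra h1
      apply hc
      rw [hv]
      exact_mod_cast Nat.one_le_iff_ne_zero.2 h1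
    rw [hv, h0, Nat.cast_zero, zero_div, Real.exp_zero] at hV2
    nlinarith
  have hV1' : 20000 * ℓ * v ≤ k := by
    rw [hv]
    exact_mod_cast hV1
  have hℓv : v ≤ ℓ * v := by nlinarith
  have hk2 : (20000 : ℝ) ≤ k := by nlinarith
  have hcard : (Fintype.card (ZMod (2 * k)) : ℝ) = 2 * k := by
    rw [ZMod.card]
    push_cast
    ring
  -- the weights
  set F : I → ZMod (2 * k) → ℝ := fun i t => (11 / 10 : ℝ) ^ ((f i t : ℝ) / (3 * ℓ)) with hF
  have hF0 : ∀ i t, 0 ≤ F i t := fun i t => by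
    rw [hF]
    positivity
  have hF1 : ∀ i t, F i t ≤ 1 + (f i t : ℝ) / (30 * ℓ) := by
    intro i t
    have h1 : (0 : ℝ) ≤ (f i t : ℝ) / (3 * ℓ) := by positivity
    have h2 : (f i t : ℝ) / (3 * ℓ) ≤ 1 := by
      rw [div_le_one (by positivity)]
      exact_mod_cast hf1 i t
    have h3 := _root_.rpow_one_add_le_one_add_mul_self (s := 1 / 10) (by norm_num) h1 h2
    have h4 : (1 : ℝ) + 1 / 10 = 11 / 10 := by norm_num
    rw [h4] at h3
    refine h3.trans (le_of_eq ?_)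
    field_simp
    ring
  have hS : ∀ i, ∑ t, F i t ≤ 2 * k + (k + 1) / (30 * ℓ) := by
    intro i
    refine (Finset.sum_le_sum fun t _ => hF1 i t).trans ?_
    rw [Finset.sum_add_distrib, Finset.sum_const, Finset.card_univ, nsmul_eq_mul, mul_one, hcard,
      ← Finset.sum_div]
    have h1 : (∑ t, (f i t : ℝ)) ≤ k + 1 := by exact_mod_cast hf2 i
    gcongr
  have h2kv : 0 < 2 * (k : ℝ) - v := by nlinarith
  have hfac : ∀ i, (∑ t, F i t) / (2 * k - v) ≤ Real.exp (0.0167 / ℓ) := by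
    intro i
    have h1 : (∑ t, F i t) / (2 * k - v) ≤ 1 + 0.0167 / ℓ := by
      rw [div_le_iff₀ h2kv]
      refine (hS i).trans ?_
      have h2 : v * ℓ + (k + 1) / 30 ≤ 0.0167 * (2 * k - v) := by nlinarith
      have h3 : (v * ℓ + (k + 1) / 30) / ℓ ≤ 0.0167 * (2 * k - v) / ℓ := by gcongr
      have h4 : (v * ℓ + (k + 1) / 30) / ℓ = v + (k + 1) / (30 * ℓ) := by
        field_simp
      have h5 : 0.0167 * (2 * k - v) / ℓ = 0.0167 / ℓ * (2 * k - v) := by ring
      rw [h4, h5] at h3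
      linarith
    refine h1.trans ?_
    have := Real.add_one_le_exp (0.0167 / (ℓ : ℝ))
    linarith
  -- averages
  have havg : ∀ i r, ∑ π : Equiv.Perm (ZMod (2 * k)), ∏ n : V, F i (π.symm (r - δ n)) ≤
      ((Fintype.card (ZMod (2 * k))).factorial : ℝ) * Real.exp (0.0167 * (v / ℓ)) := by
    intro i r
    have hx : Function.Injective fun n : V => r - δ n := by
      intro n n' h
      exact hδ (sub_right_injective h)
    have h1 := avg_perm_le (T := ZMod (2 * k)) (ι := V) (fun n => r - δ n) hx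
      (fun _ t => F i t) (fun _ t => hF0 i t) (by
        have h2 : (Fintype.card V : ℝ) < (Fintype.card (ZMod (2 * k)) : ℝ) := by
          rw [hcard, ← hv]
          linarith
        exact_mod_cast h2)
    have h3 : ∑ π : Equiv.Perm (ZMod (2 * k)), ∏ n : V, F i (π.symm (r - δ n)) =
        ∑ π : Equiv.Perm (ZMod (2 * k)), ∏ n : V, F i (π (r - δ n)) :=
      Fintype.sum_equiv (Equiv.inv _) _ _ fun π => rfl
    rw [h3]
    refine h1.trans ?_
    refine mul_le_mul_of_nonneg_left ?_ (Nat.cast_nonneg _)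
    rw [Finset.prod_const, Finset.card_univ, hcard, ← hv]
    have h4 : (0 : ℝ) ≤ (∑ t, F i t) / (2 * k - v) :=
      div_nonneg (Finset.sum_nonneg fun t _ => hF0 i t) h2kv.le
    refine (pow_le_pow_left₀ h4 (hfac i) _).trans ?_
    rw [← Real.exp_nat_mul, ← hv]
    refine le_of_eq ?_
    congr 1
    ring
  have hlog : (0.095 : ℝ) ≤ Real.log (11 / 10) := by
    rw [Real.le_log_iff_exp_le (by norm_num)]
    have h1 := Real.exp_bound' (x := 0.095) (by norm_num) (by norm_num) (n := 3) (by norm_num)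
    refine h1.trans ?_
    norm_num [Finset.sum_range_succ, Nat.factorial]
  have hbad : ∀ i r (π : Equiv.Perm (ZMod (2 * k))),
      ¬ 20 * ∑ n : V, f i (π.symm (r - δ n)) ≤ 11 * Fintype.card V →
      1 ≤ Real.exp (- (0.0174 * (v / ℓ))) * ∏ n : V, F i (π.symm (r - δ n)) := by
    intro i r π hc
    rw [not_le] at hc
    have h1 : (11 : ℝ) * v ≤ 20 * ∑ n : V, (f i (π.symm (r - δ n)) : ℝ) := by
      rw [hv]
      exact_mod_cast hc.le
    have h2 : ∏ n : V, F i (π.symm (r - δ n)) =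
        (11 / 10 : ℝ) ^ (∑ n : V, (f i (π.symm (r - δ n)) : ℝ) / (3 * ℓ)) := by
      rw [Real.rpow_sum_of_pos (by norm_num)]
    have h3 : 0.0174 * (v / ℓ) ≤
        Real.log (11 / 10) * (∑ n : V, (f i (π.symm (r - δ n)) : ℝ) / (3 * ℓ)) := by
      rw [← Finset.sum_div]
      have h4 : 11 * v / (60 * ℓ) ≤ (∑ n : V, (f i (π.symm (r - δ n)) : ℝ)) / (3 * ℓ) := by
        rw [div_le_div_iff₀ (by positivity) (by positivity)]
        nlinarith
      have h5 : 0 ≤ 11 * v / (60 * ℓ) := by positivity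
      have h6 : 0.095 * (11 * v / (60 * ℓ)) ≤
          Real.log (11 / 10) * ((∑ n : V, (f i (π.symm (r - δ n)) : ℝ)) / (3 * ℓ)) :=
        mul_le_mul hlog h4 h5 (by linarith)
      refine le_trans ?_ h6
      have h7 : 0.095 * (11 * v / (60 * ℓ)) = (0.095 * 11 / 60) * (v / ℓ) := by
        field_simp
      rw [h7]
      have h8 : 0 ≤ v / (ℓ : ℝ) := by positivity
      nlinarith
    rw [h2, Real.rpow_def_of_pos (by norm_num), ← Real.exp_add]
    rw [← Real.exp_zero]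
    apply Real.exp_le_exp.2
    linarith
  by_contra hall
  push Not at hall
  have hN : (0 : ℝ) < ((Fintype.card (ZMod (2 * k))).factorial : ℝ) := by
    exact_mod_cast Nat.factorial_pos _
  have h1 : ((Fintype.card (ZMod (2 * k))).factorial : ℝ) ≤
      ∑ π : Equiv.Perm (ZMod (2 * k)), ∑ i, ∑ r,
        Real.exp (- (0.0174 * (v / ℓ))) * ∏ n : V, F i (π.symm (r - δ n)) := by
    have h2 : ((Fintype.card (ZMod (2 * k))).factorial : ℝ) =
        ∑ π : Equiv.Perm (ZMod (2 * k)), (1 : ℝ) := by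
      rw [Finset.sum_const, Finset.card_univ, Fintype.card_perm, nsmul_eq_mul, mul_one]
    rw [h2]
    refine Finset.sum_le_sum fun π _ => ?_
    obtain ⟨i, r, hir⟩ := hall π
    have hnn : ∀ i r, 0 ≤ Real.exp (- (0.0174 * (v / ℓ))) * ∏ n : V, F i (π.symm (r - δ n)) :=
      fun i r => mul_nonneg (Real.exp_pos _).le (Finset.prod_nonneg fun n _ => hF0 i _)
    refine (hbad i r π (not_le.2 hir)).trans ?_
    refine le_trans ?_ (Finset.single_le_sum (f := fun i => ∑ r,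
      Real.exp (- (0.0174 * (v / ℓ))) * ∏ n : V, F i (π.symm (r - δ n)))
      (fun i _ => Finset.sum_nonneg fun r _ => hnn i r) (Finset.mem_univ i))
    exact Finset.single_le_sum (f := fun r =>
      Real.exp (- (0.0174 * (v / ℓ))) * ∏ n : V, F i (π.symm (r - δ n)))
      (fun r _ => hnn i r) (Finset.mem_univ r)
  have h2 : ∑ π : Equiv.Perm (ZMod (2 * k)), ∑ i, ∑ r,
        Real.exp (- (0.0174 * (v / ℓ))) * ∏ n : V, F i (π.symm (r - δ n)) ≤
      ∑ i : I, ∑ r : ZMod (2 * k), Real.exp (- (0.0174 * (v / ℓ))) *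
        (((Fintype.card (ZMod (2 * k))).factorial : ℝ) * Real.exp (0.0167 * (v / ℓ))) := by
    rw [Finset.sum_comm]
    refine Finset.sum_le_sum fun i _ => ?_
    rw [Finset.sum_comm]
    refine Finset.sum_le_sum fun r _ => ?_
    rw [← Finset.mul_sum]
    exact mul_le_mul_of_nonneg_left (havg i r) (Real.exp_pos _).le
  have h3 := h1.trans h2
  rw [Finset.sum_const, Finset.sum_const, Finset.card_univ, Finset.card_univ, nsmul_eq_mul,
    nsmul_eq_mul, hcard] at h3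
  have h4 : Real.exp (- (0.0174 * (v / ℓ))) * Real.exp (0.0167 * (v / ℓ)) ≤
      Real.exp (- (v / (2000 * ℓ))) := by
    rw [← Real.exp_add]
    apply Real.exp_le_exp.2
    have h5 : v / (2000 * ℓ) = 0.0005 * (v / ℓ) := by
      field_simp
      norm_num
    rw [h5]
    have h8 : 0 ≤ v / (ℓ : ℝ) := by positivity
    nlinarith
  have hE : Real.exp (- (v / (2000 * ℓ))) * Real.exp (v / (2000 * ℓ)) = 1 := by
    rw [← Real.exp_add, neg_add_cancel, Real.exp_zero]
  have hI' : (Fintype.card I : ℝ) ≤ 4 * (k + 1) := by exact_mod_cast hI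
  have h6 : (Fintype.card I : ℝ) * (2 * k) < 8 * (k + 1) ^ 2 := by nlinarith
  have h7 : (Fintype.card I : ℝ) * (2 * k) * Real.exp (- (v / (2000 * ℓ))) < 1 := by
    have h8 : (Fintype.card I : ℝ) * (2 * k) < Real.exp (v / (2000 * ℓ)) := lt_of_lt_of_le h6 hV2
    calc (Fintype.card I : ℝ) * (2 * k) * Real.exp (- (v / (2000 * ℓ)))
        < Real.exp (v / (2000 * ℓ)) * Real.exp (- (v / (2000 * ℓ))) :=
          mul_lt_mul_of_pos_right h8 (Real.exp_pos _)
      _ = 1 := by rw [mul_comm, hE]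
  have h9 : (Fintype.card I : ℝ) * (2 * k * (Real.exp (- (0.0174 * (v / ℓ))) *
      (((Fintype.card (ZMod (2 * k))).factorial : ℝ) * Real.exp (0.0167 * (v / ℓ))))) ≤
      ((Fintype.card (ZMod (2 * k))).factorial : ℝ) *
        ((Fintype.card I : ℝ) * (2 * k) * Real.exp (- (v / (2000 * ℓ)))) := by
    have h10 : 0 ≤ ((Fintype.card (ZMod (2 * k))).factorial : ℝ) *
        ((Fintype.card I : ℝ) * (2 * k)) := by positivity
    have h11 := mul_le_mul_of_nonneg_left h4 h10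
    linarith
  have h12 := h3.trans h9
  have h13 : ((Fintype.card (ZMod (2 * k))).factorial : ℝ) *
        ((Fintype.card I : ℝ) * (2 * k) * Real.exp (- (v / (2000 * ℓ)))) <
        ((Fintype.card (ZMod (2 * k))).factorial : ℝ) * 1 := mul_lt_mul_of_pos_left h7 hN
  linarith

end Pool.Agent.Lib.MP_db622c_co.P7
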