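import Pool.Agent.Lib.MP_db622c_co.P7.Defs

/-!
# P7-RBp: a perfect matching of `K × ZMod 2`, `card K = 4`, with different differences

PROOF.  On `E = (ZMod 2 × ZMod 2) × ZMod 2` there is an involution `f0` without fixed points such
that the four differences `z + f0 z` are different and none of them is `((0, 0), 1)`: give it by a
table and check by `decide` (written as numbers `0..7`, `4 = ((0,0),1)`: the pairs `01, 24, 36, 57` with differences `1, 6, 5, 2`;
here the number `n` has bits
`((b0, b1), b2)` and the addition is xor, so four different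
differences, none equal to `4`).  There is an additive equivalence `ZMod 2 × ZMod 2 ≃+ K` (`K` is a vector space of
dimension `2` over `ZMod 2`: `LinearEquiv.ofFinrankEq`, see `mate_prod` in `CB/Fin.lean` for the
instance `ZMod.algebra K 2`), hence `E ≃+ K × ZMod 2` mapping `((0, 0), 1)` to `(0, 1)`
(`AddEquiv.prodCongr`).  Transport `f0`.
-/

namespace Pool.Agent.Lib.MP_db622c_co.P7

open Pool.Agent.Lib.MP_db622c_co Pool.Agent.Lib.MP_db622c_co.CB

/-- the table -/
def patF (z : (ZMod 2 × ZMod 2) × ZMod 2) : (ZMod 2 × ZMod 2) × ZMod 2 :=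
  if z = ((0, 0), 0) then ((1, 0), 0)
  else if z = ((1, 0), 0) then ((0, 0), 0)
  else if z = ((0, 1), 0) then ((0, 0), 1)
  else if z = ((0, 0), 1) then ((0, 1), 0)
  else if z = ((1, 1), 0) then ((0, 1), 1)
  else if z = ((0, 1), 1) then ((1, 1), 0)
  else if z = ((1, 0), 1) then ((1, 1), 1)
  else ((1, 0), 1)

theorem patF_inv : ∀ z, patF (patF z) = z := by decide

theorem patF_ne : ∀ z, patF z ≠ z := by decide

theorem patF_ne1 : ∀ z, z + patF z ≠ ((0, 0), 1) := by decide

theorem patF_rb : ∀ z z', z + patF z = z' + patF z' → z' = z ∨ z' = patF z := by decide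

theorem exists_pat {K : Type} [Field K] [CharP K 2] [Fintype K] (hK : Fintype.card K = 4) :
    ∃ f : K × ZMod 2 → K × ZMod 2, (∀ z, f (f z) = z) ∧ (∀ z, f z ≠ z) ∧
      (∀ z, z + f z ≠ (0, 1)) ∧ ∀ z z', z + f z = z' + f z' → z' = z ∨ z' = f z := by
  let : Algebra (ZMod 2) K := ZMod.algebra K 2
  have h1 : Module.finrank (ZMod 2) K = 2 := by
    have h1 := Module.card_eq_pow_finrank (K := ZMod 2) (V := K)
    rw [hK, ZMod.card] at h1
    exact (Nat.pow_right_injective (le_refl 2) (h1.symm.trans (by norm_num : (4 : ℕ) = 2 ^ 2)))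
  have h2 : Module.finrank (ZMod 2) (ZMod 2 × ZMod 2) = 2 := by
    rw [Module.finrank_prod, Module.finrank_self]
  have e0 : (ZMod 2 × ZMod 2) ≃ₗ[ZMod 2] K := LinearEquiv.ofFinrankEq _ _ (h2.trans h1.symm)
  let e : ((ZMod 2 × ZMod 2) × ZMod 2) ≃+ K × ZMod 2 :=
    AddEquiv.prodCongr e0.toAddEquiv (AddEquiv.refl (ZMod 2))
  have he1 : e ((0, 0), 1) = (0, 1) := by
    have h3 : e0.toAddEquiv (0, 0) = 0 := map_zero e0.toAddEquiv
    show (e0.toAddEquiv (0, 0), (1 : ZMod 2)) = (0, 1)
    rw [h3]
  have hadd : ∀ z, z + e (patF (e.symm z)) = e (e.symm z + patF (e.symm z)) := by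
    intro z
    rw [map_add, e.apply_symm_apply]
  refine ⟨fun z => e (patF (e.symm z)), ?_, ?_, ?_, ?_⟩
  · intro z
    show e (patF (e.symm (e (patF (e.symm z))))) = z
    rw [e.symm_apply_apply, patF_inv, e.apply_symm_apply]
  · intro z h
    have h3 : e (patF (e.symm z)) = e (e.symm z) := by rw [e.apply_symm_apply]; exact h
    exact patF_ne _ (e.injective h3)
  · intro z h
    have h3 : z + e (patF (e.symm z)) = (0, 1) := h
    rw [hadd, ← he1] at h3
    exact patF_ne1 _ (e.injective h3)
  · intro z z' h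
    have h3 : z + e (patF (e.symm z)) = z' + e (patF (e.symm z')) := h
    rw [hadd, hadd] at h3
    rcases patF_rb _ _ (e.injective h3) with h4 | h4
    · left
      exact e.symm.injective h4
    · right
      show z' = e (patF (e.symm z))
      rw [← h4, e.apply_symm_apply]

end Pool.Agent.Lib.MP_db622c_co.P7
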