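import Pool.Agent.Lib.MP_db622c_co.P7.DefsC
import Pool.Agent.Lib.MP_db622c_co.P7.PS

/-!
# P7-Rc: a random block preserving relabelling has small loads (one pair of matchings)

PROOF.  `X = Fin m × Bool`, `Q+ = {(x, y) | x.1 < y.1, Q x y}`: at most `m` elements (the ordered
pairs with `Q` are at most `2 m`, since every `x` has at most one `y`, and swapping the two points
pairs `Q+` with the rest, `x.1 ≠ y.1`).  `#P := card {(x, y) | P x y} ≤ 2 m`.
(1) If `3 ℓ ≤ card Z`, `Z = {z ∈ Q+ | P (β z.1) (β z.2)}`, there are `z_1, ..., z_ℓ ∈ Z` (a function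
`u : Fin ℓ → X × X`) whose `2 ℓ` blocks are all different: choose greedily; the two blocks of a
chosen `z` contain `4` points, each in at most one pair of `Q`, so at most `3` elements of `Z`
(the pair itself and two more) meet them; after `j < ℓ` choices at most `3 j < 3 ℓ` elements of `Z`
are excluded.  (E.g. by induction on `j ≤ ℓ`: there is `u : Fin j → X × X` with values in `Z` and
pairwise different blocks.)
(2) So the number of bad `te = (τ, ε)` is at most
`∑ u, card {te | ∀ i, P (rl te (u i).1) (rl te (u i).2)}`, the sum over all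
`u : Fin ℓ → X × X` with values in `Q+` and with `2 ℓ` different blocks: at most `m ^ ℓ` such `u`.
(3) Fix `u`.  `ι = Fin ℓ × Bool`, `x (i, false) = (u i).1.1`, `x (i, true) = (u i).2.1` injective
`ι → Fin m`.  For fixed `τ` the number of `ε : Fin m → Bool` with
`P (τ (x (i, false)), s_i xor ε (x (i, false))) (τ (x (i, true)), s_i' xor ε (x (i, true)))` for all
`i` is `2 ^ (m - 2 ℓ) * ∏ i, n (τ (x (i, false))) (τ (x (i, true)))`, where
`n y y' = card {(e, e') : Bool × Bool | P (y, e) (y', e')}` (the values of `ε` at the different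
points `x (i, b)` are independent, the other values are free; `xor s` is a bijection).  (Upper bound
`≤` is enough.)
By `sum_perm_le` the sum over `τ` is at most
`(m - 2 ℓ)! * 2 ^ (m - 2 ℓ) * ∑ y : ι → Fin m, ∏ i, n (y (i, false)) (y (i, true))`
`= (m - 2 ℓ)! * 2 ^ (m - 2 ℓ) * (#P) ^ ℓ ≤ (m - 2 ℓ)! * 2 ^ (m - 2 ℓ) * (2 m) ^ ℓ`.
(4) `m ! ≥ (m - 2 ℓ)! (m - 2 ℓ) ^ (2 ℓ)`, so the total number divided by `m ! 2 ^ m` is at most
`m ^ ℓ (2 m) ^ ℓ / (4 ^ ℓ (m - 2 ℓ) ^ (2 ℓ)) = (m ^ 2 / (2 (m - 2 ℓ) ^ 2)) ^ ℓ ≤ (3 / 5) ^ ℓ`,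
because `m - 2 ℓ ≥ 21 m / 23` and `529 / 882 < 3 / 5`.
(The theorem may be split into several lemmas in this file.)
-/

namespace Pool.Agent.Lib.MP_db622c_co.P7

open Pool.Agent.Lib.MP_db622c_co Pool.Agent.Lib.MP_db622c_co.CB

/-- the blocks of a family of pairs -/
private def xb {m j : ℕ} (u : Fin j → (Fin m × Bool) × (Fin m × Bool)) (k : Fin j × Bool) : Fin m :=
  if k.2 then (u k.1).2.1 else (u k.1).1.1

private theorem rc_greedy {m : ℕ} (Z : Finset ((Fin m × Bool) × (Fin m × Bool)))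
    (hZ1 : ∀ z ∈ Z, z.1.1 ≠ z.2.1)
    (hZ2 : ∀ z ∈ Z, ∀ z' ∈ Z, ∀ x, (z.1 = x ∨ z.2 = x) → (z'.1 = x ∨ z'.2 = x) → z = z') :
    ∀ j : ℕ, 3 * j ≤ Z.card → ∃ u : Fin j → (Fin m × Bool) × (Fin m × Bool),
      (∀ i, u i ∈ Z) ∧ Function.Injective (xb u) := by
  classical
  intro j
  induction j with
  | zero =>
    intro _
    exact ⟨fun i => i.elim0, fun i => i.elim0, fun a => a.1.elim0⟩
  | succ j ih =>
    intro hj
    obtain ⟨u, hu, hinj⟩ := ih (by omega)
    let fl : Fin m × Bool → Fin m × Bool := fun x => (x.1, !x.2)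
    let pr : Fin m × Bool → (Fin m × Bool) × (Fin m × Bool) := fun x =>
      if h : ∃ z ∈ Z, z.1 = x ∨ z.2 = x then h.choose else (x, x)
    have hpr : ∀ z ∈ Z, ∀ x, (z.1 = x ∨ z.2 = x) → z = pr x := by
      intro z hz x hx
      have hex : ∃ z ∈ Z, z.1 = x ∨ z.2 = x := ⟨z, hz, hx⟩
      have h1 : pr x = hex.choose := dif_pos hex
      rw [h1]
      exact hZ2 z hz _ hex.choose_spec.1 x hx hex.choose_spec.2
    let E : Finset ((Fin m × Bool) × (Fin m × Bool)) :=
      (Finset.univ : Finset (Fin j)).biUnion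
        (fun i => {u i, pr (fl (u i).1), pr (fl (u i).2)})
    have hE : E.card ≤ 3 * j := by
      calc E.card ≤ ∑ i : Fin j, ({u i, pr (fl (u i).1), pr (fl (u i).2)} :
            Finset ((Fin m × Bool) × (Fin m × Bool))).card := Finset.card_biUnion_le
        _ ≤ ∑ _i : Fin j, 3 := Finset.sum_le_sum fun i _ => Finset.card_le_three
        _ = 3 * j := by simp [mul_comm]
    obtain ⟨z, hz, hzE⟩ : ∃ z ∈ Z, z ∉ E := by
      by_contra hcon
      push Not at hcon
      have h1 := Finset.card_le_card (show Z ⊆ E from hcon)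
      omega
    have hzE' : ∀ i, z ≠ u i ∧ z ≠ pr (fl (u i).1) ∧ z ≠ pr (fl (u i).2) := by
      intro i
      refine ⟨fun h => hzE ?_, fun h => hzE ?_, fun h => hzE ?_⟩
      · exact Finset.mem_biUnion.2 ⟨i, Finset.mem_univ _, by simp [h]⟩
      · exact Finset.mem_biUnion.2 ⟨i, Finset.mem_univ _, by simp [h]⟩
      · exact Finset.mem_biUnion.2 ⟨i, Finset.mem_univ _, by simp [h]⟩
    have key : ∀ i, ∀ w, (z.1 = w ∨ z.2 = w) → ∀ p, ((u i).1 = p ∨ (u i).2 = p) →
        p.1 ≠ w.1 := by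
      intro i w hw p hp hpw
      by_cases hb : w.2 = p.2
      · have hwp : w = p := Prod.ext hpw.symm hb
        subst hwp
        exact (hzE' i).1 (hZ2 z hz (u i) (hu i) w hw hp)
      · have hwp : w = fl p := by
          refine Prod.ext hpw.symm ?_
          show w.2 = !p.2
          revert hb
          generalize w.2 = b1
          generalize p.2 = b2
          intro hb
          cases b1 <;> cases b2 <;> first | rfl | exact absurd rfl hb
        rw [hwp] at hw
        have h3 := hpr z hz (fl p) hw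
        rcases hp with hp | hp
        · rw [← hp] at h3
          exact (hzE' i).2.1 h3
        · rw [← hp] at h3
          exact (hzE' i).2.2 h3
    refine ⟨Fin.cons z u, ?_, ?_⟩
    · intro i
      induction i using Fin.cases with
      | zero => simpa using hz
      | succ i => simpa using hu i
    · intro a b hab
      obtain ⟨a, s⟩ := a
      obtain ⟨b, t⟩ := b
      induction a using Fin.cases with
      | zero =>
        induction b using Fin.cases with
        | zero =>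
          cases s <;> cases t <;> simp [xb] at hab ⊢
          · exact hZ1 z hz hab
          · exact hZ1 z hz hab.symm
        | succ b =>
          exfalso
          cases s <;> cases t <;> simp [xb] at hab
          · exact key b z.1 (Or.inl rfl) (u b).1 (Or.inl rfl) hab.symm
          · exact key b z.1 (Or.inl rfl) (u b).2 (Or.inr rfl) hab.symm
          · exact key b z.2 (Or.inr rfl) (u b).1 (Or.inl rfl) hab.symm
          · exact key b z.2 (Or.inr rfl) (u b).2 (Or.inr rfl) hab.symm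
      | succ a =>
        induction b using Fin.cases with
        | zero =>
          exfalso
          cases s <;> cases t <;> simp [xb] at hab
          · exact key a z.1 (Or.inl rfl) (u a).1 (Or.inl rfl) hab
          · exact key a z.2 (Or.inr rfl) (u a).1 (Or.inl rfl) hab
          · exact key a z.1 (Or.inl rfl) (u a).2 (Or.inr rfl) hab
          · exact key a z.2 (Or.inr rfl) (u a).2 (Or.inr rfl) hab
        | succ b =>
          have h1 : xb u (a, s) = xb u (b, t) := by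
            simpa [xb] using hab
          have h2 := hinj h1
          simp only [Prod.mk.injEq] at h2
          rw [h2.1, h2.2]

private theorem rc_fib_eps {m : ℕ} {ι : Type*} [Fintype ι] [DecidableEq ι] (x : ι → Fin m)
    (hx : Function.Injective x) (c : ι → Bool) :
    ((Finset.univ : Finset (Fin m → Bool)).filter (fun ε => ∀ j, ε (x j) = c j)).card ≤
      2 ^ (m - Fintype.card ι) := by
  classical
  have hcard : Fintype.card ({t : Fin m // ¬ t ∈ Set.range x} → Bool) =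
      2 ^ (m - Fintype.card ι) := by
    rw [Fintype.card_fun, Fintype.card_bool]
    congr 1
    rw [Fintype.card_subtype_compl, Fintype.card_fin]
    congr 1
    exact Set.card_range_of_injective hx
  rw [← hcard, ← Finset.card_univ]
  refine Finset.card_le_card_of_injOn (fun ε t => ε t.1) (fun _ _ => Finset.mem_univ _) ?_
  intro ε hε ε' hε' h
  have h1 := (Finset.mem_filter.1 (Finset.mem_coe.1 hε)).2
  have h2 := (Finset.mem_filter.1 (Finset.mem_coe.1 hε')).2
  funext t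
  by_cases ht : t ∈ Set.range x
  · obtain ⟨j, rfl⟩ := ht
    rw [h1 j, h2 j]
  · exact congrFun h ⟨t, ht⟩

open Nat in
private theorem rc_fib_tau {m : ℕ} {ι : Type*} [Fintype ι] [DecidableEq ι] (x : ι → Fin m)
    (hx : Function.Injective x) (y : ι → Fin m) :
    ((Finset.univ : Finset (Equiv.Perm (Fin m))).filter (fun π => ∀ j, π (x j) = y j)).card ≤
      (m - Fintype.card ι)! := by
  classical
  have h := sum_perm_le x hx (fun z => if z = y then (1 : ℝ) else 0)
    (fun z => by split_ifs <;> norm_num)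
  have h1 : ∑ z : ι → Fin m, (if z = y then (1 : ℝ) else 0) = 1 := by simp
  rw [h1, mul_one, Fintype.card_fin, ← Finset.sum_filter, Finset.sum_const, nsmul_eq_mul,
    mul_one] at h
  have h2 : (Finset.univ : Finset (Equiv.Perm (Fin m))).filter (fun π => ∀ j, π (x j) = y j) =
      (Finset.univ : Finset (Equiv.Perm (Fin m))).filter (fun π => (fun i => π (x i)) = y) := by
    refine Finset.filter_congr fun π _ => ?_
    exact funext_iff.symm
  rw [h2]
  exact_mod_cast h

open Nat in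
private theorem rc_fib {m ℓ : ℕ} (u v : Fin ℓ → (Fin m × Bool) × (Fin m × Bool))
    (hu : Function.Injective (xb u)) :
    ((Finset.univ : Finset (Equiv.Perm (Fin m) × (Fin m → Bool))).filter
      (fun te => ∀ i, rl te (u i).1 = (v i).1 ∧ rl te (u i).2 = (v i).2)).card ≤
      (m - 2 * ℓ)! * 2 ^ (m - 2 * ℓ) := by
  classical
  have hc : Fintype.card (Fin ℓ × Bool) = 2 * ℓ := by
    rw [Fintype.card_prod, Fintype.card_fin, Fintype.card_bool, mul_comm]
  have h1 := rc_fib_tau (xb u) hu (xb v)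
  have h2 := rc_fib_eps (xb u) hu (fun k : Fin ℓ × Bool =>
    if k.2 then xor (u k.1).2.2 (v k.1).2.2 else xor (u k.1).1.2 (v k.1).1.2)
  rw [hc] at h1 h2
  refine le_trans (Finset.card_le_card (t := ((Finset.univ : Finset (Equiv.Perm (Fin m))).filter
    (fun π => ∀ j, π (xb u j) = xb v j)) ×ˢ ((Finset.univ : Finset (Fin m → Bool)).filter
      (fun ε => ∀ j, ε (xb u j) = (fun k : Fin ℓ × Bool =>
    if k.2 then xor (u k.1).2.2 (v k.1).2.2 else xor (u k.1).1.2 (v k.1).1.2) j))) ?_) ?_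
  · intro te hte
    have h3 := (Finset.mem_filter.1 hte).2
    refine Finset.mem_product.2 ⟨Finset.mem_filter.2 ⟨Finset.mem_univ _, ?_⟩,
      Finset.mem_filter.2 ⟨Finset.mem_univ _, ?_⟩⟩
    · rintro ⟨i, b⟩
      cases b
      · have h4 := congrArg Prod.fst (h3 i).1
        simpa [xb, rl] using h4
      · have h4 := congrArg Prod.fst (h3 i).2
        simpa [xb, rl] using h4
    · rintro ⟨i, b⟩
      cases b
      · have h4 := congrArg Prod.snd (h3 i).1
        simp only [rl] at h4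
        simp only [xb, if_false, Bool.false_eq_true]
        rw [← h4, ← Bool.xor_assoc, Bool.xor_self, Bool.false_xor]
      · have h4 := congrArg Prod.snd (h3 i).2
        simp only [rl] at h4
        simp only [xb, if_true]
        rw [← h4, ← Bool.xor_assoc, Bool.xor_self, Bool.false_xor]
  · rw [Finset.card_product]
    exact Nat.mul_le_mul h1 h2

open Nat in
private theorem rc_fibP {m ℓ : ℕ} (P : Fin m × Bool → Fin m × Bool → Prop)
    (hPm : ∀ x y y', P x y → P x y' → y = y')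
    (u : Fin ℓ → (Fin m × Bool) × (Fin m × Bool))
    (hu : Function.Injective (xb u)) [DecidablePred fun te : Equiv.Perm (Fin m) × (Fin m → Bool) =>
      ∀ i, P (rl te (u i).1) (rl te (u i).2)] :
    ((Finset.univ : Finset (Equiv.Perm (Fin m) × (Fin m → Bool))).filter
      (fun te => ∀ i, P (rl te (u i).1) (rl te (u i).2))).card ≤
      (2 * m) ^ ℓ * ((m - 2 * ℓ)! * 2 ^ (m - 2 * ℓ)) := by
  classical
  let PS : Finset ((Fin m × Bool) × (Fin m × Bool)) := Finset.univ.filter (fun z => P z.1 z.2)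
  have hPS : PS.card ≤ 2 * m := by
    have h1 : PS.card ≤ (Finset.univ : Finset (Fin m × Bool)).card := by
      refine Finset.card_le_card_of_injOn (fun z => z.1) (fun _ _ => Finset.mem_univ _) ?_
      intro z hz z' hz' h
      have h2 := (Finset.mem_filter.1 (Finset.mem_coe.1 hz)).2
      have h3 := (Finset.mem_filter.1 (Finset.mem_coe.1 hz')).2
      have h4 : z.1 = z'.1 := h
      rw [← h4] at h3
      exact Prod.ext h4 (hPm _ _ _ h2 h3)
    rw [Finset.card_univ, Fintype.card_prod, Fintype.card_fin, Fintype.card_bool] at h1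
    omega
  let V : Finset (Fin ℓ → (Fin m × Bool) × (Fin m × Bool)) := Fintype.piFinset (fun _ => PS)
  have hV : V.card ≤ (2 * m) ^ ℓ := by
    have h1 : V.card = PS.card ^ ℓ := by
      simp only [V, Fintype.card_piFinset_const]
    rw [h1]
    exact Nat.pow_le_pow_left hPS ℓ
  have hsub : ((Finset.univ : Finset (Equiv.Perm (Fin m) × (Fin m → Bool))).filter
      (fun te => ∀ i, P (rl te (u i).1) (rl te (u i).2))) ⊆
      V.biUnion (fun v => (Finset.univ : Finset (Equiv.Perm (Fin m) × (Fin m → Bool))).filter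
      (fun te => ∀ i, rl te (u i).1 = (v i).1 ∧ rl te (u i).2 = (v i).2)) := by
    intro te hte
    have h1 := (Finset.mem_filter.1 hte).2
    refine Finset.mem_biUnion.2 ⟨fun i => (rl te (u i).1, rl te (u i).2), ?_, ?_⟩
    · refine Fintype.mem_piFinset.2 fun i => ?_
      exact Finset.mem_filter.2 ⟨Finset.mem_univ _, h1 i⟩
    · exact Finset.mem_filter.2 ⟨Finset.mem_univ _, fun i => ⟨rfl, rfl⟩⟩
  refine (Finset.card_le_card hsub).trans (Finset.card_biUnion_le.trans ?_)
  refine (Finset.sum_le_card_nsmul V _ _ (fun v _ => rc_fib u v hu)).trans ?_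
  rw [smul_eq_mul]
  exact Nat.mul_le_mul_right _ hV

private theorem rc_Qp {m : ℕ} (Q : Fin m × Bool → Fin m × Bool → Prop)
    (hQm : ∀ x y y', Q x y → Q x y' → y = y') (hQs : ∀ x y, Q x y → Q y x)
    (QS : Finset ((Fin m × Bool) × (Fin m × Bool)))
    (hQS : ∀ z ∈ QS, z.1.1 < z.2.1 ∧ Q z.1 z.2) : QS.card ≤ m := by
  classical
  have h1 : (QS ×ˢ (Finset.univ : Finset Bool)).card ≤
      (Finset.univ : Finset (Fin m × Bool)).card := by
    refine Finset.card_le_card_of_injOn (fun k => if k.2 then k.1.2 else k.1.1)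
      (fun _ _ => Finset.mem_univ _) ?_
    rintro ⟨z, b⟩ hz ⟨z', b'⟩ hz' h
    have hz1 := hQS z (Finset.mem_product.1 (Finset.mem_coe.1 hz)).1
    have hz2 := hQS z' (Finset.mem_product.1 (Finset.mem_coe.1 hz')).1
    cases b <;> cases b' <;> simp at h
    · have h2 : z.2 = z'.2 := hQm z.1 _ _ hz1.2 (by rw [h]; exact hz2.2)
      exact Prod.ext (Prod.ext h h2) rfl
    · exfalso
      have h2 : z.2 = z'.1 := hQm z.1 _ _ hz1.2 (by rw [h]; exact hQs _ _ hz2.2)
      have h3 := hz1.1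
      have h4 := hz2.1
      rw [h, h2] at h3
      exact lt_asymm h3 h4
    · exfalso
      have h2 : z.1 = z'.2 := hQm z.2 _ _ (hQs _ _ hz1.2) (by rw [h]; exact hz2.2)
      have h3 := hz1.1
      have h4 := hz2.1
      rw [h, h2] at h3
      exact lt_asymm h3 h4
    · have h2 : z.1 = z'.1 := hQm z.2 _ _ (hQs _ _ hz1.2) (by rw [h]; exact hQs _ _ hz2.2)
      exact Prod.ext (Prod.ext h2 h) rfl
  rw [Finset.card_product, Finset.card_univ, Finset.card_univ, Fintype.card_prod,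
    Fintype.card_fin, Fintype.card_bool] at h1
  omega

open Nat in
private theorem rc_num (m ℓ : ℕ) (hℓ : 23 * ℓ ≤ m) :
    ((m ^ ℓ * ((2 * m) ^ ℓ * ((m - 2 * ℓ)! * 2 ^ (m - 2 * ℓ))) : ℕ) : ℝ) ≤
      (3 / 5) ^ ℓ * (m ! * 2 ^ m) := by
  have h1 : (m - 2 * ℓ)! * m.descFactorial (2 * ℓ) = m ! :=
    Nat.factorial_mul_descFactorial (by omega)
  have h2 : (m - 2 * ℓ) ^ (2 * ℓ) ≤ m.descFactorial (2 * ℓ) :=
    (Nat.pow_le_pow_left (by omega) _).trans (Nat.pow_sub_le_descFactorial m (2 * ℓ))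
  have h3 : ((m - 2 * ℓ)! : ℝ) * ((m - 2 * ℓ : ℕ) : ℝ) ^ (2 * ℓ) ≤ (m ! : ℝ) := by
    rw [← h1]
    push_cast
    refine mul_le_mul_of_nonneg_left ?_ (by positivity)
    exact_mod_cast h2
  have h4 : (2 : ℝ) ^ m = 2 ^ (m - 2 * ℓ) * 4 ^ ℓ := by
    rw [show (4 : ℝ) = 2 ^ 2 by norm_num, ← pow_mul, ← pow_add]
    congr 1
    omega
  have h5 : (21 / 23 : ℝ) * m ≤ ((m - 2 * ℓ : ℕ) : ℝ) := by
    rw [Nat.cast_sub (by omega)]
    push_cast
    have h6 : (23 : ℝ) * ℓ ≤ m := by exact_mod_cast hℓ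
    linarith
  have h6 : (m : ℝ) * (2 * m) ≤ 3 / 5 * (4 * ((m - 2 * ℓ : ℕ) : ℝ) ^ 2) := by
    have h7 : ((21 / 23 : ℝ) * m) ^ 2 ≤ ((m - 2 * ℓ : ℕ) : ℝ) ^ 2 :=
      pow_le_pow_left₀ (by positivity) h5 2
    have h8 : (0 : ℝ) ≤ (m : ℝ) ^ 2 := by positivity
    nlinarith
  have h7 : ((m : ℝ) * (2 * m)) ^ ℓ ≤ (3 / 5 * (4 * ((m - 2 * ℓ : ℕ) : ℝ) ^ 2)) ^ ℓ :=
    pow_le_pow_left₀ (by positivity) h6 ℓ
  have h8 : (3 / 5 * (4 * ((m - 2 * ℓ : ℕ) : ℝ) ^ 2)) ^ ℓ =
      (3 / 5 : ℝ) ^ ℓ * (4 ^ ℓ * ((m - 2 * ℓ : ℕ) : ℝ) ^ (2 * ℓ)) := by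
    rw [mul_pow, mul_pow, pow_mul]
  rw [h8] at h7
  have h9 : (0 : ℝ) ≤ ((m - 2 * ℓ)! : ℝ) * 2 ^ (m - 2 * ℓ) := by positivity
  calc ((m ^ ℓ * ((2 * m) ^ ℓ * ((m - 2 * ℓ)! * 2 ^ (m - 2 * ℓ))) : ℕ) : ℝ)
      = ((m : ℝ) * (2 * m)) ^ ℓ * (((m - 2 * ℓ)! : ℝ) * 2 ^ (m - 2 * ℓ)) := by
        push_cast
        rw [mul_pow (m : ℝ)]
        ring
    _ ≤ (3 / 5 : ℝ) ^ ℓ * (4 ^ ℓ * ((m - 2 * ℓ : ℕ) : ℝ) ^ (2 * ℓ)) *
          (((m - 2 * ℓ)! : ℝ) * 2 ^ (m - 2 * ℓ)) := mul_le_mul_of_nonneg_right h7 h9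
    _ = (3 / 5 : ℝ) ^ ℓ * ((((m - 2 * ℓ)! : ℝ) * ((m - 2 * ℓ : ℕ) : ℝ) ^ (2 * ℓ)) *
          (2 ^ (m - 2 * ℓ) * 4 ^ ℓ)) := by ring
    _ ≤ (3 / 5 : ℝ) ^ ℓ * ((m ! : ℝ) * (2 ^ (m - 2 * ℓ) * 4 ^ ℓ)) := by
        refine mul_le_mul_of_nonneg_left ?_ (by positivity)
        exact mul_le_mul_of_nonneg_right h3 (by positivity)
    _ = (3 / 5 : ℝ) ^ ℓ * ((m ! : ℝ) * 2 ^ m) := by rw [h4]

open Nat in
theorem relab_count (m ℓ : ℕ) (hℓ1 : 1 ≤ ℓ) (hℓ : 23 * ℓ ≤ m)
    (P Q : Fin m × Bool → Fin m × Bool → Prop)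
    (hP : ∀ x y, P x y → x.1 ≠ y.1) (hPm : ∀ x y y', P x y → P x y' → y = y')
    (hPs : ∀ x y, P x y → P y x)
    (hQ : ∀ x y, Q x y → x.1 ≠ y.1) (hQm : ∀ x y y', Q x y → Q x y' → y = y')
    (hQs : ∀ x y, Q x y → Q y x) :
    (Nat.card {te : Equiv.Perm (Fin m) × (Fin m → Bool) // 3 * ℓ ≤
      Nat.card {z : (Fin m × Bool) × (Fin m × Bool) // z.1.1 < z.2.1 ∧ Q z.1 z.2 ∧
        P (rl te z.1) (rl te z.2)}} : ℝ) ≤ (3 / 5) ^ ℓ * (m ! * 2 ^ m) := by
  classical
  let QS : Finset ((Fin m × Bool) × (Fin m × Bool)) :=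
    Finset.univ.filter (fun z => z.1.1 < z.2.1 ∧ Q z.1 z.2)
  have hQS : QS.card ≤ m := rc_Qp Q hQm hQs QS (fun z hz => (Finset.mem_filter.1 hz).2)
  let U : Finset (Fin ℓ → (Fin m × Bool) × (Fin m × Bool)) :=
    (Fintype.piFinset (fun _ => QS)).filter (fun u => Function.Injective (xb u))
  have hU : U.card ≤ m ^ ℓ := by
    have h1 : U.card ≤ QS.card ^ ℓ := by
      refine (Finset.card_filter_le _ _).trans ?_
      simp only [Fintype.card_piFinset_const, le_refl]
    exact h1.trans (Nat.pow_le_pow_left hQS ℓ)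
  let Bad : Finset (Equiv.Perm (Fin m) × (Fin m → Bool)) := Finset.univ.filter
    (fun te => 3 * ℓ ≤ Nat.card {z : (Fin m × Bool) × (Fin m × Bool) // z.1.1 < z.2.1 ∧
      Q z.1 z.2 ∧ P (rl te z.1) (rl te z.2)})
  have hBad : Nat.card {te : Equiv.Perm (Fin m) × (Fin m → Bool) // 3 * ℓ ≤
      Nat.card {z : (Fin m × Bool) × (Fin m × Bool) // z.1.1 < z.2.1 ∧ Q z.1 z.2 ∧
        P (rl te z.1) (rl te z.2)}} = Bad.card := by
    rw [Nat.card_eq_fintype_card, Fintype.card_subtype]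
  rw [hBad]
  have hsub : Bad ⊆ U.biUnion (fun u =>
      (Finset.univ : Finset (Equiv.Perm (Fin m) × (Fin m → Bool))).filter
      (fun te => ∀ i, P (rl te (u i).1) (rl te (u i).2))) := by
    intro te hte
    have h1 := (Finset.mem_filter.1 hte).2
    rw [Nat.card_eq_fintype_card, Fintype.card_subtype] at h1
    obtain ⟨u, hu, hinj⟩ := rc_greedy _ (fun z hz => (((Finset.mem_filter.1 hz).2).1).ne)
      (by
        intro z hz z' hz' x hx hx'
        obtain ⟨_, a1, a2, _⟩ := Finset.mem_filter.1 hz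
        obtain ⟨_, b1, b2, _⟩ := Finset.mem_filter.1 hz'
        rcases hx with rfl | rfl
        · rcases hx' with h | h
          · rw [h] at b2
            exact Prod.ext h.symm (hQm _ _ _ a2 b2)
          · exfalso
            have h2 : z.2 = z'.1 := hQm z.1 _ _ a2 (by rw [← h]; exact hQs _ _ b2)
            rw [h2, ← h] at a1
            exact lt_asymm a1 b1
        · rcases hx' with h | h
          · exfalso
            have h2 : z.1 = z'.2 := hQm z.2 _ _ (hQs _ _ a2) (by rw [← h]; exact b2)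
            rw [h2, ← h] at a1
            exact lt_asymm a1 b1
          · have h2 : z.1 = z'.1 := hQm z.2 _ _ (hQs _ _ a2) (by rw [← h]; exact hQs _ _ b2)
            exact Prod.ext h2 h.symm) ℓ h1
    refine Finset.mem_biUnion.2 ⟨u, Finset.mem_filter.2 ⟨Fintype.mem_piFinset.2 fun i => ?_,
      hinj⟩, Finset.mem_filter.2 ⟨Finset.mem_univ _, fun i => ?_⟩⟩
    · obtain ⟨_, a1, a2, _⟩ := Finset.mem_filter.1 (hu i)
      exact Finset.mem_filter.2 ⟨Finset.mem_univ _, a1, a2⟩
    · obtain ⟨_, _, _, a3⟩ := Finset.mem_filter.1 (hu i)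
      exact a3
  have hcard : Bad.card ≤ m ^ ℓ * ((2 * m) ^ ℓ * ((m - 2 * ℓ)! * 2 ^ (m - 2 * ℓ))) := by
    refine (Finset.card_le_card hsub).trans (Finset.card_biUnion_le.trans ?_)
    refine (Finset.sum_le_card_nsmul U _ _
      (fun u hu => rc_fibP P hPm u (Finset.mem_filter.1 hu).2)).trans ?_
    rw [smul_eq_mul]
    exact Nat.mul_le_mul_right _ hU
  exact (Nat.cast_le.2 hcard).trans (rc_num m ℓ hℓ)

end Pool.Agent.Lib.MP_db622c_co.P7
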