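import Pool.Agent.Lib.MP_db622c_co.P7.Un

/-!
# P7-Rd: the rounds of the second blow-up

The pattern is `isOF_rd`, `isOrth_rd` of `CB/StepII2.lean`; the proofs can be copied nearly word by
word (`rcl P Sc x.2 y.2 w` is replaced by `h (lev P w) x.2 y.2`, where `lev P 0 = none` and
`lev P w = some (N w)`).  In `isOF_rdC`, `inj`, both `NB`: equal labels `t w = t' w'` give
`w = 0 ↔ w' = 0` and, if `w ≠ 0`, `N w = N w'` (`ht.N`, `N_mul`), so `lev P w = lev P w'`, and `IsHC.inj`
of `h (lev P w)` gives `y.2 = z.2`.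
-/

namespace Pool.Agent.Lib.MP_db622c_co.P7

open Pool.Agent.Lib.MP_db622c_co Pool.Agent.Lib.MP_db622c_co.CB

section

variable {K V A J R : Type*} [Field K] [CommGroup V] [Zero A] [CharP K 2]
  {S : A → J → ℤ} {μ : J → J} {L g : J → J → A} {side : J → ZMod 2}
  {h : Option V → J → J → R}

/-- the zero of the set of rounds -/
@[reducible] def zC (K R : Type*) [Zero K] : Zero ((K × ZMod 2) ⊕ (K × R)) := ⟨Sum.inl 0⟩

omit [CharP K 2] in
private theorem rdC_nb {P : Pack K V} {h : Option V → J → J → R} {μ : J → J}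
    {side : J → ZMod 2} {t : J → J → K}
    {rK : K × ZMod 2 → K × ZMod 2 → K × ZMod 2} {x y : K × J} (hn : NB μ x.2 y.2) :
    rdC P h μ side t rK x y =
      Sum.inr (x.1 + t x.2 y.2 * (x.1 + y.1), h (lev P (x.1 + y.1)) x.2 y.2) := by
  unfold rdC; rw [if_pos hn]

omit [CharP K 2] in
private theorem rdC_b {P : Pack K V} {h : Option V → J → J → R} {μ : J → J}
    {side : J → ZMod 2} {t : J → J → K}
    {rK : K × ZMod 2 → K × ZMod 2 → K × ZMod 2} {x y : K × J} (hn : ¬ NB μ x.2 y.2) :
    rdC P h μ side t rK x y = Sum.inl (rK (x.1, side x.2) (y.1, side y.2)) := by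
  unfold rdC; rw [if_neg hn]

theorem isOF_rdC (P : Pack K V) (hμ : IsRB g μ) (hL : IsLam L μ side)
    (hh : ∀ n, IsHC (h n) μ) {t : J → J → K} (ht : IsTh P t)
    {rK : K × ZMod 2 → K × ZMod 2 → K × ZMod 2} (r0 : ∀ x y, x ≠ y → rK x y ≠ 0)
    (rs : ∀ x y, rK x y = rK y x) (ri : ∀ x y y', y ≠ x → y' ≠ x → rK x y = rK x y' → y = y') :
    @IsOF _ _ (zC K R) (rdC P h μ side t rK) := by
  let _ := zC K R
  refine ⟨?_, ?_, ?_⟩
  · intro x y hxy hc
    by_cases hn : NB μ x.2 y.2
    · rw [rdC_nb hn] at hc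
      exact Sum.inr_ne_inl
        (show (Sum.inr (x.1 + t x.2 y.2 * (x.1 + y.1), h (lev P (x.1 + y.1)) x.2 y.2) :
          (K × ZMod 2) ⊕ (K × R)) = Sum.inl 0 from hc)
    · rw [rdC_b hn] at hc
      have h1 : rK (x.1, side x.2) (y.1, side y.2) = 0 := Sum.inl_injective hc
      exact r0 _ _ (pt_ne hμ hL hxy hn) h1
  · intro x y
    by_cases hn : NB μ x.2 y.2
    · have hn' := NB_symm hμ.inv hn
      rw [rdC_nb hn, rdC_nb hn']
      have h1 := label_symm (t x.2 y.2) x.1 y.1
      rw [ht.anti x.2 y.2 hn.1.symm, h1, (hh _).symm x.2 y.2, add_comm x.1 y.1]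
    · have hn' : ¬ NB μ y.2 x.2 := fun hc => hn (NB_symm hμ.inv hc)
      rw [rdC_b hn, rdC_b hn', rs]
  · intro x y z hy hz hc
    by_cases hn : NB μ x.2 y.2
    · by_cases hn' : NB μ x.2 z.2
      · rw [rdC_nb hn, rdC_nb hn'] at hc
        have h1 := Sum.inr_injective hc
        have h2 : x.1 + t x.2 y.2 * (x.1 + y.1) = x.1 + t x.2 z.2 * (x.1 + z.1) :=
          congrArg Prod.fst h1
        have h3 : h (lev P (x.1 + y.1)) x.2 y.2 = h (lev P (x.1 + z.1)) x.2 z.2 :=
          congrArg Prod.snd h1
        have h4 : t x.2 y.2 * (x.1 + y.1) = t x.2 z.2 * (x.1 + z.1) := add_left_cancel h2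
        have hlev : lev P (x.1 + z.1) = lev P (x.1 + y.1) := by
          by_cases hw : x.1 + y.1 = 0
          · rw [hw, mul_zero] at h4
            have hw' : x.1 + z.1 = 0 := by
              rcases mul_eq_zero.1 h4.symm with h6 | h6
              · exact absurd h6 (ht.ne _ _)
              · exact h6
            rw [hw, hw']
          · have hw' : x.1 + z.1 ≠ 0 := by
              intro hc
              rw [hc, mul_zero] at h4
              rcases mul_eq_zero.1 h4 with h6 | h6
              · exact absurd h6 (ht.ne _ _)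
              · exact hw h6
            have h6 := congrArg P.N h4
            rw [P.N_mul _ _ (ht.ne _ _) hw, P.N_mul _ _ (ht.ne _ _) hw', ht.N, ht.N] at h6
            have h7 := mul_left_cancel h6
            unfold lev
            rw [if_neg hw, if_neg hw', h7]
        have h5 : y.2 = z.2 := by
          rw [hlev] at h3
          exact (hh _).inj _ _ _ hn.1 hn.2 hn'.1 hn'.2 h3
        rw [h5] at h4
        have h6 := mul_left_cancel₀ (ht.ne _ _) h4
        exact Prod.ext (add_left_cancel h6) h5
      · rw [rdC_nb hn, rdC_b hn'] at hc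
        exact absurd hc (by simp)
    · by_cases hn' : NB μ x.2 z.2
      · rw [rdC_b hn, rdC_nb hn'] at hc
        exact absurd hc (by simp)
      · rw [rdC_b hn, rdC_b hn'] at hc
        have h1 := Sum.inl_injective hc
        have h2 := ri _ _ _ (pt_ne hμ hL hy.symm hn).symm (pt_ne hμ hL hz.symm hn').symm h1
        have h3 : y.1 = z.1 := (Prod.mk.inj h2).1
        have h4 : side y.2 = side z.2 := (Prod.mk.inj h2).2
        refine Prod.ext h3 ?_
        have h5 : y.2 = x.2 ∨ y.2 = μ x.2 := by
          unfold NB at hn; tauto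
        have h6 : z.2 = x.2 ∨ z.2 = μ x.2 := by
          unfold NB at hn'; tauto
        rcases h5 with h5 | h5 <;> rcases h6 with h6 | h6
        · rw [h5, h6]
        · rw [h5, h6, hL.side_μ] at h4
          exact absurd h4.symm (zmod2_add_one_ne _)
        · rw [h5, h6, hL.side_μ] at h4
          exact absurd h4 (zmod2_add_one_ne _)
        · rw [h5, h6]

theorem isOrth_rdC {P : Pack K V} (Sc : Sch P S μ L g h)
    (hS : ∀ a j, S a j = 1 ∨ S a j = -1) (hμ : IsRB g μ) (hL : IsLam L μ side)
    {t : J → J → K} (ht : IsTh P t)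
    {rK : K × ZMod 2 → K × ZMod 2 → K × ZMod 2}
    (rm : ∀ b, b ≠ 0 → ∀ x x', rK x (x + b) = rK x' (x' + b) → x' = x ∨ x' = x + b) :
    IsOrth (Sc.G) (rdC P h μ side t rK) := by
  intro x y x' y' hxy hxy' hg hr
  have hg' : Sc.bd x.2 y.2 (x.1 + y.1) = Sc.bd x'.2 y'.2 (x'.1 + y'.1) := hg
  by_cases hn : NB μ x.2 y.2
  · by_cases hn' : NB μ x'.2 y'.2
    · rw [rdC_nb hn, rdC_nb hn'] at hr
      have h1 := Sum.inr_injective hr
      have h2 : x.1 + t x.2 y.2 * (x.1 + y.1) = x'.1 + t x'.2 y'.2 * (x'.1 + y'.1) :=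
        congrArg Prod.fst h1
      have h3 : h (lev P (x.1 + y.1)) x.2 y.2 = h (lev P (x'.1 + y'.1)) x'.2 y'.2 :=
        congrArg Prod.snd h1
      obtain ⟨h4, h5⟩ := unit_nb Sc hL.symm hn hn' hg' h3
      rcases h4 with ⟨h6, h7⟩ | ⟨h6, h7⟩
      · left
        rw [← h5, h6, h7] at h2
        exact Prod.ext (add_right_cancel h2).symm h6
      · right
        rw [← h5, h6, h7, ht.anti x.2 y.2 hn.1.symm] at h2
        refine Prod.ext ?_ h6
        have h8 : x'.1 = x.1 + (x.1 + y.1) := by
          linear_combination -h2 - add_self (x.1 + y.1)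
        rw [h8, CB.add_add_self]
    · rw [rdC_nb hn, rdC_b hn'] at hr
      exact absurd hr (by simp)
  · by_cases hn' : NB μ x'.2 y'.2
    · rw [rdC_b hn, rdC_nb hn'] at hr
      exact absurd hr (by simp)
    · rw [rdC_b hn, rdC_b hn'] at hr
      have h1 := Sum.inl_injective hr
      obtain ⟨h2, h3⟩ := unit_block Sc hS hL hμ hn hn' (Blow.unit_ok hxy) (Blow.unit_ok hxy') hg'
      have key : ∀ e : ZMod 2, side y.2 = side x.2 + e → side y'.2 = side x'.2 + e →
          (x'.1, side x'.2) = (x.1, side x.2) ∨ (x'.1, side x'.2) = (y.1, side y.2) := by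
        intro e he he'
        have h4 : (y.1, side y.2) = (x.1, side x.2) + (x.1 + y.1, e) := by
          refine Prod.ext ?_ he
          show y.1 = x.1 + (x.1 + y.1)
          rw [CB.add_add_self]
        have h5 : (y'.1, side y'.2) = (x'.1, side x'.2) + (x.1 + y.1, e) := by
          refine Prod.ext ?_ he'
          show y'.1 = x'.1 + (x.1 + y.1)
          rw [h2, CB.add_add_self]
        have hb : (x.1 + y.1, e) ≠ (0 : K × ZMod 2) := by
          intro hc
          rw [hc, add_zero] at h4
          exact pt_ne hμ hL hxy hn h4.symm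
        rw [h4, h5] at h1
        rw [h4]
        exact rm _ hb _ _ h1
      rcases h3 with ⟨h4, h5, h6⟩ | ⟨h4, h5, h6⟩
      · have hk := key 0 (by rw [h4, add_zero]) (by rw [h5, add_zero])
        rcases hk with hk | hk
        · left
          have h7 : x'.1 = x.1 := (Prod.mk.inj hk).1
          have h8 : side x'.2 = side x.2 := (Prod.mk.inj hk).2
          rcases h6 with h6 | h6
          · exact Prod.ext h7 h6
          · rw [h6] at h8
            exact absurd h8 (zmod2_add_one_ne _)
        · right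
          have h7 : x'.1 = y.1 := (Prod.mk.inj hk).1
          have h8 : side x'.2 = side y.2 := (Prod.mk.inj hk).2
          rcases h6 with h6 | h6
          · exact Prod.ext h7 (h6.trans h4.symm)
          · rw [h6, h4] at h8
            exact absurd h8 (zmod2_add_one_ne _)
      · have hk := key 1 (by rw [h4, hL.side_μ]) (by rw [h5, hL.side_μ])
        rcases hk with hk | hk
        · left
          have h7 : x'.1 = x.1 := (Prod.mk.inj hk).1
          have h8 : side x'.2 = side x.2 := (Prod.mk.inj hk).2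
          rcases h6 with h6 | h6
          · exact Prod.ext h7 h6
          · rw [h6, hL.side_μ] at h8
            exact absurd h8 (zmod2_add_one_ne _)
        · right
          have h7 : x'.1 = y.1 := (Prod.mk.inj hk).1
          have h8 : side x'.2 = side y.2 := (Prod.mk.inj hk).2
          rcases h6 with h6 | h6
          · rw [h6, h4, hL.side_μ] at h8
            exact absurd h8.symm (zmod2_add_one_ne _)
          · exact Prod.ext h7 (h6.trans h4.symm)

end

end Pool.Agent.Lib.MP_db622c_co.P7
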