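import Pool.Agent.Lib.MP_db622c_co.P7.DHall

/-!
# P7-Seq: many matchings one after the other, no pair used too often

PROOF.  By induction on a finite set `T0` of tasks: there is `f : T → J → J` with
`f t v ∈ Q t` for `t ∈ T0`, `v ∈ P t`, `f t` injective on `P t`, and
`card {t ∈ T0 | v ∈ P t ∧ f t v = u} ≤ q` for all `v, u`.
Step, new task `t`: if `P t = ∅` take any function.  Otherwise let
`bad v u := q ≤ card {t' ∈ T0 | v ∈ P t' ∧ f t' v = u}`.  For fixed `v`:
`q * card {u | bad v u} ≤ ∑ u, card {t' ∈ T0 | v ∈ P t' ∧ f t' v = u} ≤ card {t' | v ∈ P t'} ≤ D`;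
for fixed `u`: `q * card {v | bad v u} ≤ ∑ v, card {t' ∈ T0 | v ∈ P t' ∧ f t' v = u}
≤ card {t' | u ∈ Q t'} ≤ D` (for each `t'` at most one `v`, by injectivity).  With `4 D ≤ q h` and
`h ≤ 2 (P t).card`: `2 q * card ≤ 2 D ≤ q h / 2 ≤ q (P t).card`, so `2 * card ≤ (P t).card`
(`q ≥ 1`), and `exists_dmatch` applies.  The new pairs `(v, f t v)` were not bad, so they are used
at most `q - 1 + 1` times.
-/

namespace Pool.Agent.Lib.MP_db622c_co.P7

open Pool.Agent.Lib.MP_db622c_co Pool.Agent.Lib.MP_db622c_co.CB

theorem exists_seq {T J : Type*} [Fintype T] [Fintype J] (P Q : T → Finset J) (D q : ℕ)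
    (hq1 : 1 ≤ q) (hPQ : ∀ t, (P t).card = (Q t).card)
    (hbig : ∀ t, P t = ∅ ∨ Fintype.card J ≤ 2 * (P t).card)
    (hDP : ∀ v, Nat.card {t : T // v ∈ P t} ≤ D) (hDQ : ∀ v, Nat.card {t : T // v ∈ Q t} ≤ D)
    (hq : 4 * D ≤ q * Fintype.card J) :
    ∃ f : T → J → J, (∀ t, ∀ v ∈ P t, f t v ∈ Q t) ∧ (∀ t, Set.InjOn (f t) (P t)) ∧
      ∀ v u, Nat.card {t : T // v ∈ P t ∧ f t v = u} ≤ q := by
  classical
  have key : ∀ T0 : Finset T, ∃ f : T → J → J, (∀ t ∈ T0, ∀ v ∈ P t, f t v ∈ Q t) ∧
      (∀ t ∈ T0, Set.InjOn (f t) (P t)) ∧
      ∀ v u, (T0.filter fun t => v ∈ P t ∧ f t v = u).card ≤ q := by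
    intro T0
    induction T0 using Finset.induction_on with
    | empty => exact ⟨fun _ v => v, by simp, by simp, by simp⟩
    | insert t T0 ht ih =>
      obtain ⟨f, hf1, hf2, hf3⟩ := ih
      obtain ⟨g, hg1, hg2, hg3⟩ : ∃ g : J → J, (∀ v ∈ P t, g v ∈ Q t) ∧ Set.InjOn g (P t) ∧
          ∀ v ∈ P t, (T0.filter fun t' => v ∈ P t' ∧ f t' v = g v).card < q := by
        rcases hbig t with h0 | hb
        · exact ⟨id, by simp [h0], by simp [h0], by simp [h0]⟩
        · have hfin : ∀ b : ℕ, q * b ≤ D → 2 * b ≤ (P t).card := by
            intro b hb1
            have h1 : q * (2 * b) ≤ q * (P t).card := by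
              have h2 : q * Fintype.card J ≤ q * (2 * (P t).card) := Nat.mul_le_mul_left q hb
              nlinarith
            exact Nat.le_of_mul_le_mul_left h1 hq1
          obtain ⟨g, h1, h2⟩ := exists_dmatch (P t) (Q t) (hPQ t)
            (fun v u => q ≤ (T0.filter fun t' => v ∈ P t' ∧ f t' v = u).card) (by
              intro v _
              apply hfin
              have e1 : (T0.filter fun t' => v ∈ P t').card ≤ D := by
                refine le_trans ?_ (hDP v)
                rw [Nat.card_eq_fintype_card, Fintype.card_subtype]
                exact Finset.card_le_card (Finset.filter_subset_filter _ (Finset.subset_univ _))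
              have e2 : (T0.filter fun t' => v ∈ P t').card =
                  ∑ u : J, (T0.filter fun t' => v ∈ P t' ∧ f t' v = u).card := by
                rw [Finset.card_eq_sum_card_fiberwise (f := fun t' => f t' v)
                  (t := (Finset.univ : Finset J)) (fun _ _ => Finset.mem_coe.2 (Finset.mem_univ _))]
                exact Finset.sum_congr rfl fun u _ => by rw [Finset.filter_filter]
              rw [e2] at e1
              refine le_trans ?_ e1
              rw [mul_comm, ← smul_eq_mul]
              refine le_trans (Finset.card_nsmul_le_sum _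
                (fun u => (T0.filter fun t' => v ∈ P t' ∧ f t' v = u).card) q ?_)
                (Finset.sum_le_sum_of_subset (Finset.subset_univ _))
              intro u hu
              simp only [Finset.mem_filter] at hu
              exact hu.2) (by
              intro u _
              apply hfin
              have e1 : (T0.filter fun t' => u ∈ Q t').card ≤ D := by
                refine le_trans ?_ (hDQ u)
                rw [Nat.card_eq_fintype_card, Fintype.card_subtype]
                exact Finset.card_le_card (Finset.filter_subset_filter _ (Finset.subset_univ _))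
              have e2 : ∑ v : J, (T0.filter fun t' => v ∈ P t' ∧ f t' v = u).card ≤
                  (T0.filter fun t' => u ∈ Q t').card := by
                simp only [Finset.card_filter]
                rw [Finset.sum_comm]
                refine Finset.sum_le_sum fun t' ht' => ?_
                rw [← Finset.card_filter]
                split_ifs with hu
                · rw [Finset.card_le_one]
                  intro a ha b hb
                  rw [Finset.mem_filter] at ha hb
                  exact hf2 t' ht' ha.2.1 hb.2.1 (ha.2.2.trans hb.2.2.symm)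
                · rw [Nat.le_zero, Finset.card_eq_zero, Finset.filter_eq_empty_iff]
                  intro a _ ha
                  exact hu (ha.2 ▸ hf1 t' ht' a ha.1)
              refine le_trans ?_ (e2.trans e1)
              rw [mul_comm, ← smul_eq_mul]
              refine le_trans (Finset.card_nsmul_le_sum _
                (fun v => (T0.filter fun t' => v ∈ P t' ∧ f t' v = u).card) q ?_)
                (Finset.sum_le_sum_of_subset (Finset.subset_univ _))
              intro v hv
              simp only [Finset.mem_filter] at hv
              exact hv.2)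
          exact ⟨g, fun v hv => (h1 v hv).1, h2, fun v hv => not_le.1 (h1 v hv).2⟩
      have hne : ∀ t' ∈ T0, t' ≠ t := fun t' ht' hc => ht (hc ▸ ht')
      refine ⟨Function.update f t g, ?_, ?_, ?_⟩
      · intro t' ht' v hv
        rcases Finset.mem_insert.1 ht' with rfl | h
        · rw [Function.update_self]
          exact hg1 v hv
        · rw [Function.update_of_ne (hne t' h)]
          exact hf1 t' h v hv
      · intro t' ht'
        rcases Finset.mem_insert.1 ht' with rfl | h
        · rw [Function.update_self]
          exact hg2
        · rw [Function.update_of_ne (hne t' h)]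
          exact hf2 t' h
      · intro v u
        have e1 : (T0.filter fun t' => v ∈ P t' ∧ Function.update f t g t' v = u) =
            T0.filter fun t' => v ∈ P t' ∧ f t' v = u := by
          refine Finset.filter_congr fun t' ht' => ?_
          rw [Function.update_of_ne (hne t' ht')]
        rw [Finset.filter_insert]
        split_ifs with hc
        · rw [Function.update_self] at hc
          refine (Finset.card_insert_le _ _).trans ?_
          rw [e1, ← hc.2]
          exact hg3 v hc.1
        · rw [e1]
          exact hf3 v u
  obtain ⟨f, h1, h2, h3⟩ := key Finset.univ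
  refine ⟨f, fun t => h1 t (Finset.mem_univ _), fun t => h2 t (Finset.mem_univ _), ?_⟩
  intro v u
  rw [Nat.card_eq_fintype_card, Fintype.card_subtype]
  exact h3 v u

end Pool.Agent.Lib.MP_db622c_co.P7
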