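import Pool.Agent.Lib.MP_db622c_co.P7.Bd

/-!
# P7-Un: units with the same board and the same round class

The pattern is `unit_nb`, `unit_block` of `CB/StepII.lean`; copy from there.

PROOF.  `lev P 0 = none`, `lev P w = some (N w)` for `w ≠ 0`, and `σ j a (col j a w) = N w`.
`unit_nb`: kinds (Z), (M), (R) of `bd_cases` (no (D) since both pairs are `NB`).
 (M)-(M): `g j a = g j' a'`; `col j a w = al j a` (`N_amp`, `N_ks`), so
 `N w = σ j a (al j a)`, the same for the other unit, and `s3` gives `SP`; then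
 `amp j a w = ks j a = ks j' a' = amp j' a' w'` (symmetry), so `w = w'`.
 (Z)-(Z): `ks j a = ks j' a'`, so `al j a = al j' a'`, so `L j a = L j' a'`; round classes
 `h none`; `s2'`.
 (Z)-(R): `ks j a = amp j' a' w'`, so `al j a = col j' a' w'`, `L j a = L j' a'`, and
 `h none j a = h (some (N w')) j' a' = h (some (σ j' a' (al j a))) j' a'`; `s2` gives `SP`, so
 `amp j' a' w' = ks j a = ks j' a'`, against (R).
 (R)-(R): equal `amp`, equal `col`, equal `L`, `s1` gives `SP`, and `amp` injective gives `w = w'`.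
 (M) against (Z), (R): the first components are `0` and `≠ 0`.
`unit_block`: neither pair is `NB`, so the kinds are (D) (then `w = 0`, `a = μ j`) and (R); `σ = 1`
there (`σ_same`, `σ_μ`), so `col = N w`.
 (D)-(D): `g j (μ j) = g j' (μ j')`, `IsRB.rb`.
 (D)-(R): first components.
 (R)-(R): equal `amp`, `col`, `L`, `N w = N w'`.  `IsLam.l3` excludes `a = j`, `a' = μ j'`.
 `a = j`, `a' = j'`: `num = c (..)` in both cases (`S i j = - S i j` is impossible), so `w = w'`; `l1`.
 `a = μ j`, `a' = μ j'`: `l2` gives `j' = j` or `j' = μ j`, then `amp` injective (and symmetric).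
-/

namespace Pool.Agent.Lib.MP_db622c_co.P7

open Pool.Agent.Lib.MP_db622c_co Pool.Agent.Lib.MP_db622c_co.CB

section

variable {K V A J R : Type*} [Field K] [CommGroup V] [Zero A] {P : Pack K V} {S : A → J → ℤ}
  {μ : J → J} {L g : J → J → A} {side : J → ZMod 2} {h : Option V → J → J → R}

private theorem un_lev_ne {K V : Type*} [Field K] [CommGroup V] (P : Pack K V) {w : K}
    (hw : w ≠ 0) : lev P w = some (P.N w) := by
  unfold lev
  rw [if_neg hw]

private theorem un_lev_zero {K V : Type*} [Field K] [CommGroup V] (P : Pack K V) :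
    lev P 0 = none := by
  unfold lev
  rw [if_pos rfl]

private theorem un_col (Sc : Sch P S μ L g h) {j a j' a' : J} {w w' : K} (hw : w ≠ 0)
    (hw' : w' ≠ 0) (hh : Sc.amp j a w = Sc.amp j' a' w') : Sc.col j a w = Sc.col j' a' w' := by
  have h1 := Sc.N_amp j a hw
  rw [hh, Sc.N_amp j' a' hw'] at h1
  exact (inv_injective h1).symm

private theorem un_amp (Sc : Sch P S μ L g h) (hL : ∀ j k, L j k = L k j) {j a j' a' : J}
    {w w' : K} (hs : SP j a j' a') (hw : w ≠ 0) (hw' : w' ≠ 0)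
    (hh : Sc.amp j a w = Sc.amp j' a' w') : w = w' := by
  rcases hs with ⟨h1, h2⟩ | ⟨h1, h2⟩
  · rw [h1, h2] at hh
    exact Sc.amp_inj j a hw hw' hh
  · rw [h1, h2, Sc.amp_symm hL a j] at hh
    exact Sc.amp_inj j a hw hw' hh

private theorem un_ks (Sc : Sch P S μ L g h) {j a j' a' : J} (hs : SP j a j' a') :
    Sc.ks j a = Sc.ks j' a' := by
  rcases hs with ⟨h1, h2⟩ | ⟨h1, h2⟩
  · rw [h1, h2]
  · rw [h1, h2, Sc.ks_symm]

private theorem un_zr (Sc : Sch P S μ L g h) {j a j' a' : J} {w' : K}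
    (hn : NB μ j a) (hn' : NB μ j' a') (hw' : w' ≠ 0)
    (hi : ¬ (NB μ j' a' ∧ Sc.amp j' a' w' = Sc.ks j' a'))
    (hbb : (Sc.ks j a, Sc.ρ (Sc.al j a) (L j a)) = (Sc.amp j' a' w', Sc.row j' a' w'))
    (hrr : h none j a = h (lev P w') j' a') : False := by
  have h1 : Sc.ks j a = Sc.amp j' a' w' := congrArg Prod.fst hbb
  have h2 : Sc.ρ (Sc.al j a) (L j a) = Sc.row j' a' w' := congrArg Prod.snd hbb
  have h3 : Sc.al j a = Sc.col j' a' w' := by
    have h4 := Sc.N_amp j' a' hw'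
    rw [← h1, Sc.N_ks] at h4
    exact inv_injective h4
  have h4 : L j a = L j' a' := by
    unfold Sch.row at h2
    rw [← h3] at h2
    exact (Sc.ρ _).injective h2
  have h5 : P.N w' = Sc.σ j' a' (Sc.al j a) := by
    rw [h3]
    exact (Equiv.apply_symm_apply _ _).symm
  rw [un_lev_ne P hw', h5] at hrr
  have hsp := Sc.s2 j a j' a' hn hn' h4 hrr
  exact hi ⟨hn', h1.symm.trans (un_ks Sc hsp)⟩

theorem unit_nb (Sc : Sch P S μ L g h) (hL : ∀ j k, L j k = L k j) {j a j' a' : J} {w w' : K}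
    (hn : NB μ j a) (hn' : NB μ j' a') (hb : Sc.bd j a w = Sc.bd j' a' w')
    (hr : h (lev P w) j a = h (lev P w') j' a') : SP j a j' a' ∧ w = w' := by
  have hσ : ∀ (j a : J) (w : K), P.N w = Sc.σ j a (Sc.col j a w) := fun _ _ _ =>
    (Equiv.apply_symm_apply _ _).symm
  rcases Sc.bd_cases j a w with ⟨hw, -, e⟩ | ⟨-, hd, -⟩ | ⟨hw, -, hi, e⟩ | ⟨hw, hi, e⟩
  · rcases Sc.bd_cases j' a' w' with ⟨hw', -, e'⟩ | ⟨-, hd', -⟩ | ⟨hw', -, hi', e'⟩ | ⟨hw', hi', e'⟩
    · rw [e, e'] at hb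
      have h1 : Sc.ks j a = Sc.ks j' a' := congrArg Prod.fst hb
      have h2 : Sc.ρ (Sc.al j a) (L j a) = Sc.ρ (Sc.al j' a') (L j' a') := congrArg Prod.snd hb
      have h3 : Sc.al j a = Sc.al j' a' := by
        have h4 := Sc.N_ks j a
        rw [h1, Sc.N_ks] at h4
        exact (inv_injective h4).symm
      rw [h3] at h2
      have h4 : L j a = L j' a' := (Sc.ρ _).injective h2
      rw [hw, hw', un_lev_zero] at hr
      exact ⟨Sc.s2' j a j' a' hn hn' h4 h1 hr, hw.trans hw'.symm⟩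
    · exact absurd hn' hd'
    · rw [e, e'] at hb
      exact absurd (congrArg Prod.fst hb) (Sc.ks_ne j a)
    · rw [e, e'] at hb
      rw [hw, un_lev_zero] at hr
      exact (un_zr Sc hn hn' hw' hi' hb hr).elim
  · exact absurd hn hd
  · rcases Sc.bd_cases j' a' w' with ⟨hw', -, e'⟩ | ⟨-, hd', -⟩ | ⟨hw', -, hi', e'⟩ | ⟨hw', hi', e'⟩
    · rw [e, e'] at hb
      exact absurd (congrArg Prod.fst hb).symm (Sc.ks_ne j' a')
    · exact absurd hn' hd'
    · rw [e, e'] at hb
      have h1 : g j a = g j' a' := congrArg Prod.snd hb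
      have hal : ∀ (j a : J) (w : K), w ≠ 0 → Sc.amp j a w = Sc.ks j a →
          P.N w = Sc.σ j a (Sc.al j a) := by
        intro j a w hw hh
        have h2 := Sc.N_amp j a hw
        rw [hh, Sc.N_ks] at h2
        rw [inv_injective h2]
        exact hσ j a w
      rw [un_lev_ne P hw, un_lev_ne P hw', hal j a w hw hi, hal j' a' w' hw' hi'] at hr
      have hsp := Sc.s3 j a j' a' hn hn' h1 hr
      refine ⟨hsp, un_amp Sc hL hsp hw hw' ?_⟩
      rw [hi, hi', un_ks Sc hsp]
    · rw [e, e'] at hb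
      exact absurd (congrArg Prod.fst hb).symm (Sc.amp_ne j' a' hw')
  · rcases Sc.bd_cases j' a' w' with ⟨hw', -, e'⟩ | ⟨-, hd', -⟩ | ⟨hw', -, hi', e'⟩ | ⟨hw', hi', e'⟩
    · rw [e, e'] at hb
      rw [hw', un_lev_zero] at hr
      exact (un_zr Sc hn' hn hw hi hb.symm hr.symm).elim
    · exact absurd hn' hd'
    · rw [e, e'] at hb
      exact absurd (congrArg Prod.fst hb) (Sc.amp_ne j a hw)
    · rw [e, e'] at hb
      have h3 : Sc.amp j a w = Sc.amp j' a' w' := congrArg Prod.fst hb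
      have h4 : Sc.row j a w = Sc.row j' a' w' := congrArg Prod.snd hb
      have h5 := un_col Sc hw hw' h3
      have h6 : L j a = L j' a' := by
        unfold Sch.row at h4
        rw [h5] at h4
        exact (Sc.ρ _).injective h4
      rw [un_lev_ne P hw, un_lev_ne P hw', hσ j a w, hσ j' a' w', h5] at hr
      have hsp := Sc.s1 _ j a j' a' hn hn' h6 hr
      exact ⟨hsp, un_amp Sc hL hsp hw hw' h3⟩

theorem unit_block (Sc : Sch P S μ L g h) (hS : ∀ a j, S a j = 1 ∨ S a j = -1)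
    (hL : IsLam L μ side) (hμ : IsRB g μ) {j a j' a' : J} {w w' : K}
    (hn : ¬ NB μ j a) (hn' : ¬ NB μ j' a') (hu : j ≠ a ∨ w ≠ 0) (hu' : j' ≠ a' ∨ w' ≠ 0)
    (hb : Sc.bd j a w = Sc.bd j' a' w') :
    w = w' ∧ ((a = j ∧ a' = j' ∧ (j' = j ∨ side j' = side j + 1)) ∨
      (a = μ j ∧ a' = μ j' ∧ (j' = j ∨ j' = μ j))) := by
  have hor : ∀ {j a : J}, ¬ NB μ j a → a = j ∨ a = μ j := by
    intro j a hn
    unfold NB at hn
    tauto
  -- block units are direct or regular
  have hk : ∀ (j a : J) (w : K), ¬ NB μ j a → (j ≠ a ∨ w ≠ 0) →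
      (w = 0 ∧ a = μ j ∧ Sc.bd j a w = (0, g j a)) ∨
      (w ≠ 0 ∧ Sc.bd j a w = (Sc.amp j a w, Sc.row j a w)) := by
    intro j a w hn hu
    rcases Sc.bd_cases j a w with ⟨-, hn2, -⟩ | ⟨hw, -, e⟩ | ⟨-, hn2, -, -⟩ | ⟨hw, -, e⟩
    · exact absurd hn2 hn
    · left
      refine ⟨hw, ?_, e⟩
      rcases hor hn with h1 | h1
      · rcases hu with h2 | h2
        · exact absurd h1.symm h2
        · exact absurd hw h2
      · exact h1
    · exact absurd hn2 hn
    · exact Or.inr ⟨hw, e⟩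
  have hcol : ∀ (j a : J) (w : K), ¬ NB μ j a → Sc.col j a w = P.N w := by
    intro j a w hn
    unfold Sch.col
    rcases hor hn with h1 | h1
    · rw [h1, Sc.σ_same]; rfl
    · rw [h1, Sc.σ_μ]; rfl
  have hsame : ∀ (j : J) (w : K), Sc.amp j j w = P.c (P.N w / Sc.col j j w) / w := by
    intro j w
    unfold Sch.amp Sch.num
    rw [if_neg]
    intro hc
    rcases hS (Sc.row j j w) j with h1 | h1 <;> rw [h1] at hc <;> norm_num at hc
  rcases hk j a w hn hu with ⟨hw, h1, e⟩ | ⟨hw, e⟩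
  · rcases hk j' a' w' hn' hu' with ⟨hw', h1', e'⟩ | ⟨hw', e'⟩
    · refine ⟨hw.trans hw'.symm, Or.inr ⟨h1, h1', ?_⟩⟩
      rw [e, e', h1, h1'] at hb
      exact hμ.rb j j' (congrArg Prod.snd hb)
    · rw [e, e'] at hb
      exact absurd (congrArg Prod.fst hb).symm (Sc.amp_ne _ _ hw')
  · rcases hk j' a' w' hn' hu' with ⟨hw', h1', e'⟩ | ⟨hw', e'⟩
    · rw [e, e'] at hb
      exact absurd (congrArg Prod.fst hb) (Sc.amp_ne _ _ hw)
    · rw [e, e'] at hb
      have h3 : Sc.amp j a w = Sc.amp j' a' w' := congrArg Prod.fst hb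
      have h4 : Sc.row j a w = Sc.row j' a' w' := congrArg Prod.snd hb
      have h5 := un_col Sc hw hw' h3
      have h6 : L j a = L j' a' := by
        unfold Sch.row at h4
        rw [h5] at h4
        exact (Sc.ρ _).injective h4
      have h7 : P.N w = P.N w' := by
        rw [← hcol j a w hn, ← hcol j' a' w' hn', h5]
      rcases hor hn with g1 | g1 <;> rcases hor hn' with g2 | g2
      · subst g1; subst g2
        rw [hsame, hsame, h5, h7] at h3
        have h8 : w = w' := by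
          rw [div_eq_div_iff hw hw'] at h3
          exact (mul_left_cancel₀ (P.c_ne _) h3).symm
        refine ⟨h8, Or.inl ⟨rfl, rfl, ?_⟩⟩
        by_cases hj : a' = a
        · exact Or.inl hj
        · exact Or.inr (hL.l1 a a' h6 (fun hh => hj hh.symm))
      · rw [g1, g2] at h6
        exact absurd h6 (hL.l3 _ _)
      · rw [g1, g2] at h6
        exact absurd h6.symm (hL.l3 _ _)
      · rw [g1, g2] at h6
        have h8 := hL.l2 _ _ h6
        refine ⟨?_, Or.inr ⟨g1, g2, h8⟩⟩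
        rw [g1, g2] at h3
        rcases h8 with h9 | h9
        · rw [h9] at h3
          exact Sc.amp_inj _ _ hw hw' h3
        · rw [h9, hμ.inv, Sc.amp_symm hL.symm (μ j) j] at h3
          exact Sc.amp_inj _ _ hw hw' h3

end

end Pool.Agent.Lib.MP_db622c_co.P7
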